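import Pool.Agent.Helper2_TM.LC

/-! Candidate solutions: fast signed packed arithmetic. Nothing is proved about this file: the
candidate is only used as an approximate solution in the verified inclusion test. A signed packed
vector `∑ f_k 2^(w k)` is stored modulo `2^(w * ns N)`. -/

namespace Pool.Agent.H2TM

/-- offset for products: `2^(w-1)` everywhere, rounding at the valid slots -/
def sH (w s N : ℕ) : ℕ := rep w (ns N) * 2 ^ (w - 1) + Gc w N * (2 ^ s / 2)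
/-- mask: upper bits at the valid slots -/
def sK (w s N : ℕ) : ℕ := Gc w N * (2 ^ w - 2 ^ s)
/-- correction -/
def sO (w s N : ℕ) : ℕ := 2 ^ (w * ns N) - Gc w N * 2 ^ (w - 1 - s)
/-- modulus for differences -/
def sM (w N : ℕ) : ℕ := 2 ^ (w * ns N + 8)

/-- rounding of `X / 2^s` -/
def cRnd (w s N X : ℕ) : ℕ := Nat.land (X + sH w s N) (sK w s N) >>> s + sO w s N
def cMul (w s N X Y : ℕ) : ℕ := cRnd w s N (X * Y)
def cSub (w N X Y : ℕ) : ℕ := X + (sM w N - Y)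

/-- columns of degree `k` -/
def sC (w N k : ℕ) : ℕ := 2 ^ (w * k) * gs w N * (2 ^ w - 1)

/-- offset digits `2^(w-P-2)` -/
def cOff (w P N X : ℕ) : ℕ :=
  Nat.land (X + rep w (ns N) * 2 ^ (w - P - 2)) (Gc w N * (2 ^ (w - P - 1) - 1))

/-- the coefficients of degree `k < n` times `2^P/(k+1)` (input with offset digits) -/
def cItgX (w P N X : ℕ) : ℕ → ℕ
  | 0 => 0
  | k + 1 => cItgX w P N X k + Nat.land X (sC w N k) * (2 ^ P / (k + 1))

/-- the same for the offset -/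
def cItgO (w P N : ℕ) : ℕ → ℕ
  | 0 => 0
  | k + 1 => cItgO w P N k + 2 ^ (w * k) * gs w N * (2 ^ (w - P - 2) * (2 ^ P / (k + 1)) / 2 ^ P)

/-- divide the digits by `2^P` and shift -/
def cSh (w P N Y : ℕ) : ℕ := (Nat.land Y (Gc w N * (2 ^ w - 2 ^ P)) >>> P) <<< w

/-- correction -/
def cItgC (w P N : ℕ) : ℕ := sM w N - cItgO w P N N <<< w

/-- primitive vanishing at `0` -/
def cItg0 (w P N X : ℕ) : ℕ := cSh w P N (cItgX w P N (cOff w P N X) N) + cItgC w P N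

/-- minus the value at `-1` (input with offset digits) -/
def cEvX (w N X : ℕ) : ℕ → ℕ
  | 0 => 0
  | k + 1 => cEvX w N X k + (if k % 2 = 1 then Nat.land X (sC w N k) >>> (w * k)
      else sM w N - Nat.land X (sC w N k) >>> (w * k))

/-- correction of the offset at `-1` -/
def cEvC (w P N : ℕ) : ℕ := if N % 2 = 0 then gs w N * 2 ^ (w - P - 2) else 0

def cFin (w P N s j : ℕ) : ℕ :=
  cRnd w 0 N (j + s + cEvX w N (cOff w P N j) (N + 1) + cEvC w P N)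

/-- `s + ∫_{-1}^t X` -/
def cItg (w P N s X : ℕ) : ℕ := cFin w P N s (cItg0 w P N X)

/-- state -/
structure CS where
  x0 : ℕ
  x1 : ℕ
  x2 : ℕ
  x3 : ℕ
  x4 : ℕ
  x5 : ℕ
  x6 : ℕ
  x7 : ℕ
  ya : ℕ
  yb : ℕ

/-- Newton step for `1 / sqrt a` -/
def cNwt (w P N a y : ℕ) : ℕ :=
  cMul w (P + 1) N y (cSub w N (3 * 2 ^ P) (cMul w P N (cMul w P N y y) a))

/-- new `lam` from new `r`, `ν` -/
def cF7 (w P N h : ℕ) (s0 : CS) (n0 n1 n2 n3 n6 n7 r ya yb : ℕ) : CS :=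
  ⟨n0, n1, n2, n3, cItg w P N s0.x4 (cRnd w P N (cMul w P N r n6 * h)),
    cItg w P N s0.x5 (cRnd w P N (cMul w P N r n7 * h)), n6, n7, ya, yb⟩

def cF6 (w P N h : ℕ) (s0 : CS) (n0 n1 n2 n3 n6 n7 ya yb : ℕ) : CS :=
  cF7 w P N h s0 n0 n1 n2 n3 n6 n7 (cRnd w P N (n0 * n0 + n1 * n1)) ya yb

/-- new `z` from new `w` -/
def cF5 (w P N h : ℕ) (s0 : CS) (n2 n3 n6 n7 ya yb : ℕ) : CS :=
  cF6 w P N h s0 (cItg w P N s0.x0 (cRnd w P N (n2 * h))) (cItg w P N s0.x1 (cRnd w P N (n3 * h)))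
    n2 n3 n6 n7 ya yb

/-- new `w` -/
def cF4 (w P N h : ℕ) (s0 s : CS) (H hr dx dy n6 n7 ya yb : ℕ) : CS :=
  cF5 w P N h s0
    (cItg w P N s0.x2 (cRnd w P N
      (cRnd w P N (H * s.x0 + hr * cRnd w P N (s.x0 * dx + s.x1 * dy)) * h)))
    (cItg w P N s0.x3 (cRnd w P N
      (cRnd w P N (H * s.x1 + hr * cRnd w P N (s.x0 * dy + (sM w N - s.x1) * dx)) * h)))
    n6 n7 ya yb

/-- energy from new `ν` -/
def cFh (w P N h : ℕ) (s0 s : CS) (hr dx dy n6 n7 ya yb : ℕ) : CS :=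
  cF4 w P N h s0 s
    (cSub w N (cSub w N (ya + yb) (2 ^ P))
      (cRnd w P N (cRnd w P N (n6 * n6 + n7 * n7) * (2 ^ P / 3)))) hr dx dy n6 n7 ya yb

/-- new `ν` -/
def cFn (w P N h : ℕ) (s0 s : CS) (hr dx dy gx gy ya yb : ℕ) : CS :=
  cFh w P N h s0 s hr dx dy
    (cItg w P N s0.x6 (cRnd w P N (cSub w N 0 (cMul w P N hr gx) * (3 * h))))
    (cItg w P N s0.x7 (cRnd w P N (cSub w N 0 (cMul w P N hr gy) * (3 * h)))) ya yb

def cF3 (w P N h : ℕ) (s0 s : CS) (r A B fax fay fbx fby : ℕ) : CS :=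
  cFn w P N h s0 s (cRnd w 1 N r) (cSub w N fbx fax) (cSub w N fby fay) (fax + fbx) (fay + fby) A B

def cF2 (w P N h : ℕ) (s0 s : CS) (r ax ay bx by_ A B A3 B3 : ℕ) : CS :=
  cF3 w P N h s0 s r A B (cMul w P N A3 ax) (cMul w P N A3 ay) (cMul w P N B3 bx)
    (cMul w P N B3 by_)

def cF1 (w P N h : ℕ) (s0 s : CS) (r ax ay bx by_ A B : ℕ) : CS :=
  cF2 w P N h s0 s r ax ay bx by_ A B (cMul w P N (cMul w P N A A) A)
    (cMul w P N (cMul w P N B B) B)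

def cF0 (w P N h : ℕ) (s0 s : CS) (r ax ay bx by_ : ℕ) : CS :=
  cF1 w P N h s0 s r ax ay bx by_
    (cNwt w P N (cRnd w P N (ax * ax + ay * ay)) s.ya)
    (cNwt w P N (cRnd w P N (bx * bx + by_ * by_)) s.yb)

def cFg (w P N h : ℕ) (s0 s : CS) (r xy hp : ℕ) : CS :=
  cF0 w P N h s0 s r (s.x4 + hp) (s.x5 + xy) (cSub w N s.x4 hp) (cSub w N s.x5 xy)

/-- one iteration (new values used as soon as possible: two orders per iteration) -/
def cPic (w P N h : ℕ) (s0 s : CS) : CS :=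
  cFg w P N h s0 s (cRnd w P N (s.x0 * s.x0 + s.x1 * s.x1)) (cMul w P N s.x0 s.x1)
    (cRnd w (P + 1) N (s.x0 * s.x0 + (sM w N - s.x1) * s.x1))

def cPicIt (w P N h : ℕ) (s0 : CS) : ℕ → CS → CS
  | 0, c => c
  | n + 1, c => cPicIt w P N h s0 n (cPic w P N h s0 c)

/-- signed packed vector of a Taylor model -/
def toC (w N : ℕ) (a : TM) : ℕ := cRnd w 0 N (a.pos + (sM w N - a.neg))

/-- Taylor model (positive and negative part) of a signed packed vector -/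
def ofC (w N X : ℕ) : TM :=
  nz w N ⟨Nat.land (X + rep w (ns N) * 2 ^ (w - 3)) (Gc w N * (2 ^ w - 1)), Gc w N * 2 ^ (w - 3),
    0, 0⟩

end Pool.Agent.H2TM
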