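import Pool.Agent.Helper2_TM.LC

/-!
# Sign conditions on a tube

Codes `1..5`: pair (z,y), shape coordinate `vA / vB`; codes `6..11`: pair (x,z), shape coordinate
`ρ / vA`.
-/

namespace Pool.Agent.H2TM

noncomputable section

/-- imaginary part of `conj vB * vA` -/
def cq1 (c : Cst) (x : Fin 8 → ℝ) : ℝ := lcbx c x * lcay c x - lcby c x * lcax c x
/-- real part of `conj vB * vA` -/
def cr1 (c : Cst) (x : Fin 8 → ℝ) : ℝ := lcbx c x * lcax c x + lcby c x * lcay c x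
/-- real and imaginary part of `ρ = z ^ 2` -/
def crx (x : Fin 8 → ℝ) : ℝ := x 0 * x 0 - x 1 * x 1
def cry (x : Fin 8 → ℝ) : ℝ := x 0 * x 1 * 2
/-- imaginary part of `conj vA * ρ` -/
def cq2 (c : Cst) (x : Fin 8 → ℝ) : ℝ := lcax c x * cry x - lcay c x * crx x
/-- real part of `conj vA * ρ` -/
def cr2 (c : Cst) (x : Fin 8 → ℝ) : ℝ := lcax c x * crx x + lcay c x * cry x

/-- the conditions -/
def Code (q : ℕ) (c : Cst) (x : Fin 8 → ℝ) : Prop :=
  match q with
  | 1 => 0 < cq1 c x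
  | 2 => 0 < - cq1 c x
  | 3 => 0 < - cr1 c x
  | 4 => 0 < cr1 c x - lcb2 c x
  | 5 => 0 < cr1 c x ∧ 0 < lcb2 c x - cr1 c x
  | 6 => 0 < cq2 c x
  | 7 => 0 < - cq2 c x
  | 8 => 0 < - cr2 c x
  | 9 => 0 < cr2 c x - lca2 c x
  | 10 => 0 < cr2 c x ∧ 0 < lca2 c x - cr2 c x
  | 11 => 0 < lca2 c x - lcr x * lcr x * 4
  | _ => True

end

/-- test of a condition from the geometry -/
def codeG (w P N q : ℕ) (x : ST) (r ax ay bx by_ a2 b2 : TM) : Bool :=
  let q1 := sub (mul w P N bx ay) (mul w P N by_ ax)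
  let r1 := add (mul w P N bx ax) (mul w P N by_ ay)
  let rx := nz w N (sub (mul w P N x.x0 x.x0) (mul w P N x.x1 x.x1))
  let ry := smul 2 (mul w P N x.x0 x.x1)
  let q2 := sub (mul w P N ax ry) (mul w P N ay rx)
  let r2 := add (mul w P N ax rx) (mul w P N ay ry)
  match q with
  | 1 => posOk w (nz w N q1)
  | 2 => posOk w (nz w N (neg q1))
  | 3 => posOk w (nz w N (neg r1))
  | 4 => posOk w (nz w N (sub r1 b2))
  | 5 => posOk w (nz w N r1) && posOk w (nz w N (sub b2 r1))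
  | 6 => posOk w (nz w N q2)
  | 7 => posOk w (nz w N (neg q2))
  | 8 => posOk w (nz w N (neg r2))
  | 9 => posOk w (nz w N (sub r2 a2))
  | 10 => posOk w (nz w N r2) && posOk w (nz w N (sub a2 r2))
  | 11 => posOk w (nz w N (sub a2 (smul 4 (mul w P N r r))))
  | _ => true

/-- test of a condition -/
def codeOk (w P N q : ℕ) (x : ST) : Bool :=
  let g := geo w P N x
  codeG w P N q x g.r g.ax g.ay g.bx g.by_ g.a2 g.b2

theorem codeOk_sound {w P N q : ℕ} {x : ST} {X : ℝ → (Fin 12 → ℝ) → (Fin 8 → ℝ)} {c : Cst}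
    (hc : CstOk c) (hw : 1 ≤ w) (hP : P ≤ w) (hP1 : 1 ≤ P) (hs : STEnc w P N x X)
    (hok : codeOk w P N q x = true) (t : ℝ) (z : Fin 12 → ℝ) (ht : |t| ≤ 1) (hz : ∀ i, |z i| ≤ 1) :
    Code q c (X t z) := by
  have e0 : Enc w P N x.x0 (fun t z => X t z 0) := hs 0
  have e1 : Enc w P N x.x1 (fun t z => X t z 1) := hs 1
  have e4 : Enc w P N x.x4 (fun t z => X t z 4) := hs 4
  have e5 : Enc w P N x.x5 (fun t z => X t z 5) := hs 5
  have xx := Enc.mul hw hP e0 e0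
  have yy := Enc.mul hw hP e1 e1
  have xy := Enc.mul hw hP e0 e1
  have xy0 := Enc.pert (hc 0) xy
  have xy1 := Enc.pert (hc 1) xy
  have r := Enc.nz hw (Enc.add xx yy)
  have hp0 := Enc.pert (hc 0) (Enc.mul hw hP (Enc.sub xx yy) (Enc.half (w := w) (P := P) (N := N) hP1))
  have hp1 := Enc.pert (hc 1) (Enc.mul hw hP (Enc.sub xx yy) (Enc.half (w := w) (P := P) (N := N) hP1))
  have ax := Enc.nz hw (Enc.add e4 hp0)
  have ay := Enc.nz hw (Enc.add e5 xy0)
  have bx := Enc.nz hw (Enc.sub e4 hp1)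
  have by_ := Enc.nz hw (Enc.sub e5 xy1)
  have a2 := Enc.nz hw (Enc.add (Enc.mul hw hP ax ax) (Enc.mul hw hP ay ay))
  have b2 := Enc.nz hw (Enc.add (Enc.mul hw hP bx bx) (Enc.mul hw hP by_ by_))
  have q1 := Enc.sub (Enc.mul hw hP bx ay) (Enc.mul hw hP by_ ax)
  have r1 := Enc.add (Enc.mul hw hP bx ax) (Enc.mul hw hP by_ ay)
  have rx := Enc.nz hw (Enc.sub xx yy)
  have ry := Enc.smul 2 xy
  have q2 := Enc.sub (Enc.mul hw hP ax ry) (Enc.mul hw hP ay rx)
  have r2 := Enc.add (Enc.mul hw hP ax rx) (Enc.mul hw hP ay ry)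
  have hry : ∀ t z, X t z 0 * X t z 1 * ((2 : ℕ) : ℝ) = cry (X t z) := by
    intro t z; simp [cry]
  simp only [codeOk, geo, geoOf, codeG] at hok
  unfold Code
  split at hok
  · exact pos_of_posOk (Enc.nz hw q1) hok t z ht hz
  · exact pos_of_posOk (Enc.nz hw (Enc.neg q1)) hok t z ht hz
  · exact pos_of_posOk (Enc.nz hw (Enc.neg r1)) hok t z ht hz
  · exact pos_of_posOk (Enc.nz hw (Enc.sub r1 b2)) hok t z ht hz
  · rw [Bool.and_eq_true] at hok
    exact ⟨pos_of_posOk (Enc.nz hw r1) hok.1 t z ht hz,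
      pos_of_posOk (Enc.nz hw (Enc.sub b2 r1)) hok.2 t z ht hz⟩
  · have h := pos_of_posOk (Enc.nz hw q2) hok t z ht hz
    simp only [hry] at h
    exact h
  · have h := pos_of_posOk (Enc.nz hw (Enc.neg q2)) hok t z ht hz
    simp only [hry] at h
    exact h
  · have h := pos_of_posOk (Enc.nz hw (Enc.neg r2)) hok t z ht hz
    simp only [hry] at h
    exact h
  · have h := pos_of_posOk (Enc.nz hw (Enc.sub r2 a2)) hok t z ht hz
    simp only [hry] at h
    exact h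
  · rw [Bool.and_eq_true] at hok
    have h := pos_of_posOk (Enc.nz hw r2) hok.1 t z ht hz
    have h' := pos_of_posOk (Enc.nz hw (Enc.sub a2 r2)) hok.2 t z ht hz
    simp only [hry] at h h'
    exact ⟨h, h'⟩
  · have h := pos_of_posOk (Enc.nz hw (Enc.sub a2 (Enc.smul 4 (Enc.mul hw hP r r)))) hok t z ht hz
    show 0 < lca2 c (X t z) - lcr (X t z) * lcr (X t z) * 4
    have e : (((4 : ℕ) : ℝ)) = 4 := by norm_num
    rw [e] at h
    exact h
  · trivial

end Pool.Agent.H2TM
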