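import Pool.Agent.Helper2_TM.NumZ

/-! `DataA`, `DataB` from the finite checks. -/

namespace Pool.Agent.H2TM

open Complex Set Pool.Agent.HM Pool.Agent.HM.H4

noncomputable section

/-- parameters of the start of A -/
def zA1 (ξ : Fin 4 → ℝ) : ℝ :=
  0.021372222478 + 1.597506e-4 * (ξ 0 - ξ 1) - 5.418810e-6 * (ξ 2 + ξ 3)
def zA2 (ξ : Fin 4 → ℝ) : ℝ :=
  0.994732204404 + 8.861563e-6 * (ξ 0 - ξ 1) - 2.067791e-5 * (ξ 2 + ξ 3)
def nA1 (ξ : Fin 4 → ℝ) : ℝ := -5.629854e-5 * (ξ 0 + ξ 1) + 1.858367e-6 * (ξ 2 - ξ 3)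
def nA2 (ξ : Fin 4 → ℝ) : ℝ := -8.326407e-6 * (ξ 0 + ξ 1) + 2.187857e-5 * (ξ 2 - ξ 3)

/-- parameters of the start of B -/
def zB (ξ : Fin 4 → ℝ) : ℝ := 2.000601e-4 * (ξ 0 + ξ 1) - 3.961730e-6 * (ξ 2 - ξ 3)
def aB (ξ : Fin 4 → ℝ) : ℝ := -6.468103e-4 * (ξ 0 + ξ 1) + 2.796580e-5 * (ξ 2 - ξ 3)
def nB1 (ξ : Fin 4 → ℝ) : ℝ :=
  1.926496541103 - 1.219565e-4 * (ξ 0 - ξ 1) + 4.442087e-6 * (ξ 2 + ξ 3)
def nB2 (ξ : Fin 4 → ℝ) : ℝ :=
  0.852382690914 - 1.625578e-4 * (ξ 0 - ξ 1) + 1.255359e-5 * (ξ 2 + ξ 3)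

/-- linear functions as enclosed by `lin` -/
def lv (p0 p1 p2 p3 p4 : ℤ) (q : ℕ) (z : Fin 12 → ℝ) : ℝ :=
  (p0 : ℝ) / q + z 0 * ((p1 : ℝ) / q) + z 1 * ((p2 : ℝ) / q) + z 2 * ((p3 : ℝ) / q) +
    z 3 * ((p4 : ℝ) / q)

theorem lin_lv {w P N : ℕ} (hw : 1 ≤ w) (p0 p1 p2 p3 p4 : ℤ) (q : ℕ) (hq : 0 < q) :
    Enc w P N (lin w P N p0 p1 p2 p3 p4 q) (fun _ z => lv p0 p1 p2 p3 p4 q z) :=
  Enc.lin hw p0 p1 p2 p3 p4 q hq

theorem zz0 (ξ : Fin 4 → ℝ) : zz ξ 0 0 = ξ 0 := rfl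
theorem zz1 (ξ : Fin 4 → ℝ) : zz ξ 0 1 = ξ 1 := rfl
theorem zz2 (ξ : Fin 4 → ℝ) : zz ξ 0 2 = ξ 2 := rfl
theorem zz3 (ξ : Fin 4 → ℝ) : zz ξ 0 3 = ξ 3 := rfl

theorem zA1_eq (ξ : Fin 4 → ℝ) : zA1 ξ =
    lv 21372222478 159750600 (-159750600) (-5418810) (-5418810) 1000000000000 (zz ξ 0) := by
  unfold zA1 lv; rw [zz0, zz1, zz2, zz3]; push_cast; ring
theorem zA2_eq (ξ : Fin 4 → ℝ) : zA2 ξ =
    lv 994732204404 8861563 (-8861563) (-20677910) (-20677910) 1000000000000 (zz ξ 0) := by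
  unfold zA2 lv; rw [zz0, zz1, zz2, zz3]; push_cast; ring
theorem nA1_eq (ξ : Fin 4 → ℝ) : nA1 ξ =
    lv 0 (-56298540) (-56298540) 1858367 (-1858367) 1000000000000 (zz ξ 0) := by
  unfold nA1 lv; rw [zz0, zz1, zz2, zz3]; push_cast; ring
theorem nA2_eq (ξ : Fin 4 → ℝ) : nA2 ξ =
    lv 0 (-8326407) (-8326407) 21878570 (-21878570) 1000000000000 (zz ξ 0) := by
  unfold nA2 lv; rw [zz0, zz1, zz2, zz3]; push_cast; ring
theorem zB_eq (ξ : Fin 4 → ℝ) : zB ξ =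
    lv 0 200060100 200060100 (-3961730) 3961730 1000000000000 (zz ξ 0) := by
  unfold zB lv; rw [zz0, zz1, zz2, zz3]; push_cast; ring
theorem aB_eq (ξ : Fin 4 → ℝ) : aB ξ =
    lv 0 (-646810300) (-646810300) 27965800 (-27965800) 1000000000000 (zz ξ 0) := by
  unfold aB lv; rw [zz0, zz1, zz2, zz3]; push_cast; ring
theorem nB1_eq (ξ : Fin 4 → ℝ) : nB1 ξ =
    lv 1926496541103 (-121956500) 121956500 4442087 4442087 1000000000000 (zz ξ 0) := by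
  unfold nB1 lv; rw [zz0, zz1, zz2, zz3]; push_cast; ring
theorem nB2_eq (ξ : Fin 4 → ℝ) : nB2 ξ =
    lv 852382690914 (-162557800) 162557800 12553590 12553590 1000000000000 (zz ξ 0) := by
  unfold nB2 lv; rw [zz0, zz1, zz2, zz3]; push_cast; ring

theorem half_ok (m : Fin 3 → ℝ) (hm : Near1 (1 / 2 ^ 50) m) : |(m 0 + m 1) / 2 - 1| ≤ 1 / 2 ^ 46 := by
  have h0 := abs_lt.1 (hm 0)
  have h1 := abs_lt.1 (hm 1)
  have : |(m 0 + m 1) / 2 - 1| ≤ 1 / 2 ^ 50 := by rw [abs_le]; constructor <;> linarith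
  exact this.trans (by norm_num)

theorem near_exm {m : Fin 3 → ℝ} {ε : ℝ} (hm : Near1 ε m) : Near1 ε (exm m) := by
  intro i
  fin_cases i
  · exact hm 0
  · exact hm 2
  · exact hm 1

theorem near_swm {m : Fin 3 → ℝ} {ε : ℝ} (hm : Near1 ε m) : Near1 ε (swm m) := by
  intro i
  fin_cases i
  · exact hm 2
  · exact hm 1
  · exact hm 0

/-- start of A -/
theorem sA_in {g : Gs} {w' D : ℕ} {C : List (List ℤ)} {R : List ℕ}
    (hok : sAOk 112 48 0 g = true) (hst : staOk 112 0 (sA 112 48 0 g) C R = true)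
    (m : Fin 3 → ℝ) (hm : Near1 (1 / 2 ^ 50) m) (ξ : Fin 4 → ℝ) (hξ : ξ ∈ box4) (X : JS)
    (hX : R8 X = staA (cstM m) ((m 0 + m 1) / 2) (zA1 ξ) (zA2 ξ) (nA1 ξ) (nA2 ξ)) :
    InZ w' 48 D (zdiag w' D R) (fun i => R8 X i - J 48 C ξ i) := by
  have hw : 1 ≤ 112 := by norm_num
  have hP : 48 ≤ 112 := by norm_num
  have hP1 : 1 ≤ 48 := by norm_num
  have henc := staA_enc (w := 112) (P := 48) (N := 0) (e := (m 0 + m 1) / 2) hw hP hP1
    (cstM_ok m hm) (half_ok m hm)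
    (lin_lv hw 21372222478 159750600 (-159750600) (-5418810) (-5418810) 1000000000000 (by norm_num))
    (lin_lv hw 994732204404 8861563 (-8861563) (-20677910) (-20677910) 1000000000000 (by norm_num))
    (lin_lv hw 0 (-56298540) (-56298540) 1858367 (-1858367) 1000000000000 (by norm_num))
    (lin_lv hw 0 (-8326407) (-8326407) 21878570 (-21878570) 1000000000000 (by norm_num)) hok
  have h := staOk_in (w' := w') (D := D) hw henc hst ξ (box_abs hξ)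
  rw [zA1_eq, zA2_eq, nA1_eq, nA2_eq] at hX
  rw [hX]
  exact h

/-- start of B -/
theorem sB_in {g : Gs} {w' D : ℕ} {C : List (List ℤ)} {R : List ℕ}
    (hok : sBOk 112 48 0 g = true) (hst : staOk 112 0 (sB 112 48 0 g) C R = true)
    (m : Fin 3 → ℝ) (hm : Near1 (1 / 2 ^ 50) m) (ξ : Fin 4 → ℝ) (hξ : ξ ∈ box4) (X : JS)
    (hX : R8 X = staB (cstM (exm m)) (cstM (swm (exm m))) ((exm m 0 + exm m 1) / 2) (zB ξ) (aB ξ)
      (nB1 ξ) (nB2 ξ)) :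
    InZ w' 48 D (zdiag w' D R) (fun i => R8 X i - J 48 C ξ i) := by
  have hw : 1 ≤ 112 := by norm_num
  have hP : 48 ≤ 112 := by norm_num
  have hP1 : 1 ≤ 48 := by norm_num
  have henc := (staB_enc (w := 112) (P := 48) (N := 0) (e := (exm m 0 + exm m 1) / 2) hw hP hP1
    (cstM_ok _ (near_exm hm)) (cstM_ok _ (near_swm (near_exm hm))) (half_ok _ (near_exm hm))
    (lin_lv hw 0 200060100 200060100 (-3961730) 3961730 1000000000000 (by norm_num))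
    (lin_lv hw 0 (-646810300) (-646810300) 27965800 (-27965800) 1000000000000 (by norm_num))
    (lin_lv hw 1926496541103 (-121956500) 121956500 4442087 4442087 1000000000000 (by norm_num))
    (lin_lv hw 852382690914 (-162557800) 162557800 12553590 12553590 1000000000000 (by norm_num))
    hok).1
  have h := staOk_in (w' := w') (D := D) hw henc hst ξ (box_abs hξ)
  rw [zB_eq, aB_eq, nB1_eq, nB2_eq] at hX
  rw [hX]
  exact h

/-- positivity at the start of B -/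
theorem sB_pos {g : Gs} (hok : sBOk 112 48 0 g = true) (m : Fin 3 → ℝ)
    (hm : Near1 (1 / 2 ^ 50) m) (ξ : Fin 4 → ℝ) (hξ : ξ ∈ box4) :
    0 < ir (cstM (exm m)) ((exm m 0 + exm m 1) / 2) (zB ξ) 0 (aB ξ) (nB1 ξ) (nB2 ξ) *
      (1 / 2 * cstM (exm m) 1 - zB ξ) := by
  have hw : 1 ≤ 112 := by norm_num
  have hP : 48 ≤ 112 := by norm_num
  have hP1 : 1 ≤ 48 := by norm_num
  have h := (staB_enc (w := 112) (P := 48) (N := 0) (e := (exm m 0 + exm m 1) / 2) hw hP hP1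
    (cstM_ok _ (near_exm hm)) (cstM_ok _ (near_swm (near_exm hm))) (half_ok _ (near_exm hm))
    (lin_lv hw 0 200060100 200060100 (-3961730) 3961730 1000000000000 (by norm_num))
    (lin_lv hw 0 (-646810300) (-646810300) 27965800 (-27965800) 1000000000000 (by norm_num))
    (lin_lv hw 1926496541103 (-121956500) 121956500 4442087 4442087 1000000000000 (by norm_num))
    (lin_lv hw 852382690914 (-162557800) 162557800 12553590 12553590 1000000000000 (by norm_num))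
    hok).2 0 (zz ξ 0) (by simp) (by
      intro i
      unfold zz
      split_ifs
      · exact box_abs hξ _
      · simp)
  rw [zB_eq, aB_eq, nB1_eq, nB2_eq]
  exact h

/-- **passage A** -/
theorem dataA_of (hOut : OutStmt) {w' Qs D : ℕ} (hw' : 1 ≤ w') (hQ : Qs ≤ w') {g : Gs}
    {ls : List Lit} {C : List (List ℤ)} {R : List ℕ} {s' : ZS} {gR gW : ℤ} {c : Cert}
    (hok : sAOk 112 48 0 g = true) (hst : staOk 112 0 (sA 112 48 0 g) C R = true)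
    (hne : ls ≠ []) (hst' : ∀ l ∈ ls, stepOK 112 48 12 l = true) (hpos : ∀ l ∈ ls, 0 < l.h)
    (hrun : zrun w' Qs D (ls.map Lit.cert) C (zdiag w' D R) = some (c.C, s'))
    (ho : outOK 112 48 0 gR gW 260 205 c = true)
    (hz : zchk w' Qs D s' c.B (pairE c.E) c.R = true)
    (hfin : finOK 112 48 0 D (zstep w' Qs D s' c.B (pairE c.E) c.R) c.C' (-1230072) (-962031) = true)
    (m : Fin 3 → ℝ) (hm : Near1 (1 / 2 ^ 50) m) (X0 : (Fin 4 → ℝ) → JS)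
    (hcont : ContinuousOn X0 box4) (hinit : ∀ ξ ∈ box4, toJ (X0 ξ) = initA m ξ)
    (hR8 : ∀ ξ ∈ box4, R8 (X0 ξ) =
      staA (cstM m) ((m 0 + m 1) / 2) (zA1 ξ) (zA2 ξ) (nA1 ξ) (nA2 ξ)) :
    DataA (par w' Qs D hw' hQ) m (csOf m ls) C c.C (zdiag w' D R) s' X0 where
  ok := pieceOK_of hw' hQ (cstM_ok m hm) hne hst' hpos hrun
  cont := hcont
  init := hinit
  enc := fun ξ hξ => sA_in hok hst m hm ξ hξ (X0 ξ) (hR8 ξ hξ)
  out := by
    intro ξ hξ X hX hin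
    refine out_final hOut (by norm_num) (by norm_num) (by norm_num) hw' hQ ho hz hfin
      (fun L g => ?_) (fun L g => ?_) ?_ ?_ m hm ξ hξ X hX hin
    · unfold uAB; push_cast; ring
    · unfold sAB; push_cast; ring
    · unfold LA gA gref; push_cast; norm_num
    · unfold LA gA gref; push_cast; norm_num

end

end Pool.Agent.H2TM

namespace Pool.Agent.H2TM

open Complex Set Pool.Agent.HM Pool.Agent.HM.H4

noncomputable section

/-- **passage B** -/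
theorem dataB_of (hOut : OutStmt) {w' Qs D : ℕ} (hw' : 1 ≤ w') (hQ : Qs ≤ w') {g : Gs} {gw : Gw}
    {ls₁ ls₂ : List Lit} {C : List (List ℤ)} {R : List ℕ} {s₁ s₂ : ZS} {gR gW : ℤ} {cs c : Cert}
    {l0 l1 l2 l3 l4 l5 l6 l7 : List ℕ}
    (hok : sBOk 112 48 0 g = true) (hst : staOk 112 0 (sB 112 48 0 g) C R = true)
    (hne₁ : ls₁ ≠ []) (hst₁ : ∀ l ∈ ls₁, stepOK 112 48 12 l = true) (hpos₁ : ∀ l ∈ ls₁, 0 < l.h)
    (hrun₁ : zrun w' Qs D (ls₁.map Lit.cert) C (zdiag w' D R) = some (cs.C, s₁))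
    (hsw : swOK 112 48 0 gw cs = true)
    (hz₁ : zchk w' Qs D s₁ cs.B (pairE cs.E) cs.R = true)
    (hne₂ : ls₂ ≠ []) (hst₂ : ∀ l ∈ ls₂, stepOK 112 48 12 l = true) (hpos₂ : ∀ l ∈ ls₂, 0 < l.h)
    (hrun₂ : zrun w' Qs D (ls₂.map Lit.cert) cs.C' (zstep w' Qs D s₁ cs.B (pairE cs.E) cs.R) =
      some (c.C, s₂))
    (ho : outOK 112 48 0 gR gW 205 260 c = true)
    (hz₂ : zchk w' Qs D s₂ c.B (pairE c.E) c.R = true)
    (hfin : finOK 112 48 0 D (zstep w' Qs D s₂ c.B (pairE c.E) c.R) c.C' 973137 1235334 = true)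
    (hcat : (ls₁.map fun l => cd1 l.q) ++ (ls₂.map fun l => cd2 l.q) =
      l0 ++ (l1 ++ (l2 ++ (l3 ++ (l4 ++ (l5 ++ (l6 ++ l7)))))))
    (hcore : coreOK l0 l1 l2 l3 l4 l5 l6 l7 = true)
    (m : Fin 3 → ℝ) (hm : Near1 (1 / 2 ^ 50) m) (X0 : (Fin 4 → ℝ) → JS) (Sw : JS → JS)
    (hcont : ContinuousOn X0 box4) (hinit : ∀ ξ ∈ box4, toJ (X0 ξ) = sw (exm m) (initB0 (exm m) ξ))
    (hR8 : ∀ ξ ∈ box4, R8 (X0 ξ) = staB (cstM (exm m)) (cstM (swm (exm m)))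
      ((exm m 0 + exm m 1) / 2) (zB ξ) (aB ξ) (nB1 ξ) (nB2 ξ))
    (hSwC : ContinuousOn Sw {X | LFree (swm (exm m)) X ∧ 0 < wH (cstM (swm (exm m))) (R8 X)})
    (hSw : ∀ X, LFree (swm (exm m)) X → 0 < wH (cstM (swm (exm m))) (R8 X) →
      toJ (Sw X) = zyx m (toJ X) ∧
        R8 (Sw X) = swR2 (cstM (swm (exm m))) (cstM m) (R8 X)) :
    DataB (par w' Qs D hw' hQ) m (csOf (swm (exm m)) ls₁) (csOf m ls₂) C cs.C cs.C' c.C
      (zdiag w' D R) s₁ (zstep w' Qs D s₁ cs.B (pairE cs.E) cs.R) s₂ X0 Sw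
      (ls₁.map fun l => cd1 l.q) (ls₂.map fun l => cd2 l.q) l0 l1 l2 l3 l4 l5 l6 l7 := by
  have hm1 : Near1 (1 / 2 ^ 50) (swm (exm m)) := near_swm (near_exm hm)
  obtain ⟨hmap, hwin⟩ := swOK_sound (cstM_ok _ hm1) (cstM_ok m hm) (by norm_num) (by norm_num)
    (by norm_num) hsw
  have hz' := hz₁
  unfold zchk at hz'
  simp only [Bool.and_eq_true, beq_iff_eq] at hz'
  obtain ⟨⟨⟨⟨⟨hl1, hl2⟩, -⟩, -⟩, hcB⟩, -⟩ := hz'
  have hH : ∀ ξ ∈ box4, ∀ X, InE (par w' Qs D hw' hQ) cs.C s₁ ξ X →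
      0 < wH (cstM (swm (exm m))) (R8 X) := by
    intro ξ hξ X hin
    obtain ⟨y, hy, hxy, η, hη, hx, hηy⟩ := unit_of (P := 48) (D := D) hin hl1 hl2 hcB
    exact (hwin ξ (box_abs hξ) η hη (R8 X) hx).1
  exact
  { ok₁ := pieceOK_of hw' hQ (cstM_ok _ hm1) hne₁ hst₁ hpos₁ hrun₁
    ok₂ := pieceOK_of hw' hQ (cstM_ok m hm) hne₂ hst₂ hpos₂ hrun₂
    cont := hcont
    init := hinit
    enc := fun ξ hξ => sB_in hok hst m hm ξ hξ (X0 ξ) (hR8 ξ hξ)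
    swc := hSwC.mono (by
      rintro X ⟨ξ, hξ, hX, hin⟩
      exact ⟨hX, hH ξ hξ X hin⟩)
    swe := by
      intro ξ hξ X hX hin
      obtain ⟨h1, h2⟩ := hSw X hX (hH ξ hξ X hin)
      refine ⟨h1, ?_⟩
      have h3 := map_in hmap hw' hQ hz₁ (box_abs hξ) (P := 48) (D := D) (x := R8 X) hin
      show InZ w' 48 D _ (fun i => R8 (Sw X) i - J 48 cs.C' ξ i)
      rw [h2]
      exact h3
    out := by
      intro ξ hξ X hX hin
      refine out_final hOut (by norm_num) (by norm_num) (by norm_num) hw' hQ ho hz₂ hfin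
        (fun L g => ?_) (fun L g => ?_) ?_ ?_ m hm ξ hξ X hX hin
      · unfold uBA; push_cast; ring
      · unfold sBA; push_cast; ring
      · unfold LB gB gref; push_cast; norm_num
      · unfold LB gB gref; push_cast; norm_num
    code₁ := codes1_of m ls₁
    code₂ := codes2_of m ls₂
    cat := hcat
    core := hcore }

end

end Pool.Agent.H2TM
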