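import Pool.Agent.Helper2_TM.StepZ

/-! Verified evaluation of functions of the enclosed state; transport of zonotopes. -/

namespace Pool.Agent.H2TM

open Finset Pool.Agent.HM.H4

/-! ### verified reciprocal and reciprocal square root with Newton candidates -/

/-- forget the remainder -/
def exa (a : TM) : TM := ⟨a.pos, a.neg, a.nrm, 0⟩

theorem Enc.exa {w P N : ℕ} {a : TM} {F : ℝ → (Fin 12 → ℝ) → ℝ} (h : Enc w P N a F) :
    ∃ G, Enc w P N (exa a) G := by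
  obtain ⟨f, g, hd, -⟩ := h
  refine ⟨fun t z => (V N t z f - V N t z g) / 2 ^ P, f, g, hd, fun t z _ _ => ?_⟩
  have hp : (2 : ℝ) ^ P ≠ 0 := by positivity
  rw [div_mul_cancel₀ _ hp]
  simp [H2TM.exa]

/-- Newton iterations for `1 / sqrt a` -/
def nwR (w P N : ℕ) (a : TM) : ℕ → TM → TM
  | 0, y => y
  | n + 1, y => nwR w P N a n (exa (mul w P N (mul w P N y (nz w N (sub (cst (3 * 2 ^ P) 0)
      (mul w P N (mul w P N y y) a)))) (chalf P)))

/-- Newton iterations for `1 / a` -/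
def nwI (w P N : ℕ) (a : TM) : ℕ → TM → TM
  | 0, y => y
  | n + 1, y => nwI w P N a n (exa (mul w P N y (nz w N (sub (cst (2 * 2 ^ P) 0) (mul w P N y a)))))

theorem nwR_enc {w P N : ℕ} (hw : 1 ≤ w) (hP : P ≤ w) {a : TM} {F : ℝ → (Fin 12 → ℝ) → ℝ}
    (ha : Enc w P N a F) : ∀ (n : ℕ) (y : TM), (∃ Y, Enc w P N y Y) →
      ∃ Y, Enc w P N (nwR w P N a n y) Y
  | 0, _, h => h
  | n + 1, y, h => by
    obtain ⟨Y, hY⟩ := h
    refine nwR_enc hw hP ha n _ (Enc.exa (Enc.mul hw hP (Enc.mul hw hP hY (Enc.nz hw (Enc.sub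
      (Enc.cst (3 * 2 ^ P) 0 3 ?_) (Enc.mul hw hP (Enc.mul hw hP hY hY) ha))))
      (Enc.cst (2 ^ (P - 1)) 0 ((2 ^ (P - 1) : ℝ) / 2 ^ P) ?_)))
    · push_cast; simp
    · have hp : (2 : ℝ) ^ P ≠ 0 := by positivity
      rw [div_mul_cancel₀ _ hp]; push_cast; simp

theorem nwI_enc {w P N : ℕ} (hw : 1 ≤ w) (hP : P ≤ w) {a : TM} {F : ℝ → (Fin 12 → ℝ) → ℝ}
    (ha : Enc w P N a F) : ∀ (n : ℕ) (y : TM), (∃ Y, Enc w P N y Y) →
      ∃ Y, Enc w P N (nwI w P N a n y) Y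
  | 0, _, h => h
  | n + 1, y, h => by
    obtain ⟨Y, hY⟩ := h
    refine nwI_enc hw hP ha n _ (Enc.exa (Enc.mul hw hP hY (Enc.nz hw (Enc.sub
      (Enc.cst (2 * 2 ^ P) 0 2 ?_) (Enc.mul hw hP hY ha)))))
    push_cast; simp

/-- candidate for `1 / sqrt a` from the guess `g` (units `2^-P`) -/
def rsY (w P N : ℕ) (a : TM) (g : ℤ) : TM := nwR w P N a 6 (cst g 0)
/-- candidate for `1 / a` -/
def ivY (w P N : ℕ) (a : TM) (g : ℤ) : TM := nwI w P N a 6 (cst g 0)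

def rs (w P N : ℕ) (a : TM) (g : ℤ) : TM := rsq w P N a (rsY w P N a g)
def rsOk (w P N : ℕ) (a : TM) (g : ℤ) : Bool := rsqOk w P N a (rsY w P N a g)
def iv (w P N : ℕ) (a : TM) (g : ℤ) : TM := inv w P N a (ivY w P N a g)
def ivOk (w P N : ℕ) (a : TM) (g : ℤ) : Bool := decide (invE w P N a (ivY w P N a g) ≤ 2 ^ (P - 1))

theorem cst_self {w P N : ℕ} (g : ℤ) : ∃ Y, Enc w P N (cst g 0) Y := by
  refine ⟨fun _ _ => (g : ℝ) / 2 ^ P, Enc.cst g 0 _ ?_⟩
  have hp : (2 : ℝ) ^ P ≠ 0 := by positivity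
  rw [div_mul_cancel₀ _ hp]; simp

theorem Enc.rs {w P N : ℕ} (hw : 1 ≤ w) (hP : P ≤ w) (hP1 : 1 ≤ P) {a : TM} {g : ℤ}
    {F : ℝ → (Fin 12 → ℝ) → ℝ} (ha : Enc w P N a F) (hok : rsOk w P N a g = true) :
    Enc w P N (rs w P N a g) (fun t z => 1 / Real.sqrt (F t z)) ∧
      ∀ t z, |t| ≤ 1 → (∀ i, |z i| ≤ 1) → 0 < F t z := by
  obtain ⟨Y, hY⟩ := nwR_enc (w := w) (P := P) (N := N) hw hP ha 6 (H2TM.cst g 0) (cst_self g)
  simp only [rsOk, rsqOk, Bool.and_eq_true, decide_eq_true_eq] at hok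
  exact Enc.rsq hw hP hP1 ha hY hok.1 hok.2

theorem Enc.iv {w P N : ℕ} (hw : 1 ≤ w) (hP : P ≤ w) (hP1 : 1 ≤ P) {a : TM} {g : ℤ}
    {F : ℝ → (Fin 12 → ℝ) → ℝ} (ha : Enc w P N a F) (hok : ivOk w P N a g = true) :
    Enc w P N (iv w P N a g) (fun t z => (F t z)⁻¹) ∧
      ∀ t z, |t| ≤ 1 → (∀ i, |z i| ≤ 1) → F t z ≠ 0 := by
  obtain ⟨Y, hY⟩ := nwI_enc (w := w) (P := P) (N := N) hw hP ha 6 (H2TM.cst g 0) (cst_self g)
  simp only [ivOk, decide_eq_true_eq] at hok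
  exact Enc.inv hw hP hP1 ha hY hok

/-! ### constants -/

/-- rational constant `p / q` -/
def cq (P : ℕ) (p : ℤ) (q : ℕ) : TM := cst (p * 2 ^ P / q) 1

theorem Enc.cq {w P N : ℕ} (p : ℤ) (q : ℕ) (hq : 0 < q) :
    Enc w P N (cq P p q) (fun _ _ => (p : ℝ) / q) := by
  refine Enc.cst _ _ _ ?_
  have hq' : (0 : ℝ) < q := by exact_mod_cast hq
  have h1 := Int.emod_add_mul_ediv (p * 2 ^ P) (q : ℤ)
  have h2 := Int.emod_nonneg (p * 2 ^ P) (show ((q : ℤ)) ≠ 0 by omega)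
  have h3 := Int.emod_lt_of_pos (p * 2 ^ P) (show (0 : ℤ) < q by omega)
  have e : (p : ℝ) / q * 2 ^ P - ((p * 2 ^ P / q : ℤ) : ℝ) = ((p * 2 ^ P % q : ℤ) : ℝ) / q := by
    have h4 : (p : ℝ) * 2 ^ P = ((p * 2 ^ P % q : ℤ) : ℝ) + (q : ℝ) * ((p * 2 ^ P / q : ℤ) : ℝ) := by
      exact_mod_cast h1.symm
    field_simp
    linarith
  rw [e]
  have h5 : (0 : ℝ) ≤ ((p * 2 ^ P % q : ℤ) : ℝ) := by exact_mod_cast h2
  have h6 : ((p * 2 ^ P % q : ℤ) : ℝ) < q := by exact_mod_cast h3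
  rw [abs_of_nonneg (div_nonneg h5 hq'.le), div_le_iff₀ hq']
  push_cast
  linarith

/-! ### start data: states depending on the parameter only -/

/-- diagonal zonotope with the half widths `R` (units `2^-P`) -/
def zdr (w D : ℕ) : ℕ → List ℕ → List Row
  | _, [] => []
  | i, r :: R => (r * 2 ^ D * 2 ^ (w * i), 0, r * 2 ^ D) :: zdr w D (i + 1) R

def zdiag (w D : ℕ) (R : List ℕ) : ZS := ⟨8, zdr w D 0 R⟩

theorem zdr_get (w D : ℕ) : ∀ (R : List ℕ) (i k : ℕ), k < R.length →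
    (zdr w D i R).getD k (0, 0, 0) =
      (R.getD k 0 * 2 ^ D * 2 ^ (w * (i + k)), 0, R.getD k 0 * 2 ^ D)
  | [], i, k, h => by simp at h
  | r :: R, i, 0, _ => by simp [zdr]
  | r :: R, i, k + 1, h => by
    simp only [zdr, List.getD_cons_succ]
    rw [zdr_get w D R (i + 1) k (by simpa using h)]
    congr 3
    ring

theorem zdiag_in {w P D : ℕ} {R : List ℕ} (hR : R.length = 8) {X : Fin 8 → ℝ}
    (hX : ∀ i : Fin 8, |X i| * 2 ^ P ≤ R.getD i 0) : InZ w P D (zdiag w D R) X := by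
  refine ⟨fun i => if h : i < 8 then X ⟨i, h⟩ * 2 ^ (P + D) else 0, ?_, ?_⟩
  · refine ⟨fun i j => if j = i then R.getD i 0 * 2 ^ D else 0, fun _ _ => 0, ?_, ?_⟩
    · intro i hi
      have h1 := zdr_get w D R 0 i (by omega)
      rw [Nat.zero_add] at h1
      show IsRow w 8 ((zdr w D 0 R).getD i (0, 0, 0)) _ _
      rw [h1]
      refine ⟨?_, ?_, ?_⟩
      · show R.getD i 0 * 2 ^ D * 2 ^ (w * i) = pk w 8 _
        unfold pk
        rw [sum_eq_single_of_mem i (mem_range.mpr hi)]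
        · simp
        · intro b _ hb; simp [hb]
      · show 0 = pk w 8 _
        simp [pk]
      · rw [sum_eq_single_of_mem i (mem_range.mpr hi)]
        · simp
        · intro b _ hb; simp [hb]
    · refine ⟨fun j => if h : j < 8 then
        (if R.getD j 0 = 0 then 0 else X ⟨j, h⟩ * 2 ^ P / R.getD j 0) else 0, ?_, ?_⟩
      · intro j
        by_cases hj : j < 8
        · simp only [dif_pos hj]
          by_cases h0 : R.getD j 0 = 0
          · rw [if_pos h0, abs_zero]; norm_num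
          · rw [if_neg h0]
            have hpos : (0 : ℝ) < R.getD j 0 := by exact_mod_cast Nat.pos_of_ne_zero h0
            rw [abs_div, abs_mul, abs_of_pos hpos, abs_of_pos (show (0 : ℝ) < 2 ^ P by positivity),
              div_le_one hpos]
            exact hX ⟨j, hj⟩
        · simp [hj]
      · intro i hi
        simp only [dif_pos hi]
        show _ = ∑ j ∈ range 8, _
        rw [sum_eq_single_of_mem i (mem_range.mpr hi)]
        · simp only [if_true, dif_pos hi]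
          by_cases h0 : R.getD i 0 = 0
          · have h1 := hX ⟨i, hi⟩
            simp only [h0] at h1 ⊢
            have hp : (0 : ℝ) < 2 ^ P := by positivity
            have h2 : |X ⟨i, hi⟩| ≤ 0 := by
              by_contra hc
              push Not at hc
              have := mul_pos hc hp
              push_cast at h1
              linarith
            have h3 : X ⟨i, hi⟩ = 0 := abs_nonpos_iff.mp h2
            simp [h3]
          · rw [if_neg h0]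
            have hpos : (R.getD i 0 : ℝ) ≠ 0 := by exact_mod_cast h0
            push_cast
            rw [pow_add]
            field_simp
            ring
        · intro b _ hb
          simp [hb]
  · intro i
    have hp : (2 : ℝ) ^ (P + D) ≠ 0 := by positivity
    simp only [i.2, dif_pos]
    field_simp

/-- check of one component of the start data -/
def sck (w N : ℕ) (x : TM) (C : List ℤ) (R : ℕ) : Bool :=
  let d := nz w N (sub x (jet w N vs15 C))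
  decide (d.nrm + d.rem ≤ R)

theorem sck_sound {w P N : ℕ} (hw : 1 ≤ w) {x : TM} {C : List ℤ} {R : ℕ}
    {F : ℝ → (Fin 12 → ℝ) → ℝ} (hx : Enc w P N x F) (hok : sck w N x C R = true) (ξ : Fin 4 → ℝ)
    (hξ : ∀ i, |ξ i| ≤ 1) : |F 0 (zz ξ 0) - jv vs15 C (zz ξ 0) / 2 ^ P| * 2 ^ P ≤ R := by
  have hz : ∀ i, |zz ξ 0 i| ≤ 1 := by
    intro i
    unfold zz
    split_ifs
    · exact hξ _
    · simp
  have h := (Enc.nz hw (Enc.sub hx (Enc.jet (w := w) (P := P) (N := N) vs15 C vs15_sub))).bound 0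
    (zz ξ 0) (by simp) hz
  simp only [sck, decide_eq_true_eq] at hok
  refine h.trans ?_
  exact_mod_cast hok

/-! ### maps of the state -/

/-- `g` is approximated by the affine map `(C', E, R)` on the enclosure `(C, B)` -/
def MapP (g : (Fin 8 → ℝ) → (Fin 8 → ℝ)) (P : ℕ) (c : Cert) : Prop :=
  ∀ ξ : Fin 4 → ℝ, (∀ i, |ξ i| ≤ 1) → ∀ η : Fin 8 → ℝ, (∀ i, |η i| ≤ 1) → ∀ x : Fin 8 → ℝ,
    (∀ i : Fin 8, x i = J P c.C ξ i + (c.B.getD i 0 : ℝ) * η i / 2 ^ P) →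
    ∀ i : Fin 8, |g x i - J P c.C' ξ i - (∑ k : Fin 8, (ent c.E i k : ℝ) * η k) / 2 ^ P|
        ≤ (c.R.getD i 0 : ℝ) / 2 ^ P

/-- the enclosed state in normalised coordinates -/
theorem unit_of {w P D : ℕ} {s : ZS} {C : List (List ℤ)} {B : List ℕ} {ξ : Fin 4 → ℝ}
    {x : Fin 8 → ℝ} (hin : InZ w P D s (fun i => x i - J P C ξ i)) (hl : s.rows.length = 8)
    (hB : B.length = 8) (hc : chkB D s.rows B = true) :
    ∃ y : ℕ → ℝ, Zn w s y ∧ (∀ i : Fin 8, x i - J P C ξ i = y i / 2 ^ (P + D)) ∧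
      ∃ η : Fin 8 → ℝ, (∀ i, |η i| ≤ 1) ∧
        (∀ i : Fin 8, x i = J P C ξ i + (B.getD i 0 : ℝ) * η i / 2 ^ P) ∧
        ∀ i : Fin 8, η i = y i / (B.getD i 0 * 2 ^ D) := by
  obtain ⟨y, hy, hxy⟩ := hin
  refine ⟨y, hy, hxy, fun i => y i / (B.getD i 0 * 2 ^ D), ?_, ?_, fun i => rfl⟩
  · intro i
    beta_reduce
    have h1 := hy.unit hl hB hc i.2
    by_cases h0 : (B.getD i 0 : ℝ) = 0
    · rw [h0, zero_mul, div_zero, abs_zero]; norm_num
    · have hpos : (0 : ℝ) < (B.getD i 0 : ℝ) * 2 ^ D := by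
        have : (0 : ℝ) < (B.getD i 0 : ℝ) := lt_of_le_of_ne (Nat.cast_nonneg _) (Ne.symm h0)
        positivity
      rw [abs_div, abs_of_pos hpos, div_le_one hpos]
      exact h1
  · intro i
    have h1 := hy.unit hl hB hc i.2
    have h2 := hxy i
    by_cases h0 : (B.getD i 0 : ℝ) = 0
    · rw [h0, zero_mul] at h1
      have h3 : y i = 0 := abs_nonpos_iff.mp h1
      rw [h3, zero_div] at h2
      simp only at h2
      rw [h0, zero_mul, zero_div, add_zero]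
      linarith
    · have : x i = J P C ξ i + y i / 2 ^ (P + D) := by linarith
      rw [this, pow_add]
      field_simp

theorem E2_get (E : List (List ℤ)) (i k : ℕ) :
    (((pairE E).getD i []).getD k (0, 0)).1 = (ent E i k).toNat ∧
    (((pairE E).getD i []).getD k (0, 0)).2 = (-(ent E i k)).toNat := by
  unfold pairE ent
  by_cases hi : i < E.length
  · have h1 : (E.map fun l => l.map fun a : ℤ => (a.toNat, (-a).toNat)).getD i []
        = (E[i]).map fun a : ℤ => (a.toNat, (-a).toNat) := by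
      simp [hi]
    have h2 : E.getD i [] = E[i] := by simp [hi]
    rw [h1, h2]
    by_cases hk : k < (E[i]).length
    · simp [hk]
    · simp [hk]
  · have h1 : (E.map fun l => l.map fun a : ℤ => (a.toNat, (-a).toNat)).getD i [] = [] := by
      simp [hi]
    have h2 : E.getD i [] = [] := by simp [hi]
    rw [h1, h2]
    simp

theorem toNat_sub (a : ℤ) : ((a.toNat : ℕ) : ℝ) - (((-a).toNat : ℕ) : ℝ) = (a : ℝ) := by
  have : (a.toNat : ℤ) - ((-a).toNat : ℤ) = a := by omega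
  exact_mod_cast this

/-- transport of the zonotope by a map -/
theorem map_in {g : (Fin 8 → ℝ) → (Fin 8 → ℝ)} {P : ℕ} {c : Cert} (hg : MapP g P c) {w Qs D : ℕ}
    (hw : 1 ≤ w) (hQ : Qs ≤ w) {s : ZS} (hc : zchk w Qs D s c.B (pairE c.E) c.R = true)
    {ξ : Fin 4 → ℝ} (hξ : ∀ i, |ξ i| ≤ 1) {x : Fin 8 → ℝ}
    (hin : InZ w P D s (fun i => x i - J P c.C ξ i)) :
    InZ w P D (zstep w Qs D s c.B (pairE c.E) c.R) (fun i => g x i - J P c.C' ξ i) := by
  have hc' := hc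
  unfold zchk at hc'
  simp only [Bool.and_eq_true, beq_iff_eq] at hc'
  obtain ⟨⟨⟨⟨⟨hl1, hl2⟩, hl3⟩, hl4⟩, hcB⟩, hcE⟩ := hc'
  obtain ⟨y, hy, hxy, η, hη, hx, hηy⟩ := unit_of hin hl1 hl2 hcB
  refine ⟨fun i => if h : i < 8 then (g x ⟨i, h⟩ - J P c.C' ξ ⟨i, h⟩) * 2 ^ (P + D) else 0, ?_, ?_⟩
  · apply zstep_sound hw hQ hc hy
    intro i hi
    have h1 := hg ξ hξ η hη x hx ⟨i, hi⟩
    simp only [dif_pos hi]
    have e1 : ∑ k ∈ range 8, ((((pairE c.E).getD i []).getD k (0, 0)).1 -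
        (((pairE c.E).getD i []).getD k (0, 0)).2 : ℝ) / (c.B.getD k 0 : ℝ) * y k
        = (∑ k : Fin 8, (ent c.E i k : ℝ) * η k) * 2 ^ D := by
      rw [Finset.sum_mul, ← Fin.sum_univ_eq_sum_range (fun k =>
        ((((pairE c.E).getD i []).getD k (0, 0)).1 -
        (((pairE c.E).getD i []).getD k (0, 0)).2 : ℝ) / (c.B.getD k 0 : ℝ) * y k) 8]
      refine Finset.sum_congr rfl (fun k _ => ?_)
      rw [(E2_get c.E i k).1, (E2_get c.E i k).2, toNat_sub, hηy k]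
      have h2 : (2 : ℝ) ^ D ≠ 0 := by positivity
      by_cases h0 : (c.B.getD k 0 : ℝ) = 0
      · rw [h0, zero_mul, div_zero, div_zero, zero_mul, mul_zero, zero_mul]
      · field_simp
    rw [e1]
    have hp : (0 : ℝ) < 2 ^ P := by positivity
    have hd : (0 : ℝ) < 2 ^ D := by positivity
    have e2 : (g x ⟨i, hi⟩ - J P c.C' ξ ⟨i, hi⟩) * 2 ^ (P + D)
        - (∑ k : Fin 8, (ent c.E i k : ℝ) * η k) * 2 ^ D
        = (g x ⟨i, hi⟩ - J P c.C' ξ ⟨i, hi⟩ - (∑ k : Fin 8, (ent c.E i k : ℝ) * η k) / 2 ^ P)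
          * (2 ^ P * 2 ^ D) := by
      rw [pow_add]; field_simp
    rw [e2, abs_mul, abs_of_pos (by positivity : (0 : ℝ) < 2 ^ P * 2 ^ D)]
    have h3 := mul_le_mul_of_nonneg_right h1 (by positivity : (0 : ℝ) ≤ 2 ^ P * 2 ^ D)
    refine h3.trans (le_of_eq ?_)
    field_simp
  · intro i
    have hp : (2 : ℝ) ^ (P + D) ≠ 0 := by positivity
    simp only [i.2, dif_pos]
    field_simp

/-- check of one component of a map -/
def mck (w N : ℕ) (x : TM) (C E : List ℤ) (R : ℕ) : Bool :=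
  let d := nz w N (sub x (jet w N vs (C ++ E)))
  decide (d.nrm + d.rem ≤ R) && (C.length == 15) && (E.length == 8)

theorem mck_sound {w P N : ℕ} (hw : 1 ≤ w) {x : TM} {C E : List ℤ} {R : ℕ}
    {F : ℝ → (Fin 12 → ℝ) → ℝ} (hx : Enc w P N x F) (hok : mck w N x C E R = true) (ξ : Fin 4 → ℝ)
    (hξ : ∀ i, |ξ i| ≤ 1) (η : Fin 8 → ℝ) (hη : ∀ i, |η i| ≤ 1) :
    |F 0 (zz ξ η) - jv vs15 C (zz ξ 0) / 2 ^ P - (∑ k : Fin 8, (E.getD k 0 : ℝ) * η k) / 2 ^ P|
      ≤ R / 2 ^ P := by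
  have hp : (0 : ℝ) < 2 ^ P := by positivity
  have hz : ∀ i, |zz ξ η i| ≤ 1 := by
    intro i
    unfold zz
    split_ifs
    · exact hξ _
    · exact hη _
  simp only [mck, Bool.and_eq_true, decide_eq_true_eq, beq_iff_eq] at hok
  obtain ⟨⟨h1, h2⟩, h3⟩ := hok
  have h := (Enc.nz hw (Enc.sub hx (Enc.jet (w := w) (P := P) (N := N) vs (C ++ E)
    (fun s hs => hs)))).bound 0 (zz ξ η) (by simp) hz
  rw [vs_split, jv_append _ _ _ _ _ (h2.trans (by decide +kernel)), jv8 _ h3 ξ η,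
    jv15_zz _ ξ η 0] at h
  rw [le_div_iff₀ hp]
  have e : F 0 (zz ξ η) - jv vs15 C (zz ξ 0) / 2 ^ P - (∑ k : Fin 8, (E.getD k 0 : ℝ) * η k) / 2 ^ P
      = F 0 (zz ξ η) - (jv vs15 C (zz ξ 0) + ∑ k : Fin 8, (E.getD k 0 : ℝ) * η k) / 2 ^ P := by
    ring
  rw [e]
  rw [← vs_split] at h
  refine h.trans ?_
  exact_mod_cast h1

end Pool.Agent.H2TM
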