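import Mathlib

/-! Abstract ODE statements used by the numerics (open modules PICI, CONTD). -/

namespace Pool.Agent.H2TM

open Set

/-- Picard inclusion: existence in the tube around an approximate solution -/
def PicIncStmt : Prop :=
  ∀ (G : (Fin 8 → ℝ) → (Fin 8 → ℝ)) (Ω : Set (Fin 8 → ℝ)), IsOpen Ω → ContDiffOn ℝ 1 G Ω →
    ∀ (xh xd : ℝ → Fin 8 → ℝ) (ρ β μ : Fin 8 → ℝ),
      (∀ t ∈ Icc (-1 : ℝ) 1, HasDerivAt xh (xd t) t) → ContinuousOn xd (Icc (-1) 1) →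
      (∀ t ∈ Icc (-1 : ℝ) 1, ∀ x : Fin 8 → ℝ, (∀ i, |x i - xh t i| ≤ ρ i) →
        x ∈ Ω ∧ ∀ i, |G x i - xd t i| ≤ β i) →
      (∀ i, μ i + 2 * β i ≤ ρ i) →
      ∀ x0 : Fin 8 → ℝ, (∀ i, |x0 i - xh (-1) i| ≤ μ i) →
        ∃ x : ℝ → Fin 8 → ℝ, x (-1) = x0 ∧
          ∀ t ∈ Icc (-1 : ℝ) 1, HasDerivWithinAt x (G (x t)) (Icc (-1) 1) t ∧
            ∀ i, |x t i - xh t i| ≤ ρ i

/-- continuous dependence for a family of solutions -/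
def ContDepStmt : Prop :=
  ∀ (Ξ : Type) [TopologicalSpace Ξ] (K : Set Ξ) (G : (Fin 8 → ℝ) → (Fin 8 → ℝ))
    (Ω : Set (Fin 8 → ℝ)), IsOpen Ω → ContDiffOn ℝ 1 G Ω →
    ∀ (S : ℝ), 0 ≤ S → ∀ X : Ξ → ℝ → Fin 8 → ℝ,
      (∀ ξ ∈ K, ∀ t ∈ Icc 0 S, X ξ t ∈ Ω ∧ HasDerivWithinAt (X ξ) (G (X ξ t)) (Icc 0 S) t) →
      ContinuousOn (fun ξ => X ξ 0) K →
      ContinuousOn (fun p : Ξ × ℝ => X p.1 p.2) (K ×ˢ Icc 0 S)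

end Pool.Agent.H2TM
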