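import Pool.Agent.Helper2_TM.Ini
import Pool.Agent.Helper65_HM.OutP
import Pool.Agent.Helper65_HM.Zch
import Pool.Agent.Helper87_HM.ContDep

/-! `NumAStmt` and `NumBStmt` from the finite checks. -/

namespace Pool.Agent.H2TM

open Complex Set Pool.Agent.HM Pool.Agent.HM.H4

/-- NUMERICS A from the finite checks -/
theorem numA_fin {w' Qs D : ℕ} (hw' : 1 ≤ w') (hQ : Qs ≤ w')
    {g : Gs} {ls : List Lit} {C : List (List ℤ)} {R : List ℕ} {s' : ZS} {gR gW : ℤ} {c : Cert}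
    (hok : sAOk 112 48 0 g = true) (hst : staOk 112 0 (sA 112 48 0 g) C R = true)
    (hne : ls ≠ []) (hst' : ∀ l ∈ ls, stepOK 112 48 12 l = true) (hpos : ∀ l ∈ ls, 0 < l.h)
    (hrun : zrun w' Qs D (ls.map Lit.cert) C (zdiag w' D R) = some (c.C, s'))
    (ho : outOK 112 48 0 gR gW 260 205 c = true)
    (hz : zchk w' Qs D s' c.B (pairE c.E) c.R = true)
    (hfin : finOK 112 48 0 D (zstep w' Qs D s' c.B (pairE c.E) c.R) c.C' (-1230072) (-962031) =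
      true) : NumAStmt := by
  refine numA_of Pool.Agent.HM.H65.zch Pool.Agent.HM.H87.contDep (1 / 2 ^ 50) (by positivity) (fun m hm => ?_)
  exact ⟨_, _, _, _, _, _, X0A m, dataA_of Pool.Agent.HM.H65.out hw' hQ hok hst hne hst' hpos hrun ho hz hfin m hm
    (X0A m) (X0A_cont m (pos_of_near hm)) (fun ξ _ => X0A_toJ m (pos_of_near hm) ξ)
    (fun ξ _ => R8_C8 _)⟩

/-- NUMERICS B from the finite checks -/
theorem numB_fin {w' Qs D : ℕ} (hw' : 1 ≤ w') (hQ : Qs ≤ w')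
    {g : Gs} {gw : Gw} {ls₁ ls₂ : List Lit} {C : List (List ℤ)} {R : List ℕ} {s₁ s₂ : ZS}
    {gR gW : ℤ} {cs c : Cert} {l0 l1 l2 l3 l4 l5 l6 l7 : List ℕ}
    (hok : sBOk 112 48 0 g = true) (hst : staOk 112 0 (sB 112 48 0 g) C R = true)
    (hne₁ : ls₁ ≠ []) (hst₁ : ∀ l ∈ ls₁, stepOK 112 48 12 l = true) (hpos₁ : ∀ l ∈ ls₁, 0 < l.h)
    (hrun₁ : zrun w' Qs D (ls₁.map Lit.cert) C (zdiag w' D R) = some (cs.C, s₁))
    (hsw : swOK 112 48 0 gw cs = true)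
    (hz₁ : zchk w' Qs D s₁ cs.B (pairE cs.E) cs.R = true)
    (hne₂ : ls₂ ≠ []) (hst₂ : ∀ l ∈ ls₂, stepOK 112 48 12 l = true) (hpos₂ : ∀ l ∈ ls₂, 0 < l.h)
    (hrun₂ : zrun w' Qs D (ls₂.map Lit.cert) cs.C' (zstep w' Qs D s₁ cs.B (pairE cs.E) cs.R) =
      some (c.C, s₂))
    (ho : outOK 112 48 0 gR gW 205 260 c = true)
    (hz₂ : zchk w' Qs D s₂ c.B (pairE c.E) c.R = true)
    (hfin : finOK 112 48 0 D (zstep w' Qs D s₂ c.B (pairE c.E) c.R) c.C' 973137 1235334 = true)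
    (hcat : (ls₁.map fun l => cd1 l.q) ++ (ls₂.map fun l => cd2 l.q) =
      l0 ++ (l1 ++ (l2 ++ (l3 ++ (l4 ++ (l5 ++ (l6 ++ l7)))))))
    (hcore : coreOK l0 l1 l2 l3 l4 l5 l6 l7 = true) : NumBStmt := by
  refine numB_of Pool.Agent.HM.H65.zch Pool.Agent.HM.H87.contDep (1 / 2 ^ 50) (by positivity) (fun m hm => ?_)
  have hp := pos_of_near hm
  have hpos := fun ξ hξ => sB_pos hok m hm ξ hξ
  exact ⟨_, _, _, _, _, _, _, _, _, _, _, X0B m, Sw2 m, _, _, l0, l1, l2, l3, l4, l5, l6, l7,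
    dataB_of Pool.Agent.HM.H65.out hw' hQ hok hst hne₁ hst₁ hpos₁ hrun₁ hsw hz₁ hne₂ hst₂ hpos₂ hrun₂ ho hz₂ hfin
      hcat hcore m hm (X0B m) (Sw2 m) (X0B_cont m hm hpos) (fun ξ hξ => X0B_toJ m hp ξ (hpos ξ hξ))
      (fun ξ _ => R8_C8 _) (Sw2_cont m) (fun X hX hH => ⟨Sw2_toJ m X hX hH, R8_C8 _⟩)⟩

end Pool.Agent.H2TM
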