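import Pool.Agent.Helper2_TM.DataZ

/-! Analytic half of the start data and of the switch. -/

namespace Pool.Agent.H2TM

open Complex Set Pool.Agent.HM Pool.Agent.HM.H4

noncomputable section

theorem sq_eq {x : ℝ} (hx : 0 < x) : sq x = Real.sqrt x := by
  unfold sq
  have h := Real.sqrt_pos.mpr hx
  field_simp
  exact (Real.sq_sqrt hx.le).symm

theorem sq_sq {x : ℝ} (hx : 0 < x) : sq x * sq x = x := by
  rw [sq_eq hx, Real.mul_self_sqrt hx.le]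

theorem sq_pos {x : ℝ} (hx : 0 < x) : 0 < sq x := by
  rw [sq_eq hx]; exact Real.sqrt_pos.mpr hx

theorem pos_of_near {m : Fin 3 → ℝ} (hm : Near1 (1 / 2 ^ 50) m) : ∀ i, 0 < m i := by
  intro i
  have h1 := (abs_lt.1 (hm i)).1
  have h2 : (1 : ℝ) / 2 ^ 50 ≤ 1 := by norm_num
  linarith

theorem vA_one (m : Fin 3 → ℝ) (ζ1 ζ2 : ℝ) :
    1 / ‖vA m 1 ⟨ζ1, ζ2⟩‖ = iA (cstM m) ζ1 ζ2 := by
  have e : vA m 1 ⟨ζ1, ζ2⟩ = ⟨ζ1 + 1 / 2 * cstM m 0, ζ2⟩ := by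
    apply Complex.ext
    · show (vA m 1 ⟨ζ1, ζ2⟩).re = ζ1 + 1 / 2 * (2 * w1 m)
      simp [vA]
    · simp [vA]
  rw [e, nrm_eq]
  rfl

theorem vB_one (m : Fin 3 → ℝ) (ζ1 ζ2 : ℝ) :
    1 / ‖vB m 1 ⟨ζ1, ζ2⟩‖ = iB (cstM m) ζ1 ζ2 := by
  have e : vB m 1 ⟨ζ1, ζ2⟩ = ⟨ζ1 - 1 / 2 * cstM m 1, ζ2⟩ := by
    apply Complex.ext
    · show (vB m 1 ⟨ζ1, ζ2⟩).re = ζ1 - 1 / 2 * (2 * w0 m)
      simp [vB]
    · simp [vB]
  rw [e, nrm_eq]
  rfl

theorem ib_eq (m : Fin 3 → ℝ) (ζ1 ζ2 n1 n2 : ℝ) :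
    -(k2 m / k1 m) * cr ⟨ζ1, ζ2⟩ ⟨n1, n2⟩ = ib (cstM m) ζ1 ζ2 n1 n2 := by
  have e : cr ⟨ζ1, ζ2⟩ ⟨n1, n2⟩ = ζ1 * n2 - ζ2 * n1 := by
    unfold cr
    rw [Complex.mul_im, Complex.conj_re, Complex.conj_im]
    ring
  rw [e]
  show _ = -((ζ1 * n2 - ζ2 * n1) * (1 / 3) * (3 * k2 m / (4 * k1 m)) * 4)
  by_cases h : k1 m = 0
  · rw [h]; simp
  · field_simp

theorem k1_pos {m : Fin 3 → ℝ} (hm : ∀ i, 0 < m i) : 0 < k1 m := by
  unfold k1
  have := hm 0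
  have := hm 1
  positivity

theorem k2_pos {m : Fin 3 → ℝ} (hm : ∀ i, 0 < m i) : 0 < k2 m := by
  unfold k2
  have := hm 0
  have := hm 1
  have := hm 2
  positivity

theorem iD_pos {m : Fin 3 → ℝ} (hm : ∀ i, 0 < m i) (a b n1 n2 : ℝ) : 0 < iD (cstM m) a b n1 n2 := by
  show 0 < 1 * (1 / (2 * k1 m)) + (a * a + b * b) * (1 / 2) * (1 / 2) +
    (n1 * n1 + n2 * n2) * (1 / 3) * (3 * k2 m / (4 * k1 m))
  have := k1_pos hm
  have := k2_pos hm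
  have := mul_self_nonneg a
  have := mul_self_nonneg b
  have := mul_self_nonneg n1
  have := mul_self_nonneg n2
  positivity

theorem iU_pos {m : Fin 3 → ℝ} (hm : ∀ i, 0 < m i) (ζ1 ζ2 : ℝ) :
    0 < iU (cstM m) ((m 0 + m 1) / 2) ζ1 ζ2 := by
  have h0 := hm 0
  have h1 := hm 1
  have h2 := hm 2
  have hk := k1_pos hm
  have hA : 0 ≤ iA (cstM m) ζ1 ζ2 := by unfold iA; positivity
  have hB : 0 ≤ iB (cstM m) ζ1 ζ2 := by unfold iB; positivity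
  show 0 < 1 * ((m 0 + m 1) / 2) + iA (cstM m) ζ1 ζ2 * (m 0 * m 2 / (2 * k1 m)) +
    iB (cstM m) ζ1 ζ2 * (m 1 * m 2 / (2 * k1 m))
  positivity

theorem ir_pos {m : Fin 3 → ℝ} (hm : ∀ i, 0 < m i) (ζ1 ζ2 a n1 n2 : ℝ) :
    0 < ir (cstM m) ((m 0 + m 1) / 2) ζ1 ζ2 a n1 n2 :=
  mul_pos (iU_pos hm ζ1 ζ2) (inv_pos.mpr (iD_pos hm _ _ _ _))

theorem initS_eq (m : Fin 3 → ℝ) (hm : ∀ i, 0 < m i) (ζ1 ζ2 a n1 n2 : ℝ) :
    initS m ⟨ζ1, ζ2⟩ a ⟨n1, n2⟩ = ((ir (cstM m) ((m 0 + m 1) / 2) ζ1 ζ2 a n1 n2 : ℂ),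
      (ir (cstM m) ((m 0 + m 1) / 2) ζ1 ζ2 a n1 n2 : ℂ) * ⟨ζ1, ζ2⟩,
      (a : ℂ) + I * (ib (cstM m) ζ1 ζ2 n1 n2 : ℝ), ⟨n1, n2⟩) := by
  have hk := k1_pos hm
  have h01 : m 0 + m 1 ≠ 0 := (add_pos (hm 0) (hm 1)).ne'
  have hr : (m 0 * m 1 + m 0 * m 2 / ‖vA m 1 ⟨ζ1, ζ2⟩‖ + m 1 * m 2 / ‖vB m 1 ⟨ζ1, ζ2⟩‖) /
      (1 + (k1 m / 2 * (a ^ 2 + (ib (cstM m) ζ1 ζ2 n1 n2) ^ 2) + k2 m / 2 * ‖(⟨n1, n2⟩ : ℂ)‖ ^ 2))
      = ir (cstM m) ((m 0 + m 1) / 2) ζ1 ζ2 a n1 n2 := by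
    have eA : m 0 * m 2 / ‖vA m 1 ⟨ζ1, ζ2⟩‖ = m 0 * m 2 * iA (cstM m) ζ1 ζ2 := by
      rw [← vA_one]; ring
    have eB : m 1 * m 2 / ‖vB m 1 ⟨ζ1, ζ2⟩‖ = m 1 * m 2 * iB (cstM m) ζ1 ζ2 := by
      rw [← vB_one]; ring
    have en : ‖(⟨n1, n2⟩ : ℂ)‖ ^ 2 = n1 * n1 + n2 * n2 := by
      rw [← Complex.normSq_eq_norm_sq, Complex.normSq_apply]
    rw [eA, eB, en]
    set b := ib (cstM m) ζ1 ζ2 n1 n2 with hb
    have hD := iD_pos hm a b n1 n2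
    have e1 : m 0 * m 1 + m 0 * m 2 * iA (cstM m) ζ1 ζ2 + m 1 * m 2 * iB (cstM m) ζ1 ζ2
        = 2 * k1 m * iU (cstM m) ((m 0 + m 1) / 2) ζ1 ζ2 := by
      show _ = 2 * k1 m * (1 * ((m 0 + m 1) / 2) + iA (cstM m) ζ1 ζ2 * (m 0 * m 2 / (2 * k1 m)) +
        iB (cstM m) ζ1 ζ2 * (m 1 * m 2 / (2 * k1 m)))
      have e : 2 * k1 m * (1 * ((m 0 + m 1) / 2)) = m 0 * m 1 := by
        unfold k1; field_simp
      rw [mul_add, mul_add, e]
      field_simp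
    have e2 : 1 + (k1 m / 2 * (a ^ 2 + b ^ 2) + k2 m / 2 * (n1 * n1 + n2 * n2))
        = 2 * k1 m * iD (cstM m) a b n1 n2 := by
      show _ = 2 * k1 m * (1 * (1 / (2 * k1 m)) + (a * a + b * b) * (1 / 2) * (1 / 2) +
        (n1 * n1 + n2 * n2) * (1 / 3) * (3 * k2 m / (4 * k1 m)))
      field_simp
      ring
    rw [e1, e2]
    unfold ir
    rw [← hb]
    field_simp
  unfold initS
  simp only []
  rw [ib_eq, hr]

/-! ### start of A -/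

def X0A (m : Fin 3 → ℝ) (ξ : Fin 4 → ℝ) : JS :=
  C8 (staA (cstM m) ((m 0 + m 1) / 2) (zA1 ξ) (zA2 ξ) (nA1 ξ) (nA2 ξ))

theorem mk_sq (s : ℝ) : (⟨s, 0⟩ : ℂ) ^ 2 = ((s * s : ℝ) : ℂ) := by
  apply Complex.ext <;> simp [pow_two]

theorem mk_conj (s : ℝ) : (starRingEnd ℂ) (⟨s, 0⟩ : ℂ) = (s : ℂ) := by
  apply Complex.ext <;> simp

theorem initA_eq (m : Fin 3 → ℝ) (ξ : Fin 4 → ℝ) :
    initA m ξ = initS m ⟨zA1 ξ, zA2 ξ⟩ 0 ⟨nA1 ξ, nA2 ξ⟩ := rfl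

theorem X0A_toJ (m : Fin 3 → ℝ) (hm : ∀ i, 0 < m i) (ξ : Fin 4 → ℝ) :
    toJ (X0A m ξ) = initA m ξ := by
  rw [initA_eq, initS_eq m hm]
  set r := ir (cstM m) ((m 0 + m 1) / 2) (zA1 ξ) (zA2 ξ) 0 (nA1 ξ) (nA2 ξ) with hr
  set b := ib (cstM m) (zA1 ξ) (zA2 ξ) (nA1 ξ) (nA2 ξ) with hb
  have hr0 : 0 < r := ir_pos hm _ _ _ _ _
  have hs := sq_pos hr0
  have e1 : (X0A m ξ).1 = ⟨sq r, 0⟩ := rfl
  have e2 : (X0A m ξ).2.1 = ⟨r * zA1 ξ, r * zA2 ξ⟩ := rfl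
  have e3 : (X0A m ξ).2.2.1 = ⟨0, sq r * b * (1 / 2)⟩ := rfl
  have e4 : (X0A m ξ).2.2.2 = ⟨nA1 ξ, nA2 ξ⟩ := rfl
  unfold toJ
  rw [e1, e2, e3, e4, mk_sq, sq_sq hr0, mk_conj]
  refine Prod.ext rfl (Prod.ext ?_ (Prod.ext ?_ rfl))
  · apply Complex.ext
    · rw [Complex.re_ofReal_mul]
    · rw [Complex.im_ofReal_mul]
  · show 2 * (⟨0, sq r * b * (1 / 2)⟩ : ℂ) / (sq r : ℂ) = ((0 : ℝ) : ℂ) + I * ((b : ℝ) : ℂ)
    have h0 : ((sq r : ℝ) : ℂ) ≠ 0 := by exact_mod_cast hs.ne'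
    rw [div_eq_iff h0]
    apply Complex.ext
    · simp
    · simp
      ring

/-! ### start of B -/

def X0B (m : Fin 3 → ℝ) (ξ : Fin 4 → ℝ) : JS :=
  C8 (staB (cstM (exm m)) (cstM (swm (exm m))) ((exm m 0 + exm m 1) / 2) (zB ξ) (aB ξ)
    (nB1 ξ) (nB2 ξ))

theorem initB0_eq (m : Fin 3 → ℝ) (ξ : Fin 4 → ℝ) :
    initB0 m ξ = initS m ⟨zB ξ, 0⟩ (aB ξ) ⟨nB1 ξ, nB2 ξ⟩ := rfl

theorem X0B_toJ (m : Fin 3 → ℝ) (hm : ∀ i, 0 < m i) (ξ : Fin 4 → ℝ)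
    (hpos : 0 < ir (cstM (exm m)) ((exm m 0 + exm m 1) / 2) (zB ξ) 0 (aB ξ) (nB1 ξ) (nB2 ξ) *
      (1 / 2 * cstM (exm m) 1 - zB ξ)) :
    toJ (X0B m ξ) = sw (exm m) (initB0 (exm m) ξ) := by
  have hM : ∀ i, 0 < exm m i := by
    intro i
    fin_cases i
    · exact hm 0
    · exact hm 2
    · exact hm 1
  rw [initB0_eq, initS_eq _ hM]
  set M := exm m with hMdef
  set r := ir (cstM M) ((M 0 + M 1) / 2) (zB ξ) 0 (aB ξ) (nB1 ξ) (nB2 ξ) with hr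
  set b := ib (cstM M) (zB ξ) 0 (nB1 ξ) (nB2 ξ) with hb
  set R := r * (1 / 2 * cstM M 1 - zB ξ) with hR
  have hs := sq_pos hpos
  have c0 : cstM M 0 = 2 * w1 M := rfl
  have c1 : cstM M 1 = 2 * w0 M := rfl
  have c0' : cstM (swm M) 0 = 2 * w1 (swm M) := rfl
  have e1 : (X0B m ξ).1 = ⟨sq R, 0⟩ := rfl
  have e2 : (X0B m ξ).2.1 = ⟨r * (-(zB ξ + 1 / 2 * cstM M 0) + (zB ξ - 1 / 2 * cstM M 1) * (1 / 2) *
    cstM (swm M) 0), 0⟩ := rfl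
  have e3 : (X0B m ξ).2.2.1 = ⟨sq R * (aB ξ * (1 / 2) * cstM M 1 - nB1 ξ) * (1 / 2),
    sq R * (b * (1 / 2) * cstM M 1 - nB2 ξ) * (1 / 2)⟩ := rfl
  have e4 : (X0B m ξ).2.2.2 = ⟨-(nB1 ξ + aB ξ * (1 / 2) * cstM M 0) + (nB1 ξ - aB ξ * (1 / 2) *
    cstM M 1) * (1 / 2) * cstM (swm M) 0, -(nB2 ξ + b * (1 / 2) * cstM M 0) +
    (nB2 ξ - b * (1 / 2) * cstM M 1) * (1 / 2) * cstM (swm M) 0⟩ := rfl
  unfold toJ
  rw [e1, e2, e3, e4, mk_sq, sq_sq hpos, mk_conj]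
  unfold sw swv
  refine Prod.ext ?_ (Prod.ext ?_ (Prod.ext ?_ ?_))
  · show ((R : ℝ) : ℂ) = -vB M (r : ℂ) ((r : ℂ) * ⟨zB ξ, 0⟩)
    rw [hR, c1]
    apply Complex.ext
    · simp [vB]; ring
    · simp [vB]
  · show (⟨r * (-(zB ξ + 1 / 2 * cstM M 0) + (zB ξ - 1 / 2 * cstM M 1) * (1 / 2) *
      cstM (swm M) 0), 0⟩ : ℂ) = -vA M (r : ℂ) ((r : ℂ) * ⟨zB ξ, 0⟩) +
        (w1 (swm M) : ℂ) * vB M (r : ℂ) ((r : ℂ) * ⟨zB ξ, 0⟩)
    rw [c0, c1, c0']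
    apply Complex.ext
    · simp [vA, vB]; ring
    · simp [vA, vB]
  · show 2 * (⟨sq R * (aB ξ * (1 / 2) * cstM M 1 - nB1 ξ) * (1 / 2),
      sq R * (b * (1 / 2) * cstM M 1 - nB2 ξ) * (1 / 2)⟩ : ℂ) / (sq R : ℂ) =
      -vB M ((aB ξ : ℂ) + I * ((b : ℝ) : ℂ)) ⟨nB1 ξ, nB2 ξ⟩
    have h0 : ((sq R : ℝ) : ℂ) ≠ 0 := by exact_mod_cast hs.ne'
    rw [div_eq_iff h0, c1]
    apply Complex.ext
    · simp [vB]; ring
    · simp [vB]; ring
  · show (⟨-(nB1 ξ + aB ξ * (1 / 2) * cstM M 0) + (nB1 ξ - aB ξ * (1 / 2) *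
      cstM M 1) * (1 / 2) * cstM (swm M) 0, -(nB2 ξ + b * (1 / 2) * cstM M 0) +
      (nB2 ξ - b * (1 / 2) * cstM M 1) * (1 / 2) * cstM (swm M) 0⟩ : ℂ) =
      -vA M ((aB ξ : ℂ) + I * ((b : ℝ) : ℂ)) ⟨nB1 ξ, nB2 ξ⟩ +
        (w1 (swm M) : ℂ) * vB M ((aB ξ : ℂ) + I * ((b : ℝ) : ℂ)) ⟨nB1 ξ, nB2 ξ⟩
    rw [c0, c1, c0']
    apply Complex.ext
    · simp [vA, vB]; ring
    · simp [vA, vB]; ring

/-! ### the switch -/

def Sw2 (m : Fin 3 → ℝ) (X : JS) : JS := C8 (swR2 (cstM (swm (exm m))) (cstM m) (R8 X))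

theorem zyx_eq (m : Fin 3 → ℝ) (Y : JS) : zyx m Y =
    (-vA (swm (exm m)) Y.1 Y.2.1,
      -vB (swm (exm m)) Y.1 Y.2.1 + (w1 m : ℂ) * vA (swm (exm m)) Y.1 Y.2.1,
      -vA (swm (exm m)) Y.2.2.1 Y.2.2.2,
      -vB (swm (exm m)) Y.2.2.1 Y.2.2.2 + (w1 m : ℂ) * vA (swm (exm m)) Y.2.2.1 Y.2.2.2) := by
  set M := swm (exm m) with hM
  have e0 : swm M = exm m := swm_swm' (exm m)
  have key : ∀ p q : ℂ, vA (exm m) (-vB M p q) (-vA M p q + (w1 (swm M) : ℂ) * vB M p q)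
      = -vA M p q := by
    intro p q
    rw [e0]
    unfold vA
    ring
  have key2 : ∀ p q : ℂ, -vB M p q - (w1 (exm (exm m)) : ℂ) *
      vA (exm m) (-vB M p q) (-vA M p q + (w1 (swm M) : ℂ) * vB M p q)
      = -vB M p q + (w1 m : ℂ) * vA M p q := by
    intro p q
    rw [key, exm_exm']
    ring
  refine Prod.ext (key _ _) (Prod.ext (key2 _ _) (Prod.ext (key _ _) (key2 _ _)))

theorem lcr_R8 (X : JS) : lcr (R8 X) = ‖X.1‖ ^ 2 := by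
  rw [← Complex.normSq_eq_norm_sq, Complex.normSq_apply]; rfl

theorem lca2_R8 (M : Fin 3 → ℝ) (X : JS) (h : vA M (X.1 ^ 2) X.2.1 ≠ 0) :
    0 < lca2 (cstM M) (R8 X) := by
  have h1 := vA_C8 M (R8 X)
  rw [C8_R8] at h1
  rw [h1] at h
  have h2 : lca2 (cstM M) (R8 X) = Complex.normSq ⟨lcax (cstM M) (R8 X), lcay (cstM M) (R8 X)⟩ := by
    rw [Complex.normSq_apply]; rfl
  rw [h2]
  exact Complex.normSq_pos.mpr h

/-- `w / conj z` -/
theorem wq_eq (X : JS) (h : X.1 ≠ 0) :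
    X.2.2.1 / (starRingEnd ℂ) X.1 = ⟨wqx (R8 X), wqy (R8 X)⟩ := by
  have hc : (starRingEnd ℂ) X.1 ≠ 0 := (map_ne_zero _).mpr h
  have hr : 0 < lcr (R8 X) := by
    rw [lcr_R8]
    have := norm_pos_iff.mpr h
    positivity
  rw [div_eq_iff hc]
  have e0 : lcr (R8 X) = X.1.re * X.1.re + X.1.im * X.1.im := rfl
  apply Complex.ext
  · rw [Complex.mul_re, Complex.conj_re, Complex.conj_im]
    show X.2.2.1.re = ((X.1.re * X.2.2.1.re - X.1.im * X.2.2.1.im) * (lcr (R8 X))⁻¹) * X.1.re -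
      ((X.1.re * X.2.2.1.im + X.1.im * X.2.2.1.re) * (lcr (R8 X))⁻¹) * -X.1.im
    field_simp
    rw [e0]
    ring
  · rw [Complex.mul_im, Complex.conj_re, Complex.conj_im]
    show X.2.2.1.im = ((X.1.re * X.2.2.1.re - X.1.im * X.2.2.1.im) * (lcr (R8 X))⁻¹) * -X.1.im +
      ((X.1.re * X.2.2.1.im + X.1.im * X.2.2.1.re) * (lcr (R8 X))⁻¹) * X.1.re
    field_simp
    rw [e0]
    ring

theorem ws_sq (c : Cst) (x : Fin 8 → ℝ) (ha : 0 < lca2 c x) (hH : 0 < wH c x) :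
    (⟨ws1 c x, ws2 c x⟩ : ℂ) ^ 2 = -⟨lcax c x, lcay c x⟩ := by
  have hn : lca2 c x * lcA c x = Real.sqrt (lca2 c x) := by
    unfold lcA
    exact sq_eq ha
  have hs := Real.mul_self_sqrt ha.le
  have hHe : wH c x = (Real.sqrt (lca2 c x) - lcax c x) * (1 / 2) := by
    unfold wH; rw [hn]
  have h1 : ws1 c x * ws1 c x = wH c x := sq_sq hH
  have hq := Real.sqrt_pos.mpr hH
  have h2 : ws2 c x = -(lcay c x * (1 / ws1 c x) * (1 / 2)) := by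
    unfold ws2 ws1
    rw [sq_eq hH]
  have h0 : 0 < ws1 c x := sq_pos hH
  have e : lca2 c x = lcax c x * lcax c x + lcay c x * lcay c x := rfl
  apply Complex.ext
  · rw [pow_two, Complex.mul_re]
    show ws1 c x * ws1 c x - ws2 c x * ws2 c x = -lcax c x
    have h3 : ws2 c x * ws2 c x = lcay c x * lcay c x / (4 * wH c x) := by
      rw [h2, ← h1]
      field_simp
      ring
    rw [h1, h3]
    have h4 : lcay c x * lcay c x / (4 * wH c x) = wH c x + lcax c x := by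
      rw [div_eq_iff (by positivity), hHe]
      have h5 : lcay c x * lcay c x = Real.sqrt (lca2 c x) * Real.sqrt (lca2 c x) -
          lcax c x * lcax c x := by rw [hs, e]; ring
      rw [h5]
      ring
    rw [h4]
    ring
  · rw [pow_two, Complex.mul_im]
    show ws1 c x * ws2 c x + ws2 c x * ws1 c x = -lcay c x
    rw [h2]
    field_simp
    ring

theorem Sw2_toJ (m : Fin 3 → ℝ) (X : JS) (hX : LFree (swm (exm m)) X)
    (hH : 0 < wH (cstM (swm (exm m))) (R8 X)) : toJ (Sw2 m X) = zyx m (toJ X) := by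
  set M := swm (exm m) with hM
  set c := cstM M with hc
  set x := R8 X with hx
  have ha : 0 < lca2 c x := lca2_R8 M X hX.2.1
  have hs0 : 0 < ws1 c x := sq_pos hH
  have eA : vA M (X.1 ^ 2) X.2.1 = ⟨lcax c x, lcay c x⟩ := by
    have := vA_C8 M x
    rwa [hx, C8_R8] at this
  have eB : vB M (X.1 ^ 2) X.2.1 = ⟨lcbx c x, lcby c x⟩ := by
    have := vB_C8 M x
    rwa [hx, C8_R8] at this
  have hq := wq_eq X hX.1
  have eρ : 2 * X.2.2.1 / (starRingEnd ℂ) X.1 = 2 * (⟨wqx x, wqy x⟩ : ℂ) := by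
    rw [mul_div_assoc, hq]
  have eVA : vA M (2 * X.2.2.1 / (starRingEnd ℂ) X.1) X.2.2.2 = ⟨wVAx c x, wVAy c x⟩ := by
    rw [eρ]
    apply Complex.ext
    · show (vA M (2 * ⟨wqx x, wqy x⟩) X.2.2.2).re = X.2.2.2.re + wqx x * (2 * w1 M)
      simp [vA]
      ring
    · show (vA M (2 * ⟨wqx x, wqy x⟩) X.2.2.2).im = X.2.2.2.im + wqy x * (2 * w1 M)
      simp [vA]
      ring
  have eVB : vB M (2 * X.2.2.1 / (starRingEnd ℂ) X.1) X.2.2.2 = ⟨wVBx c x, wVBy c x⟩ := by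
    rw [eρ]
    apply Complex.ext
    · show (vB M (2 * ⟨wqx x, wqy x⟩) X.2.2.2).re = X.2.2.2.re - wqx x * (2 * w0 M)
      simp [vB]
      ring
    · show (vB M (2 * ⟨wqx x, wqy x⟩) X.2.2.2).im = X.2.2.2.im - wqy x * (2 * w0 M)
      simp [vB]
      ring
  rw [zyx_eq]
  have c' : cstM m 0 = 2 * w1 m := rfl
  have hs : (⟨ws1 c x, ws2 c x⟩ : ℂ) ≠ 0 := by
    intro h
    have := congrArg Complex.re h
    simp at this
    exact hs0.ne' this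
  have hsc : (starRingEnd ℂ) (⟨ws1 c x, ws2 c x⟩ : ℂ) ≠ 0 := (map_ne_zero _).mpr hs
  refine Prod.ext ?_ (Prod.ext ?_ (Prod.ext ?_ ?_))
  · show (⟨ws1 c x, ws2 c x⟩ : ℂ) ^ 2 = -vA M (X.1 ^ 2) X.2.1
    rw [ws_sq c x ha hH, eA]
  · show (⟨lcax c x * (1 / 2) * cstM m 0 - lcbx c x, lcay c x * (1 / 2) * cstM m 0 - lcby c x⟩ : ℂ) =
      -vB M (X.1 ^ 2) X.2.1 + (w1 m : ℂ) * vA M (X.1 ^ 2) X.2.1
    rw [eA, eB, c']
    apply Complex.ext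
    · simp; ring
    · simp; ring
  · show 2 * (⟨-((ws1 c x * wVAx c x + ws2 c x * wVAy c x) * (1 / 2)),
      -((ws1 c x * wVAy c x - ws2 c x * wVAx c x) * (1 / 2))⟩ : ℂ) /
      (starRingEnd ℂ) (⟨ws1 c x, ws2 c x⟩ : ℂ) =
      -vA M (2 * X.2.2.1 / (starRingEnd ℂ) X.1) X.2.2.2
    rw [eVA, div_eq_iff hsc]
    apply Complex.ext
    · simp; ring
    · simp; ring
  · show (⟨wVAx c x * (1 / 2) * cstM m 0 - wVBx c x, wVAy c x * (1 / 2) * cstM m 0 - wVBy c x⟩ : ℂ) =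
      -vB M (2 * X.2.2.1 / (starRingEnd ℂ) X.1) X.2.2.2 +
        (w1 m : ℂ) * vA M (2 * X.2.2.1 / (starRingEnd ℂ) X.1) X.2.2.2
    rw [eVA, eVB, c']
    apply Complex.ext
    · simp; ring
    · simp; ring

/-! ### continuity -/

theorem cOn_rs {α : Type} [TopologicalSpace α] {s : Set α} {f : α → ℝ} (hf : ContinuousOn f s)
    (h : ∀ x ∈ s, 0 < f x) : ContinuousOn (fun x => 1 / Real.sqrt (f x)) s :=
  continuousOn_const.div hf.sqrt (fun x hx => (Real.sqrt_pos.mpr (h x hx)).ne')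

theorem cOn_sq {α : Type} [TopologicalSpace α] {s : Set α} {f : α → ℝ} (hf : ContinuousOn f s)
    (h : ∀ x ∈ s, 0 < f x) : ContinuousOn (fun x => sq (f x)) s := hf.mul (cOn_rs hf h)

theorem Sw2_cont (m : Fin 3 → ℝ) : ContinuousOn (Sw2 m)
    {X | LFree (swm (exm m)) X ∧ 0 < wH (cstM (swm (exm m))) (R8 X)} := by
  set M := swm (exm m) with hM
  set c := cstM M with hc
  set S : Set JS := {X | LFree M X ∧ 0 < wH c (R8 X)} with hS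
  have hx : ∀ i, ContinuousOn (fun X : JS => R8 X i) S := fun i =>
    ((continuous_apply i).comp cont_R8).continuousOn
  have hr : ∀ X ∈ S, 0 < lcr (R8 X) := by
    intro X hX
    rw [lcr_R8]
    have := norm_pos_iff.mpr hX.1.1
    positivity
  have ha : ∀ X ∈ S, 0 < lca2 c (R8 X) := fun X hX => lca2_R8 M X hX.1.2.1
  have cr' : ContinuousOn (fun X : JS => lcr (R8 X)) S := ((hx 0).mul (hx 0)).add ((hx 1).mul (hx 1))
  have cax : ContinuousOn (fun X : JS => lcax c (R8 X)) S :=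
    (hx 4).add (((((hx 0).mul (hx 0)).sub ((hx 1).mul (hx 1))).mul continuousOn_const).mul
      continuousOn_const)
  have cay : ContinuousOn (fun X : JS => lcay c (R8 X)) S :=
    (hx 5).add (((hx 0).mul (hx 1)).mul continuousOn_const)
  have cbx : ContinuousOn (fun X : JS => lcbx c (R8 X)) S :=
    (hx 4).sub (((((hx 0).mul (hx 0)).sub ((hx 1).mul (hx 1))).mul continuousOn_const).mul
      continuousOn_const)
  have cby : ContinuousOn (fun X : JS => lcby c (R8 X)) S :=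
    (hx 5).sub (((hx 0).mul (hx 1)).mul continuousOn_const)
  have ca2 : ContinuousOn (fun X : JS => lca2 c (R8 X)) S := (cax.mul cax).add (cay.mul cay)
  have cA : ContinuousOn (fun X : JS => lcA c (R8 X)) S := cOn_rs ca2 ha
  have cH : ContinuousOn (fun X : JS => wH c (R8 X)) S :=
    ((ca2.mul cA).sub cax).mul continuousOn_const
  have hH : ∀ X ∈ S, 0 < wH c (R8 X) := fun X hX => hX.2
  have cs1 : ContinuousOn (fun X : JS => ws1 c (R8 X)) S := cOn_sq cH hH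
  have cs2 : ContinuousOn (fun X : JS => ws2 c (R8 X)) S :=
    ((cay.mul (cOn_rs cH hH)).mul continuousOn_const).neg
  have cri : ContinuousOn (fun X : JS => (lcr (R8 X))⁻¹) S := cr'.inv₀ (fun X hX => (hr X hX).ne')
  have cqx : ContinuousOn (fun X : JS => wqx (R8 X)) S :=
    (((hx 0).mul (hx 2)).sub ((hx 1).mul (hx 3))).mul cri
  have cqy : ContinuousOn (fun X : JS => wqy (R8 X)) S :=
    (((hx 0).mul (hx 3)).add ((hx 1).mul (hx 2))).mul cri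
  have cVAx : ContinuousOn (fun X : JS => wVAx c (R8 X)) S := (hx 6).add (cqx.mul continuousOn_const)
  have cVAy : ContinuousOn (fun X : JS => wVAy c (R8 X)) S := (hx 7).add (cqy.mul continuousOn_const)
  have cVBx : ContinuousOn (fun X : JS => wVBx c (R8 X)) S := (hx 6).sub (cqx.mul continuousOn_const)
  have cVBy : ContinuousOn (fun X : JS => wVBy c (R8 X)) S := (hx 7).sub (cqy.mul continuousOn_const)
  apply cont_C8.comp_continuousOn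
  rw [continuousOn_pi]
  intro i
  fin_cases i
  · exact cs1
  · exact cs2
  · exact (((cs1.mul cVAx).add (cs2.mul cVAy)).mul continuousOn_const).neg
  · exact (((cs1.mul cVAy).sub (cs2.mul cVAx)).mul continuousOn_const).neg
  · exact ((cax.mul continuousOn_const).mul continuousOn_const).sub cbx
  · exact ((cay.mul continuousOn_const).mul continuousOn_const).sub cby
  · exact ((cVAx.mul continuousOn_const).mul continuousOn_const).sub cVBx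
  · exact ((cVAy.mul continuousOn_const).mul continuousOn_const).sub cVBy

/-- continuity of `ir`, `ib` along continuous functions -/
theorem ir_cont {m : Fin 3 → ℝ} (hm : ∀ i, 0 < m i) {s : Set (Fin 4 → ℝ)}
    {z1 z2 a n1 n2 : (Fin 4 → ℝ) → ℝ} (h1 : Continuous z1) (h2 : Continuous z2) (h3 : Continuous a)
    (h4 : Continuous n1) (h5 : Continuous n2)
    (pA : ∀ ξ ∈ s, 0 < (z1 ξ + 1 / 2 * cstM m 0) * (z1 ξ + 1 / 2 * cstM m 0) + z2 ξ * z2 ξ)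
    (pB : ∀ ξ ∈ s, 0 < (z1 ξ - 1 / 2 * cstM m 1) * (z1 ξ - 1 / 2 * cstM m 1) + z2 ξ * z2 ξ) :
    ContinuousOn (fun ξ => ir (cstM m) ((m 0 + m 1) / 2) (z1 ξ) (z2 ξ) (a ξ) (n1 ξ) (n2 ξ)) s ∧
      Continuous (fun ξ => ib (cstM m) (z1 ξ) (z2 ξ) (n1 ξ) (n2 ξ)) := by
  have cb : Continuous (fun ξ => ib (cstM m) (z1 ξ) (z2 ξ) (n1 ξ) (n2 ξ)) := by
    unfold ib; fun_prop
  refine ⟨?_, cb⟩
  have cA : ContinuousOn (fun ξ => iA (cstM m) (z1 ξ) (z2 ξ)) s := by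
    apply cOn_rs _ pA
    fun_prop
  have cB : ContinuousOn (fun ξ => iB (cstM m) (z1 ξ) (z2 ξ)) s := by
    apply cOn_rs _ pB
    fun_prop
  have cU : ContinuousOn (fun ξ => iU (cstM m) ((m 0 + m 1) / 2) (z1 ξ) (z2 ξ)) s :=
    (continuousOn_const.add (cA.mul continuousOn_const)).add (cB.mul continuousOn_const)
  have cD : Continuous (fun ξ => iD (cstM m) (a ξ) (ib (cstM m) (z1 ξ) (z2 ξ) (n1 ξ) (n2 ξ))
      (n1 ξ) (n2 ξ)) := by
    unfold iD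
    fun_prop
  exact cU.mul (cD.continuousOn.inv₀ (fun ξ _ => (iD_pos hm _ _ _ _).ne'))

theorem cst0_bd {m : Fin 3 → ℝ} (hm : CstOk (cstM m)) (i : Fin 9) :
    0.99 < cstM m i ∧ cstM m i < 1.01 := by
  have h := abs_le.1 (hm i)
  have h2 : (1 : ℝ) / 2 ^ 46 < 0.01 := by norm_num
  constructor <;> linarith

theorem X0A_cont (m : Fin 3 → ℝ) (hm : ∀ i, 0 < m i) : ContinuousOn (X0A m) box4 := by
  have c1 : Continuous zA1 := by unfold zA1; fun_prop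
  have c2 : Continuous zA2 := by unfold zA2; fun_prop
  have c3 : Continuous nA1 := by unfold nA1; fun_prop
  have c4 : Continuous nA2 := by unfold nA2; fun_prop
  have hz : ∀ ξ ∈ box4, 0 < zA2 ξ * zA2 ξ := by
    intro ξ hξ
    have b0 := abs_le.1 (box_abs hξ 0)
    have b1 := abs_le.1 (box_abs hξ 1)
    have b2 := abs_le.1 (box_abs hξ 2)
    have b3 := abs_le.1 (box_abs hξ 3)
    have : 0 < zA2 ξ := by unfold zA2; linarith
    positivity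
  obtain ⟨cr', cb⟩ := ir_cont hm (s := box4) c1 c2 (continuous_const (y := (0 : ℝ))) c3 c4
    (fun ξ hξ => by nlinarith [mul_self_nonneg (zA1 ξ + 1 / 2 * cstM m 0), hz ξ hξ])
    (fun ξ hξ => by nlinarith [mul_self_nonneg (zA1 ξ - 1 / 2 * cstM m 1), hz ξ hξ])
  have cs := cOn_sq cr' (fun ξ _ => ir_pos hm _ _ _ _ _)
  apply cont_C8.comp_continuousOn
  rw [continuousOn_pi]
  intro i
  fin_cases i
  · exact cs
  · exact continuousOn_const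
  · exact continuousOn_const
  · exact (cs.mul cb.continuousOn).mul continuousOn_const
  · exact cr'.mul c1.continuousOn
  · exact cr'.mul c2.continuousOn
  · exact c3.continuousOn
  · exact c4.continuousOn

theorem X0B_cont (m : Fin 3 → ℝ) (hm : Near1 (1 / 2 ^ 50) m)
    (hpos : ∀ ξ ∈ box4, 0 < ir (cstM (exm m)) ((exm m 0 + exm m 1) / 2) (zB ξ) 0 (aB ξ) (nB1 ξ)
      (nB2 ξ) * (1 / 2 * cstM (exm m) 1 - zB ξ)) : ContinuousOn (X0B m) box4 := by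
  have hM : ∀ i, 0 < exm m i := pos_of_near (near_exm hm)
  have c1 : Continuous zB := by unfold zB; fun_prop
  have c2 : Continuous aB := by unfold aB; fun_prop
  have c3 : Continuous nB1 := by unfold nB1; fun_prop
  have c4 : Continuous nB2 := by unfold nB2; fun_prop
  have b1' := cst0_bd (cstM_ok _ (near_exm hm)) 0
  have b2' := cst0_bd (cstM_ok _ (near_exm hm)) 1
  have hz : ∀ ξ ∈ box4, |zB ξ| ≤ 0.01 := by
    intro ξ hξ
    have b0 := abs_le.1 (box_abs hξ 0)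
    have b1 := abs_le.1 (box_abs hξ 1)
    have b2 := abs_le.1 (box_abs hξ 2)
    have b3 := abs_le.1 (box_abs hξ 3)
    rw [abs_le]
    unfold zB
    constructor <;> linarith
  obtain ⟨cr', cb⟩ := ir_cont hM (s := box4) c1 (continuous_const (y := (0 : ℝ))) c2 c3 c4
    (fun ξ hξ => by
      have h := abs_le.1 (hz ξ hξ)
      have : 0 < zB ξ + 1 / 2 * cstM (exm m) 0 := by linarith
      nlinarith)
    (fun ξ hξ => by
      have h := abs_le.1 (hz ξ hξ)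
      have : zB ξ - 1 / 2 * cstM (exm m) 1 < 0 := by linarith
      nlinarith)
  have cR : ContinuousOn (fun ξ => ir (cstM (exm m)) ((exm m 0 + exm m 1) / 2) (zB ξ) 0 (aB ξ)
      (nB1 ξ) (nB2 ξ) * (1 / 2 * cstM (exm m) 1 - zB ξ)) box4 :=
    cr'.mul (continuousOn_const.sub c1.continuousOn)
  have cs := cOn_sq cR hpos
  have k : ∀ y : ℝ, ContinuousOn (fun _ : Fin 4 → ℝ => y) box4 := fun y => continuousOn_const
  apply cont_C8.comp_continuousOn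
  rw [continuousOn_pi]
  intro i
  fin_cases i
  · exact cs
  · exact continuousOn_const
  · exact (cs.mul (((c2.continuousOn.mul (k _)).mul (k _)).sub c3.continuousOn)).mul (k _)
  · exact (cs.mul (((cb.continuousOn.mul (k _)).mul (k _)).sub c4.continuousOn)).mul (k _)
  · exact cr'.mul ((c1.continuousOn.add (k _)).neg.add (((c1.continuousOn.sub (k _)).mul (k _)).mul
      (k _)))
  · exact continuousOn_const
  · exact (c3.continuousOn.add ((c2.continuousOn.mul (k _)).mul (k _))).neg.add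
      (((c3.continuousOn.sub ((c2.continuousOn.mul (k _)).mul (k _))).mul (k _)).mul (k _))
  · exact (c4.continuousOn.add ((cb.continuousOn.mul (k _)).mul (k _))).neg.add
      (((c4.continuousOn.sub ((cb.continuousOn.mul (k _)).mul (k _))).mul (k _)).mul (k _))

end

end Pool.Agent.H2TM
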