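import Pool.Agent.Helper2_TM.OutF

/-!
# Start data and switch: Taylor models of the explicit real formulas
-/

namespace Pool.Agent.H2TM

open Finset Pool.Agent.HM.H4

noncomputable section

/-! ### real formulas -/

/-- `b` -/
def ib (c : Cst) (ζ1 ζ2 n1 n2 : ℝ) : ℝ := -((ζ1 * n2 - ζ2 * n1) * (1 / 3) * c 5 * 4)
def iA (c : Cst) (ζ1 ζ2 : ℝ) : ℝ :=
  1 / Real.sqrt ((ζ1 + 1 / 2 * c 0) * (ζ1 + 1 / 2 * c 0) + ζ2 * ζ2)
def iB (c : Cst) (ζ1 ζ2 : ℝ) : ℝ :=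
  1 / Real.sqrt ((ζ1 - 1 / 2 * c 1) * (ζ1 - 1 / 2 * c 1) + ζ2 * ζ2)
def iU (c : Cst) (e ζ1 ζ2 : ℝ) : ℝ := 1 * e + iA c ζ1 ζ2 * c 2 + iB c ζ1 ζ2 * c 3
def iD (c : Cst) (a b n1 n2 : ℝ) : ℝ :=
  1 * c 4 + (a * a + b * b) * (1 / 2) * (1 / 2) + (n1 * n1 + n2 * n2) * (1 / 3) * c 5
/-- `r`, with `e = (m₀+m₁)/2` -/
def ir (c : Cst) (e ζ1 ζ2 a n1 n2 : ℝ) : ℝ :=
  iU c e ζ1 ζ2 * (iD c a (ib c ζ1 ζ2 n1 n2) n1 n2)⁻¹
/-- `sqrt x` as `x / sqrt x` -/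
def sq (x : ℝ) : ℝ := x * (1 / Real.sqrt x)

/-- start of A (real `ρ = r`, `a = 0`) -/
def staA (c : Cst) (e ζ1 ζ2 n1 n2 : ℝ) : Fin 8 → ℝ :=
  ![sq (ir c e ζ1 ζ2 0 n1 n2), 0, 0, sq (ir c e ζ1 ζ2 0 n1 n2) * ib c ζ1 ζ2 n1 n2 * (1 / 2),
    ir c e ζ1 ζ2 0 n1 n2 * ζ1, ir c e ζ1 ζ2 0 n1 n2 * ζ2, n1, n2]

/-- start of B: `c` for the labels (x,y;z), `c'` for (z,y;x); real `ζ` -/
def staB (c c' : Cst) (e ζ a n1 n2 : ℝ) : Fin 8 → ℝ :=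
  ![sq (ir c e ζ 0 a n1 n2 * (1 / 2 * c 1 - ζ)), 0,
    sq (ir c e ζ 0 a n1 n2 * (1 / 2 * c 1 - ζ)) * (a * (1 / 2) * c 1 - n1) * (1 / 2),
    sq (ir c e ζ 0 a n1 n2 * (1 / 2 * c 1 - ζ)) * (ib c ζ 0 n1 n2 * (1 / 2) * c 1 - n2) * (1 / 2),
    ir c e ζ 0 a n1 n2 * (-(ζ + 1 / 2 * c 0) + (ζ - 1 / 2 * c 1) * (1 / 2) * c' 0), 0,
    -(n1 + a * (1 / 2) * c 0) + (n1 - a * (1 / 2) * c 1) * (1 / 2) * c' 0,
    -(n2 + ib c ζ 0 n1 n2 * (1 / 2) * c 0) + (n2 - ib c ζ 0 n1 n2 * (1 / 2) * c 1) * (1 / 2) * c' 0]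

/-- `ρ' / 2 = w z / |z|²` -/
def wqx (x : Fin 8 → ℝ) : ℝ := (x 0 * x 2 - x 1 * x 3) * (lcr x)⁻¹
def wqy (x : Fin 8 → ℝ) : ℝ := (x 0 * x 3 + x 1 * x 2) * (lcr x)⁻¹
/-- velocities of the outer body relative to the first and second body -/
def wVAx (c : Cst) (x : Fin 8 → ℝ) : ℝ := x 6 + wqx x * c 0
def wVAy (c : Cst) (x : Fin 8 → ℝ) : ℝ := x 7 + wqy x * c 0
def wVBx (c : Cst) (x : Fin 8 → ℝ) : ℝ := x 6 - wqx x * c 1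
def wVBy (c : Cst) (x : Fin 8 → ℝ) : ℝ := x 7 - wqy x * c 1
/-- `(|ρ| + Re ρ)/2` for `ρ = -vA` -/
def wH (c : Cst) (x : Fin 8 → ℝ) : ℝ := (lca2 c x * lcA c x - lcax c x) * (1 / 2)
def ws1 (c : Cst) (x : Fin 8 → ℝ) : ℝ := sq (wH c x)
def ws2 (c : Cst) (x : Fin 8 → ℝ) : ℝ := -(lcay c x * (1 / Real.sqrt (wH c x)) * (1 / 2))

/-- the switch: `c` for the labels (z,y;x), `c'` for (x,z;y) -/
def swR2 (c c' : Cst) (x : Fin 8 → ℝ) : Fin 8 → ℝ :=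
  ![ws1 c x, ws2 c x,
    -((ws1 c x * wVAx c x + ws2 c x * wVAy c x) * (1 / 2)),
    -((ws1 c x * wVAy c x - ws2 c x * wVAx c x) * (1 / 2)),
    lcax c x * (1 / 2) * c' 0 - lcbx c x, lcay c x * (1 / 2) * c' 0 - lcby c x,
    wVAx c x * (1 / 2) * c' 0 - wVBx c x, wVAy c x * (1 / 2) * c' 0 - wVBy c x]

end

/-! ### Taylor models -/

/-- linear function of the parameters, denominator `q` -/
def lin (w P N : ℕ) (p0 p1 p2 p3 p4 : ℤ) (q : ℕ) : TM :=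
  nz w N (add (add (add (add (cq P p0 q) (kv w P N 0 p1 q)) (kv w P N 1 p2 q)) (kv w P N 2 p3 q))
    (kv w P N 3 p4 q))

theorem Enc.lin {w P N : ℕ} (hw : 1 ≤ w) (p0 p1 p2 p3 p4 : ℤ) (q : ℕ) (hq : 0 < q) :
    Enc w P N (lin w P N p0 p1 p2 p3 p4 q) (fun _ z => (p0 : ℝ) / q + z 0 * ((p1 : ℝ) / q) +
      z 1 * ((p2 : ℝ) / q) + z 2 * ((p3 : ℝ) / q) + z 3 * ((p4 : ℝ) / q)) :=
  Enc.nz hw (Enc.add (Enc.add (Enc.add (Enc.add (Enc.cq p0 q hq) (Enc.kv 0 p1 q hq))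
    (Enc.kv 1 p2 q hq)) (Enc.kv 2 p3 q hq)) (Enc.kv 3 p4 q hq))

/-- guesses for reciprocals (units `2^-P`): `1/|vA|`, `1/|vB|`, `1/D`, `1/sqrt` -/
structure Gs where
  a : ℤ
  b : ℤ
  d : ℤ
  s : ℤ

/-- `b`, `|vA|²`, `|vB|²`, `D` -/
structure IT where
  b : TM
  a2 : TM
  b2 : TM
  D : TM

def iniT (w P N : ℕ) (ζ1 ζ2 a n1 n2 : TM) : IT :=
  let hh := chalf P
  let b := neg (smul 4 (pert (mul w P N (nz w N (sub (mul w P N ζ1 n2) (mul w P N ζ2 n1)))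
    (cthird P))))
  let ax := nz w N (add ζ1 (pert hh))
  let bx := nz w N (sub ζ1 (pert hh))
  ⟨b, nz w N (add (mul w P N ax ax) (mul w P N ζ2 ζ2)),
    nz w N (add (mul w P N bx bx) (mul w P N ζ2 ζ2)),
    nz w N (add (add (pert (cone P)) (mul w P N (mul w P N (add (mul w P N a a) (mul w P N b b)) hh)
      hh)) (pert (mul w P N (add (mul w P N n1 n1) (mul w P N n2 n2)) (cthird P))))⟩

/-- `r` -/
def iniR (w P N : ℕ) (g : Gs) (t : IT) : TM :=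
  mul w P N (nz w N (add (add (pert (cone P)) (pert (rs w P N t.a2 g.a)))
    (pert (rs w P N t.b2 g.b)))) (iv w P N t.D g.d)

def iniOk (w P N : ℕ) (g : Gs) (t : IT) : Bool :=
  rsOk w P N t.a2 g.a && rsOk w P N t.b2 g.b && ivOk w P N t.D g.d

/-- Enc of `ir`, `ib` -/
theorem ini_enc {w P N : ℕ} {ζ1 ζ2 a n1 n2 : TM} {g : Gs} {c : Cst} {e : ℝ}
    {Z1 Z2 A N1 N2 : ℝ → (Fin 12 → ℝ) → ℝ} (hw : 1 ≤ w) (hP : P ≤ w) (hP1 : 1 ≤ P) (hc : CstOk c)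
    (he : |e - 1| ≤ 1 / 2 ^ 46) (h1 : Enc w P N ζ1 Z1) (h2 : Enc w P N ζ2 Z2) (h3 : Enc w P N a A)
    (h4 : Enc w P N n1 N1) (h5 : Enc w P N n2 N2)
    (hok : iniOk w P N g (iniT w P N ζ1 ζ2 a n1 n2) = true) :
    Enc w P N (iniT w P N ζ1 ζ2 a n1 n2).b
      (fun t z => ib c (Z1 t z) (Z2 t z) (N1 t z) (N2 t z)) ∧
    Enc w P N (iniR w P N g (iniT w P N ζ1 ζ2 a n1 n2))
      (fun t z => ir c e (Z1 t z) (Z2 t z) (A t z) (N1 t z) (N2 t z)) ∧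
    ∀ t z, |t| ≤ 1 → (∀ i, |z i| ≤ 1) →
      0 < (Z1 t z + 1 / 2 * c 0) * (Z1 t z + 1 / 2 * c 0) + Z2 t z * Z2 t z ∧
      0 < (Z1 t z - 1 / 2 * c 1) * (Z1 t z - 1 / 2 * c 1) + Z2 t z * Z2 t z := by
  have hh := Enc.half (w := w) (P := P) (N := N) hP1
  have third := Enc.third (w := w) (P := P) (N := N)
  have one := Enc.one (w := w) (P := P) (N := N)
  have b := Enc.neg (Enc.smul 4 (Enc.pert (hc 5) (Enc.mul hw hP (Enc.nz hw (Enc.sub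
    (Enc.mul hw hP h1 h5) (Enc.mul hw hP h2 h4))) third)))
  have ax := Enc.nz hw (Enc.add h1 (Enc.pert (hc 0) hh))
  have bx := Enc.nz hw (Enc.sub h1 (Enc.pert (hc 1) hh))
  have a2 := Enc.nz hw (Enc.add (Enc.mul hw hP ax ax) (Enc.mul hw hP h2 h2))
  have b2 := Enc.nz hw (Enc.add (Enc.mul hw hP bx bx) (Enc.mul hw hP h2 h2))
  have D := Enc.nz hw (Enc.add (Enc.add (Enc.pert (hc 4) one) (Enc.mul hw hP (Enc.mul hw hP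
    (Enc.add (Enc.mul hw hP h3 h3) (Enc.mul hw hP b b)) hh) hh)) (Enc.pert (hc 5)
    (Enc.mul hw hP (Enc.add (Enc.mul hw hP h4 h4) (Enc.mul hw hP h5 h5)) third)))
  simp only [iniOk, Bool.and_eq_true] at hok
  obtain ⟨⟨o1, o2⟩, o3⟩ := hok
  obtain ⟨A1, p1⟩ := Enc.rs hw hP hP1 a2 o1
  obtain ⟨B1, p2⟩ := Enc.rs hw hP hP1 b2 o2
  obtain ⟨D1, -⟩ := Enc.iv hw hP hP1 D o3
  have r := Enc.mul hw hP (Enc.nz hw (Enc.add (Enc.add (Enc.pert he one) (Enc.pert (hc 2) A1))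
    (Enc.pert (hc 3) B1))) D1
  refine ⟨b.congr ?_, r.congr ?_, fun t z ht hz => ⟨p1 t z ht hz, p2 t z ht hz⟩⟩
  · intro t z _ _
    unfold ib
    push_cast; rfl
  · intro t z _ _
    unfold ir iU iD iA iB ib
    push_cast; rfl

/-- square root -/
def sqT (w P N : ℕ) (a : TM) (g : ℤ) : TM := mul w P N a (rs w P N a g)

theorem Enc.sqT {w P N : ℕ} {a : TM} {g : ℤ} {F : ℝ → (Fin 12 → ℝ) → ℝ} (hw : 1 ≤ w) (hP : P ≤ w)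
    (hP1 : 1 ≤ P) (ha : Enc w P N a F) (hok : rsOk w P N a g = true) :
    Enc w P N (sqT w P N a g) (fun t z => sq (F t z)) ∧
      ∀ t z, |t| ≤ 1 → (∀ i, |z i| ≤ 1) → 0 < F t z := by
  obtain ⟨h1, h2⟩ := Enc.rs hw hP hP1 ha hok
  exact ⟨Enc.mul hw hP ha h1, h2⟩

/-- start of A -/
def staAT (w P N : ℕ) (g : Gs) (ζ1 ζ2 n1 n2 : TM) : ST :=
  let t := iniT w P N ζ1 ζ2 (cst 0 0) n1 n2
  let r := iniR w P N g t
  let s := sqT w P N r g.s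
  ⟨s, cst 0 0, cst 0 0, mul w P N (mul w P N s t.b) (chalf P), mul w P N r ζ1, mul w P N r ζ2, n1, n2⟩

def staAOk (w P N : ℕ) (g : Gs) (ζ1 ζ2 n1 n2 : TM) : Bool :=
  iniOk w P N g (iniT w P N ζ1 ζ2 (cst 0 0) n1 n2) &&
    rsOk w P N (iniR w P N g (iniT w P N ζ1 ζ2 (cst 0 0) n1 n2)) g.s

theorem zero_enc {w P N : ℕ} : Enc w P N (cst 0 0) (fun _ _ => 0) := by
  refine Enc.cst _ _ _ ?_
  simp

theorem staA_enc {w P N : ℕ} {ζ1 ζ2 n1 n2 : TM} {g : Gs} {c : Cst} {e : ℝ}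
    {Z1 Z2 N1 N2 : ℝ → (Fin 12 → ℝ) → ℝ} (hw : 1 ≤ w) (hP : P ≤ w) (hP1 : 1 ≤ P) (hc : CstOk c)
    (he : |e - 1| ≤ 1 / 2 ^ 46) (h1 : Enc w P N ζ1 Z1) (h2 : Enc w P N ζ2 Z2)
    (h4 : Enc w P N n1 N1) (h5 : Enc w P N n2 N2)
    (hok : staAOk w P N g ζ1 ζ2 n1 n2 = true) :
    STEnc w P N (staAT w P N g ζ1 ζ2 n1 n2)
      (fun t z => staA c e (Z1 t z) (Z2 t z) (N1 t z) (N2 t z)) := by
  simp only [staAOk, Bool.and_eq_true] at hok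
  obtain ⟨hb, hr, -⟩ := ini_enc hw hP hP1 hc he h1 h2 (zero_enc (w := w) (P := P) (N := N)) h4 h5 hok.1
  have hh := Enc.half (w := w) (P := P) (N := N) hP1
  obtain ⟨hs, -⟩ := Enc.sqT hw hP hP1 hr hok.2
  exact STEnc.mk hs zero_enc zero_enc (Enc.mul hw hP (Enc.mul hw hP hs hb) hh)
    (Enc.mul hw hP hr h1) (Enc.mul hw hP hr h2) h4 h5

/-- start of B -/
def staBT (w P N : ℕ) (g : Gs) (ζ a n1 n2 : TM) : ST :=
  let hh := chalf P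
  let t := iniT w P N ζ (cst 0 0) a n1 n2
  let r := iniR w P N g t
  let s := sqT w P N (mul w P N r (nz w N (sub (pert hh) ζ))) g.s
  let ah := mul w P N a hh
  let bh := mul w P N t.b hh
  ⟨s, cst 0 0, mul w P N (mul w P N s (nz w N (sub (pert ah) n1))) hh,
    mul w P N (mul w P N s (nz w N (sub (pert bh) n2))) hh,
    mul w P N r (nz w N (add (neg (add ζ (pert hh)))
      (pert (mul w P N (nz w N (sub ζ (pert hh))) hh)))), cst 0 0,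
    nz w N (add (neg (add n1 (pert ah))) (pert (mul w P N (nz w N (sub n1 (pert ah))) hh))),
    nz w N (add (neg (add n2 (pert bh))) (pert (mul w P N (nz w N (sub n2 (pert bh))) hh)))⟩

def staBOk (w P N : ℕ) (g : Gs) (ζ a n1 n2 : TM) : Bool :=
  iniOk w P N g (iniT w P N ζ (cst 0 0) a n1 n2) &&
    rsOk w P N (mul w P N (iniR w P N g (iniT w P N ζ (cst 0 0) a n1 n2))
      (nz w N (sub (pert (chalf P)) ζ))) g.s

theorem staB_enc {w P N : ℕ} {ζ a n1 n2 : TM} {g : Gs} {c c' : Cst} {e : ℝ}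
    {Z A N1 N2 : ℝ → (Fin 12 → ℝ) → ℝ} (hw : 1 ≤ w) (hP : P ≤ w) (hP1 : 1 ≤ P) (hc : CstOk c)
    (hc' : CstOk c') (he : |e - 1| ≤ 1 / 2 ^ 46) (h1 : Enc w P N ζ Z) (h3 : Enc w P N a A)
    (h4 : Enc w P N n1 N1) (h5 : Enc w P N n2 N2)
    (hok : staBOk w P N g ζ a n1 n2 = true) :
    STEnc w P N (staBT w P N g ζ a n1 n2)
      (fun t z => staB c c' e (Z t z) (A t z) (N1 t z) (N2 t z)) ∧
    ∀ t z, |t| ≤ 1 → (∀ i, |z i| ≤ 1) →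
      0 < ir c e (Z t z) 0 (A t z) (N1 t z) (N2 t z) * (1 / 2 * c 1 - Z t z) := by
  simp only [staBOk, Bool.and_eq_true] at hok
  obtain ⟨hb, hr, -⟩ := ini_enc hw hP hP1 hc he h1 (zero_enc (w := w) (P := P) (N := N)) h3 h4 h5 hok.1
  have hh := Enc.half (w := w) (P := P) (N := N) hP1
  have ah := Enc.mul hw hP h3 hh
  have bh := Enc.mul hw hP hb hh
  have rho := Enc.mul hw hP hr (Enc.nz hw (Enc.sub (Enc.pert (hc 1) hh) h1))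
  obtain ⟨hs, hpos⟩ := Enc.sqT hw hP hP1 rho hok.2
  refine ⟨STEnc.mk hs zero_enc (Enc.mul hw hP (Enc.mul hw hP hs (Enc.nz hw (Enc.sub
    (Enc.pert (hc 1) ah) h4))) hh) (Enc.mul hw hP (Enc.mul hw hP hs (Enc.nz hw (Enc.sub
    (Enc.pert (hc 1) bh) h5))) hh) (Enc.mul hw hP hr (Enc.nz hw (Enc.add (Enc.neg (Enc.add h1
    (Enc.pert (hc 0) hh))) (Enc.pert (hc' 0) (Enc.mul hw hP (Enc.nz hw (Enc.sub h1
    (Enc.pert (hc 1) hh))) hh))))) zero_enc (Enc.nz hw (Enc.add (Enc.neg (Enc.add h4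
    (Enc.pert (hc 0) ah))) (Enc.pert (hc' 0) (Enc.mul hw hP (Enc.nz hw (Enc.sub h4
    (Enc.pert (hc 1) ah))) hh)))) (Enc.nz hw (Enc.add (Enc.neg (Enc.add h5
    (Enc.pert (hc 0) bh))) (Enc.pert (hc' 0) (Enc.mul hw hP (Enc.nz hw (Enc.sub h5
    (Enc.pert (hc 1) bh))) hh)))), hpos⟩

/-- check of a start state -/
def staOk (w N : ℕ) (s : ST) (C : List (List ℤ)) (R : List ℕ) : Bool :=
  sck w N s.x0 (C.getD 0 []) (R.getD 0 0) && sck w N s.x1 (C.getD 1 []) (R.getD 1 0) &&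
  sck w N s.x2 (C.getD 2 []) (R.getD 2 0) && sck w N s.x3 (C.getD 3 []) (R.getD 3 0) &&
  sck w N s.x4 (C.getD 4 []) (R.getD 4 0) && sck w N s.x5 (C.getD 5 []) (R.getD 5 0) &&
  sck w N s.x6 (C.getD 6 []) (R.getD 6 0) && sck w N s.x7 (C.getD 7 []) (R.getD 7 0) &&
  (R.length == 8)

theorem staOk_in {w P N w' D : ℕ} (hw : 1 ≤ w) {s : ST} {C : List (List ℤ)} {R : List ℕ}
    {X : ℝ → (Fin 12 → ℝ) → (Fin 8 → ℝ)} (hs : STEnc w P N s X) (hok : staOk w N s C R = true)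
    (ξ : Fin 4 → ℝ) (hξ : ∀ i, |ξ i| ≤ 1) :
    InZ w' P D (zdiag w' D R) (fun i => X 0 (zz ξ 0) i - J P C ξ i) := by
  simp only [staOk, Bool.and_eq_true, beq_iff_eq] at hok
  obtain ⟨⟨⟨⟨⟨⟨⟨⟨h0, h1⟩, h2⟩, h3⟩, h4⟩, h5⟩, h6⟩, h7⟩, hl⟩ := hok
  refine zdiag_in hl (fun i => ?_)
  fin_cases i
  · exact sck_sound hw (hs 0) h0 ξ hξ
  · exact sck_sound hw (hs 1) h1 ξ hξ
  · exact sck_sound hw (hs 2) h2 ξ hξ
  · exact sck_sound hw (hs 3) h3 ξ hξ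
  · exact sck_sound hw (hs 4) h4 ξ hξ
  · exact sck_sound hw (hs 5) h5 ξ hξ
  · exact sck_sound hw (hs 6) h6 ξ hξ
  · exact sck_sound hw (hs 7) h7 ξ hξ

/-! ### switch -/

/-- guesses: `1/|z|²`, `1/|vA|`, `1/sqrt H` -/
structure Gw where
  r : ℤ
  a : ℤ
  h : ℤ

/-- `q`, velocities, `H` -/
structure WT where
  g : Geo
  VAx : TM
  VAy : TM
  VBx : TM
  VBy : TM
  H : TM

def swT (w P N : ℕ) (s : ST) (gw : Gw) : WT :=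
  let g := geo w P N s
  let ri := iv w P N g.r gw.r
  let qx := mul w P N (nz w N (sub (mul w P N s.x0 s.x2) (mul w P N s.x1 s.x3))) ri
  let qy := mul w P N (nz w N (add (mul w P N s.x0 s.x3) (mul w P N s.x1 s.x2))) ri
  ⟨g, nz w N (add s.x6 (pert qx)), nz w N (add s.x7 (pert qy)), nz w N (sub s.x6 (pert qx)),
    nz w N (sub s.x7 (pert qy)),
    mul w P N (nz w N (sub (mul w P N g.a2 (rs w P N g.a2 gw.a)) g.ax)) (chalf P)⟩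

def swS (w P N : ℕ) (t : WT) (gw : Gw) : ST :=
  let hh := chalf P
  let s1 := sqT w P N t.H gw.h
  let s2 := neg (mul w P N (mul w P N t.g.ay (rs w P N t.H gw.h)) hh)
  ⟨s1, s2, neg (mul w P N (nz w N (add (mul w P N s1 t.VAx) (mul w P N s2 t.VAy))) hh),
    neg (mul w P N (nz w N (sub (mul w P N s1 t.VAy) (mul w P N s2 t.VAx))) hh),
    nz w N (sub (pert (mul w P N t.g.ax hh)) t.g.bx), nz w N (sub (pert (mul w P N t.g.ay hh)) t.g.by_),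
    nz w N (sub (pert (mul w P N t.VAx hh)) t.VBx), nz w N (sub (pert (mul w P N t.VAy hh)) t.VBy)⟩

def swChk (w P N : ℕ) (t : WT) (gw : Gw) (s : ST) (c : Cert) : Bool :=
  ivOk w P N t.g.r gw.r && rsOk w P N t.g.a2 gw.a && rsOk w P N t.H gw.h &&
  mck w N s.x0 (c.C'.getD 0 []) (c.E.getD 0 []) (c.R.getD 0 0) &&
  mck w N s.x1 (c.C'.getD 1 []) (c.E.getD 1 []) (c.R.getD 1 0) &&
  mck w N s.x2 (c.C'.getD 2 []) (c.E.getD 2 []) (c.R.getD 2 0) &&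
  mck w N s.x3 (c.C'.getD 3 []) (c.E.getD 3 []) (c.R.getD 3 0) &&
  mck w N s.x4 (c.C'.getD 4 []) (c.E.getD 4 []) (c.R.getD 4 0) &&
  mck w N s.x5 (c.C'.getD 5 []) (c.E.getD 5 []) (c.R.getD 5 0) &&
  mck w N s.x6 (c.C'.getD 6 []) (c.E.getD 6 []) (c.R.getD 6 0) &&
  mck w N s.x7 (c.C'.getD 7 []) (c.E.getD 7 []) (c.R.getD 7 0)

def swOK (w P N : ℕ) (gw : Gw) (c : Cert) : Bool :=
  let t := swT w P N (st0 w N c.C c.B) gw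
  swChk w P N t gw (swS w P N t gw) c

theorem swOK_sound {w P N : ℕ} {gw : Gw} {cc : Cert} {c c' : Cst} (hc : CstOk c) (hc' : CstOk c')
    (hw : 1 ≤ w) (hP : P ≤ w) (hP1 : 1 ≤ P) (hok : swOK w P N gw cc = true) :
    MapP (swR2 c c') P cc ∧
      ∀ ξ : Fin 4 → ℝ, (∀ i, |ξ i| ≤ 1) → ∀ η : Fin 8 → ℝ, (∀ i, |η i| ≤ 1) → ∀ x : Fin 8 → ℝ,
        (∀ i : Fin 8, x i = J P cc.C ξ i + (cc.B.getD i 0 : ℝ) * η i / 2 ^ P) →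
        0 < wH c x ∧ 0 < lca2 c x := by
  set X : ℝ → (Fin 12 → ℝ) → (Fin 8 → ℝ) := fun _ z => xst P cc.C cc.B z with hX
  have hs := st0_enc (w := w) (P := P) (N := N) cc.C cc.B
  set s := st0 w N cc.C cc.B with hsdef
  have e0 : Enc w P N s.x0 (fun t z => X t z 0) := hs 0
  have e1 : Enc w P N s.x1 (fun t z => X t z 1) := hs 1
  have e2 : Enc w P N s.x2 (fun t z => X t z 2) := hs 2
  have e3 : Enc w P N s.x3 (fun t z => X t z 3) := hs 3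
  have e4 : Enc w P N s.x4 (fun t z => X t z 4) := hs 4
  have e5 : Enc w P N s.x5 (fun t z => X t z 5) := hs 5
  have e6 : Enc w P N s.x6 (fun t z => X t z 6) := hs 6
  have e7 : Enc w P N s.x7 (fun t z => X t z 7) := hs 7
  have hh := Enc.half (w := w) (P := P) (N := N) hP1
  have xx := Enc.mul hw hP e0 e0
  have yy := Enc.mul hw hP e1 e1
  have xy := Enc.mul hw hP e0 e1
  have xy0 := Enc.pert (hc 0) xy
  have xy1 := Enc.pert (hc 1) xy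
  have r := Enc.nz hw (Enc.add xx yy)
  have hp0 := Enc.pert (hc 0) (Enc.mul hw hP (Enc.sub xx yy) hh)
  have hp1 := Enc.pert (hc 1) (Enc.mul hw hP (Enc.sub xx yy) hh)
  have ax := Enc.nz hw (Enc.add e4 hp0)
  have ay := Enc.nz hw (Enc.add e5 xy0)
  have bx := Enc.nz hw (Enc.sub e4 hp1)
  have by_ := Enc.nz hw (Enc.sub e5 xy1)
  have a2 := Enc.nz hw (Enc.add (Enc.mul hw hP ax ax) (Enc.mul hw hP ay ay))
  simp only [swOK, swChk, Bool.and_eq_true] at hok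
  obtain ⟨⟨⟨⟨⟨⟨⟨⟨⟨⟨o1, o2⟩, o3⟩, m0⟩, m1⟩, m2⟩, m3⟩, m4⟩, m5⟩, m6⟩, m7⟩ := hok
  obtain ⟨ri, -⟩ := Enc.iv hw hP hP1 r o1
  obtain ⟨A, apos⟩ := Enc.rs hw hP hP1 a2 o2
  have qx := Enc.mul hw hP (Enc.nz hw (Enc.sub (Enc.mul hw hP e0 e2) (Enc.mul hw hP e1 e3))) ri
  have qy := Enc.mul hw hP (Enc.nz hw (Enc.add (Enc.mul hw hP e0 e3) (Enc.mul hw hP e1 e2))) ri
  have VAx := Enc.nz hw (Enc.add e6 (Enc.pert (hc 0) qx))
  have VAy := Enc.nz hw (Enc.add e7 (Enc.pert (hc 0) qy))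
  have VBx := Enc.nz hw (Enc.sub e6 (Enc.pert (hc 1) qx))
  have VBy := Enc.nz hw (Enc.sub e7 (Enc.pert (hc 1) qy))
  have H := Enc.mul hw hP (Enc.nz hw (Enc.sub (Enc.mul hw hP a2 A) ax)) hh
  obtain ⟨Hi, hpos⟩ := Enc.rs hw hP hP1 H o3
  obtain ⟨s1, -⟩ := Enc.sqT hw hP hP1 H o3
  have s2 := Enc.neg (Enc.mul hw hP (Enc.mul hw hP ay Hi) hh)
  have f2 := Enc.neg (Enc.mul hw hP (Enc.nz hw (Enc.add (Enc.mul hw hP s1 VAx)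
    (Enc.mul hw hP s2 VAy))) hh)
  have f3 := Enc.neg (Enc.mul hw hP (Enc.nz hw (Enc.sub (Enc.mul hw hP s1 VAy)
    (Enc.mul hw hP s2 VAx))) hh)
  have f4 := Enc.nz hw (Enc.sub (Enc.pert (hc' 0) (Enc.mul hw hP ax hh)) bx)
  have f5 := Enc.nz hw (Enc.sub (Enc.pert (hc' 0) (Enc.mul hw hP ay hh)) by_)
  have f6 := Enc.nz hw (Enc.sub (Enc.pert (hc' 0) (Enc.mul hw hP VAx hh)) VBx)
  have f7 := Enc.nz hw (Enc.sub (Enc.pert (hc' 0) (Enc.mul hw hP VAy hh)) VBy)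
  have hx : ∀ ξ : Fin 4 → ℝ, ∀ η : Fin 8 → ℝ, ∀ x : Fin 8 → ℝ,
      (∀ i : Fin 8, x i = J P cc.C ξ i + (cc.B.getD i 0 : ℝ) * η i / 2 ^ P) →
      x = X 0 (zz ξ η) := by
    intro ξ η x h
    funext i
    rw [h i, xst_eq]
  have hzz : ∀ ξ : Fin 4 → ℝ, (∀ i, |ξ i| ≤ 1) → ∀ η : Fin 8 → ℝ, (∀ i, |η i| ≤ 1) →
      ∀ i, |zz ξ η i| ≤ 1 := by
    intro ξ hξ η hη i
    unfold zz
    split_ifs
    · exact hξ _
    · exact hη _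
  constructor
  · intro ξ hξ η hη x h i
    rw [hx ξ η x h]
    fin_cases i
    · exact mck_sound hw s1 m0 ξ hξ η hη
    · exact mck_sound hw s2 m1 ξ hξ η hη
    · exact mck_sound hw f2 m2 ξ hξ η hη
    · exact mck_sound hw f3 m3 ξ hξ η hη
    · exact mck_sound hw f4 m4 ξ hξ η hη
    · exact mck_sound hw f5 m5 ξ hξ η hη
    · exact mck_sound hw f6 m6 ξ hξ η hη
    · exact mck_sound hw f7 m7 ξ hξ η hη
  · intro ξ hξ η hη x h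
    rw [hx ξ η x h]
    exact ⟨hpos 0 (zz ξ η) (by simp) (hzz ξ hξ η hη), apos 0 (zz ξ η) (by simp) (hzz ξ hξ η hη)⟩

end Pool.Agent.H2TM
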