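import Pool.Agent.Helper2_TM.Ops3

/-!
# The Levi-Civita form of the planar three body problem (masses 1, energy -1)

State `x : Fin 8 → ℝ` = `(w₁, w₂, w₁', w₂', l₁, l₂, n₁, n₂)`: tight pair vector `ρ = w²`,
outer vector `lam = (l₁,l₂)`, its velocity `ν = (n₁,n₂)`, fictitious time `dt = |w|² ds`.
-/

namespace Pool.Agent.H2TM

open Finset

noncomputable section

/-- factors near `1` (mass dependent): `2w₁, 2w₀, m₀m₂/(2k₁), m₁m₂/(2k₁), 1/(2k₁), 3k₂/(4k₁), m₂,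
`2 m_T m₀/(3(m₀+m₁)), 2 m_T m₁/(3(m₀+m₁))` -/
abbrev Cst := Fin 9 → ℝ

def lcr (x : Fin 8 → ℝ) : ℝ := x 0 * x 0 + x 1 * x 1
def lcax (c : Cst) (x : Fin 8 → ℝ) : ℝ := x 4 + (x 0 * x 0 - x 1 * x 1) * (1 / 2) * c 0
def lcay (c : Cst) (x : Fin 8 → ℝ) : ℝ := x 5 + x 0 * x 1 * c 0
def lcbx (c : Cst) (x : Fin 8 → ℝ) : ℝ := x 4 - (x 0 * x 0 - x 1 * x 1) * (1 / 2) * c 1
def lcby (c : Cst) (x : Fin 8 → ℝ) : ℝ := x 5 - x 0 * x 1 * c 1
def lca2 (c : Cst) (x : Fin 8 → ℝ) : ℝ := lcax c x * lcax c x + lcay c x * lcay c x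
def lcb2 (c : Cst) (x : Fin 8 → ℝ) : ℝ := lcbx c x * lcbx c x + lcby c x * lcby c x
def lcA (c : Cst) (x : Fin 8 → ℝ) : ℝ := 1 / Real.sqrt (lca2 c x)
def lcB (c : Cst) (x : Fin 8 → ℝ) : ℝ := 1 / Real.sqrt (lcb2 c x)
def lcA3 (c : Cst) (x : Fin 8 → ℝ) : ℝ := lcA c x * lcA c x * lcA c x
def lcB3 (c : Cst) (x : Fin 8 → ℝ) : ℝ := lcB c x * lcB c x * lcB c x
def lcfax (c : Cst) (x : Fin 8 → ℝ) : ℝ := lcA3 c x * lcax c x
def lcfay (c : Cst) (x : Fin 8 → ℝ) : ℝ := lcA3 c x * lcay c x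
def lcfbx (c : Cst) (x : Fin 8 → ℝ) : ℝ := lcB3 c x * lcbx c x
def lcfby (c : Cst) (x : Fin 8 → ℝ) : ℝ := lcB3 c x * lcby c x
def lcdx (c : Cst) (x : Fin 8 → ℝ) : ℝ := (lcfbx c x - lcfax c x) * c 6
def lcdy (c : Cst) (x : Fin 8 → ℝ) : ℝ := (lcfby c x - lcfay c x) * c 6
def lcH (c : Cst) (x : Fin 8 → ℝ) : ℝ :=
  lcA c x * c 2 + lcB c x * c 3 - 1 * c 4 - (x 6 * x 6 + x 7 * x 7) * (1 / 3) * c 5

/-- the field -/
def lcF (c : Cst) (x : Fin 8 → ℝ) : Fin 8 → ℝ :=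
  ![x 2, x 3,
    lcH c x * x 0 + lcr x * (1 / 2) * (x 0 * lcdx c x + x 1 * lcdy c x),
    lcH c x * x 1 + lcr x * (1 / 2) * (x 0 * lcdy c x - x 1 * lcdx c x),
    lcr x * x 6, lcr x * x 7,
    -(lcr x * (1 / 2) * (lcfax c x * c 7 + lcfbx c x * c 8) * 3),
    -(lcr x * (1 / 2) * (lcfay c x * c 7 + lcfby c x * c 8) * 3)]

/-- domain of the field -/
def lcOk (c : Cst) (x : Fin 8 → ℝ) : Prop := 0 < lca2 c x ∧ 0 < lcb2 c x

end

/-- eight Taylor models -/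
structure ST where
  x0 : TM
  x1 : TM
  x2 : TM
  x3 : TM
  x4 : TM
  x5 : TM
  x6 : TM
  x7 : TM

/-- component -/
def ST.get (s : ST) : Fin 8 → TM := ![s.x0, s.x1, s.x2, s.x3, s.x4, s.x5, s.x6, s.x7]

def STEnc (w P N : ℕ) (s : ST) (X : ℝ → (Fin 12 → ℝ) → (Fin 8 → ℝ)) : Prop :=
  ∀ i, Enc w P N (s.get i) (fun t z => X t z i)

/-- multiplication by a factor within `2^-46` of `1` -/
def pert (a : TM) : TM := widen a ((a.nrm + a.rem) / 2 ^ 46 + 1)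

theorem Enc.pert {w P N : ℕ} {a : TM} {F : ℝ → (Fin 12 → ℝ) → ℝ} {c : ℝ}
    (hc : |c - 1| ≤ 1 / 2 ^ 46) (ha : Enc w P N a F) : Enc w P N (pert a) (fun t z => F t z * c) := by
  refine Enc.widen _ ha (fun t z ht hz => ?_)
  have hb := ha.bound t z ht hz
  apply finish_div46
  have e : F t z * c - F t z = F t z * (c - 1) := by ring
  rw [e, abs_mul]
  have hp : (0 : ℝ) < 2 ^ P := by positivity
  calc |F t z| * |c - 1| * 2 ^ P * 2 ^ 46 = (|F t z| * 2 ^ P) * (|c - 1| * 2 ^ 46) := by ring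
    _ ≤ ((a.nrm : ℝ) + (a.rem : ℝ)) * 1 := by
      apply mul_le_mul hb _ (by positivity) (by positivity)
      calc |c - 1| * 2 ^ 46 ≤ 1 / 2 ^ 46 * 2 ^ 46 := mul_le_mul_of_nonneg_right hc (by positivity)
        _ = 1 := by norm_num
    _ = ((a.nrm + a.rem : ℕ) : ℝ) := by push_cast; ring
where
  finish_div46 {x : ℝ} {E : ℕ} (h : x * 2 ^ 46 ≤ (E : ℝ)) : x ≤ ((E / 2 ^ 46 + 1 : ℕ) : ℝ) := by
    have h4 : E < (E / 2 ^ 46 + 1) * 2 ^ 46 := by omega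
    have h5 : (E : ℝ) ≤ ((E / 2 ^ 46 + 1 : ℕ) : ℝ) * 2 ^ 46 := by exact_mod_cast h4.le
    exact le_of_mul_le_mul_right (h.trans h5) (by positivity)

/-- result of the field evaluation -/
structure FR where
  f : ST
  ok : Bool

/-- one half -/
def chalf (P : ℕ) : TM := cst (2 ^ (P - 1)) 0
/-- one third -/
def cthird (P : ℕ) : TM := cst (2 ^ P / 3) 1
/-- one -/
def cone (P : ℕ) : TM := cst (2 ^ P) 0

/-- all checks of a reciprocal square root -/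
def rsqOk (w P N : ℕ) (a y : TM) : Bool :=
  decide (rsqE w P N a y ≤ 2 ^ (P - 1)) && posOk w y

/-- geometry of a state: `r`, `a`, `b`, `|a|²`, `|b|²` -/
structure Geo where
  r : TM
  ax : TM
  ay : TM
  bx : TM
  by_ : TM
  a2 : TM
  b2 : TM

def geoOf (w P N : ℕ) (s : ST) (xx yy xy hp : TM) : Geo :=
  let ax := nz w N (add s.x4 hp)
  let ay := nz w N (add s.x5 xy)
  let bx := nz w N (sub s.x4 hp)
  let by_ := nz w N (sub s.x5 xy)
  ⟨nz w N (add xx yy), ax, ay, bx, by_, nz w N (add (mul w P N ax ax) (mul w P N ay ay)),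
    nz w N (add (mul w P N bx bx) (mul w P N by_ by_))⟩

def geo (w P N : ℕ) (s : ST) : Geo :=
  let xx := mul w P N s.x0 s.x0
  let yy := mul w P N s.x1 s.x1
  geoOf w P N s xx yy (pert (mul w P N s.x0 s.x1)) (pert (mul w P N (sub xx yy) (chalf P)))

def fldG3 (w P N : ℕ) (s : ST) (A B nn hr r dx dy fax fay fbx fby : TM) : ST :=
  let H := nz w N (sub (sub (add (pert A) (pert B)) (pert (cone P))) nn)
  let gx := nz w N (add (mul w P N s.x0 dx) (mul w P N s.x1 dy))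
  let gy := nz w N (sub (mul w P N s.x0 dy) (mul w P N s.x1 dx))
  ⟨s.x2, s.x3,
    nz w N (add (mul w P N H s.x0) (mul w P N hr gx)),
    nz w N (add (mul w P N H s.x1) (mul w P N hr gy)),
    mul w P N r s.x6, mul w P N r s.x7,
    neg (smul 3 (mul w P N hr (nz w N (add (pert fax) (pert fbx))))),
    neg (smul 3 (mul w P N hr (nz w N (add (pert fay) (pert fby)))))⟩

def fldG2 (w P N : ℕ) (s : ST) (A B r fax fay fbx fby : TM) : ST :=
  fldG3 w P N s A B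
    (pert (mul w P N (add (mul w P N s.x6 s.x6) (mul w P N s.x7 s.x7)) (cthird P)))
    (mul w P N r (chalf P)) r (pert (nz w N (sub fbx fax))) (pert (nz w N (sub fby fay)))
    fax fay fbx fby

/-- the field from the geometry and `1/|a|`, `1/|b|` -/
def fldG (w P N : ℕ) (s : ST) (g : Geo) (A B : TM) : ST :=
  let A3 := mul w P N (mul w P N A A) A
  let B3 := mul w P N (mul w P N B B) B
  fldG2 w P N s A B g.r (mul w P N A3 g.ax) (mul w P N A3 g.ay) (mul w P N B3 g.bx)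
    (mul w P N B3 g.by_)

/-- the field on Taylor models; `ya`, `yb` candidates for `1/|a|`, `1/|b|` -/
def fldTM (w P N : ℕ) (s : ST) (ya yb : TM) : FR :=
  let g := geo w P N s
  ⟨fldG w P N s g (rsq w P N g.a2 ya) (rsq w P N g.b2 yb),
    rsqOk w P N g.a2 ya && rsqOk w P N g.b2 yb⟩

theorem Enc.half {w P N : ℕ} (hP : 1 ≤ P) : Enc w P N (chalf P) (fun _ _ => 1 / 2) := by
  refine Enc.cst _ _ _ ?_
  obtain ⟨q, rfl⟩ : ∃ q, P = q + 1 := ⟨P - 1, by omega⟩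
  rw [Nat.add_sub_cancel]
  push_cast
  rw [pow_succ]
  have : (1 : ℝ) / 2 * (2 ^ q * 2) - 2 ^ q = 0 := by ring
  rw [this]; simp

theorem Enc.third {w P N : ℕ} : Enc w P N (cthird P) (fun _ _ => 1 / 3) := by
  refine Enc.cst _ _ _ ?_
  have h1 := Int.emod_add_mul_ediv (2 ^ P) 3
  have h2 := Int.emod_nonneg (2 ^ P : ℤ) (show (3 : ℤ) ≠ 0 by norm_num)
  have h3 := Int.emod_lt_of_pos (2 ^ P : ℤ) (show (0 : ℤ) < 3 by norm_num)
  have e : (1 : ℝ) / 3 * 2 ^ P - (((2 : ℤ) ^ P / 3 : ℤ) : ℝ) = (((2 : ℤ) ^ P % 3 : ℤ) : ℝ) / 3 := by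
    have : ((2 : ℝ) ^ P) = (((2 : ℤ) ^ P % 3 : ℤ) : ℝ) + 3 * (((2 : ℤ) ^ P / 3 : ℤ) : ℝ) := by
      exact_mod_cast h1.symm
    rw [this]; ring
  rw [e]
  have h4 : (0 : ℝ) ≤ (((2 : ℤ) ^ P % 3 : ℤ) : ℝ) := by exact_mod_cast h2
  have h5 : (((2 : ℤ) ^ P % 3 : ℤ) : ℝ) < 3 := by exact_mod_cast h3
  rw [abs_of_nonneg (by positivity)]
  push_cast at h5 ⊢
  linarith

theorem STEnc.mk {w P N : ℕ} {s : ST} {X : ℝ → (Fin 12 → ℝ) → (Fin 8 → ℝ)}
    (h0 : Enc w P N s.x0 (fun t z => X t z 0)) (h1 : Enc w P N s.x1 (fun t z => X t z 1))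
    (h2 : Enc w P N s.x2 (fun t z => X t z 2)) (h3 : Enc w P N s.x3 (fun t z => X t z 3))
    (h4 : Enc w P N s.x4 (fun t z => X t z 4)) (h5 : Enc w P N s.x5 (fun t z => X t z 5))
    (h6 : Enc w P N s.x6 (fun t z => X t z 6)) (h7 : Enc w P N s.x7 (fun t z => X t z 7)) :
    STEnc w P N s X := by
  intro i
  fin_cases i <;> assumption

/-- the constants are within `2^-46` of one -/
def CstOk (c : Cst) : Prop := ∀ i, |c i - 1| ≤ 1 / 2 ^ 46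

theorem fldTM_enc {w P N : ℕ} {s : ST} {ya yb : TM} {X : ℝ → (Fin 12 → ℝ) → (Fin 8 → ℝ)}
    {YA YB : ℝ → (Fin 12 → ℝ) → ℝ} {c : Cst} (hc : CstOk c) (hw : 1 ≤ w) (hP : P ≤ w) (hP1 : 1 ≤ P)
    (hs : STEnc w P N s X) (hya : Enc w P N ya YA) (hyb : Enc w P N yb YB)
    (hok : (fldTM w P N s ya yb).ok = true) :
    STEnc w P N (fldTM w P N s ya yb).f (fun t z => lcF c (X t z)) ∧
      ∀ t z, |t| ≤ 1 → (∀ i, |z i| ≤ 1) → lcOk c (X t z) := by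
  have e0 : Enc w P N s.x0 (fun t z => X t z 0) := hs 0
  have e1 : Enc w P N s.x1 (fun t z => X t z 1) := hs 1
  have e2 : Enc w P N s.x2 (fun t z => X t z 2) := hs 2
  have e3 : Enc w P N s.x3 (fun t z => X t z 3) := hs 3
  have e4 : Enc w P N s.x4 (fun t z => X t z 4) := hs 4
  have e5 : Enc w P N s.x5 (fun t z => X t z 5) := hs 5
  have e6 : Enc w P N s.x6 (fun t z => X t z 6) := hs 6
  have e7 : Enc w P N s.x7 (fun t z => X t z 7) := hs 7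
  have xx := Enc.mul hw hP e0 e0
  have yy := Enc.mul hw hP e1 e1
  have xy0 := Enc.pert (hc 0) (Enc.mul hw hP e0 e1)
  have xy1 := Enc.pert (hc 1) (Enc.mul hw hP e0 e1)
  have r := Enc.nz hw (Enc.add xx yy)
  have hp0 := Enc.pert (hc 0) (Enc.mul hw hP (Enc.sub xx yy) (Enc.half (w := w) (P := P) (N := N) hP1))
  have hp1 := Enc.pert (hc 1) (Enc.mul hw hP (Enc.sub xx yy) (Enc.half (w := w) (P := P) (N := N) hP1))
  have ax := Enc.nz hw (Enc.add e4 hp0)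
  have ay := Enc.nz hw (Enc.add e5 xy0)
  have bx := Enc.nz hw (Enc.sub e4 hp1)
  have by_ := Enc.nz hw (Enc.sub e5 xy1)
  have a2 := Enc.nz hw (Enc.add (Enc.mul hw hP ax ax) (Enc.mul hw hP ay ay))
  have b2 := Enc.nz hw (Enc.add (Enc.mul hw hP bx bx) (Enc.mul hw hP by_ by_))
  simp only [fldTM, geo, geoOf, rsqOk, Bool.and_eq_true] at hok
  obtain ⟨A, apos⟩ := Enc.rsq hw hP hP1 a2 hya (of_decide_eq_true hok.1.1) hok.1.2
  obtain ⟨B, bpos⟩ := Enc.rsq hw hP hP1 b2 hyb (of_decide_eq_true hok.2.1) hok.2.2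
  have A3 := Enc.mul hw hP (Enc.mul hw hP A A) A
  have B3 := Enc.mul hw hP (Enc.mul hw hP B B) B
  have fax := Enc.mul hw hP A3 ax
  have fay := Enc.mul hw hP A3 ay
  have fbx := Enc.mul hw hP B3 bx
  have fby := Enc.mul hw hP B3 by_
  have dx := Enc.pert (hc 6) (Enc.nz hw (Enc.sub fbx fax))
  have dy := Enc.pert (hc 6) (Enc.nz hw (Enc.sub fby fay))
  have nn := Enc.pert (hc 5) (Enc.mul hw hP (Enc.add (Enc.mul hw hP e6 e6) (Enc.mul hw hP e7 e7))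
    (Enc.third (w := w) (P := P) (N := N)))
  have H := Enc.nz hw (Enc.sub (Enc.sub (Enc.add (Enc.pert (hc 2) A) (Enc.pert (hc 3) B))
    (Enc.pert (hc 4) (Enc.one (w := w) (P := P) (N := N)))) nn)
  have hr := Enc.mul hw hP r (Enc.half (w := w) (P := P) (N := N) hP1)
  have gx := Enc.nz hw (Enc.add (Enc.mul hw hP e0 dx) (Enc.mul hw hP e1 dy))
  have gy := Enc.nz hw (Enc.sub (Enc.mul hw hP e0 dy) (Enc.mul hw hP e1 dx))
  have f2 := Enc.nz hw (Enc.add (Enc.mul hw hP H e0) (Enc.mul hw hP hr gx))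
  have f3 := Enc.nz hw (Enc.add (Enc.mul hw hP H e1) (Enc.mul hw hP hr gy))
  have f4 := Enc.mul hw hP r e6
  have f5 := Enc.mul hw hP r e7
  have f6 := Enc.neg (Enc.smul 3 (Enc.mul hw hP hr
    (Enc.nz hw (Enc.add (Enc.pert (hc 7) fax) (Enc.pert (hc 8) fbx)))))
  have f7 := Enc.neg (Enc.smul 3 (Enc.mul hw hP hr
    (Enc.nz hw (Enc.add (Enc.pert (hc 7) fay) (Enc.pert (hc 8) fby)))))
  refine ⟨STEnc.mk e2 e3 (f2.congr ?_) (f3.congr ?_) (f4.congr ?_) (f5.congr ?_) (f6.congr ?_)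
    (f7.congr ?_), fun t z ht hz => ⟨apos t z ht hz, bpos t z ht hz⟩⟩
  · intro t z _ _; rfl
  · intro t z _ _; rfl
  · intro t z _ _; rfl
  · intro t z _ _; rfl
  · intro t z _ _
    show -(lcr (X t z) * (1 / 2) * (lcfax c (X t z) * c 7 + lcfbx c (X t z) * c 8) * 3) = _
    push_cast; rfl
  · intro t z _ _
    show -(lcr (X t z) * (1 / 2) * (lcfay c (X t z) * c 7 + lcfby c (X t z) * c 8) * 3) = _
    push_cast; rfl

end Pool.Agent.H2TM
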