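import Pool.Agent.Helper2_TM.TM

namespace Pool.Agent.H2TM

open Finset

/-- `∑ k < n, 2^(w k)` -/
def rep (w n : ℕ) : ℕ := (2 ^ (w * n) - 1) / (2 ^ w - 1)

theorem rep_eq (w n : ℕ) (hw : 1 ≤ w) : rep w n = ∑ k ∈ range n, 2 ^ (w * k) := by
  have h2 : 2 ≤ 2 ^ w := by
    calc 2 = 2 ^ 1 := by norm_num
      _ ≤ 2 ^ w := Nat.pow_le_pow_right (by norm_num) hw
  have h := Nat.geomSum_eq h2 n
  unfold rep
  rw [pow_mul, ← h]
  exact sum_congr rfl (fun k _ => by rw [pow_mul])

/-- characteristic vector of the valid slots -/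
def Gc (w N : ℕ) : ℕ := rep w (N + 1) * (vs.foldr (fun s a => 2 ^ (w * (tw N * s)) + a) 0)

theorem foldr_sum (g : ℕ → ℕ) (l : List ℕ) : l.foldr (fun s a => g s + a) 0 = (l.map g).sum := by
  induction l with
  | nil => rfl
  | cons a l ih => simp [ih]

theorem vs_nodup : vs.Nodup := by decide +kernel

theorem sum_groups (N : ℕ) (h : ℕ → ℕ) (m : ℕ) :
    ∑ k ∈ range (m * tw N), (if valid N k then h k else 0)
      = ∑ s ∈ range m, (if s ∈ vs then ∑ i ∈ range (N + 1), h (tw N * s + i) else 0) := by
  induction m with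
  | zero => simp
  | succ m ih =>
    rw [Nat.succ_mul, sum_range_add, ih, sum_range_succ]
    congr 1
    have hT := tw_pos N
    by_cases hs : m ∈ vs
    · rw [if_pos hs]
      have hsub : range (N + 1) ⊆ range (tw N) := range_mono (by unfold tw; omega)
      rw [← sum_subset hsub (f := fun i => if valid N (m * tw N + i) then h (m * tw N + i) else 0)]
      · refine sum_congr rfl (fun i hi => ?_)
        have hi' := mem_range.mp hi
        have hlt : i < tw N := by unfold tw; omega
        have hv : valid N (m * tw N + i) = true := by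
          rw [valid_iff]
          constructor
          · rw [Nat.mul_add_mod_self_right, Nat.mod_eq_of_lt hlt]; omega
          · rw [Nat.add_comm, Nat.add_mul_div_right _ _ hT, Nat.div_eq_of_lt hlt, Nat.zero_add]
            exact hs
        rw [if_pos hv, Nat.mul_comm m]
      · intro i hi hi'
        have h1 := mem_range.mp hi
        have h2 : N + 1 ≤ i := by simpa using hi'
        have hv : valid N (m * tw N + i) = false := by
          by_contra hc
          have hc' : valid N (m * tw N + i) = true := by simpa using hc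
          rw [valid_iff, Nat.mul_add_mod_self_right, Nat.mod_eq_of_lt h1] at hc'
          omega
        simp [hv]
    · rw [if_neg hs]
      apply sum_eq_zero
      intro i hi
      have h1 := mem_range.mp hi
      have hv : valid N (m * tw N + i) = false := by
        by_contra hc
        have hc' : valid N (m * tw N + i) = true := by simpa using hc
        rw [valid_iff, Nat.add_comm, Nat.add_mul_div_right _ _ hT, Nat.div_eq_of_lt h1,
          Nat.zero_add] at hc'
        exact hs hc'.2
      simp [hv]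

theorem Gc_eq (w N : ℕ) (hw : 1 ≤ w) :
    Gc w N = pk w (ns N) (fun k => if valid N k then 1 else 0) := by
  have h1 : pk w (ns N) (fun k => if valid N k then 1 else 0)
      = ∑ k ∈ range (49 * tw N), (if valid N k then 2 ^ (w * k) else 0) := by
    unfold pk ns
    refine sum_congr rfl (fun k _ => ?_)
    by_cases hv : valid N k = true <;> simp [hv]
  rw [h1, sum_groups N (fun k => 2 ^ (w * k)) 49]
  have h2 : ∀ s, ∑ i ∈ range (N + 1), 2 ^ (w * (tw N * s + i))
      = rep w (N + 1) * 2 ^ (w * (tw N * s)) := by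
    intro s
    rw [rep_eq w (N + 1) hw, sum_mul]
    refine sum_congr rfl (fun i _ => ?_)
    rw [Nat.mul_add, pow_add]; ring
  simp_rw [h2]
  unfold Gc
  rw [foldr_sum (fun s => 2 ^ (w * (tw N * s)))]
  have h3 : ∑ s ∈ range 49, (if s ∈ vs then rep w (N + 1) * 2 ^ (w * (tw N * s)) else 0)
      = ∑ s ∈ vs.toFinset, rep w (N + 1) * 2 ^ (w * (tw N * s)) := by
    rw [← sum_filter]
    apply sum_congr _ (fun _ _ => rfl)
    ext s
    simp only [mem_filter, mem_range, List.mem_toFinset]
    exact ⟨fun h => h.2, fun h => ⟨vs_lt s h, h⟩⟩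
  rw [h3, ← mul_sum, List.sum_toFinset _ vs_nodup]

theorem Gc_mul (w N c : ℕ) (hw : 1 ≤ w) :
    Gc w N * c = pk w (ns N) (fun k => if valid N k then c else 0) := by
  rw [Gc_eq w N hw, pk_smul]
  apply pk_congr
  intro k _
  by_cases hv : valid N k = true <;> simp [hv]

/-- product of Taylor models -/
def mul (w P N : ℕ) (a b : TM) : TM :=
  if a.nrm * b.nrm < 2 ^ (w - 1) then
    let pp := Nat.land (a.pos * b.pos + a.neg * b.neg) (Gc w N * (2 ^ w - 1))
    let qq := Nat.land (a.pos * b.neg + a.neg * b.pos) (Gc w N * (2 ^ w - 1))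
    let kept := (pp + qq) % (2 ^ w - 1)
    let p1 := posPart w (Gc w N * 2 ^ (w - 1)) pp qq
    let q1 := p1 + qq - pp
    let pl := Nat.land p1 (Gc w N * (2 ^ P - 1))
    let ql := Nat.land q1 (Gc w N * (2 ^ P - 1))
    let p2 := (p1 - pl) >>> P
    let q2 := (q1 - ql) >>> P
    ⟨p2, q2, (p2 + q2) % (2 ^ w - 1),
      (a.nrm * b.nrm - kept + (pl + ql) % (2 ^ w - 1) + a.nrm * b.rem + b.nrm * a.rem
        + a.rem * b.rem) / 2 ^ P + 1⟩
  else ⟨0, 0, 0, ((a.nrm + a.rem) * (b.nrm + b.rem)) / 2 ^ P + 1⟩

end Pool.Agent.H2TM
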