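import Pool.Agent.Helper2_TM.Mul

namespace Pool.Agent.H2TM

open Finset

theorem pk_shorten (w N M : ℕ) (h : ns N ≤ M) (f : ℕ → ℕ) :
    pk w M (fun k => if valid N k then f k else 0) = pk w (ns N) (fun k => if valid N k then f k else 0) := by
  apply pk_extend w (ns N) M h
  intro k hk
  have : ¬ valid N k = true := fun hv => by
    have := valid_lt N k hv
    omega
  simp [this]

theorem neg_part (w n : ℕ) (p q : ℕ → ℕ) :
    pk w n (fun k => p k - q k) + pk w n q - pk w n p = pk w n (fun k => q k - p k) := by
  rw [pk_add, pk_sub]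
  · apply pk_congr
    intro k _
    omega
  · intro k _
    omega

/-- value identity for differences -/
theorem V_diff (N : ℕ) (t : ℝ) (z : Fin 12 → ℝ) (p q : ℕ → ℕ) :
    V N t z (fun k => p k - q k) - V N t z (fun k => q k - p k) = V N t z p - V N t z q := by
  unfold V
  rw [← sum_sub_distrib, ← sum_sub_distrib]
  refine sum_congr rfl (fun k _ => ?_)
  rw [← sub_mul, ← sub_mul]
  congr 1
  show ((p k - q k : ℕ) : ℝ) - ((q k - p k : ℕ) : ℝ) = (p k : ℝ) - (q k : ℝ)
  rcases le_total (q k) (p k) with h | h
  · rw [Nat.cast_sub h, Nat.sub_eq_zero_of_le h]; simp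
  · rw [Nat.cast_sub h, Nat.sub_eq_zero_of_le h]; simp

theorem V_divmod (N P : ℕ) (t : ℝ) (z : Fin 12 → ℝ) (p : ℕ → ℕ) :
    V N t z p = V N t z (fun k => p k / 2 ^ P) * 2 ^ P + V N t z (fun k => p k % 2 ^ P) := by
  have h1 := V_mul_const N t z (fun k => p k / 2 ^ P) (2 ^ P)
  push_cast at h1
  rw [← h1, ← V_add]
  unfold V
  refine sum_congr rfl (fun k _ => ?_)
  have : p k = p k / 2 ^ P * 2 ^ P + p k % 2 ^ P := (Nat.div_add_mod' _ _).symm
  congr 1
  exact_mod_cast this

/-- the product of two values minus the kept part of the convolution -/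
theorem V_mul_kept (N M : ℕ) (hM : ns N + ns N ≤ M + 1) (t : ℝ) (z : Fin 12 → ℝ) (ht : |t| ≤ 1)
    (hz : ∀ i, |z i| ≤ 1) (f g : ℕ → ℕ) (vf : ∀ k, valid N k = false → f k = 0)
    (vg : ∀ k, valid N k = false → g k = 0) :
    |V N t z f * V N t z g
        - V N t z (fun r => if valid N r then cv (ns N) (ns N) f g r else 0)|
      ≤ (∑ r ∈ range M, (cv (ns N) (ns N) f g r : ℝ)) -
        ∑ r ∈ range M, (if valid N r then (cv (ns N) (ns N) f g r : ℝ) else 0) := by
  have hN : ns N ≤ M := by
    have : 1 ≤ ns N := by unfold ns tw; omega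
    omega
  -- kept value as a sum over the long range
  have e1 : V N t z (fun r => if valid N r then cv (ns N) (ns N) f g r else 0)
      = ∑ r ∈ range M, (cv (ns N) (ns N) f g r : ℝ) * (if valid N r then mu N t z r else 0) := by
    unfold V
    rw [← sum_subset (range_mono hN)
      (f := fun r => (cv (ns N) (ns N) f g r : ℝ) * (if valid N r then mu N t z r else 0))]
    · refine sum_congr rfl (fun r _ => ?_)
      by_cases hv : valid N r = true <;> simp [hv]
    · intro r _ hr
      have hr' : ns N ≤ r := by simpa using hr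
      have : ¬ valid N r = true := fun hv => by
        have := valid_lt N r hv
        omega
      simp [this]
  rw [e1, cv_sum (R := ℝ) (ns N) (ns N) M hM f g]
  have e2 : ∑ r ∈ range M, (cv (ns N) (ns N) f g r : ℝ)
      = ∑ k ∈ range (ns N), ∑ l ∈ range (ns N), ((f k : ℝ) * (g l : ℝ)) * 1 := by
    rw [← cv_sum (R := ℝ) (ns N) (ns N) M hM f g (fun _ => 1)]
    simp
  have e3 : ∑ r ∈ range M, (if valid N r then (cv (ns N) (ns N) f g r : ℝ) else 0)
      = ∑ k ∈ range (ns N), ∑ l ∈ range (ns N),
          ((f k : ℝ) * (g l : ℝ)) * (if valid N (k + l) then 1 else 0) := by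
    rw [← cv_sum (R := ℝ) (ns N) (ns N) M hM f g (fun r => if valid N r then 1 else 0)]
    refine sum_congr rfl (fun r _ => ?_)
    by_cases hv : valid N r = true <;> simp [hv]
  rw [e2, e3]
  have e4 : V N t z f * V N t z g
      = ∑ k ∈ range (ns N), ∑ l ∈ range (ns N), ((f k : ℝ) * (g l : ℝ)) * (mu N t z k * mu N t z l) := by
    unfold V
    rw [sum_mul_sum]
    exact sum_congr rfl (fun k _ => sum_congr rfl (fun l _ => by ring))
  rw [e4, ← sum_sub_distrib, ← sum_sub_distrib]
  refine (abs_sum_le_sum_abs _ _).trans (sum_le_sum (fun k _ => ?_))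
  rw [← sum_sub_distrib, ← sum_sub_distrib]
  refine (abs_sum_le_sum_abs _ _).trans (sum_le_sum (fun l _ => ?_))
  rw [← mul_sub, ← mul_sub, abs_mul]
  have hfg : (0 : ℝ) ≤ (f k : ℝ) * (g l : ℝ) := by positivity
  rw [abs_of_nonneg hfg]
  by_cases hfk : f k = 0
  · simp [hfk]
  by_cases hgl : g l = 0
  · simp [hgl]
  have hvk : valid N k = true := by
    by_contra h
    exact hfk (vf k (by simpa using h))
  have hvl : valid N l = true := by
    by_contra h
    exact hgl (vg l (by simpa using h))
  refine mul_le_mul_of_nonneg_left ?_ hfg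
  by_cases hv : valid N (k + l) = true
  · simp only [hv, if_true]
    rw [mu_mul N t z k l hvk hvl hv]
    simp
  · have hv' : valid N (k + l) = false := by simpa using hv
    simp only [hv', Bool.false_eq_true, if_false, sub_zero]
    rw [abs_mul]
    exact mul_le_one₀ (abs_mu_le N t z ht hz k) (abs_nonneg _) (abs_mu_le N t z ht hz l)

/-- the reduced difference of two digit vectors -/
theorem nz_core (w N : ℕ) (hw : 1 ≤ w) (p q : ℕ → ℕ) (vp : ∀ k, valid N k = false → p k = 0)
    (vq : ∀ k, valid N k = false → q k = 0) (hb : ∀ k, k < ns N → p k + q k < 2 ^ (w - 1)) :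
    posPart w (Gc w N * 2 ^ (w - 1)) (pk w (ns N) p) (pk w (ns N) q)
      = pk w (ns N) (fun k => p k - q k) := by
  rw [Gc_mul w N _ hw]
  exact posPart_eq w (ns N) (valid N) p q hw (fun k hk => by have := hb k hk; omega)
    (fun k hk => by have := hb k hk; omega) vp vq

theorem digit_le_sum (n : ℕ) (h : ℕ → ℕ) (k : ℕ) (hk : k < n) : h k ≤ ∑ r ∈ range n, h r :=
  single_le_sum (fun _ _ => Nat.zero_le _) (mem_range.mpr hk)

theorem finish_div (P E : ℕ) (x : ℝ) (h : |x| * 2 ^ P ≤ (E : ℝ)) :
    |x| ≤ ((E / 2 ^ P + 1 : ℕ) : ℝ) := by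
  have hp : (0 : ℝ) < 2 ^ P := by positivity
  have h4 : E < (E / 2 ^ P + 1) * 2 ^ P := by
    have := Nat.lt_div_mul_add (a := E) (Nat.two_pow_pos P)
    nlinarith
  have h5 : (E : ℝ) ≤ ((E / 2 ^ P + 1 : ℕ) : ℝ) * 2 ^ P := by exact_mod_cast h4.le
  exact le_of_mul_le_mul_right (h.trans h5) hp

theorem Enc.mul {w P N : ℕ} {a b : TM} {F G : ℝ → (Fin 12 → ℝ) → ℝ} (hw : 1 ≤ w) (hP : P ≤ w)
    (ha : Enc w P N a F) (hb : Enc w P N b G) :
    Enc w P N (mul w P N a b) (fun t z => F t z * G t z) := by
  by_cases hc : a.nrm * b.nrm < 2 ^ (w - 1)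
  swap
  · -- fallback
    refine ⟨fun _ => 0, fun _ => 0, ⟨fun _ _ => ⟨rfl, rfl⟩, ?_, ?_, ?_⟩, ?_⟩
    · simp [H2TM.mul, hc, pk]
    · simp [H2TM.mul, hc, pk]
    · simp
    · intro t z ht hz
      have h1 := ha.bound t z ht hz
      have h2 := hb.bound t z ht hz
      have hV : V N t z (fun _ => 0) = 0 := by simp [V]
      rw [hV]
      simp only [H2TM.mul, if_neg hc, sub_zero]
      have hp : (0 : ℝ) < 2 ^ P := by positivity
      have h3 : |F t z * G t z * 2 ^ P| * 2 ^ P ≤ (a.nrm + a.rem) * (b.nrm + b.rem) := by
        have e : |F t z * G t z * 2 ^ P| * 2 ^ P = (|F t z| * 2 ^ P) * (|G t z| * 2 ^ P) := by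
          rw [abs_mul, abs_mul, abs_of_pos hp]; ring
        rw [e]
        exact mul_le_mul h1 h2 (by positivity) (by positivity)
      refine finish_div P _ _ (h3.trans (le_of_eq ?_))
      push_cast
      ring
  · obtain ⟨f, g, ⟨v1, p1, q1, n1⟩, h1⟩ := ha
    obtain ⟨f', g', ⟨v2, p2, q2, n2⟩, h2⟩ := hb
    set n := ns N with hn
    have hn1 : 1 ≤ n := by rw [hn]; unfold ns tw; omega
    set M := n + n with hM
    have hM1 : n + n ≤ M + 1 := by omega
    have hw2 : 2 ^ w = 2 ^ (w - 1) + 2 ^ (w - 1) := by
      rw [← two_mul, ← pow_succ']; congr 1; omega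
    have hwp : 0 < 2 ^ (w - 1) := Nat.two_pow_pos _
    -- unreduced product digits
    set h : ℕ → ℕ := fun r => cv n n f f' r + cv n n g g' r with hh
    set h' : ℕ → ℕ := fun r => cv n n f g' r + cv n n g f' r with hh'
    set sf := ∑ k ∈ range n, f k with hsf
    set sg := ∑ k ∈ range n, g k with hsg
    set sf' := ∑ k ∈ range n, f' k with hsf'
    set sg' := ∑ k ∈ range n, g' k with hsg'
    have n1' : sf + sg ≤ a.nrm := by rw [hsf, hsg, ← sum_add_distrib]; exact n1
    have n2' : sf' + sg' ≤ b.nrm := by rw [hsf', hsg', ← sum_add_distrib]; exact n2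
    have tot : ∑ r ∈ range M, (h r + h' r) = (sf + sg) * (sf' + sg') := by
      simp only [hh, hh', sum_add_distrib]
      rw [cv_total n n M hM1, cv_total n n M hM1, cv_total n n M hM1, cv_total n n M hM1]
      ring
    have totle : ∑ r ∈ range M, (h r + h' r) ≤ a.nrm * b.nrm := by
      rw [tot]; exact Nat.mul_le_mul n1' n2'
    have dig : ∀ r, r < M → h r + h' r < 2 ^ (w - 1) := fun r hr =>
      lt_of_le_of_lt ((digit_le_sum M (fun r => h r + h' r) r hr).trans totle) hc
    have prodp : a.pos * b.pos + a.neg * b.neg = pk w M h := by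
      rw [p1, p2, q1, q2, pk_mul w n n M hM1, pk_mul w n n M hM1, pk_add]
    have prodq : a.pos * b.neg + a.neg * b.pos = pk w M h' := by
      rw [p1, p2, q1, q2, pk_mul w n n M hM1, pk_mul w n n M hM1, pk_add]
    set kp : ℕ → ℕ := fun r => if valid N r then h r else 0 with hkp
    set kq : ℕ → ℕ := fun r => if valid N r then h' r else 0 with hkq
    have hnM : n ≤ M := by omega
    have mask : Gc w N * (2 ^ w - 1) = pk w M (fun k => if valid N k then 2 ^ w - 1 else 0) := by
      rw [Gc_mul w N _ hw, ← hn]
      exact (pk_shorten w N M hnM (fun _ => 2 ^ w - 1)).symm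
    have hpp : Nat.land (a.pos * b.pos + a.neg * b.neg) (Gc w N * (2 ^ w - 1)) = pk w n kp := by
      rw [prodp, mask, land_keep w M (valid N) h (fun k hk => by have := dig k hk; omega)]
      exact pk_shorten w N M hnM h
    have hqq : Nat.land (a.pos * b.neg + a.neg * b.pos) (Gc w N * (2 ^ w - 1)) = pk w n kq := by
      rw [prodq, mask, land_keep w M (valid N) h' (fun k hk => by have := dig k hk; omega)]
      exact pk_shorten w N M hnM h'
    have vkp : ∀ k, valid N k = false → kp k = 0 := fun k hk => by simp [hkp, hk]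
    have vkq : ∀ k, valid N k = false → kq k = 0 := fun k hk => by simp [hkq, hk]
    have kb : ∀ k, k < n → kp k + kq k < 2 ^ (w - 1) := by
      intro k hk
      have := dig k (by omega)
      simp only [hkp, hkq]
      split_ifs <;> omega
    have sumk : ∑ k ∈ range n, (kp k + kq k) ≤ a.nrm * b.nrm := by
      refine le_trans ?_ totle
      refine le_trans (sum_le_sum (fun k _ => ?_)) (sum_le_sum_of_subset (range_mono hnM))
      simp only [hkp, hkq]
      split_ifs <;> omega
    have hkept : (pk w n kp + pk w n kq) % (2 ^ w - 1) = ∑ k ∈ range n, (kp k + kq k) := by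
      rw [pk_add]
      exact pk_mod w n _ (by omega)
    have hpos : posPart w (Gc w N * 2 ^ (w - 1)) (pk w n kp) (pk w n kq)
        = pk w n (fun k => kp k - kq k) := nz_core w N hw kp kq vkp vkq kb
    have hneg : pk w n (fun k => kp k - kq k) + pk w n kq - pk w n kp
        = pk w n (fun k => kq k - kp k) := neg_part w n kp kq
    set dp : ℕ → ℕ := fun k => kp k - kq k with hdp
    set dq : ℕ → ℕ := fun k => kq k - kp k with hdq
    have vdp : ∀ k, valid N k = false → dp k = 0 := fun k hk => by simp [hdp, vkp k hk]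
    have vdq : ∀ k, valid N k = false → dq k = 0 := fun k hk => by simp [hdq, vkq k hk]
    have dpb : ∀ k, k < n → dp k < 2 ^ w := fun k hk => by
      have := kb k hk; simp only [hdp]; omega
    have dqb : ∀ k, k < n → dq k < 2 ^ w := fun k hk => by
      have := kb k hk; simp only [hdq]; omega
    have hpl : Nat.land (pk w n dp) (Gc w N * (2 ^ P - 1)) = pk w n (fun k => dp k % 2 ^ P) := by
      rw [Gc_mul w N _ hw]
      exact land_lowmask w n P (valid N) dp hP dpb vdp
    have hql : Nat.land (pk w n dq) (Gc w N * (2 ^ P - 1)) = pk w n (fun k => dq k % 2 ^ P) := by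
      rw [Gc_mul w N _ hw]
      exact land_lowmask w n P (valid N) dq hP dqb vdq
    have hp2 : (pk w n dp - pk w n (fun k => dp k % 2 ^ P)) >>> P
        = pk w n (fun k => dp k / 2 ^ P) := shift_digits w n P dp
    have hq2 : (pk w n dq - pk w n (fun k => dq k % 2 ^ P)) >>> P
        = pk w n (fun k => dq k / 2 ^ P) := shift_digits w n P dq
    have sumd : ∑ k ∈ range n, (dp k + dq k) ≤ ∑ k ∈ range n, (kp k + kq k) :=
      sum_le_sum (fun k _ => by simp only [hdp, hdq]; omega)
    have low : (pk w n (fun k => dp k % 2 ^ P) + pk w n (fun k => dq k % 2 ^ P)) % (2 ^ w - 1)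
        = ∑ k ∈ range n, (dp k % 2 ^ P + dq k % 2 ^ P) := by
      rw [pk_add]
      apply pk_mod
      have : ∑ k ∈ range n, (dp k % 2 ^ P + dq k % 2 ^ P) ≤ ∑ k ∈ range n, (dp k + dq k) :=
        sum_le_sum (fun k _ => add_le_add (Nat.mod_le _ _) (Nat.mod_le _ _))
      omega
    have nrm : (pk w n (fun k => dp k / 2 ^ P) + pk w n (fun k => dq k / 2 ^ P)) % (2 ^ w - 1)
        = ∑ k ∈ range n, (dp k / 2 ^ P + dq k / 2 ^ P) := by
      rw [pk_add]
      apply pk_mod
      have : ∑ k ∈ range n, (dp k / 2 ^ P + dq k / 2 ^ P) ≤ ∑ k ∈ range n, (dp k + dq k) :=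
        sum_le_sum (fun k _ => add_le_add (Nat.div_le_self _ _) (Nat.div_le_self _ _))
      omega
    have hmul : H2TM.mul w P N a b = ⟨pk w n (fun k => dp k / 2 ^ P), pk w n (fun k => dq k / 2 ^ P),
        ∑ k ∈ range n, (dp k / 2 ^ P + dq k / 2 ^ P),
        (a.nrm * b.nrm - ∑ k ∈ range n, (kp k + kq k) + ∑ k ∈ range n, (dp k % 2 ^ P + dq k % 2 ^ P)
          + a.nrm * b.rem + b.nrm * a.rem + a.rem * b.rem) / 2 ^ P + 1⟩ := by
      unfold H2TM.mul
      rw [if_pos hc]
      simp only [hpp, hqq, hkept, hpos, hneg, hpl, hql, hp2, hq2, low, nrm]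
    rw [hmul]
    refine ⟨fun k => dp k / 2 ^ P, fun k => dq k / 2 ^ P, ⟨?_, rfl, rfl, le_refl _⟩, ?_⟩
    · intro k hk
      simp [vdp k hk, vdq k hk]
    · intro t z ht hz
      have a1 := h1 t z ht hz
      have a2 := h2 t z ht hz
      have b1 := abs_V_le N t z ht hz f g
      have b2 := abs_V_le N t z ht hz f' g'
      have c1 : ((∑ k ∈ range (ns N), (f k + g k) : ℕ) : ℝ) ≤ (a.nrm : ℝ) := by exact_mod_cast n1
      have c2 : ((∑ k ∈ range (ns N), (f' k + g' k) : ℕ) : ℝ) ≤ (b.nrm : ℝ) := by exact_mod_cast n2
      set A := V N t z f - V N t z g with hA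
      set B := V N t z f' - V N t z g' with hB
      -- kept value
      have kv : V N t z kp - V N t z kq
          = (V N t z (fun r => if valid N r then cv n n f f' r else 0)
              + V N t z (fun r => if valid N r then cv n n g g' r else 0))
            - (V N t z (fun r => if valid N r then cv n n f g' r else 0)
              + V N t z (fun r => if valid N r then cv n n g f' r else 0)) := by
        rw [← V_add, ← V_add]
        have x1 : kp = fun k => (if valid N k then cv n n f f' k else 0)
            + (if valid N k then cv n n g g' k else 0) := by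
          funext k; simp only [hkp, hh]; split_ifs <;> simp
        have x2 : kq = fun k => (if valid N k then cv n n f g' k else 0)
            + (if valid N k then cv n n g f' k else 0) := by
          funext k; simp only [hkq, hh']; split_ifs <;> simp
        rw [x1, x2]
      have vf := fun k hk => (v1 k hk).1
      have vg := fun k hk => (v1 k hk).2
      have vf' := fun k hk => (v2 k hk).1
      have vg' := fun k hk => (v2 k hk).2
      have m1 := V_mul_kept N M hM1 t z ht hz f f' vf vf'
      have m2 := V_mul_kept N M hM1 t z ht hz g g' vg vg'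
      have m3 := V_mul_kept N M hM1 t z ht hz f g' vf vg'
      have m4 := V_mul_kept N M hM1 t z ht hz g f' vg vf'
      rw [← hn] at m1 m2 m3 m4
      -- total dropped
      have drop : |A * B - (V N t z kp - V N t z kq)| ≤
          (a.nrm : ℝ) * b.nrm - ((∑ k ∈ range n, (kp k + kq k) : ℕ) : ℝ) := by
        have dsum : (∑ r ∈ range M, (cv n n f f' r : ℝ)) + (∑ r ∈ range M, (cv n n g g' r : ℝ))
            + (∑ r ∈ range M, (cv n n f g' r : ℝ)) + (∑ r ∈ range M, (cv n n g f' r : ℝ))
            ≤ (a.nrm : ℝ) * b.nrm := by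
          have : ((∑ r ∈ range M, (h r + h' r) : ℕ) : ℝ) ≤ ((a.nrm * b.nrm : ℕ) : ℝ) := by
            exact_mod_cast totle
          push_cast at this
          refine le_trans (le_of_eq ?_) this
          simp only [hh, hh']
          push_cast
          rw [← sum_add_distrib, ← sum_add_distrib, ← sum_add_distrib]
          exact sum_congr rfl (fun r _ => by ring)
        have ksum : (∑ r ∈ range M, (if valid N r then (cv n n f f' r : ℝ) else 0))
            + (∑ r ∈ range M, (if valid N r then (cv n n g g' r : ℝ) else 0))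
            + (∑ r ∈ range M, (if valid N r then (cv n n f g' r : ℝ) else 0))
            + (∑ r ∈ range M, (if valid N r then (cv n n g f' r : ℝ) else 0))
            = ((∑ k ∈ range n, (kp k + kq k) : ℕ) : ℝ) := by
          push_cast
          rw [← sum_add_distrib, ← sum_add_distrib, ← sum_add_distrib]
          rw [← sum_subset (range_mono hnM)
            (f := fun x => (if valid N x then (cv n n f f' x : ℝ) else 0)
              + (if valid N x then (cv n n g g' x : ℝ) else 0)
              + (if valid N x then (cv n n f g' x : ℝ) else 0)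
              + (if valid N x then (cv n n g f' x : ℝ) else 0))]
          · refine sum_congr rfl (fun k _ => ?_)
            simp only [hkp, hkq, hh, hh']
            by_cases hv : valid N k = true
            · simp only [hv, if_true]; push_cast; ring
            · simp [hv]
          · intro r _ hr
            have hr' : ns N ≤ r := by simpa [hn] using hr
            have : ¬ valid N r = true := fun hv => by
              have := valid_lt N r hv
              omega
            simp [this]
        have eAB : A * B - (V N t z kp - V N t z kq)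
            = (V N t z f * V N t z f' - V N t z (fun r => if valid N r then cv n n f f' r else 0))
              + (V N t z g * V N t z g' - V N t z (fun r => if valid N r then cv n n g g' r else 0))
              - (V N t z f * V N t z g' - V N t z (fun r => if valid N r then cv n n f g' r else 0))
              - (V N t z g * V N t z f'
                  - V N t z (fun r => if valid N r then cv n n g f' r else 0)) := by
          rw [kv, hA, hB]; ring
        rw [eAB]
        set y1 := V N t z f * V N t z f' - V N t z (fun r => if valid N r then cv n n f f' r else 0)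
        set y2 := V N t z g * V N t z g' - V N t z (fun r => if valid N r then cv n n g g' r else 0)
        set y3 := V N t z f * V N t z g' - V N t z (fun r => if valid N r then cv n n f g' r else 0)
        set y4 := V N t z g * V N t z f' - V N t z (fun r => if valid N r then cv n n g f' r else 0)
        have tri : |y1 + y2 - y3 - y4| ≤ |y1| + |y2| + |y3| + |y4| := by
          calc |y1 + y2 - y3 - y4| ≤ |y1 + y2 - y3| + |y4| := abs_sub _ _
            _ ≤ |y1 + y2| + |y3| + |y4| := by linarith [abs_sub (y1 + y2) y3]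
            _ ≤ _ := by linarith [abs_add_le y1 y2]
        rw [← ksum]
        linarith
      -- reduced value
      have rv : V N t z kp - V N t z kq
          = (V N t z (fun k => dp k / 2 ^ P) - V N t z (fun k => dq k / 2 ^ P)) * 2 ^ P
            + (V N t z (fun k => dp k % 2 ^ P) - V N t z (fun k => dq k % 2 ^ P)) := by
        rw [← V_diff N t z kp kq]
        have x1 := V_divmod N P t z dp
        have x2 := V_divmod N P t z dq
        simp only [hdp, hdq] at x1 x2 ⊢
        rw [x1, x2]; ring
      have rl := abs_V_le N t z ht hz (fun k => dp k % 2 ^ P) (fun k => dq k % 2 ^ P)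
      rw [← hn] at rl
      set X := V N t z (fun k => dp k / 2 ^ P) - V N t z (fun k => dq k / 2 ^ P) with hX
      set Lo := V N t z (fun k => dp k % 2 ^ P) - V N t z (fun k => dq k % 2 ^ P) with hLo
      have hp : (0 : ℝ) < 2 ^ P := by positivity
      set α := F t z * 2 ^ P - A with hα
      set β := G t z * 2 ^ P - B with hβ
      have main : |(F t z * G t z * 2 ^ P - X) * 2 ^ P| ≤
          ((a.nrm : ℝ) * b.nrm - ((∑ k ∈ range n, (kp k + kq k) : ℕ) : ℝ))
          + ((∑ k ∈ range n, (dp k % 2 ^ P + dq k % 2 ^ P) : ℕ) : ℝ)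
          + a.nrm * b.rem + b.nrm * a.rem + a.rem * b.rem := by
        have e : (F t z * G t z * 2 ^ P - X) * 2 ^ P
            = (A * B - (V N t z kp - V N t z kq)) + Lo + A * β + B * α + α * β := by
          rw [rv]
          have e1 : F t z * 2 ^ P = A + α := by rw [hα]; ring
          have e2 : G t z * 2 ^ P = B + β := by rw [hβ]; ring
          have : (F t z * G t z * 2 ^ P - X) * 2 ^ P = (F t z * 2 ^ P) * (G t z * 2 ^ P) - X * 2 ^ P := by
            ring
          rw [this, e1, e2]; ring
        rw [e]
        have t1 : |A * β| ≤ a.nrm * b.rem := by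
          rw [abs_mul]
          exact mul_le_mul (b1.trans c1) a2 (abs_nonneg _) (by positivity)
        have t2 : |B * α| ≤ b.nrm * a.rem := by
          rw [abs_mul]
          exact mul_le_mul (b2.trans c2) a1 (abs_nonneg _) (by positivity)
        have t3 : |α * β| ≤ a.rem * b.rem := by
          rw [abs_mul]
          exact mul_le_mul a1 a2 (abs_nonneg _) (by positivity)
        set y0 := A * B - (V N t z kp - V N t z kq)
        calc |y0 + Lo + A * β + B * α + α * β|
            ≤ |y0 + Lo + A * β + B * α| + |α * β| := abs_add_le _ _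
          _ ≤ |y0 + Lo + A * β| + |B * α| + |α * β| := by linarith [abs_add_le (y0 + Lo + A * β) (B * α)]
          _ ≤ |y0 + Lo| + |A * β| + |B * α| + |α * β| := by linarith [abs_add_le (y0 + Lo) (A * β)]
          _ ≤ |y0| + |Lo| + |A * β| + |B * α| + |α * β| := by linarith [abs_add_le y0 Lo]
          _ ≤ _ := by linarith
      rw [abs_mul, abs_of_pos hp] at main
      refine finish_div P _ _ (main.trans (le_of_eq ?_))
      rw [Nat.cast_add, Nat.cast_add, Nat.cast_add, Nat.cast_add, Nat.cast_sub sumk]
      push_cast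
      ring

end Pool.Agent.H2TM
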