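import Pool.Agent.Helper2_TM.Pack

namespace Pool.Agent.H2TM

open Finset

theorem land_top (w u : ℕ) (hu : u < 2 ^ (w + 1)) :
    Nat.land u (2 ^ w) = if 2 ^ w ≤ u then 2 ^ w else 0 := by
  have h1 : Nat.land u (2 ^ w) = u &&& 2 ^ w := rfl
  rw [h1, Nat.and_two_pow]
  have h2 : u.testBit w = decide (u / 2 ^ w % 2 = 1) := Nat.testBit_eq_decide_div_mod_eq
  have hp : 0 < 2 ^ w := Nat.two_pow_pos w
  split_ifs with h
  · have h3 : u / 2 ^ w = 1 := by
      apply Nat.div_eq_of_lt_le
      · omega
      · rw [pow_succ] at hu; omega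
    rw [h2, h3]; simp
  · have h3 : u / 2 ^ w = 0 := Nat.div_eq_of_lt (by omega)
    rw [h2, h3]; simp

theorem land_low (w u : ℕ) : Nat.land u (2 ^ w - 1) = u % 2 ^ w := Nat.and_two_pow_sub_one_eq_mod u w

theorem land_zero_right (u : ℕ) : Nat.land u 0 = 0 := Nat.and_zero u

/-- positive parts of a difference of packed vectors, `S` has digit `2^(w-1)` at the valid places -/
def posPart (w S X Y : ℕ) : ℕ :=
  let Yb := X + S - Y
  let s := Nat.land Yb S
  Nat.land Yb (s - s >>> (w - 1))

theorem posPart_eq (w n : ℕ) (v : ℕ → Bool) (p q : ℕ → ℕ) (hw : 1 ≤ w)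
    (hp : ∀ k, k < n → p k < 2 ^ (w - 1)) (hq : ∀ k, k < n → q k < 2 ^ (w - 1))
    (vp : ∀ k, v k = false → p k = 0) (vq : ∀ k, v k = false → q k = 0) :
    posPart w (pk w n (fun k => if v k then 2 ^ (w - 1) else 0)) (pk w n p) (pk w n q)
      = pk w n (fun k => p k - q k) := by
  obtain ⟨w', rfl⟩ : ∃ w', w = w' + 1 := ⟨w - 1, by omega⟩
  simp only [Nat.add_sub_cancel] at hp hq ⊢
  have hpw : 0 < 2 ^ w' := Nat.two_pow_pos w'
  have hpw2 : 2 ^ (w' + 1) = 2 ^ w' + 2 ^ w' := by rw [pow_succ]; ring
  set u : ℕ → ℕ := fun k => p k + (if v k then 2 ^ w' else 0) - q k with hu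
  have e1 : pk (w' + 1) n p + pk (w' + 1) n (fun k => if v k then 2 ^ w' else 0) - pk (w' + 1) n q
      = pk (w' + 1) n u := by
    rw [pk_add, pk_sub]
    intro k hk
    by_cases hv : v k = true
    · have := hq k hk
      simp only [hv, if_true]; omega
    · have hv' : v k = false := by simpa using hv
      rw [vq k hv']; omega
  have hub : ∀ k, k < n → u k < 2 ^ (w' + 1) := by
    intro k hk
    have h1 := hp k hk
    rw [hpw2]
    simp only [hu]
    split_ifs <;> omega
  set e : ℕ → ℕ := fun k => if v k = true ∧ q k ≤ p k then 1 else 0 with he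
  have e2 : Nat.land (pk (w' + 1) n u) (pk (w' + 1) n (fun k => if v k then 2 ^ w' else 0))
      = pk (w' + 1) n (fun k => e k * 2 ^ w') := by
    rw [pk_land _ _ _ _ hub (fun k hk => by
      rw [hpw2]
      split_ifs <;> omega)]
    apply pk_congr
    intro k hk
    by_cases hv : v k = true
    · simp only [hv, if_true, true_and, hu, he]
      have h1 := hp k hk
      have h2 := hq k hk
      rw [land_top w' _ (by rw [hpw2]; omega)]
      by_cases hqp : q k ≤ p k
      · rw [if_pos (by omega), if_pos hqp]; ring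
      · rw [if_neg (by omega), if_neg hqp]; ring
    · have hv' : v k = false := by simpa using hv
      simp only [he, hv', Bool.false_eq_true, if_false, false_and]
      rw [land_zero_right]; simp
  have e3 : pk (w' + 1) n (fun k => e k * 2 ^ w') >>> w' = pk (w' + 1) n e := by
    rw [← pk_smul, Nat.shiftRight_eq_div_pow, Nat.mul_div_cancel _ hpw]
  have e4 : pk (w' + 1) n (fun k => e k * 2 ^ w') - pk (w' + 1) n e
      = pk (w' + 1) n (fun k => e k * (2 ^ w' - 1)) := by
    rw [pk_sub]
    · apply pk_congr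
      intro k _
      rw [Nat.mul_sub, Nat.mul_one]
    · intro k _
      exact Nat.le_mul_of_pos_right _ hpw
  unfold posPart
  simp only [Nat.add_sub_cancel]
  rw [e1, e2, e3, e4, pk_land _ _ _ _ hub (fun k hk => by
    rw [hpw2]
    simp only [he]
    split_ifs <;> omega)]
  apply pk_congr
  intro k hk
  have h1 := hp k hk
  have h2 := hq k hk
  by_cases hc : v k = true ∧ q k ≤ p k
  · simp only [he, if_pos hc, one_mul]
    rw [land_low]
    simp only [hu, hc.1, if_true]
    have h3 : p k + 2 ^ w' - q k = (p k - q k) + 2 ^ w' := by omega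
    rw [h3, Nat.add_mod_right, Nat.mod_eq_of_lt (by omega)]
  · simp only [he, if_neg hc, zero_mul]
    rw [land_zero_right]
    by_cases hv : v k = true
    · have : ¬ q k ≤ p k := fun h => hc ⟨hv, h⟩
      omega
    · have hv' : v k = false := by simpa using hv
      rw [vp k hv']; omega

/-- the low `P` bits of every digit -/
theorem land_lowmask (w n P : ℕ) (v : ℕ → Bool) (p : ℕ → ℕ) (hP : P ≤ w)
    (hp : ∀ k, k < n → p k < 2 ^ w) (vp : ∀ k, v k = false → p k = 0) :
    Nat.land (pk w n p) (pk w n (fun k => if v k then 2 ^ P - 1 else 0))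
      = pk w n (fun k => p k % 2 ^ P) := by
  have hPw : 2 ^ P ≤ 2 ^ w := Nat.pow_le_pow_right (by norm_num) hP
  rw [pk_land _ _ _ _ hp (fun k hk => by
    have : 0 < 2 ^ w := Nat.two_pow_pos w
    split_ifs <;> omega)]
  apply pk_congr
  intro k hk
  by_cases hv : v k = true
  · simp only [hv, if_true, land_low]
  · have hv' : v k = false := by simpa using hv
    simp only [hv', Bool.false_eq_true, if_false]
    rw [land_zero_right, vp k hv']; simp

theorem shift_digits (w n P : ℕ) (p : ℕ → ℕ) :
    (pk w n p - pk w n (fun k => p k % 2 ^ P)) >>> P = pk w n (fun k => p k / 2 ^ P) := by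
  rw [pk_sub _ _ _ _ (fun k _ => Nat.mod_le _ _)]
  have : pk w n (fun k => p k - p k % 2 ^ P) = pk w n (fun k => p k / 2 ^ P) * 2 ^ P := by
    rw [pk_smul]
    apply pk_congr
    intro k _
    have := Nat.div_add_mod' (p k) (2 ^ P)
    omega
  rw [this, Nat.shiftRight_eq_div_pow, Nat.mul_div_cancel _ (Nat.two_pow_pos P)]

/-- keep the digits at the valid places -/
theorem land_keep (w n : ℕ) (v : ℕ → Bool) (p : ℕ → ℕ) (hp : ∀ k, k < n → p k < 2 ^ w) :
    Nat.land (pk w n p) (pk w n (fun k => if v k then 2 ^ w - 1 else 0))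
      = pk w n (fun k => if v k then p k else 0) := by
  rw [pk_land _ _ _ _ hp (fun k hk => by
    have : 0 < 2 ^ w := Nat.two_pow_pos w
    split_ifs <;> omega)]
  apply pk_congr
  intro k hk
  by_cases hv : v k = true
  · simp only [hv, if_true, land_low]
    exact Nat.mod_eq_of_lt (hp k hk)
  · have hv' : v k = false := by simpa using hv
    simp only [hv', Bool.false_eq_true, if_false]
    exact land_zero_right _

/-- high digits vanish: change of length -/
theorem pk_extend (w n m : ℕ) (h : n ≤ m) (f : ℕ → ℕ) (hf : ∀ k, n ≤ k → f k = 0) :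
    pk w m f = pk w n f := by
  unfold pk
  symm
  apply sum_subset (range_mono h)
  intro k _ hk
  rw [hf k (by simpa using hk)]; simp

end Pool.Agent.H2TM
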