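import Pool.Agent.Helper2_TM.StartD
import Pool.Agent.Helper49_HM.ZForm

/-! Pieces and codes from lists of certified steps. -/

namespace Pool.Agent.H2TM

open Complex Set Pool.Agent.HM Pool.Agent.HM.H4

noncomputable section

/-- parameters -/
def par (w Qs D : ℕ) (hw : 1 ≤ w) (hQ : Qs ≤ w) : Par := ⟨48, w, Qs, D, J 48, hw, hQ⟩

/-- certificates with regions -/
def csOf (m : Fin 3 → ℝ) (ls : List Lit) : CL := ls.map fun l => (l.cert, Reg (cstM m) l.q)

theorem csOf_fst (m : Fin 3 → ℝ) (ls : List Lit) : (csOf m ls).map Prod.fst = ls.map Lit.cert := by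
  unfold csOf
  rw [List.map_map]
  rfl

theorem pieceOK_of {w Qs D : ℕ} (hw : 1 ≤ w) (hQ : Qs ≤ w) {m : Fin 3 → ℝ}
    (hc : CstOk (cstM m)) {ls : List Lit} (hne : ls ≠ [])
    (hok : ∀ l ∈ ls, stepOK 112 48 12 l = true) (hpos : ∀ l ∈ ls, 0 < l.h) {C C' : List (List ℤ)}
    {s s' : ZS} (hrun : zrun w Qs D (ls.map Lit.cert) C s = some (C', s')) :
    PieceOK (par w Qs D hw hQ) m (csOf m ls) C C' s s' where
  ne := by
    unfold csOf
    intro h
    exact hne (List.map_eq_nil_iff.1 h)
  pos := by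
    intro c hc
    obtain ⟨l, hl, rfl⟩ := List.mem_map.1 hc
    exact hpos l hl
  step := by
    intro c hc'
    obtain ⟨l, hl, rfl⟩ := List.mem_map.1 hc'
    exact stepP (w := 112) (P := 48) (N := 12) l (cstM m) hc (by norm_num) (by norm_num)
      (by norm_num) (by norm_num) (hok l hl)
  run := by
    rw [csOf_fst]
    exact hrun
  reg := by
    intro c hc'
    obtain ⟨l, hl, rfl⟩ := List.mem_map.1 hc'
    intro x hx
    exact ⟨hx.1, hx.2.1⟩

/-- codes of the first piece -/
def cd1 (q : ℕ) : ℕ := if q ≤ 5 then q else 0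
/-- codes of the second piece -/
def cd2 (q : ℕ) : ℕ := if 6 ≤ q ∧ q ≤ 10 then q - 5 else if q = 11 then 11 else 0

theorem codeP_zero (z : ℂ) : codeP 0 z :=
  ⟨fun h => absurd h (by norm_num), fun h => absurd h (by norm_num), fun h => absurd h (by norm_num),
    fun h => absurd h (by norm_num), fun h => absurd h (by norm_num), fun h => absurd h (by norm_num)⟩

theorem codeP_of {q : ℕ} {z : ℂ} (h1 : q = 1 → 0 < z.im) (h2 : q = 2 → z.im < 0)
    (h3 : q = 3 → z.re < 0) (h4 : q = 4 → 1 < z.re) (h5 : q = 5 → 0 < z.re ∧ z.re < 1)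
    (h6 : q = 11 → Zone z) : codeP q z := ⟨h1, h2, h3, h4, h5, h6⟩

theorem code1 (m : Fin 3 → ℝ) (q : ℕ) (x : Fin 8 → ℝ) (hx : Reg (cstM (swm (exm m))) q x) :
    codeP (cd1 q) (zB1 m x) := by
  set c := cstM (swm (exm m)) with hc
  obtain ⟨hok, -, hcode⟩ := hx
  have hb : 0 < lcb2 c x := hok.2
  have hb' : 0 < lcbx c x ^ 2 + lcby c x ^ 2 := by
    have : lcb2 c x = lcbx c x ^ 2 + lcby c x ^ 2 := by unfold lcb2; ring
    rwa [this] at hb
  have hre : (zB1 m x).re = cr1 c x / (lcbx c x ^ 2 + lcby c x ^ 2) := by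
    rw [zB1_eq, quot_re]
    unfold cr1
    congr 1
    show lcax c x * lcbx c x + lcay c x * lcby c x = _
    ring
  have him : (zB1 m x).im = cq1 c x / (lcbx c x ^ 2 + lcby c x ^ 2) := by
    rw [zB1_eq, quot_im]
    unfold cq1
    congr 1
    show lcay c x * lcbx c x - lcax c x * lcby c x = _
    ring
  unfold cd1
  split_ifs with h
  · refine codeP_of ?_ ?_ ?_ ?_ ?_ ?_
    · rintro rfl
      rw [him]
      exact div_pos hcode hb'
    · rintro rfl
      rw [him]
      have : 0 < - cq1 c x := hcode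
      exact div_neg_of_neg_of_pos (by linarith) hb'
    · rintro rfl
      rw [hre]
      have : 0 < - cr1 c x := hcode
      exact div_neg_of_neg_of_pos (by linarith) hb'
    · rintro rfl
      rw [hre, lt_div_iff₀ hb']
      have : 0 < cr1 c x - lcb2 c x := hcode
      have e : lcb2 c x = lcbx c x ^ 2 + lcby c x ^ 2 := by unfold lcb2; ring
      linarith
    · rintro rfl
      have : 0 < cr1 c x ∧ 0 < lcb2 c x - cr1 c x := hcode
      have e : lcb2 c x = lcbx c x ^ 2 + lcby c x ^ 2 := by unfold lcb2; ring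
      rw [hre]
      refine ⟨div_pos this.1 hb', ?_⟩
      rw [div_lt_one hb']
      linarith [this.2]
    · intro h11
      omega
  · exact codeP_zero _

theorem code2 (m : Fin 3 → ℝ) (q : ℕ) (x : Fin 8 → ℝ) (hx : Reg (cstM m) q x) :
    codeP (cd2 q) (zB2 m x) := by
  set c := cstM m with hc
  obtain ⟨hok, hnc, hcode⟩ := hx
  have ha : 0 < lca2 c x := hok.1
  have e : lca2 c x = lcax c x ^ 2 + lcay c x ^ 2 := by unfold lca2; ring
  have ha' : 0 < lcax c x ^ 2 + lcay c x ^ 2 := by rwa [e] at ha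
  have hre : (zB2 m x).re = cr2 c x / (lcax c x ^ 2 + lcay c x ^ 2) := by
    rw [zB2_eq, quot_re]
    unfold cr2 crx cry
    congr 1
    show (x 0 * x 0 - x 1 * x 1) * lcax c x + 2 * (x 0 * x 1) * lcay c x = _
    ring
  have him : (zB2 m x).im = cq2 c x / (lcax c x ^ 2 + lcay c x ^ 2) := by
    rw [zB2_eq, quot_im]
    unfold cq2 crx cry
    congr 1
    show 2 * (x 0 * x 1) * lcax c x - (x 0 * x 0 - x 1 * x 1) * lcay c x = _
    ring
  unfold cd2
  split_ifs with h h11
  · refine codeP_of ?_ ?_ ?_ ?_ ?_ ?_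
    · intro h1
      obtain rfl : q = 6 := by omega
      rw [him]
      exact div_pos hcode ha'
    · intro h1
      obtain rfl : q = 7 := by omega
      rw [him]
      have : 0 < - cq2 c x := hcode
      exact div_neg_of_neg_of_pos (by linarith) ha'
    · intro h1
      obtain rfl : q = 8 := by omega
      rw [hre]
      have : 0 < - cr2 c x := hcode
      exact div_neg_of_neg_of_pos (by linarith) ha'
    · intro h1
      obtain rfl : q = 9 := by omega
      rw [hre, lt_div_iff₀ ha']
      have : 0 < cr2 c x - lca2 c x := hcode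
      linarith
    · intro h1
      obtain rfl : q = 10 := by omega
      have : 0 < cr2 c x ∧ 0 < lca2 c x - cr2 c x := hcode
      rw [hre]
      refine ⟨div_pos this.1 ha', ?_⟩
      rw [div_lt_one ha']
      linarith [this.2]
    · intro h1
      omega
  · subst h11
    refine codeP_of (fun h1 => absurd h1 (by norm_num)) (fun h1 => absurd h1 (by norm_num))
      (fun h1 => absurd h1 (by norm_num)) (fun h1 => absurd h1 (by norm_num))
      (fun h1 => absurd h1 (by norm_num)) (fun _ => ?_)
    have hz : 0 < lca2 c x - lcr x * lcr x * 4 := hcode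
    have hr0 : 0 ≤ lcr x := by
      unfold lcr
      nlinarith [mul_self_nonneg (x 0), mul_self_nonneg (x 1)]
    have hr : 0 < lcr x := by
      rcases hnc with h | h
      · exact h
      · by_contra hc
        have h0 : lcr x = 0 := le_antisymm (not_lt.1 hc) hr0
        unfold lcr at h0
        have h1 : x 0 * x 0 = 0 := by nlinarith [mul_self_nonneg (x 0), mul_self_nonneg (x 1)]
        have h2 : x 1 * x 1 = 0 := by nlinarith [mul_self_nonneg (x 0), mul_self_nonneg (x 1)]
        rw [mul_self_eq_zero.1 h1, mul_self_eq_zero.1 h2] at h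
        simp at h
    have hns : Complex.normSq (zB2 m x) = lcr x ^ 2 / (lcax c x ^ 2 + lcay c x ^ 2) := by
      rw [Complex.normSq_apply, hre, him]
      have e2 : cr2 c x * cr2 c x + cq2 c x * cq2 c x
          = lcr x ^ 2 * (lcax c x ^ 2 + lcay c x ^ 2) := by
        unfold cr2 cq2 crx cry lcr
        ring
      field_simp
      nlinarith [e2]
    have hn : ‖zB2 m x‖ ^ 2 = lcr x ^ 2 / (lcax c x ^ 2 + lcay c x ^ 2) := by
      rw [← Complex.normSq_eq_norm_sq]; exact hns
    constructor
    · intro h0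
      rw [h0] at hn
      have : 0 < lcr x ^ 2 / (lcax c x ^ 2 + lcay c x ^ 2) := div_pos (by positivity) ha'
      rw [← hn] at this
      simp at this
    · have h4 : ‖zB2 m x‖ ^ 2 < (1 / 2) ^ 2 := by
        rw [hn, div_lt_iff₀ ha']
        rw [e] at hz
        nlinarith
      exact lt_of_pow_lt_pow_left₀ 2 (by norm_num) h4
  · exact codeP_zero _

theorem forall2_map {α β γ : Type} {R : β → γ → Prop} (f : α → β) (g : α → γ)
    (h : ∀ a, R (f a) (g a)) : ∀ l : List α, List.Forall₂ R (l.map f) (l.map g)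
  | [] => List.Forall₂.nil
  | a :: l => List.Forall₂.cons (h a) (forall2_map f g h l)

theorem codes1_of (m : Fin 3 → ℝ) (ls : List Lit) :
    Codes (zB1 m) (csOf (swm (exm m)) ls) (ls.map fun l => cd1 l.q) :=
  forall2_map _ _ (fun l x hx => code1 m l.q x hx) ls

theorem codes2_of (m : Fin 3 → ℝ) (ls : List Lit) :
    Codes (zB2 m) (csOf m ls) (ls.map fun l => cd2 l.q) :=
  forall2_map _ _ (fun l x hx => code2 m l.q x hx) ls

end

end Pool.Agent.H2TM
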