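import Pool.Agent.Helper2_TM.MulEnc

namespace Pool.Agent.H2TM

open Finset

/-! ### remainder, renormalisation, constants -/

/-- larger remainder -/
def widen (a : TM) (r : ℕ) : TM := ⟨a.pos, a.neg, a.nrm, a.rem + r⟩

theorem Enc.widen {w P N : ℕ} {a : TM} {F F' : ℝ → (Fin 12 → ℝ) → ℝ} (r : ℕ) (ha : Enc w P N a F)
    (h : ∀ t z, |t| ≤ 1 → (∀ i, |z i| ≤ 1) → |F' t z - F t z| * 2 ^ P ≤ r) :
    Enc w P N (widen a r) F' := by
  obtain ⟨f, g, hd, h1⟩ := ha
  refine ⟨f, g, hd, fun t z ht hz => ?_⟩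
  have a1 := h1 t z ht hz
  have a2 := h t z ht hz
  have hp : (0 : ℝ) < 2 ^ P := by positivity
  have e : F' t z * 2 ^ P - (V N t z f - V N t z g)
      = (F' t z - F t z) * 2 ^ P + (F t z * 2 ^ P - (V N t z f - V N t z g)) := by ring
  have e2 : |(F' t z - F t z) * 2 ^ P| = |F' t z - F t z| * 2 ^ P := by
    rw [abs_mul, abs_of_pos hp]
  simp only [H2TM.widen]
  push_cast
  rw [e]
  refine (abs_add_le _ _).trans ?_
  rw [e2]
  linarith

theorem Enc.congr {w P N : ℕ} {a : TM} {F F' : ℝ → (Fin 12 → ℝ) → ℝ} (ha : Enc w P N a F)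
    (h : ∀ t z, |t| ≤ 1 → (∀ i, |z i| ≤ 1) → F' t z = F t z) : Enc w P N a F' := by
  obtain ⟨f, g, hd, h1⟩ := ha
  exact ⟨f, g, hd, fun t z ht hz => by rw [h t z ht hz]; exact h1 t z ht hz⟩

/-- sharp absolute sum after cancellation -/
def nz (w N : ℕ) (a : TM) : TM :=
  if a.nrm < 2 ^ (w - 1) then
    let p1 := posPart w (Gc w N * 2 ^ (w - 1)) a.pos a.neg
    let q1 := p1 + a.neg - a.pos
    ⟨p1, q1, (p1 + q1) % (2 ^ w - 1), a.rem⟩
  else a

theorem nz_dig {w N : ℕ} {a : TM} {f g : ℕ → ℕ} (hw : 1 ≤ w) (hd : Dig w N a f g)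
    (hc : a.nrm < 2 ^ (w - 1)) :
    Dig w N (nz w N a) (fun k => f k - g k) (fun k => g k - f k) ∧ (nz w N a).rem = a.rem := by
  obtain ⟨v1, p1, q1, n1⟩ := hd
  have hw2 : 2 ^ w = 2 ^ (w - 1) + 2 ^ (w - 1) := by
    rw [← two_mul, ← pow_succ']; congr 1; omega
  have hwp : 0 < 2 ^ (w - 1) := Nat.two_pow_pos _
  have hb : ∀ k, k < ns N → f k + g k < 2 ^ (w - 1) := fun k hk =>
    lt_of_le_of_lt ((digit_le_sum (ns N) (fun r => f r + g r) k hk).trans n1) hc
  have e1 := nz_core w N hw f g (fun k hk => (v1 k hk).1) (fun k hk => (v1 k hk).2) hb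
  have e2 := neg_part w (ns N) f g
  have e3 : (pk w (ns N) (fun k => f k - g k) + pk w (ns N) (fun k => g k - f k)) % (2 ^ w - 1)
      = ∑ k ∈ range (ns N), (f k - g k + (g k - f k)) := by
    rw [pk_add]
    apply pk_mod
    have : ∑ k ∈ range (ns N), (f k - g k + (g k - f k)) ≤ ∑ k ∈ range (ns N), (f k + g k) :=
      sum_le_sum (fun k _ => by omega)
    omega
  have hn : nz w N a = ⟨pk w (ns N) (fun k => f k - g k), pk w (ns N) (fun k => g k - f k),
      ∑ k ∈ range (ns N), (f k - g k + (g k - f k)), a.rem⟩ := by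
    unfold nz
    rw [if_pos hc]
    simp only [p1, q1, e1, e2, e3]
  rw [hn]
  refine ⟨⟨?_, rfl, rfl, le_refl _⟩, rfl⟩
  intro k hk
  simp [(v1 k hk).1, (v1 k hk).2]

theorem Enc.nz {w P N : ℕ} {a : TM} {F : ℝ → (Fin 12 → ℝ) → ℝ} (hw : 1 ≤ w) (ha : Enc w P N a F) :
    Enc w P N (nz w N a) F := by
  by_cases hc : a.nrm < 2 ^ (w - 1)
  · obtain ⟨f, g, hd, h1⟩ := ha
    obtain ⟨hd', hr⟩ := nz_dig hw hd hc
    refine ⟨_, _, hd', fun t z ht hz => ?_⟩
    rw [V_diff, hr]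
    exact h1 t z ht hz
  · unfold H2TM.nz
    rw [if_neg hc]
    exact ha

/-- constant `c / 2^P`, with error at most `r / 2^P` -/
def cst (c : ℤ) (r : ℕ) : TM := ⟨c.toNat, (-c).toNat, c.natAbs, r⟩

theorem valid_zero (N : ℕ) : valid N 0 = true := by
  rw [valid_iff]
  constructor
  · simp
  · simp only [Nat.zero_div]; decide +kernel

theorem mu_zero (N : ℕ) (t : ℝ) (z : Fin 12 → ℝ) : mu N t z 0 = 1 := by
  unfold mu
  have : mono 0 z = 1 := by
    unfold mono
    have : ex 0 = [] := by decide +kernel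
    rw [this]; simp
  simp [this]

theorem ns_pos (N : ℕ) : 0 < ns N := by unfold ns tw; omega

theorem Enc.cst {w P N : ℕ} (c : ℤ) (r : ℕ) (x : ℝ) (h : |x * 2 ^ P - c| ≤ r) :
    Enc w P N (cst c r) (fun _ _ => x) := by
  refine ⟨fun k => if k = 0 then c.toNat else 0, fun k => if k = 0 then (-c).toNat else 0,
    ⟨?_, ?_, ?_, ?_⟩, ?_⟩
  · intro k hk
    have : k ≠ 0 := fun h0 => by rw [h0, valid_zero] at hk; exact absurd hk (by simp)
    simp [this]
  · unfold pk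
    rw [sum_eq_single_of_mem 0 (mem_range.mpr (ns_pos N))]
    · simp [H2TM.cst]
    · intro b _ hb; simp [hb]
  · unfold pk
    rw [sum_eq_single_of_mem 0 (mem_range.mpr (ns_pos N))]
    · simp [H2TM.cst]
    · intro b _ hb; simp [hb]
  · rw [sum_eq_single_of_mem 0 (mem_range.mpr (ns_pos N))]
    · simp only [if_true, H2TM.cst]; omega
    · intro b _ hb; simp [hb]
  · intro t z _ _
    have hV : ∀ m : ℕ, V N t z (fun k => if k = 0 then m else 0) = m := by
      intro m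
      unfold V
      rw [sum_eq_single_of_mem 0 (mem_range.mpr (ns_pos N))]
      · simp [mu_zero]
      · intro b _ hb; simp [hb]
    rw [hV, hV]
    simp only [H2TM.cst]
    have hc : ((c.toNat : ℕ) : ℝ) - (((-c).toNat : ℕ) : ℝ) = (c : ℝ) := by
      have : (c.toNat : ℤ) - ((-c).toNat : ℤ) = c := by omega
      exact_mod_cast this
    rw [hc]
    exact h

/-- jet slot of a variable -/
def sl (i : Fin 12) : ℕ := ![18, 19, 22, 24, 31, 32, 33, 34, 35, 39, 45, 47] i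

theorem sl_mem (i : Fin 12) : sl i ∈ vs := by
  revert i; decide +kernel

theorem ex_sl (i : Fin 12) : ex (sl i) = [i] := by
  revert i; decide +kernel

/-- the function `z i * c / 2^P` -/
def var (w N : ℕ) (i : Fin 12) (c : ℤ) : TM :=
  ⟨c.toNat * 2 ^ (w * (tw N * sl i)), (-c).toNat * 2 ^ (w * (tw N * sl i)), c.natAbs, 0⟩

theorem valid_sl (N : ℕ) (i : Fin 12) : valid N (tw N * sl i) = true := by
  rw [valid_iff]
  constructor
  · simp
  · rw [Nat.mul_div_cancel_left _ (tw_pos N)]; exact sl_mem i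

theorem mu_sl (N : ℕ) (t : ℝ) (z : Fin 12 → ℝ) (i : Fin 12) : mu N t z (tw N * sl i) = z i := by
  unfold mu
  rw [Nat.mul_mod_right, Nat.mul_div_cancel_left _ (tw_pos N)]
  unfold mono
  rw [ex_sl]; simp

theorem Enc.var {w P N : ℕ} (i : Fin 12) (c : ℤ) :
    Enc w P N (var w N i c) (fun _ z => z i * c / 2 ^ P) := by
  set k0 := tw N * sl i with hk0
  have hk0lt : k0 < ns N := valid_lt N k0 (valid_sl N i)
  refine ⟨fun k => if k = k0 then c.toNat else 0, fun k => if k = k0 then (-c).toNat else 0,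
    ⟨?_, ?_, ?_, ?_⟩, ?_⟩
  · intro k hk
    have : k ≠ k0 := fun h0 => by
      rw [h0, hk0, valid_sl] at hk; exact absurd hk (by simp)
    simp [this]
  · unfold pk
    rw [sum_eq_single_of_mem k0 (mem_range.mpr hk0lt)]
    · simp [H2TM.var, hk0]
    · intro b _ hb; simp [hb]
  · unfold pk
    rw [sum_eq_single_of_mem k0 (mem_range.mpr hk0lt)]
    · simp [H2TM.var, hk0]
    · intro b _ hb; simp [hb]
  · rw [sum_eq_single_of_mem k0 (mem_range.mpr hk0lt)]
    · simp only [if_true, H2TM.var]; omega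
    · intro b _ hb; simp [hb]
  · intro t z _ _
    have hV : ∀ m : ℕ, V N t z (fun k => if k = k0 then m else 0) = m * z i := by
      intro m
      unfold V
      rw [sum_eq_single_of_mem k0 (mem_range.mpr hk0lt)]
      · simp only [if_true]; rw [hk0, mu_sl]
      · intro b _ hb; simp [hb]
    rw [hV, hV]
    simp only [H2TM.var]
    have hc : ((c.toNat : ℕ) : ℝ) - (((-c).toNat : ℕ) : ℝ) = (c : ℝ) := by
      have : (c.toNat : ℤ) - ((-c).toNat : ℤ) = c := by omega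
      exact_mod_cast this
    have hp : (2 : ℝ) ^ P ≠ 0 := by positivity
    have : z i * c / 2 ^ P * 2 ^ P - ((c.toNat : ℕ) * z i - ((-c).toNat : ℕ) * z i) = 0 := by
      rw [div_mul_cancel₀ _ hp, ← sub_mul, hc]; ring
    rw [this]; simp

/-- difference -/
def sub (a b : TM) : TM := add a (neg b)

theorem Enc.sub {w P N : ℕ} {a b : TM} {F G : ℝ → (Fin 12 → ℝ) → ℝ} (ha : Enc w P N a F)
    (hb : Enc w P N b G) : Enc w P N (sub a b) (fun t z => F t z - G t z) :=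
  (Enc.add ha (Enc.neg hb)).congr (fun t z _ _ => by ring)

/-! ### reciprocal and reciprocal square root -/

/-- check for `y ≈ 1 / a` : `|y a - 1| ≤ e / 2^P`, `e ≤ 2^(P-1)` -/
def invE (w P N : ℕ) (a y : TM) : ℕ :=
  let d := nz w N (sub (mul w P N y a) (cst (2 ^ P) 0))
  d.nrm + d.rem

/-- `1 / a` with candidate `y` -/
def inv (w P N : ℕ) (a y : TM) : TM :=
  ⟨y.pos, y.neg, y.nrm, y.rem + ((y.nrm + y.rem) * (2 * invE w P N a y)) / 2 ^ P + 1⟩

theorem Enc.one {w P N : ℕ} : Enc w P N (H2TM.cst (2 ^ P) 0) (fun _ _ => 1) :=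
  Enc.cst _ _ _ (by push_cast; simp)

theorem invE_bound {w P N : ℕ} {a y : TM} {F Y : ℝ → (Fin 12 → ℝ) → ℝ} (hw : 1 ≤ w) (hP : P ≤ w)
    (ha : Enc w P N a F) (hy : Enc w P N y Y) (t : ℝ) (z : Fin 12 → ℝ) (ht : |t| ≤ 1)
    (hz : ∀ i, |z i| ≤ 1) : |Y t z * F t z - 1| * 2 ^ P ≤ invE w P N a y := by
  have h := Enc.nz hw (Enc.sub (Enc.mul hw hP hy ha) Enc.one)
  have := h.bound t z ht hz
  unfold invE
  push_cast
  exact this

theorem Enc.inv {w P N : ℕ} {a y : TM} {F Y : ℝ → (Fin 12 → ℝ) → ℝ} (hw : 1 ≤ w) (hP : P ≤ w)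
    (hP1 : 1 ≤ P) (ha : Enc w P N a F) (hy : Enc w P N y Y) (hok : invE w P N a y ≤ 2 ^ (P - 1)) :
    Enc w P N (H2TM.inv w P N a y) (fun t z => (F t z)⁻¹) ∧
      ∀ t z, |t| ≤ 1 → (∀ i, |z i| ≤ 1) → F t z ≠ 0 := by
  have hp : (0 : ℝ) < 2 ^ P := by positivity
  have hhalf : (invE w P N a y : ℝ) ≤ 2 ^ P / 2 := by
    have : (invE w P N a y : ℝ) ≤ ((2 ^ (P - 1) : ℕ) : ℝ) := by exact_mod_cast hok
    refine this.trans (le_of_eq ?_)
    push_cast
    obtain ⟨q, rfl⟩ : ∃ q, P = q + 1 := ⟨P - 1, by omega⟩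
    rw [Nat.add_sub_cancel, pow_succ]; ring
  have key : ∀ t z, |t| ≤ 1 → (∀ i, |z i| ≤ 1) →
      F t z ≠ 0 ∧ |(F t z)⁻¹ - Y t z| ≤ |Y t z| * (2 * ((invE w P N a y : ℝ) / 2 ^ P)) := by
    intro t z ht hz
    have hb := invE_bound hw hP ha hy t z ht hz
    have he : |Y t z * F t z - 1| ≤ (invE w P N a y : ℝ) / 2 ^ P := by
      rw [le_div_iff₀ hp]; exact hb
    have he2 : (invE w P N a y : ℝ) / 2 ^ P ≤ 1 / 2 := by
      rw [div_le_iff₀ hp]; linarith
    set e := (invE w P N a y : ℝ) / 2 ^ P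
    have hq := abs_le.mp (he.trans he2)
    have hF : F t z ≠ 0 := by
      intro h0; rw [h0] at hq; norm_num at hq
    refine ⟨hF, ?_⟩
    have hq1 : (1 : ℝ) / 2 ≤ Y t z * F t z := by linarith [hq.1]
    have e1 : (F t z)⁻¹ - Y t z = -(Y t z) * (Y t z * F t z - 1) / (Y t z * F t z) := by
      have hY : Y t z ≠ 0 := by
        intro h0; rw [h0] at hq1; norm_num at hq1
      field_simp
      ring
    rw [e1, abs_div, abs_mul, abs_neg, abs_of_pos (show 0 < Y t z * F t z by linarith)]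
    rw [div_le_iff₀ (by linarith)]
    calc |Y t z| * |Y t z * F t z - 1| ≤ |Y t z| * e := mul_le_mul_of_nonneg_left he (abs_nonneg _)
      _ ≤ |Y t z| * (2 * e) * (Y t z * F t z) := by
        have he0 : 0 ≤ e := (abs_nonneg _).trans he
        have : |Y t z| * e * 1 ≤ |Y t z| * e * (2 * (Y t z * F t z)) :=
          mul_le_mul_of_nonneg_left (by linarith) (by positivity)
        linarith
  refine ⟨?_, fun t z ht hz => (key t z ht hz).1⟩
  obtain ⟨f, g, hd, h1⟩ := hy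
  refine ⟨f, g, hd, fun t z ht hz => ?_⟩
  have a1 := h1 t z ht hz
  have hY := (show Enc w P N y Y from ⟨f, g, hd, h1⟩).bound t z ht hz
  have k2 := (key t z ht hz).2
  simp only [H2TM.inv]
  have e : (F t z)⁻¹ * 2 ^ P - (V N t z f - V N t z g)
      = ((F t z)⁻¹ - Y t z) * 2 ^ P + (Y t z * 2 ^ P - (V N t z f - V N t z g)) := by ring
  rw [e]
  have h2 : |((F t z)⁻¹ - Y t z) * 2 ^ P|
      ≤ (((y.nrm + y.rem) * (2 * invE w P N a y) / 2 ^ P + 1 : ℕ) : ℝ) := by
    apply finish_div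
    rw [abs_mul, abs_of_pos hp]
    push_cast
    calc |(F t z)⁻¹ - Y t z| * 2 ^ P * 2 ^ P
        ≤ |Y t z| * (2 * ((invE w P N a y : ℝ) / 2 ^ P)) * 2 ^ P * 2 ^ P := by
          apply mul_le_mul_of_nonneg_right _ hp.le
          apply mul_le_mul_of_nonneg_right k2 hp.le
      _ = (|Y t z| * 2 ^ P) * (2 * (invE w P N a y : ℝ)) := by field_simp
      _ ≤ (y.nrm + y.rem) * (2 * (invE w P N a y : ℝ)) :=
          mul_le_mul_of_nonneg_right hY (by positivity)
  refine (abs_add_le _ _).trans ?_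
  push_cast at h2 ⊢
  linarith

/-- check value for `y ≈ 1 / sqrt a` -/
def rsqE (w P N : ℕ) (a y : TM) : ℕ := invE w P N a (mul w P N y y)

/-- relative error of the reciprocal square root: `e/2 + e^2` -/
def rsF (P e : ℕ) : ℕ := (e + 1) / 2 + e * e / 2 ^ P + 1

/-- `1 / sqrt a` with candidate `y` -/
def rsq (w P N : ℕ) (a y : TM) : TM :=
  ⟨y.pos, y.neg, y.nrm, y.rem + ((y.nrm + y.rem) * rsF P (rsqE w P N a y)) / 2 ^ P + 1⟩

theorem rsF_bound (P e : ℕ) : (((e : ℝ) / 2 ^ P) / 2 + ((e : ℝ) / 2 ^ P) ^ 2) * 2 ^ P ≤ rsF P e := by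
  have hp : (0 : ℝ) < 2 ^ P := by positivity
  have h1 : (e : ℝ) / 2 ≤ (((e + 1) / 2 : ℕ) : ℝ) := by
    have : e ≤ (e + 1) / 2 * 2 := by omega
    have h : (e : ℝ) ≤ (((e + 1) / 2 : ℕ) : ℝ) * 2 := by exact_mod_cast this
    linarith
  have h2 : (e : ℝ) * e / 2 ^ P ≤ ((e * e / 2 ^ P + 1 : ℕ) : ℝ) := by
    rw [div_le_iff₀ hp]
    have h3 : e * e < (e * e / 2 ^ P + 1) * 2 ^ P := by
      have := Nat.lt_div_mul_add (Nat.two_pow_pos P) (a := e * e)
      rw [Nat.add_mul, one_mul]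
      exact this
    exact_mod_cast h3.le
  have e1 : (((e : ℝ) / 2 ^ P) / 2 + ((e : ℝ) / 2 ^ P) ^ 2) * 2 ^ P = (e : ℝ) / 2 + (e : ℝ) * e / 2 ^ P := by
    field_simp
  rw [e1]
  unfold rsF
  push_cast at h1 h2 ⊢
  linarith

/-- `y` is positive: twice the constant coefficient exceeds the norm plus remainder -/
def posOk (w : ℕ) (y : TM) : Bool := decide (y.nrm + y.rem < 2 * (y.pos % 2 ^ w))

theorem pk_mod_pow (w n : ℕ) (f : ℕ → ℕ) : pk w (n + 1) f % 2 ^ w = f 0 % 2 ^ w := by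
  induction n with
  | zero => simp [pk]
  | succ n ih =>
    rw [pk_succ, Nat.add_mod, ih]
    have : f (n + 1) * 2 ^ (w * (n + 1)) % 2 ^ w = 0 := by
      rw [Nat.mul_add, pow_add]
      simp [← mul_assoc]
    rw [this]; simp

theorem pos_of_posOk {w P N : ℕ} {y : TM} {Y : ℝ → (Fin 12 → ℝ) → ℝ} (hy : Enc w P N y Y)
    (hok : posOk w y = true) (t : ℝ) (z : Fin 12 → ℝ) (ht : |t| ≤ 1) (hz : ∀ i, |z i| ≤ 1) :
    0 < Y t z := by
  obtain ⟨f, g, ⟨v1, p1, q1, n1⟩, h1⟩ := hy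
  have a1 := h1 t z ht hz
  simp only [posOk, decide_eq_true_eq] at hok
  have hn : ns N = (ns N - 1) + 1 := by have := ns_pos N; omega
  have hf0 : y.pos % 2 ^ w ≤ f 0 := by
    rw [p1, hn, pk_mod_pow]
    exact Nat.mod_le _ _
  have hV : V N t z f - V N t z g = f 0 + ∑ k ∈ range (ns N), ((if k = 0 then 0 else (f k : ℝ)) - g k) * mu N t z k := by
    have : ∀ k, ((f k : ℝ) - g k) * mu N t z k = (if k = 0 then (f 0 : ℝ) else 0)
        + ((if k = 0 then 0 else (f k : ℝ)) - g k) * mu N t z k := by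
      intro k
      by_cases hk : k = 0
      · subst hk; simp only [if_true, mu_zero]; ring
      · simp only [if_neg hk]; ring
    have h2 : V N t z f - V N t z g = ∑ k ∈ range (ns N), ((f k : ℝ) - g k) * mu N t z k := by
      unfold V
      rw [← sum_sub_distrib]
      exact sum_congr rfl (fun k _ => by ring)
    rw [h2]
    simp_rw [this]
    rw [sum_add_distrib]
    congr 1
    simp [ns_pos N]
  have hrest : |∑ k ∈ range (ns N), ((if k = 0 then 0 else (f k : ℝ)) - g k) * mu N t z k|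
      ≤ (y.nrm : ℝ) - f 0 := by
    refine (abs_sum_le_sum_abs _ _).trans ?_
    have h3 : ∀ k ∈ range (ns N), |((if k = 0 then 0 else (f k : ℝ)) - g k) * mu N t z k|
        ≤ ((f k : ℝ) + g k) - (if k = 0 then (f 0 : ℝ) else 0) := by
      intro k _
      rw [abs_mul]
      have hm := abs_mu_le N t z ht hz k
      have c1 : (0 : ℝ) ≤ f k := Nat.cast_nonneg _
      have c2 : (0 : ℝ) ≤ g k := Nat.cast_nonneg _
      by_cases hk : k = 0
      · subst hk
        simp only [if_true, zero_sub, abs_neg]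
        rw [abs_of_nonneg c2]
        calc (g 0 : ℝ) * |mu N t z 0| ≤ g 0 * 1 := mul_le_mul_of_nonneg_left hm c2
          _ = _ := by ring
      · simp only [if_neg hk, sub_zero]
        have h4 : |(f k : ℝ) - g k| ≤ (f k : ℝ) + g k := by
          rw [abs_le]; constructor <;> linarith
        calc |(f k : ℝ) - g k| * |mu N t z k| ≤ ((f k : ℝ) + g k) * 1 :=
              mul_le_mul h4 hm (abs_nonneg _) (by positivity)
          _ = _ := by ring
    refine (sum_le_sum h3).trans ?_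
    rw [sum_sub_distrib]
    have h5 : ∑ k ∈ range (ns N), (if k = 0 then (f 0 : ℝ) else 0) = f 0 := by
      simp [ns_pos N]
    rw [h5]
    have h6 : ∑ k ∈ range (ns N), ((f k : ℝ) + g k) ≤ (y.nrm : ℝ) := by exact_mod_cast n1
    linarith
  rw [hV] at a1
  have b1 := (abs_le.mp a1).1
  have b2 := (abs_le.mp hrest).1
  have b3 : (y.nrm : ℝ) + y.rem < 2 * f 0 := by
    have : y.nrm + y.rem < 2 * f 0 := by omega
    exact_mod_cast this
  have hYp : 0 < Y t z * 2 ^ P := by linarith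
  exact pos_of_mul_pos_of_pos_right' hYp
where
  pos_of_mul_pos_of_pos_right' {P : ℕ} {x : ℝ} (h : 0 < x * 2 ^ P) : 0 < x := by
    have hp : (0 : ℝ) < 2 ^ P := by positivity
    exact (mul_pos_iff_of_pos_right hp).mp h

theorem rsqrt_err (q e : ℝ) (he : |q - 1| ≤ e) (he2 : e ≤ 1 / 2) :
    |1 / Real.sqrt q - 1| ≤ e / 2 + e ^ 2 := by
  have h := abs_le.mp he
  have he0 : 0 ≤ e := (abs_nonneg _).trans he
  have hq : 0 < q := by linarith
  set s := Real.sqrt q with hs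
  have hs0 : 0 < s := Real.sqrt_pos.mpr hq
  have hss : s * s = q := Real.mul_self_sqrt hq.le
  have he3 : 0 ≤ e ^ 3 := by positivity
  have he22 : 0 ≤ e ^ 2 := by positivity
  rw [abs_le]
  constructor
  · have hs1 : s ≤ 1 + e / 2 := by
      by_contra hc
      push Not at hc
      have : (1 + e / 2) * (1 + e / 2) < s * s :=
        mul_self_lt_mul_self (by linarith) hc
      nlinarith
    have : s * (1 - e / 2 - e ^ 2) ≤ 1 := by
      have h0 : 0 ≤ 1 - e / 2 - e ^ 2 := by nlinarith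
      calc s * (1 - e / 2 - e ^ 2) ≤ (1 + e / 2) * (1 - e / 2 - e ^ 2) :=
            mul_le_mul_of_nonneg_right hs1 h0
        _ = 1 - 5 / 4 * e ^ 2 - e ^ 3 / 2 := by ring
        _ ≤ 1 := by linarith
    have h2 : 1 - e / 2 - e ^ 2 ≤ 1 / s := by
      rw [le_div_iff₀ hs0]; linarith
    linarith
  · have h2 : 1 / s ≤ 1 + e / 2 + e ^ 2 := by
      rw [div_le_iff₀ hs0]
      by_contra hc
      push Not at hc
      have hpos : 0 ≤ (1 + e / 2 + e ^ 2) * s := by positivity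
      have h3 : ((1 + e / 2 + e ^ 2) * s) * ((1 + e / 2 + e ^ 2) * s) < 1 := by
        nlinarith
      have h4 : (1 + e / 2 + e ^ 2) * (1 + e / 2 + e ^ 2) * (1 - e)
          ≤ (1 + e / 2 + e ^ 2) * (1 + e / 2 + e ^ 2) * q :=
        mul_le_mul_of_nonneg_left (by linarith) (by positivity)
      have h5 : (1 + e / 2 + e ^ 2) * (1 + e / 2 + e ^ 2) * (1 - e)
          = 1 + e ^ 2 * (5 / 4 * (1 - e) - e ^ 3) := by ring
      have h7 : e ^ 3 ≤ 1 / 8 := by
        calc e ^ 3 ≤ (1 / 2) ^ 3 := pow_le_pow_left₀ he0 he2 3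
          _ = 1 / 8 := by norm_num
      have h8 : 0 ≤ e ^ 2 * (5 / 4 * (1 - e) - e ^ 3) := mul_nonneg he22 (by linarith)
      have h6 : (1 + e / 2 + e ^ 2) * (1 + e / 2 + e ^ 2) * q < 1 := by
        rw [← hss]
        calc (1 + e / 2 + e ^ 2) * (1 + e / 2 + e ^ 2) * (s * s)
            = (1 + e / 2 + e ^ 2) * s * ((1 + e / 2 + e ^ 2) * s) := by ring
          _ < 1 := h3
      linarith
    linarith

theorem Enc.rsq {w P N : ℕ} {a y : TM} {F Y : ℝ → (Fin 12 → ℝ) → ℝ} (hw : 1 ≤ w) (hP : P ≤ w)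
    (hP1 : 1 ≤ P) (ha : Enc w P N a F) (hy : Enc w P N y Y) (hok : rsqE w P N a y ≤ 2 ^ (P - 1))
    (hpos : posOk w y = true) :
    Enc w P N (H2TM.rsq w P N a y) (fun t z => 1 / Real.sqrt (F t z)) ∧
      ∀ t z, |t| ≤ 1 → (∀ i, |z i| ≤ 1) → 0 < F t z := by
  have hp : (0 : ℝ) < 2 ^ P := by positivity
  have hhalf : (rsqE w P N a y : ℝ) ≤ 2 ^ P / 2 := by
    have : (rsqE w P N a y : ℝ) ≤ ((2 ^ (P - 1) : ℕ) : ℝ) := by exact_mod_cast hok
    refine this.trans (le_of_eq ?_)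
    push_cast
    obtain ⟨q, rfl⟩ : ∃ q, P = q + 1 := ⟨P - 1, by omega⟩
    rw [Nat.add_sub_cancel, pow_succ]; ring
  have key : ∀ t z, |t| ≤ 1 → (∀ i, |z i| ≤ 1) →
      0 < F t z ∧ |1 / Real.sqrt (F t z) - Y t z| ≤ |Y t z| * (((rsqE w P N a y : ℝ) / 2 ^ P) / 2
        + ((rsqE w P N a y : ℝ) / 2 ^ P) ^ 2) := by
    intro t z ht hz
    have hb := invE_bound hw hP ha (Enc.mul hw hP hy hy) t z ht hz
    have he : |Y t z * Y t z * F t z - 1| ≤ (rsqE w P N a y : ℝ) / 2 ^ P := by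
      rw [le_div_iff₀ hp]; exact hb
    have he2 : (rsqE w P N a y : ℝ) / 2 ^ P ≤ 1 / 2 := by
      rw [div_le_iff₀ hp]; linarith
    have hY := pos_of_posOk hy hpos t z ht hz
    set e := (rsqE w P N a y : ℝ) / 2 ^ P
    have hq := abs_le.mp (he.trans he2)
    have hYF : 0 < Y t z * Y t z * F t z := by linarith [hq.1]
    have hF : 0 < F t z := by
      by_contra hc
      push Not at hc
      nlinarith [mul_pos hY hY]
    refine ⟨hF, ?_⟩
    have e1 : 1 / Real.sqrt (F t z) = Y t z * (1 / Real.sqrt (Y t z * Y t z * F t z)) := by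
      rw [Real.sqrt_mul (by positivity), Real.sqrt_mul_self hY.le]
      field_simp
    have e2 : 1 / Real.sqrt (F t z) - Y t z
        = Y t z * (1 / Real.sqrt (Y t z * Y t z * F t z) - 1) := by
      rw [e1]; ring
    rw [e2, abs_mul]
    exact mul_le_mul_of_nonneg_left (rsqrt_err _ _ he he2) (abs_nonneg _)
  refine ⟨?_, fun t z ht hz => (key t z ht hz).1⟩
  obtain ⟨f, g, hd, h1⟩ := hy
  refine ⟨f, g, hd, fun t z ht hz => ?_⟩
  have a1 := h1 t z ht hz
  have hY := (show Enc w P N y Y from ⟨f, g, hd, h1⟩).bound t z ht hz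
  have k2 := (key t z ht hz).2
  simp only [H2TM.rsq]
  have e : 1 / Real.sqrt (F t z) * 2 ^ P - (V N t z f - V N t z g)
      = (1 / Real.sqrt (F t z) - Y t z) * 2 ^ P + (Y t z * 2 ^ P - (V N t z f - V N t z g)) := by
    ring
  rw [e]
  have h2 : |(1 / Real.sqrt (F t z) - Y t z) * 2 ^ P|
      ≤ (((y.nrm + y.rem) * rsF P (rsqE w P N a y) / 2 ^ P + 1 : ℕ) : ℝ) := by
    apply finish_div
    rw [abs_mul, abs_of_pos hp]
    push_cast
    have hF := rsF_bound P (rsqE w P N a y)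
    calc |1 / Real.sqrt (F t z) - Y t z| * 2 ^ P * 2 ^ P
        ≤ |Y t z| * (((rsqE w P N a y : ℝ) / 2 ^ P) / 2 + ((rsqE w P N a y : ℝ) / 2 ^ P) ^ 2)
            * 2 ^ P * 2 ^ P := by
          apply mul_le_mul_of_nonneg_right _ hp.le
          apply mul_le_mul_of_nonneg_right k2 hp.le
      _ = (|Y t z| * 2 ^ P) * ((((rsqE w P N a y : ℝ) / 2 ^ P) / 2
            + ((rsqE w P N a y : ℝ) / 2 ^ P) ^ 2) * 2 ^ P) := by ring
      _ ≤ (y.nrm + y.rem) * (rsF P (rsqE w P N a y) : ℝ) :=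
          mul_le_mul hY hF (by positivity) (by positivity)
  refine (abs_add_le _ _).trans ?_
  push_cast at h2 ⊢
  linarith

end Pool.Agent.H2TM
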