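import Pool.Agent.Helper2_TM.Ops

namespace Pool.Agent.H2TM

open Finset

/-! ### masks by time degree -/

/-- packed sum of the groups -/
def gs (w N : ℕ) : ℕ := vs.foldr (fun s a => 2 ^ (w * (tw N * s)) + a) 0

theorem mask_eq (w N : ℕ) (A : ℕ → Bool) :
    (∑ i ∈ range (N + 1), if A i then 2 ^ (w * i) else 0) * gs w N
      = pk w (ns N) (fun k => if valid N k = true ∧ A (k % tw N) = true then 1 else 0) := by
  have h1 : pk w (ns N) (fun k => if valid N k = true ∧ A (k % tw N) = true then 1 else 0)
      = ∑ k ∈ range (49 * tw N),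
        (if valid N k then (if A (k % tw N) then 2 ^ (w * k) else 0) else 0) := by
    unfold pk ns
    refine sum_congr rfl (fun k _ => ?_)
    by_cases hv : valid N k = true <;> by_cases hA : A (k % tw N) = true <;> simp [hv, hA]
  rw [h1, sum_groups N (fun k => if A (k % tw N) then 2 ^ (w * k) else 0) 49]
  have h2 : ∀ s, ∑ i ∈ range (N + 1), (if A ((tw N * s + i) % tw N) then 2 ^ (w * (tw N * s + i)) else 0)
      = (∑ i ∈ range (N + 1), if A i then 2 ^ (w * i) else 0) * 2 ^ (w * (tw N * s)) := by
    intro s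
    rw [sum_mul]
    refine sum_congr rfl (fun i hi => ?_)
    have hi' := mem_range.mp hi
    have hm : (tw N * s + i) % tw N = i := by
      rw [Nat.mul_add_mod, Nat.mod_eq_of_lt (by unfold tw; omega)]
    rw [hm]
    by_cases hA : A i = true
    · simp only [hA, if_true]; rw [Nat.mul_add, pow_add]; ring
    · simp [hA]
  simp_rw [h2]
  unfold gs
  rw [foldr_sum (fun s => 2 ^ (w * (tw N * s)))]
  have h3 : ∑ s ∈ range 49, (if s ∈ vs then (∑ i ∈ range (N + 1), if A i then 2 ^ (w * i) else 0)
        * 2 ^ (w * (tw N * s)) else 0)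
      = ∑ s ∈ vs.toFinset, (∑ i ∈ range (N + 1), if A i then 2 ^ (w * i) else 0)
        * 2 ^ (w * (tw N * s)) := by
    rw [← sum_filter]
    apply sum_congr _ (fun _ _ => rfl)
    ext s
    simp only [mem_filter, mem_range, List.mem_toFinset]
    exact ⟨fun h => h.2, fun h => ⟨vs_lt s h, h⟩⟩
  rw [h3, ← mul_sum, List.sum_toFinset _ vs_nodup]

/-- slots of time degree exactly `i` -/
theorem mask_one (w N i : ℕ) (hi : i ≤ N) :
    2 ^ (w * i) * gs w N * (2 ^ w - 1)
      = pk w (ns N) (fun k => if (valid N k && decide (k % tw N = i)) then 2 ^ w - 1 else 0) := by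
  have h := mask_eq w N (fun j => decide (j = i))
  have h2 : ∑ j ∈ range (N + 1), (if decide (j = i) = true then 2 ^ (w * j) else 0) = 2 ^ (w * i) := by
    rw [sum_eq_single_of_mem i (mem_range.mpr (by omega))]
    · simp
    · intro b _ hb; simp [hb]
  rw [h2] at h
  rw [h, pk_smul]
  apply pk_congr
  intro k _
  by_cases hv : valid N k = true <;> by_cases hA : k % tw N = i <;> simp [hv, hA]

/-- slots of time degree at least `i` -/
theorem mask_ge (w N i : ℕ) (hw : 1 ≤ w) (hi : i ≤ N + 1) :
    (rep w (N + 1) - rep w i) * gs w N * (2 ^ w - 1)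
      = pk w (ns N) (fun k => if (valid N k && decide (i ≤ k % tw N)) then 2 ^ w - 1 else 0) := by
  have h := mask_eq w N (fun j => decide (i ≤ j))
  have h2 : ∑ j ∈ range (N + 1), (if decide (i ≤ j) = true then 2 ^ (w * j) else 0)
      = rep w (N + 1) - rep w i := by
    rw [rep_eq w _ hw, rep_eq w _ hw]
    have h3 : ∑ k ∈ range (N + 1), 2 ^ (w * k)
        = ∑ j ∈ range (N + 1), (if decide (i ≤ j) = true then 2 ^ (w * j) else 0)
          + ∑ k ∈ range i, 2 ^ (w * k) := by
      have h4 : ∑ k ∈ range i, 2 ^ (w * k)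
          = ∑ j ∈ range (N + 1), (if j < i then 2 ^ (w * j) else 0) := by
        rw [← sum_filter]
        apply sum_congr _ (fun _ _ => rfl)
        ext s
        simp only [mem_filter, mem_range]
        omega
      rw [h4, ← sum_add_distrib]
      refine sum_congr rfl (fun j _ => ?_)
      by_cases hj : i ≤ j
      · have : ¬ j < i := by omega
        simp [hj, this]
      · have : j < i := by omega
        simp [hj, this]
    omega
  rw [h2] at h
  rw [h, pk_smul]
  apply pk_congr
  intro k _
  by_cases hv : valid N k = true <;> by_cases hA : i ≤ k % tw N <;> simp [hv, hA]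

theorem pk_shift (w n i : ℕ) (f : ℕ → ℕ) (h0 : ∀ k, k < i → f k = 0) (h1 : ∀ k, n ≤ k → f k = 0) :
    pk w n f >>> (w * i) = pk w n (fun k => f (k + i)) := by
  have e1 : pk w n f = pk w (i + n) f := (pk_extend w n (i + n) (by omega) f h1).symm
  have e2 : pk w (i + n) f = pk w n (fun k => f (k + i)) * 2 ^ (w * i) := by
    unfold pk
    rw [sum_range_add, sum_mul]
    have : ∑ x ∈ range i, f x * 2 ^ (w * x) = 0 := by
      apply sum_eq_zero
      intro k hk
      rw [h0 k (mem_range.mp hk)]; simp
    rw [this, zero_add]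
    refine sum_congr rfl (fun k _ => ?_)
    rw [Nat.mul_add, pow_add, Nat.add_comm i k]; ring
  rw [e1, e2, Nat.shiftRight_eq_div_pow, Nat.mul_div_cancel _ (Nat.two_pow_pos _)]

/-- digits of a small Taylor model are smaller than `2^w` -/
theorem Dig.lt {w N : ℕ} {a : TM} {f g : ℕ → ℕ} (h : Dig w N a f g) (hn : a.nrm < 2 ^ w) (k : ℕ)
    (hk : k < ns N) : f k < 2 ^ w ∧ g k < 2 ^ w := by
  have := digit_le_sum (ns N) (fun r => f r + g r) k hk
  have h2 := h.2.2.2
  constructor <;> omega

/-! ### evaluation at `t = 1` and `t = -1` -/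

/-- the coefficients of time degree `i`, moved to degree `0` -/
def col (w N i X : ℕ) : ℕ := Nat.land X (2 ^ (w * i) * gs w N * (2 ^ w - 1)) >>> (w * i)

theorem col_eq (w N i : ℕ) (hi : i ≤ N) (f : ℕ → ℕ) (hf : ∀ k, k < ns N → f k < 2 ^ w) :
    col w N i (pk w (ns N) f)
      = pk w (ns N) (fun k => if valid N k = true ∧ k % tw N = 0 then f (k + i) else 0) := by
  unfold col
  rw [mask_one w N i hi,
    land_keep w (ns N) (fun k => valid N k && decide (k % tw N = i)) f hf, pk_shift]
  · apply pk_congr
    intro k hk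
    have hT := tw_pos N
    have hT2 : i < tw N := by unfold tw; omega
    by_cases h1 : valid N k = true ∧ k % tw N = 0
    · have h2 : valid N (k + i) = true := by
        have hv := h1.1
        rw [valid_iff] at hv ⊢
        have e1 : (k + i) % tw N = i := by
          rw [Nat.add_mod, h1.2, Nat.zero_add, Nat.mod_mod, Nat.mod_eq_of_lt hT2]
        have e2 : (k + i) / tw N = k / tw N := by
          rw [Nat.add_div hT, Nat.div_eq_of_lt hT2, h1.2, Nat.zero_add, Nat.mod_eq_of_lt hT2,
            if_neg (by omega)]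
          rfl
        rw [e1, e2]
        exact ⟨hi, hv.2⟩
      have h3 : (k + i) % tw N = i := by
        rw [Nat.add_mod, h1.2, Nat.zero_add, Nat.mod_mod, Nat.mod_eq_of_lt hT2]
      rw [if_pos h1]
      simp [h2, h3]
    · rw [if_neg h1]
      by_cases h2 : (valid N (k + i) && decide ((k + i) % tw N = i)) = true
      · exfalso
        simp only [Bool.and_eq_true, decide_eq_true_eq] at h2
        have hk0 : k % tw N = 0 := by
          have h4 := h2.2
          have h5 : (k + i) % tw N = (0 + i) % tw N := by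
            rw [Nat.zero_add, Nat.mod_eq_of_lt hT2, h4]
          have h6 : k ≡ 0 [MOD tw N] := Nat.ModEq.add_right_cancel' i h5
          simpa [Nat.ModEq] using h6
        apply h1
        refine ⟨?_, hk0⟩
        have hv := h2.1
        rw [valid_iff] at hv ⊢
        have e2 : (k + i) / tw N = k / tw N := by
          rw [Nat.add_div hT, Nat.div_eq_of_lt hT2, hk0, Nat.zero_add, Nat.mod_eq_of_lt hT2,
            if_neg (by omega)]
          rfl
        rw [e2] at hv
        exact ⟨by omega, hv.2⟩
      · simp only [h2, Bool.false_eq_true, if_false]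
  · intro k hk
    have hT2 : i < tw N := by unfold tw; omega
    have : k % tw N = k := Nat.mod_eq_of_lt (by omega)
    have h2 : ¬ (valid N k && decide (k % tw N = i)) = true := by
      simp only [Bool.and_eq_true, decide_eq_true_eq, not_and]
      intro _; omega
    simp [h2]
  · intro k hk
    have : ¬ valid N k = true := fun hv => by
      have := valid_lt N k hv
      omega
    simp [this]

/-- value at `t = 1` -/
def evP (w N : ℕ) (a : TM) : TM :=
  let S := fun X => (List.range (N + 1)).foldr (fun i s => col w N i X + s) 0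
  ⟨S a.pos, S a.neg, a.nrm, a.rem⟩

/-- value at `t = -1` -/
def evM (w N : ℕ) (a : TM) : TM :=
  let S := fun X Y => (List.range (N + 1)).foldr (fun i s => col w N i (if i % 2 = 0 then X else Y) + s) 0
  ⟨S a.pos a.neg, S a.neg a.pos, a.nrm, a.rem⟩

/-- sum of group digits with a choice of vectors -/
noncomputable def gd (N : ℕ) (F : ℕ → ℕ → ℕ) (k : ℕ) : ℕ :=
  if valid N k = true ∧ k % tw N = 0 then ∑ i ∈ range (N + 1), F i (k + i) else 0

theorem list_range_sum (n : ℕ) (g : ℕ → ℕ) : ((List.range n).map g).sum = ∑ i ∈ range n, g i := by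
  induction n with
  | zero => simp
  | succ n ih =>
    rw [List.range_succ, List.map_append, List.sum_append, ih, sum_range_succ]
    simp

theorem foldr_col (w N n : ℕ) (hn : n ≤ N + 1) (X : ℕ → ℕ) (F : ℕ → ℕ → ℕ)
    (hX : ∀ i, i < n → X i = pk w (ns N) (F i))
    (hf : ∀ i, i < n → ∀ k, k < ns N → F i k < 2 ^ w) :
    (List.range n).foldr (fun i s => col w N i (X i) + s) 0
      = pk w (ns N) (fun k => if valid N k = true ∧ k % tw N = 0
          then ∑ i ∈ range n, F i (k + i) else 0) := by
  have h1 : (List.range n).foldr (fun i s => col w N i (X i) + s) 0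
      = ∑ i ∈ range n, col w N i (X i) := by
    rw [foldr_sum (fun i => col w N i (X i)), list_range_sum]
  rw [h1]
  have h2 : ∀ i ∈ range n, col w N i (X i)
      = pk w (ns N) (fun k => if valid N k = true ∧ k % tw N = 0 then F i (k + i) else 0) := by
    intro i hi
    have hi' := mem_range.mp hi
    rw [hX i hi', col_eq w N i (by omega) (F i) (hf i hi')]
  rw [sum_congr rfl h2]
  unfold pk
  rw [sum_comm]
  refine sum_congr rfl (fun k _ => ?_)
  rw [← sum_mul]
  by_cases h : valid N k = true ∧ k % tw N = 0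
  · simp [h]
  · simp [h]

theorem mod_tw_zero (N k : ℕ) (h : k % tw N = 0) (i : ℕ) (hi : i ≤ N) :
    (k + i) % tw N = i ∧ (k + i) / tw N = k / tw N := by
  have hT := tw_pos N
  have hT2 : i < tw N := by unfold tw; omega
  constructor
  · rw [Nat.add_mod, h, Nat.zero_add, Nat.mod_mod, Nat.mod_eq_of_lt hT2]
  · rw [Nat.add_div hT, Nat.div_eq_of_lt hT2, h, Nat.zero_add, Nat.mod_eq_of_lt hT2,
      if_neg (by omega)]
    rfl

/-- regrouping a sum over valid slots -/
theorem sum_valid {R : Type*} [AddCommMonoid R] (N : ℕ) (h : ℕ → R) (hv : ∀ k, valid N k = false → h k = 0) :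
    ∑ k ∈ range (ns N), h k
      = ∑ k ∈ range (ns N), (if valid N k = true ∧ k % tw N = 0
          then ∑ i ∈ range (N + 1), h (k + i) else 0) := by
  have hT := tw_pos N
  -- general number of groups
  have key : ∀ m, ∑ k ∈ range (m * tw N), h k
      = ∑ k ∈ range (m * tw N), (if valid N k = true ∧ k % tw N = 0
          then ∑ i ∈ range (N + 1), h (k + i) else 0) := by
    intro m
    induction m with
    | zero => simp
    | succ m ih =>
      rw [Nat.succ_mul, sum_range_add, sum_range_add, ih]
      congr 1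
      have e0 : (m * tw N) % tw N = 0 := Nat.mul_mod_left _ _
      have r : ∑ i ∈ range (tw N), (if valid N (m * tw N + i) = true ∧ (m * tw N + i) % tw N = 0
          then ∑ j ∈ range (N + 1), h (m * tw N + i + j) else 0)
          = (if valid N (m * tw N) = true then ∑ j ∈ range (N + 1), h (m * tw N + j) else 0) := by
        rw [sum_eq_single_of_mem 0 (mem_range.mpr hT)]
        · simp [e0]
        · intro b hb hb0
          have hb' := mem_range.mp hb
          have : (m * tw N + b) % tw N = b := by
            rw [Nat.mul_add_mod_self_right, Nat.mod_eq_of_lt hb']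
          rw [if_neg (by rw [this]; exact fun hh => hb0 hh.2)]
      rw [r]
      by_cases hvm : valid N (m * tw N) = true
      · rw [if_pos hvm]
        have hsub : range (N + 1) ⊆ range (tw N) := range_mono (by unfold tw; omega)
        symm
        apply sum_subset hsub
        intro i hi hi'
        have h1 := mem_range.mp hi
        have h2 : N + 1 ≤ i := by simpa using hi'
        apply hv
        by_contra hc
        have hc' : valid N (m * tw N + i) = true := by simpa using hc
        rw [valid_iff, Nat.mul_add_mod_self_right, Nat.mod_eq_of_lt h1] at hc'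
        omega
      · rw [if_neg hvm]
        apply sum_eq_zero
        intro i hi
        have h1 := mem_range.mp hi
        apply hv
        by_contra hc
        have hc' : valid N (m * tw N + i) = true := by simpa using hc
        apply hvm
        rw [valid_iff] at hc' ⊢
        rw [Nat.add_comm, Nat.add_mul_div_right _ _ hT, Nat.div_eq_of_lt h1, Nat.zero_add] at hc'
        rw [Nat.mul_div_cancel _ hT]
        exact ⟨by rw [e0]; omega, hc'.2⟩
  exact key 49

theorem V_group (N : ℕ) (t : ℝ) (z : Fin 12 → ℝ) (f : ℕ → ℕ) (vf : ∀ k, valid N k = false → f k = 0) :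
    V N t z f = ∑ k ∈ range (ns N), (if valid N k = true ∧ k % tw N = 0
      then (∑ i ∈ range (N + 1), (f (k + i) : ℝ) * t ^ i) * mono (k / tw N) z else 0) := by
  unfold V
  rw [sum_valid N _ (fun k hk => by rw [vf k hk]; simp)]
  refine sum_congr rfl (fun k _ => ?_)
  by_cases h : valid N k = true ∧ k % tw N = 0
  · rw [if_pos h, if_pos h, sum_mul]
    refine sum_congr rfl (fun i hi => ?_)
    have hi' := mem_range.mp hi
    have e := mod_tw_zero N k h.2 i (by omega)
    unfold mu
    rw [e.1, e.2]; ring
  · rw [if_neg h, if_neg h]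

theorem V_gd (N : ℕ) (t : ℝ) (z : Fin 12 → ℝ) (F : ℕ → ℕ → ℕ) :
    V N t z (gd N F) = ∑ k ∈ range (ns N), (if valid N k = true ∧ k % tw N = 0
      then (∑ i ∈ range (N + 1), (F i (k + i) : ℝ)) * mono (k / tw N) z else 0) := by
  unfold V gd
  refine sum_congr rfl (fun k _ => ?_)
  by_cases h : valid N k = true ∧ k % tw N = 0
  · rw [if_pos h, if_pos h]
    unfold mu
    rw [h.2]
    push_cast
    ring
  · rw [if_neg h, if_neg h]; simp

theorem gd_valid (N : ℕ) (F : ℕ → ℕ → ℕ) (k : ℕ) (hk : valid N k = false) : gd N F k = 0 := by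
  unfold gd
  rw [if_neg (by rw [hk]; simp)]

theorem evP_digit {w N : ℕ} {a : TM} {f g : ℕ → ℕ} (hd : Dig w N a f g) (hn : a.nrm < 2 ^ w) :
    Dig w N (evP w N a) (gd N (fun _ => f)) (gd N (fun _ => g)) := by
  have hlt := hd.lt hn
  obtain ⟨v1, p1, q1, n1⟩ := hd
  refine ⟨fun k hk => ⟨gd_valid N _ k hk, gd_valid N _ k hk⟩, ?_, ?_, ?_⟩
  · simp only [evP, p1]
    exact foldr_col w N (N + 1) le_rfl (fun _ => pk w (ns N) f) (fun _ => f) (fun _ _ => rfl)
      (fun _ _ k hk => (hlt k hk).1)
  · simp only [evP, q1]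
    exact foldr_col w N (N + 1) le_rfl (fun _ => pk w (ns N) g) (fun _ => g) (fun _ _ => rfl)
      (fun _ _ k hk => (hlt k hk).2)
  · simp only [evP]
    refine le_trans (le_of_eq ?_) n1
    rw [sum_valid N (fun k => f k + g k) (fun k hk => by simp [(v1 k hk).1, (v1 k hk).2])]
    refine sum_congr rfl (fun k _ => ?_)
    unfold gd
    by_cases h : valid N k = true ∧ k % tw N = 0
    · simp only [if_pos h, sum_add_distrib]
    · simp only [if_neg h, add_zero]

theorem Enc.evP {w P N : ℕ} {a : TM} {F : ℝ → (Fin 12 → ℝ) → ℝ} (ha : Enc w P N a F)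
    (hn : a.nrm < 2 ^ w) : Enc w P N (evP w N a) (fun _ z => F 1 z) := by
  obtain ⟨f, g, hd, h1⟩ := ha
  refine ⟨_, _, evP_digit hd hn, fun t z _ hz => ?_⟩
  have a1 := h1 1 z (by simp) hz
  have v1 := hd.1
  rw [V_group N 1 z f (fun k hk => (v1 k hk).1), V_group N 1 z g (fun k hk => (v1 k hk).2)] at a1
  rw [V_gd, V_gd]
  simpa [H2TM.evP] using a1

theorem evM_digit {w N : ℕ} {a : TM} {f g : ℕ → ℕ} (hd : Dig w N a f g) (hn : a.nrm < 2 ^ w) :
    Dig w N (evM w N a) (gd N (fun i => if i % 2 = 0 then f else g))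
      (gd N (fun i => if i % 2 = 0 then g else f)) := by
  have hlt := hd.lt hn
  obtain ⟨v1, p1, q1, n1⟩ := hd
  refine ⟨fun k hk => ⟨gd_valid N _ k hk, gd_valid N _ k hk⟩, ?_, ?_, ?_⟩
  · simp only [evM, p1, q1]
    refine foldr_col w N (N + 1) le_rfl
      (fun i => if i % 2 = 0 then pk w (ns N) f else pk w (ns N) g)
      (fun i => if i % 2 = 0 then f else g) (fun i _ => ?_) (fun i _ k hk => ?_)
    · by_cases h : i % 2 = 0 <;> simp [h]
    · by_cases h : i % 2 = 0
      · simp only [h, if_true]; exact (hlt k hk).1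
      · simp only [h, if_false]; exact (hlt k hk).2
  · simp only [evM, p1, q1]
    refine foldr_col w N (N + 1) le_rfl
      (fun i => if i % 2 = 0 then pk w (ns N) g else pk w (ns N) f)
      (fun i => if i % 2 = 0 then g else f) (fun i _ => ?_) (fun i _ k hk => ?_)
    · by_cases h : i % 2 = 0 <;> simp [h]
    · by_cases h : i % 2 = 0
      · simp only [h, if_true]; exact (hlt k hk).2
      · simp only [h, if_false]; exact (hlt k hk).1
  · simp only [evM]
    refine le_trans (le_of_eq ?_) n1
    rw [sum_valid N (fun k => f k + g k) (fun k hk => by simp [(v1 k hk).1, (v1 k hk).2])]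
    refine sum_congr rfl (fun k _ => ?_)
    unfold gd
    by_cases h : valid N k = true ∧ k % tw N = 0
    · simp only [if_pos h]
      rw [← sum_add_distrib]
      refine sum_congr rfl (fun i _ => ?_)
      by_cases hi : i % 2 = 0
      · simp only [hi, if_true]
      · simp only [hi, if_false]; omega
    · simp only [if_neg h, add_zero]

theorem Enc.evM {w P N : ℕ} {a : TM} {F : ℝ → (Fin 12 → ℝ) → ℝ} (ha : Enc w P N a F)
    (hn : a.nrm < 2 ^ w) : Enc w P N (evM w N a) (fun _ z => F (-1) z) := by
  obtain ⟨f, g, hd, h1⟩ := ha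
  refine ⟨_, _, evM_digit hd hn, fun t z _ hz => ?_⟩
  have a1 := h1 (-1) z (by simp) hz
  have v1 := hd.1
  rw [V_group N (-1) z f (fun k hk => (v1 k hk).1), V_group N (-1) z g (fun k hk => (v1 k hk).2)] at a1
  rw [V_gd, V_gd]
  simp only [H2TM.evM]
  have e : (∑ k ∈ range (ns N), (if valid N k = true ∧ k % tw N = 0
        then (∑ i ∈ range (N + 1), (((if i % 2 = 0 then f else g) (k + i) : ℕ) : ℝ)) * mono (k / tw N) z else 0))
      - (∑ k ∈ range (ns N), (if valid N k = true ∧ k % tw N = 0
        then (∑ i ∈ range (N + 1), (((if i % 2 = 0 then g else f) (k + i) : ℕ) : ℝ)) * mono (k / tw N) z else 0))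
      = (∑ k ∈ range (ns N), (if valid N k = true ∧ k % tw N = 0
        then (∑ i ∈ range (N + 1), (f (k + i) : ℝ) * (-1) ^ i) * mono (k / tw N) z else 0))
      - (∑ k ∈ range (ns N), (if valid N k = true ∧ k % tw N = 0
        then (∑ i ∈ range (N + 1), (g (k + i) : ℝ) * (-1) ^ i) * mono (k / tw N) z else 0)) := by
    rw [← sum_sub_distrib, ← sum_sub_distrib]
    refine sum_congr rfl (fun k _ => ?_)
    by_cases h : valid N k = true ∧ k % tw N = 0
    · rw [if_pos h, if_pos h, if_pos h, if_pos h, ← sub_mul, ← sub_mul]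
      congr 1
      rw [← sum_sub_distrib, ← sum_sub_distrib]
      refine sum_congr rfl (fun i _ => ?_)
      by_cases hi : i % 2 = 0
      · have : Even i := Nat.even_iff.mpr hi
        rw [this.neg_one_pow]
        simp only [hi, if_true]; ring
      · have : Odd i := Nat.odd_iff.mpr (by omega)
        rw [this.neg_one_pow]
        simp only [hi, if_false]; ring
    · simp [h]
  rw [e]
  exact a1

end Pool.Agent.H2TM
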