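import Pool.Agent.Helper2_TM.Ops2

namespace Pool.Agent.H2TM

open Finset

/-! ### time derivative of an exact polynomial -/

def dts (w N X : ℕ) : ℕ → ℕ
  | 0 => 0
  | j + 1 => dts w N X j + Nat.land X ((rep w (N + 1) - rep w (j + 1)) * gs w N * (2 ^ w - 1))

/-- derivative with respect to `t` of the polynomial part -/
def dt (w N : ℕ) (a : TM) : TM :=
  ⟨dts w N a.pos N >>> w, dts w N a.neg N >>> w, a.nrm * N, 0⟩

theorem dts_eq (w N : ℕ) (hw : 1 ≤ w) (f : ℕ → ℕ) (hf : ∀ k, k < ns N → f k < 2 ^ w)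
    (vf : ∀ k, valid N k = false → f k = 0) (n : ℕ) (hn : n ≤ N) :
    dts w N (pk w (ns N) f) n = pk w (ns N) (fun k => min n (k % tw N) * f k) := by
  induction n with
  | zero => simp [dts, pk]
  | succ n ih =>
    simp only [dts]
    rw [ih (by omega), mask_ge w N (n + 1) hw (by omega),
      land_keep w (ns N) (fun k => valid N k && decide (n + 1 ≤ k % tw N)) f hf, pk_add]
    apply pk_congr
    intro k hk
    by_cases hv : valid N k = true
    · by_cases h : n + 1 ≤ k % tw N
      · simp only [hv, h, decide_true, Bool.and_true, if_true]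
        rw [min_eq_left h, min_eq_left (by omega)]; ring
      · simp only [hv, h, decide_false, Bool.and_false, Bool.false_eq_true, if_false, add_zero]
        rw [min_eq_right (by omega), min_eq_right (by omega)]
    · have hv' : valid N k = false := by simpa using hv
      simp [vf k hv']

theorem succ_mod_div (N k : ℕ) (h : (k + 1) % tw N ≠ 0) :
    k % tw N = (k + 1) % tw N - 1 ∧ k / tw N = (k + 1) / tw N := by
  have hT := tw_pos N
  have hlt := Nat.mod_lt (k + 1) hT
  have e := Nat.div_add_mod (k + 1) (tw N)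
  generalize (k + 1) % tw N = r at *
  generalize (k + 1) / tw N = q at *
  have hk : k = tw N * q + (r - 1) := by omega
  subst hk
  have h2 : r - 1 < tw N := by omega
  constructor
  · rw [Nat.mul_add_mod, Nat.mod_eq_of_lt h2]
  · rw [Nat.mul_add_div hT, Nat.div_eq_of_lt h2, Nat.add_zero]

/-- digit vector of the derivative -/
def df (N : ℕ) (f : ℕ → ℕ) (k : ℕ) : ℕ := min N ((k + 1) % tw N) * f (k + 1)

theorem df_valid (N : ℕ) (f : ℕ → ℕ) (vf : ∀ k, valid N k = false → f k = 0) (k : ℕ)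
    (hk : valid N k = false) : df N f k = 0 := by
  unfold df
  by_cases h1 : valid N (k + 1) = true
  · have hT := tw_pos N
    have h2 := h1
    rw [valid_iff] at h2
    by_cases h3 : (k + 1) % tw N = 0
    · rw [h3]; simp
    · exfalso
      obtain ⟨e1, e2⟩ := succ_mod_div N k h3
      have : valid N k = true := by
        rw [valid_iff, e1, e2]
        exact ⟨by omega, h2.2⟩
      rw [this] at hk
      exact absurd hk (by simp)
  · rw [vf (k + 1) (by simpa using h1)]; simp

theorem valid_ns (N k : ℕ) (hk : ns N ≤ k) : valid N k = false := by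
  by_contra hc
  have := valid_lt N k (by simpa using hc)
  omega

theorem dt_dig {w N : ℕ} {a : TM} {f g : ℕ → ℕ} (hw : 1 ≤ w) (hd : Dig w N a f g)
    (hn : a.nrm < 2 ^ w) : Dig w N (dt w N a) (df N f) (df N g) := by
  have hlt := hd.lt hn
  obtain ⟨v1, p1, q1, n1⟩ := hd
  have vf := fun k hk => (v1 k hk).1
  have vg := fun k hk => (v1 k hk).2
  have sh : ∀ (h : ℕ → ℕ), (∀ k, valid N k = false → h k = 0) →
      pk w (ns N) (fun k => min N (k % tw N) * h k) >>> w = pk w (ns N) (df N h) := by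
    intro h vh
    have := pk_shift w (ns N) 1 (fun k => min N (k % tw N) * h k)
      (fun k hk => by
        have : k = 0 := by omega
        subst this; simp)
      (fun k hk => by rw [vh k (valid_ns N k hk)]; simp)
    rw [Nat.mul_one] at this
    exact this
  refine ⟨fun k hk => ⟨df_valid N f vf k hk, df_valid N g vg k hk⟩, ?_, ?_, ?_⟩
  · simp only [dt, p1]
    rw [dts_eq w N hw f (fun k hk => (hlt k hk).1) vf N le_rfl]
    exact sh f vf
  · simp only [dt, q1]
    rw [dts_eq w N hw g (fun k hk => (hlt k hk).2) vg N le_rfl]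
    exact sh g vg
  · simp only [dt]
    have h1 : ∑ k ∈ range (ns N), (df N f k + df N g k)
        ≤ ∑ k ∈ range (ns N), N * (f (k + 1) + g (k + 1)) := by
      refine sum_le_sum (fun k _ => ?_)
      unfold df
      rw [← Nat.mul_add]
      exact Nat.mul_le_mul_right _ (Nat.min_le_left _ _)
    have h2 : ∑ k ∈ range (ns N), (f (k + 1) + g (k + 1)) ≤ ∑ k ∈ range (ns N), (f k + g k) := by
      have e1 := sum_range_succ' (fun k => f k + g k) (ns N)
      have e2 := sum_range_succ (fun k => f k + g k) (ns N)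
      have e3 := vf (ns N) (valid_ns N _ le_rfl)
      have e4 := vg (ns N) (valid_ns N _ le_rfl)
      simp only [e3, e4] at e2
      omega
    calc ∑ k ∈ range (ns N), (df N f k + df N g k)
        ≤ ∑ k ∈ range (ns N), N * (f (k + 1) + g (k + 1)) := h1
      _ = N * ∑ k ∈ range (ns N), (f (k + 1) + g (k + 1)) := by rw [mul_sum]
      _ ≤ N * a.nrm := Nat.mul_le_mul_left _ (h2.trans n1)
      _ = a.nrm * N := Nat.mul_comm _ _

theorem V_hasDeriv (N : ℕ) (z : Fin 12 → ℝ) (f : ℕ → ℕ) (vf : ∀ k, valid N k = false → f k = 0)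
    (t : ℝ) : HasDerivAt (fun t => V N t z f) (V N t z (df N f)) t := by
  have h1 : HasDerivAt (fun t => V N t z f)
      (∑ k ∈ range (ns N), (f k : ℝ) * ((k % tw N : ℕ) * t ^ (k % tw N - 1) * mono (k / tw N) z)) t := by
    unfold V mu
    apply HasDerivAt.fun_sum
    intro k _
    exact ((hasDerivAt_pow (k % tw N) t).mul_const _).const_mul _
  convert h1 using 1
  -- reindex
  set h : ℕ → ℝ := fun k => (f k : ℝ) * ((k % tw N : ℕ) * t ^ (k % tw N - 1) * mono (k / tw N) z)
    with hh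
  have hT := tw_pos N
  have e0 : h 0 = 0 := by simp [hh]
  have e1 : h (ns N) = 0 := by
    simp only [hh]
    rw [vf _ (valid_ns N _ le_rfl)]; simp
  have e2 : ∑ k ∈ range (ns N), h k = ∑ k ∈ range (ns N), h (k + 1) := by
    have a1 := sum_range_succ' h (ns N)
    have a2 := sum_range_succ h (ns N)
    rw [e0] at a1
    rw [e1] at a2
    linarith
  rw [e2]
  unfold V
  refine sum_congr rfl (fun k _ => ?_)
  simp only [hh]
  unfold df mu
  by_cases hv : valid N (k + 1) = true
  · have h2 := hv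
    rw [valid_iff] at h2
    by_cases h3 : (k + 1) % tw N = 0
    · rw [h3]; simp
    · obtain ⟨e1, e2⟩ := succ_mod_div N k h3
      rw [min_eq_right h2.1, e1, e2]
      push_cast
      ring
  · rw [vf (k + 1) (by simpa using hv)]; simp

/-! ### well formed vectors from arbitrary naturals -/

theorem pk_digits (w n X : ℕ) (h : X < 2 ^ (w * n)) :
    pk w n (fun k => X / 2 ^ (w * k) % 2 ^ w) = X := by
  induction n generalizing X with
  | zero => simp [pk] at h ⊢; omega
  | succ n ih =>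
    rw [pk_succ]
    have h1 : pk w n (fun k => X / 2 ^ (w * k) % 2 ^ w) = X % 2 ^ (w * n) := by
      rw [← ih (X % 2 ^ (w * n)) (Nat.mod_lt _ (Nat.two_pow_pos _))]
      apply pk_congr
      intro k hk
      have e : 2 ^ (w * n) = 2 ^ (w * k) * 2 ^ (w * (n - k)) := by
        rw [← pow_add, ← Nat.mul_add]; congr 2; omega
      have e2 : 2 ^ (w * (n - k)) = 2 ^ w * 2 ^ (w * (n - k - 1)) := by
        rw [← pow_add]; congr 1
        have : n - k = (n - k - 1) + 1 := by omega
        conv_lhs => rw [this]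
        ring
      rw [e, Nat.mod_mul_right_div_self, e2, Nat.mod_mul_right_mod]
    rw [h1]
    have h2 : X / 2 ^ (w * n) < 2 ^ w := by
      rw [Nat.div_lt_iff_lt_mul (Nat.two_pow_pos _), ← pow_add]
      calc X < 2 ^ (w * (n + 1)) := h
        _ = 2 ^ (w + w * n) := by congr 1; ring
    rw [Nat.mod_eq_of_lt h2]
    have := Nat.div_add_mod' X (2 ^ (w * n))
    omega

/-- make a well formed exact polynomial out of arbitrary naturals -/
def wfx (w N : ℕ) (a : TM) : TM :=
  if Nat.land a.pos (Gc w N * (2 ^ (w - 16) - 1)) = a.pos ∧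
      Nat.land a.neg (Gc w N * (2 ^ (w - 16) - 1)) = a.neg then
    ⟨a.pos, a.neg, a.pos % (2 ^ w - 1) + a.neg % (2 ^ w - 1), 0⟩
  else ⟨0, 0, 0, 0⟩

theorem wf_digits (w N X : ℕ) (hw : 16 ≤ w) (h : Nat.land X (Gc w N * (2 ^ (w - 16) - 1)) = X) :
    ∃ f : ℕ → ℕ, (∀ k, valid N k = false → f k = 0) ∧ (∀ k, f k < 2 ^ (w - 16)) ∧
      X = pk w (ns N) f := by
  have hmask : Gc w N * (2 ^ (w - 16) - 1)
      = pk w (ns N) (fun k => if valid N k then 2 ^ (w - 16) - 1 else 0) := Gc_mul w N _ (by omega)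
  have hpw : 2 ^ (w - 16) ≤ 2 ^ w := Nat.pow_le_pow_right (by norm_num) (by omega)
  have hpp : 0 < 2 ^ (w - 16) := Nat.two_pow_pos _
  have hX : X < 2 ^ (w * ns N) := by
    have h1 : X ≤ Gc w N * (2 ^ (w - 16) - 1) := by
      rw [← h]; exact Nat.and_le_right
    refine lt_of_le_of_lt h1 ?_
    rw [hmask]
    apply pk_lt
    intro k _
    split_ifs <;> omega
  refine ⟨fun k => if valid N k then X / 2 ^ (w * k) % 2 ^ w % 2 ^ (w - 16) else 0, ?_, ?_, ?_⟩
  · intro k hk; simp [hk]
  · intro k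
    show (if valid N k then X / 2 ^ (w * k) % 2 ^ w % 2 ^ (w - 16) else 0) < _
    split_ifs
    · exact Nat.mod_lt _ hpp
    · exact hpp
  · conv_lhs => rw [← h, hmask, ← pk_digits w (ns N) X hX]
    rw [pk_land _ _ _ _ (fun k _ => Nat.mod_lt _ (Nat.two_pow_pos _)) (fun k _ => by
      have : 0 < 2 ^ w := Nat.two_pow_pos w
      split_ifs <;> omega)]
    apply pk_congr
    intro k _
    by_cases hv : valid N k = true
    · simp only [hv, if_true]
      rw [land_low]
    · have hv' : valid N k = false := by simpa using hv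
      simp only [hv', Bool.false_eq_true, if_false]
      exact land_zero_right _

theorem wfx_dig (w N : ℕ) (hw : 16 ≤ w) (hN : 49 * (2 * N + 1) ≤ 2 ^ 15) (a : TM) :
    (∃ f g, Dig w N (wfx w N a) f g) ∧ (wfx w N a).rem = 0 ∧ (wfx w N a).nrm < 2 ^ w := by
  unfold wfx
  split_ifs with h
  · obtain ⟨f, vf, bf, ef⟩ := wf_digits w N a.pos hw h.1
    obtain ⟨g, vg, bg, eg⟩ := wf_digits w N a.neg hw h.2
    have hb : ∀ (h : ℕ → ℕ), (∀ k, h k < 2 ^ (w - 16)) → ∑ k ∈ range (ns N), h k < 2 ^ (w - 1) := by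
      intro h hh
      have h1 : ∑ k ∈ range (ns N), h k ≤ ∑ k ∈ range (ns N), (2 ^ (w - 16) - 1) :=
        sum_le_sum (fun k _ => by have := hh k; omega)
      have h2 : ∑ k ∈ range (ns N), (2 ^ (w - 16) - 1) = ns N * (2 ^ (w - 16) - 1) := by simp
      have h3 : ns N ≤ 2 ^ 15 := hN
      have h4 : 2 ^ (w - 1) = 2 ^ 15 * 2 ^ (w - 16) := by rw [← pow_add]; congr 1; omega
      have hpp : 0 < 2 ^ (w - 16) := Nat.two_pow_pos _
      rw [h4]
      calc ∑ k ∈ range (ns N), h k ≤ ns N * (2 ^ (w - 16) - 1) := by rw [← h2]; exact h1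
        _ ≤ 2 ^ 15 * (2 ^ (w - 16) - 1) := Nat.mul_le_mul_right _ h3
        _ < 2 ^ 15 * 2 ^ (w - 16) := by
          apply Nat.mul_lt_mul_of_pos_left _ (by norm_num)
          omega
    have hw2 : 2 ^ w = 2 ^ (w - 1) + 2 ^ (w - 1) := by
      rw [← two_mul, ← pow_succ']; congr 1; omega
    have hwp : 1 ≤ 2 ^ (w - 1) := Nat.one_le_two_pow
    have e1 : a.pos % (2 ^ w - 1) = ∑ k ∈ range (ns N), f k := by
      rw [ef]; exact pk_mod w (ns N) f (by have := hb f bf; omega)
    have e2 : a.neg % (2 ^ w - 1) = ∑ k ∈ range (ns N), g k := by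
      rw [eg]; exact pk_mod w (ns N) g (by have := hb g bg; omega)
    refine ⟨⟨f, g, fun k hk => ⟨vf k hk, vg k hk⟩, ef, eg, ?_⟩, rfl, ?_⟩
    · show ∑ k ∈ range (ns N), (f k + g k) ≤ a.pos % (2 ^ w - 1) + a.neg % (2 ^ w - 1)
      rw [sum_add_distrib, e1, e2]
    · show a.pos % (2 ^ w - 1) + a.neg % (2 ^ w - 1) < 2 ^ w
      rw [e1, e2]
      have := hb f bf
      have := hb g bg
      omega
  · refine ⟨⟨fun _ => 0, fun _ => 0, fun _ _ => ⟨rfl, rfl⟩, by simp [pk], by simp [pk], by simp⟩,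
      rfl, ?_⟩
    exact Nat.two_pow_pos _

/-! ### jets with literal coefficients -/

/-- `c / 2^P` times the monomial of slot `s` -/
def mon (w N s : ℕ) (c : ℤ) : TM :=
  ⟨c.toNat * 2 ^ (w * (tw N * s)), (-c).toNat * 2 ^ (w * (tw N * s)), c.natAbs, 0⟩

theorem Enc.mon {w P N : ℕ} (s : ℕ) (hs : s ∈ vs) (c : ℤ) :
    Enc w P N (mon w N s c) (fun _ z => mono s z * c / 2 ^ P) := by
  set k0 := tw N * s with hk0
  have hvs : valid N (tw N * s) = true := by
    rw [valid_iff]
    constructor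
    · simp
    · rw [Nat.mul_div_cancel_left _ (tw_pos N)]; exact hs
  have hk0lt : k0 < ns N := valid_lt N k0 hvs
  refine ⟨fun k => if k = k0 then c.toNat else 0, fun k => if k = k0 then (-c).toNat else 0,
    ⟨?_, ?_, ?_, ?_⟩, ?_⟩
  · intro k hk
    have : k ≠ k0 := fun h0 => by
      rw [h0, hk0, hvs] at hk; exact absurd hk (by simp)
    simp [this]
  · unfold pk
    rw [sum_eq_single_of_mem k0 (mem_range.mpr hk0lt)]
    · simp [H2TM.mon, hk0]
    · intro b _ hb; simp [hb]
  · unfold pk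
    rw [sum_eq_single_of_mem k0 (mem_range.mpr hk0lt)]
    · simp [H2TM.mon, hk0]
    · intro b _ hb; simp [hb]
  · rw [sum_eq_single_of_mem k0 (mem_range.mpr hk0lt)]
    · simp only [if_true, H2TM.mon]; omega
    · intro b _ hb; simp [hb]
  · intro t z _ _
    have hmu : mu N t z k0 = mono s z := by
      unfold mu
      rw [hk0, Nat.mul_mod_right, Nat.mul_div_cancel_left _ (tw_pos N)]; simp
    have hV : ∀ m : ℕ, V N t z (fun k => if k = k0 then m else 0) = m * mono s z := by
      intro m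
      unfold V
      rw [sum_eq_single_of_mem k0 (mem_range.mpr hk0lt)]
      · simp only [if_true]; rw [hmu]
      · intro b _ hb; simp [hb]
    rw [hV, hV]
    simp only [H2TM.mon]
    have hc : ((c.toNat : ℕ) : ℝ) - (((-c).toNat : ℕ) : ℝ) = (c : ℝ) := by
      have : (c.toNat : ℤ) - ((-c).toNat : ℤ) = c := by omega
      exact_mod_cast this
    have hp : (2 : ℝ) ^ P ≠ 0 := by positivity
    have : mono s z * c / 2 ^ P * 2 ^ P - ((c.toNat : ℕ) * mono s z - ((-c).toNat : ℕ) * mono s z)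
        = 0 := by
      rw [div_mul_cancel₀ _ hp, ← sub_mul, hc]; ring
    rw [this]; simp

/-- jet with given slots and coefficients -/
def jet (w N : ℕ) : List ℕ → List ℤ → TM
  | s :: ss, c :: cs => add (mon w N s c) (jet w N ss cs)
  | _, _ => ⟨0, 0, 0, 0⟩

/-- value of the jet (in units `2^-P`) -/
noncomputable def jv : List ℕ → List ℤ → (Fin 12 → ℝ) → ℝ
  | s :: ss, c :: cs, z => mono s z * c + jv ss cs z
  | _, _, _ => 0

theorem Enc.zero {w P N : ℕ} : Enc w P N ⟨0, 0, 0, 0⟩ (fun _ _ => 0) := by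
  refine ⟨fun _ => 0, fun _ => 0, ⟨fun _ _ => ⟨rfl, rfl⟩, by simp [pk], by simp [pk], by simp⟩, ?_⟩
  intro t z _ _
  simp [V]

theorem Enc.jet {w P N : ℕ} : ∀ (ss : List ℕ) (cs : List ℤ), (∀ s ∈ ss, s ∈ vs) →
    Enc w P N (jet w N ss cs) (fun _ z => jv ss cs z / 2 ^ P)
  | [], _, _ => by simpa [H2TM.jet, jv] using (Enc.zero (w := w) (P := P) (N := N))
  | s :: ss, [], _ => by simpa [H2TM.jet, jv] using (Enc.zero (w := w) (P := P) (N := N))
  | s :: ss, c :: cs, h => by
    have h1 := Enc.mon (w := w) (P := P) (N := N) s (h s (by simp)) c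
    have h2 := Enc.jet (w := w) (P := P) (N := N) ss cs (fun s' hs' => h s' (by simp [hs']))
    exact (Enc.add h1 h2).congr (fun t z _ _ => by simp only [jv]; ring)

end Pool.Agent.H2TM
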