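import Pool.Agent.Helper2_TM.OutZ
import Pool.Agent.Helper49_HM.NumAsm
import Pool.Agent.Helper49_HM.Out

/-!
# The end inequalities from the outcome check
-/

namespace Pool.Agent.H2TM

open Complex Set Pool.Agent.HM Pool.Agent.HM.H4

noncomputable section

/-- mass factors of the outcome -/
def dM (m : Fin 3 → ℝ) : Fin 3 → ℝ := ![2 / (m 0 + m 1), 3 / mT m, mT m / 3]

theorem dM_ok (m : Fin 3 → ℝ) (hm : Near1 (1 / 2 ^ 50) m) : DOk (dM m) := by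
  have h0 := abs_lt.1 (hm 0)
  have h1 := abs_lt.1 (hm 1)
  have h2 := abs_lt.1 (hm 2)
  have key : ∀ x : ℝ, |x - 1| ≤ 1 / 2 ^ 50 → |x⁻¹ - 1| ≤ 1 / 2 ^ 46 := by
    intro x hx
    have hx' := abs_le.1 hx
    have hD : (1 : ℝ) / 2 ^ 50 ≤ 1 / 2 := by norm_num
    have hpos : 1 / 2 ≤ x := by linarith [hx'.1]
    have hx0 : 0 < x := by linarith
    have e : x⁻¹ - 1 = -(x - 1) / x := by field_simp; ring
    rw [e, abs_div, abs_neg, abs_of_pos hx0, div_le_iff₀ hx0]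
    calc |x - 1| ≤ 1 / 2 ^ 50 := hx
      _ ≤ 1 / 2 ^ 46 * (1 / 2) := by norm_num
      _ ≤ 1 / 2 ^ 46 * x := mul_le_mul_of_nonneg_left hpos (by positivity)
  have k1 : |(m 0 + m 1) / 2 - 1| ≤ 1 / 2 ^ 50 := by rw [abs_le]; constructor <;> linarith
  have k2 : |mT m / 3 - 1| ≤ 1 / 2 ^ 50 := by
    unfold mT
    rw [abs_le]; constructor <;> linarith
  intro i
  fin_cases i
  · have := key _ k1
    have e : ((m 0 + m 1) / 2)⁻¹ = dM m 0 := by
      show _ = 2 / (m 0 + m 1)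
      rw [inv_div]
    rw [e] at this
    exact this
  · have := key _ k2
    have e : (mT m / 3)⁻¹ = dM m 1 := by
      show _ = 3 / mT m
      rw [inv_div]
    rw [e] at this
    exact this
  · exact k2.trans (by norm_num)

/-! ### complex numbers -/

theorem oR2_R8 (X : JS) : oR2 (R8 X) = ‖X.2.1‖ ^ 2 := by
  rw [← Complex.normSq_eq_norm_sq, Complex.normSq_apply]; rfl

theorem oL_R8 (X : JS) : oL (R8 X) = cr X.1 X.2.2.1 := by
  show X.1.re * X.2.2.1.im - X.1.im * X.2.2.1.re = ((starRingEnd ℂ) X.1 * X.2.2.1).im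
  rw [Complex.mul_im, Complex.conj_re, Complex.conj_im]
  ring

theorem oM_R8 (X : JS) : oM (R8 X) = cr X.2.1 X.2.2.2 := by
  show X.2.1.re * X.2.2.2.im - X.2.1.im * X.2.2.2.re = ((starRingEnd ℂ) X.2.1 * X.2.2.2).im
  rw [Complex.mul_im, Complex.conj_re, Complex.conj_im]
  ring

theorem invR_R8 (X : JS) : 1 / Real.sqrt (oR2 (R8 X)) = 1 / ‖X.2.1‖ := by
  rw [oR2_R8, Real.sqrt_sq (norm_nonneg _)]

theorem oR_R8 (X : JS) : oR (R8 X) = ‖X.2.1‖ := by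
  unfold oR
  rw [invR_R8, oR2_R8]
  by_cases h : ‖X.2.1‖ = 0
  · rw [h]; simp
  · field_simp

theorem wout_eq (m : Fin 3 → ℝ) (hm : ∀ i, 0 < m i) (X : JS) :
    Wout m X = ⟨oWr (dM m) (R8 X), oWi (dM m) (R8 X)⟩ := by
  have h01 : ((m 0 + m 1 : ℝ) : ℂ) ≠ 0 := by
    have := add_pos (hm 0) (hm 1)
    exact_mod_cast this.ne'
  have hT : ((mT m : ℝ) : ℂ) ≠ 0 := by
    have : 0 < mT m := by unfold mT; linarith [hm 0, hm 1, hm 2]
    exact_mod_cast this.ne'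
  have e1 : X.1 + 4 * I * (cr X.1 X.2.2.1 : ℂ) * X.2.2.1 / ((m 0 + m 1 : ℝ) : ℂ)
      = ⟨op1 (dM m) (R8 X), op2 (dM m) (R8 X)⟩ := by
    have : X.1 + 4 * I * (cr X.1 X.2.2.1 : ℂ) * X.2.2.1 / ((m 0 + m 1 : ℝ) : ℂ)
        = X.1 + ((cr X.1 X.2.2.1 * 2 * (2 / (m 0 + m 1)) : ℝ) : ℂ) * (I * X.2.2.1) := by
      push_cast at h01 ⊢
      field_simp
      ring
    rw [this, ← oL_R8]
    apply Complex.ext
    · rw [Complex.add_re, Complex.re_ofReal_mul, Complex.I_mul_re]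
      show X.1.re + oL (R8 X) * 2 * (2 / (m 0 + m 1)) * -X.2.2.1.im =
        X.1.re - oL (R8 X) * X.2.2.1.im * 2 * (2 / (m 0 + m 1))
      ring
    · rw [Complex.add_im, Complex.im_ofReal_mul, Complex.I_mul_im]
      show X.1.im + oL (R8 X) * 2 * (2 / (m 0 + m 1)) * X.2.2.1.re =
        X.1.im + oL (R8 X) * X.2.2.1.re * 2 * (2 / (m 0 + m 1))
      ring
  have e2 : X.2.1 + I * (cr X.2.1 X.2.2.2 : ℂ) * X.2.2.2 * (‖X.2.1‖ : ℂ) / (mT m : ℂ)
      = ⟨ov1 (dM m) (R8 X), ov2 (dM m) (R8 X)⟩ := by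
    have : X.2.1 + I * (cr X.2.1 X.2.2.2 : ℂ) * X.2.2.2 * (‖X.2.1‖ : ℂ) / (mT m : ℂ)
        = X.2.1 + ((cr X.2.1 X.2.2.2 * ‖X.2.1‖ * (1 / 3) * (3 / mT m) : ℝ) : ℂ) * (I * X.2.2.2) := by
      push_cast at hT ⊢
      field_simp
    rw [this, ← oM_R8, ← oR_R8]
    apply Complex.ext
    · rw [Complex.add_re, Complex.re_ofReal_mul, Complex.I_mul_re]
      show X.2.1.re + oM (R8 X) * oR (R8 X) * (1 / 3) * (3 / mT m) * -X.2.2.2.im =
        X.2.1.re - oM (R8 X) * oR (R8 X) * (1 / 3) * (3 / mT m) * X.2.2.2.im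
      ring
    · rw [Complex.add_im, Complex.im_ofReal_mul, Complex.I_mul_im]
      show X.2.1.im + oM (R8 X) * oR (R8 X) * (1 / 3) * (3 / mT m) * X.2.2.2.re =
        X.2.1.im + oM (R8 X) * oR (R8 X) * (1 / 3) * (3 / mT m) * X.2.2.2.re
      ring
  unfold Wout
  rw [e1, e2]
  apply Complex.ext
  · simp only [Complex.mul_re, Complex.mul_im, Complex.neg_re, Complex.neg_im, Complex.conj_re,
      Complex.conj_im]
    show _ = ob1 (dM m) (R8 X) * (98230316560 / 1000000000000) +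
      ob2 (dM m) (R8 X) * (995163707592 / 1000000000000)
    unfold ob1 ob2 oa1 oa2
    show _ = ((X.1.re * op1 (dM m) (R8 X) - X.1.im * op2 (dM m) (R8 X)) * ov1 (dM m) (R8 X) +
      (X.1.re * op2 (dM m) (R8 X) + X.1.im * op1 (dM m) (R8 X)) * ov2 (dM m) (R8 X)) *
      (98230316560 / 1000000000000) + ((X.1.re * op2 (dM m) (R8 X) + X.1.im * op1 (dM m) (R8 X)) *
      ov1 (dM m) (R8 X) - (X.1.re * op1 (dM m) (R8 X) - X.1.im * op2 (dM m) (R8 X)) *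
      ov2 (dM m) (R8 X)) * (995163707592 / 1000000000000)
    ring
  · simp only [Complex.mul_re, Complex.mul_im, Complex.neg_re, Complex.neg_im, Complex.conj_re,
      Complex.conj_im]
    show _ = ob2 (dM m) (R8 X) * (98230316560 / 1000000000000) -
      ob1 (dM m) (R8 X) * (995163707592 / 1000000000000)
    unfold ob1 ob2 oa1 oa2
    show _ = ((X.1.re * op2 (dM m) (R8 X) + X.1.im * op1 (dM m) (R8 X)) * ov1 (dM m) (R8 X) -
      (X.1.re * op1 (dM m) (R8 X) - X.1.im * op2 (dM m) (R8 X)) * ov2 (dM m) (R8 X)) *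
      (98230316560 / 1000000000000) - ((X.1.re * op1 (dM m) (R8 X) - X.1.im * op2 (dM m) (R8 X)) *
      ov1 (dM m) (R8 X) + (X.1.re * op2 (dM m) (R8 X) + X.1.im * op1 (dM m) (R8 X)) *
      ov2 (dM m) (R8 X)) * (995163707592 / 1000000000000)
    ring

end

/-! ### the final test -/

/-- `z i * (p / q)` -/
def kv (w P N : ℕ) (i : Fin 12) (p : ℤ) (q : ℕ) : TM :=
  widen (var w N i (p * 2 ^ P / q)) 1

theorem Enc.kv {w P N : ℕ} (i : Fin 12) (p : ℤ) (q : ℕ) (hq : 0 < q) :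
    Enc w P N (kv w P N i p q) (fun _ z => z i * ((p : ℝ) / q)) := by
  refine Enc.widen _ (Enc.var (w := w) (P := P) (N := N) i (p * 2 ^ P / q)) (fun t z _ hz => ?_)
  have hp : (0 : ℝ) < 2 ^ P := by positivity
  have h := (Enc.cq (w := w) (P := P) (N := N) p q hq)
  have hq' : (0 : ℝ) < q := by exact_mod_cast hq
  have h1 := Int.emod_add_mul_ediv (p * 2 ^ P) (q : ℤ)
  have h2 := Int.emod_nonneg (p * 2 ^ P) (show ((q : ℤ)) ≠ 0 by omega)
  have h3 := Int.emod_lt_of_pos (p * 2 ^ P) (show (0 : ℤ) < q by omega)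
  have e : (p : ℝ) / q * 2 ^ P - ((p * 2 ^ P / q : ℤ) : ℝ) = ((p * 2 ^ P % q : ℤ) : ℝ) / q := by
    have h4 : (p : ℝ) * 2 ^ P = ((p * 2 ^ P % q : ℤ) : ℝ) + (q : ℝ) * ((p * 2 ^ P / q : ℤ) : ℝ) := by
      exact_mod_cast h1.symm
    field_simp
    linarith
  have h5 : (0 : ℝ) ≤ ((p * 2 ^ P % q : ℤ) : ℝ) := by exact_mod_cast h2
  have h6 : ((p * 2 ^ P % q : ℤ) : ℝ) < q := by exact_mod_cast h3
  have h7 : |(p : ℝ) / q * 2 ^ P - ((p * 2 ^ P / q : ℤ) : ℝ)| ≤ 1 := by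
    rw [e, abs_of_nonneg (div_nonneg h5 hq'.le), div_le_iff₀ hq']
    linarith
  have e2 : (z i * ((p : ℝ) / q) - z i * ((p * 2 ^ P / q : ℤ) : ℝ) / 2 ^ P)
      = z i * ((p : ℝ) / q * 2 ^ P - ((p * 2 ^ P / q : ℤ) : ℝ)) / 2 ^ P := by
    field_simp
  rw [e2, abs_div, abs_mul, abs_of_pos hp, div_mul_cancel₀ _ hp.ne']
  calc |z i| * |(p : ℝ) / q * 2 ^ P - ((p * 2 ^ P / q : ℤ) : ℝ)| ≤ 1 * 1 :=
        mul_le_mul (hz i) h7 (abs_nonneg _) (by norm_num)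
    _ = ((1 : ℕ) : ℝ) := by norm_num

/-- bound of `|F + e|`, `F` enclosed by `d`, `|e| ≤ b / 2^(P+D)`, by `p / q` -/
def finC (P D : ℕ) (d : TM) (b p q : ℕ) : Bool :=
  decide (((d.nrm + d.rem) * 2 ^ D + b) * q ≤ p * 2 ^ (P + D))

/-- final test, `pu`, `ps` numerators over `10^7` -/
def finOK (w P N D : ℕ) (s : ZS) (C : List (List ℤ)) (pu ps : ℤ) : Bool :=
  finC P D (nz w N (sub (sub (jet w N vs15 (C.getD 0 [])) (cq P pu 10000000))
    (kv w P N 1 3255 1000000))) (s.rows.getD 0 (0, 0, 0)).2.2 4183 10000000 &&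
  finC P D (nz w N (sub (jet w N vs15 (C.getD 1 [])) (cq P ps 10000000)))
    (s.rows.getD 1 (0, 0, 0)).2.2 5578 10000000 &&
  finC P D (nz w N (sub (jet w N vs15 (C.getD 2 [])) (kv w P N 3 3 10000)))
    (s.rows.getD 2 (0, 0, 0)).2.2 18 100000

theorem finC_sound {w P N D : ℕ} {d : TM} {b p q : ℕ} {F : ℝ → (Fin 12 → ℝ) → ℝ}
    (hd : Enc w P N d F) (hq : 0 < q) (hok : finC P D d b p q = true) (z : Fin 12 → ℝ)
    (hz : ∀ i, |z i| ≤ 1) (e : ℝ) (he : |e| ≤ b / 2 ^ (P + D)) : |F 0 z + e| ≤ p / q := by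
  have h1 := hd.bound 0 z (by simp) hz
  have hp : (0 : ℝ) < 2 ^ P := by positivity
  have hD : (0 : ℝ) < 2 ^ D := by positivity
  have hq' : (0 : ℝ) < q := by exact_mod_cast hq
  simp only [finC, decide_eq_true_eq] at hok
  have h2 : (((d.nrm : ℝ) + d.rem) * 2 ^ D + b) * q ≤ p * 2 ^ (P + D) := by exact_mod_cast hok
  rw [le_div_iff₀ hq']
  have h3 : |F 0 z| ≤ ((d.nrm : ℝ) + d.rem) / 2 ^ P := by
    rw [le_div_iff₀ hp]; exact h1
  have h4 : |F 0 z + e| ≤ (((d.nrm : ℝ) + d.rem) * 2 ^ D + b) / 2 ^ (P + D) := by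
    calc |F 0 z + e| ≤ |F 0 z| + |e| := abs_add_le _ _
      _ ≤ ((d.nrm : ℝ) + d.rem) / 2 ^ P + b / 2 ^ (P + D) := add_le_add h3 he
      _ = (((d.nrm : ℝ) + d.rem) * 2 ^ D + b) / 2 ^ (P + D) := by
        rw [pow_add]; field_simp
  calc |F 0 z + e| * q ≤ (((d.nrm : ℝ) + d.rem) * 2 ^ D + b) / 2 ^ (P + D) * q :=
        mul_le_mul_of_nonneg_right h4 hq'.le
    _ = ((((d.nrm : ℝ) + d.rem) * 2 ^ D + b) * q) / 2 ^ (P + D) := by ring
    _ ≤ p := by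
      rw [div_le_iff₀ (by positivity)]
      exact h2

/-- **the outcome theorem** -/
theorem out_final (hOut : OutStmt) {w P N w' Qs D : ℕ} (hw : 1 ≤ w) (hP : P ≤ w) (hP1 : 1 ≤ P)
    (hw' : 1 ≤ w') (hQ : Qs ≤ w') {gR gW : ℤ} {a b : ℕ} {c : Cert} {s : ZS} {pu ps : ℤ}
    (hok : outOK w P N gR gW a b c = true)
    (hz : zchk w' Qs D s c.B (pairE c.E) c.R = true)
    (hfin : finOK w P N D (zstep w' Qs D s c.B (pairE c.E) c.R) c.C' pu ps = true)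
    {u v : ℝ → ℝ → ℝ} {L0 g0 : ℝ} (hu : ∀ L g, u L g = ((a : ℝ) / 100 * L + g) / 4.65)
    (hv : ∀ L g, v L g = ((b : ℝ) / 100 * L - g) / 4.65)
    (hpu : (pu : ℝ) / 10000000 = (a : ℝ) / 100 * L0 + g0 - gref)
    (hps : (ps : ℝ) / 10000000 = (b : ℝ) / 100 * L0 - g0 + gref)
    (m : Fin 3 → ℝ) (hm : Near1 (1 / 2 ^ 50) m) (ξ : Fin 4 → ℝ) (hξ : ξ ∈ box4) (X : JS)
    (hX : LFree m X) (hin : InZ w' P D s (fun i => R8 X i - J P c.C ξ i)) :
    EndAt u v L0 g0 m ξ (toJ X) := by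
  have hpos : ∀ i, 0 < m i := by
    intro i
    have h1 := (abs_lt.1 (hm i)).1
    have h2 : (1 : ℝ) / 2 ^ 50 ≤ 1 := by norm_num
    linarith
  have hξ' := box_abs hξ
  obtain ⟨hmap, hwin⟩ := outOK_sound (dM_ok m hm) hw hP hP1 hok
  have hz' := hz
  unfold zchk at hz'
  simp only [Bool.and_eq_true, beq_iff_eq] at hz'
  obtain ⟨⟨⟨⟨⟨hl1, hl2⟩, -⟩, -⟩, hcB⟩, -⟩ := hz'
  obtain ⟨y, hy, hxy, η, hη, hx, hηy⟩ := unit_of hin hl1 hl2 hcB
  obtain ⟨w1, w2, w3, w4, w5, w6, w7⟩ := hwin ξ hξ' η hη (R8 X) hx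
  have hX1 : X.1 ≠ 0 := hX.1
  have hX21 : X.2.1 ≠ 0 := by
    intro h
    rw [oR2_R8, h] at w3
    norm_num at w3
  have hre : (Wout m X).re = oWr (dM m) (R8 X) := by rw [wout_eq m hpos X]
  have him : (Wout m X).im = oWi (dM m) (R8 X) := by rw [wout_eq m hpos X]
  obtain ⟨hL, hn, hg⟩ := hOut m hpos X hX1 hX21 (by rw [hre]; exact w1) (by
    rw [hre, him]
    refine w2.trans (le_of_eq ?_)
    norm_num)
  -- zonotope of the outcome
  have hin' := map_in hmap hw' hQ hz hξ' hin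
  obtain ⟨y', hy', hxy'⟩ := hin'
  have hzz : ∀ i, |zz ξ 0 i| ≤ 1 := by
    intro i
    unfold zz
    split_ifs
    · exact hξ' _
    · simp
  have hb : ∀ i : Fin 8, |outR (a / 100) (b / 100) (dM m) (R8 X) i - J P c.C' ξ i| ≤
      (((zstep w' Qs D s c.B (pairE c.E) c.R).rows.getD i (0, 0, 0)).2.2 : ℝ) / 2 ^ (P + D) := by
    intro i
    have h1 := hxy' i
    beta_reduce at h1
    rw [h1, abs_div, abs_of_pos (show (0 : ℝ) < 2 ^ (P + D) by positivity)]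
    exact div_le_div_of_nonneg_right (hy'.bound i.2) (by positivity)
  simp only [finOK, Bool.and_eq_true] at hfin
  obtain ⟨⟨f0, f1⟩, f2⟩ := hfin
  have jj := fun i => Enc.jet (w := w) (P := P) (N := N) vs15 (c.C'.getD i []) vs15_sub
  have g0' := finC_sound (Enc.nz hw (Enc.sub (Enc.sub (jj 0) (Enc.cq pu 10000000 (by norm_num)))
    (Enc.kv 1 3255 1000000 (by norm_num)))) (by norm_num) f0 (zz ξ 0) hzz _ (hb 0)
  have g1' := finC_sound (Enc.nz hw (Enc.sub (jj 1) (Enc.cq ps 10000000 (by norm_num))))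
    (by norm_num) f1 (zz ξ 0) hzz _ (hb 1)
  have g2' := finC_sound (Enc.nz hw (Enc.sub (jj 2)
    (Enc.kv 3 3 10000 (by norm_num)))) (by norm_num) f2 (zz ξ 0) hzz _ (hb 2)
  have z1 : zz ξ 0 1 = ξ 1 := rfl
  have z3 : zz ξ 0 3 = ξ 3 := rfl
  have J0 : J P c.C' ξ 0 = jv vs15 (c.C'.getD 0 []) (zz ξ 0) / 2 ^ P := rfl
  have J1 : J P c.C' ξ 1 = jv vs15 (c.C'.getD 1 []) (zz ξ 0) / 2 ^ P := rfl
  have J2 : J P c.C' ξ 2 = jv vs15 (c.C'.getD 2 []) (zz ξ 0) / 2 ^ P := rfl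
  have o0 : outR (a / 100) (b / 100) (dM m) (R8 X) 0 = oL (R8 X) * (a / 100) + og (dM m) (R8 X) := rfl
  have o1 : outR (a / 100) (b / 100) (dM m) (R8 X) 1 = oL (R8 X) * (b / 100) - og (dM m) (R8 X) := rfl
  have o2 : outR (a / 100) (b / 100) (dM m) (R8 X) 2 = oE (dM m) (R8 X) := rfl
  rw [z1, J0, o0] at g0'
  rw [J1, o1] at g1'
  rw [z3, J2, o2] at g2'
  have hgg : |gg m (toJ X) - gref - og (dM m) (R8 X)| ≤ 2e-7 := by
    have : og (dM m) (R8 X) = (Wout m X).im / (Wout m X).re := by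
      rw [hre, him]; unfold og; rw [div_eq_mul_inv]
    rw [this]; exact hg
  have hLL : LL (toJ X) = oL (R8 X) := by rw [hL, oL_R8]
  have hR2 := oR2_R8 X
  have hEO : EO m (toJ X) = oE (dM m) (R8 X) := by
    unfold EO oE
    rw [invR_R8]
    show ‖X.2.2.2‖ ^ 2 / 3 - 2 * mT m / (3 * ‖X.2.1‖) =
      (X.2.2.2.re * X.2.2.2.re + X.2.2.2.im * X.2.2.2.im) * (1 / 3) - 1 / ‖X.2.1‖ * 2 * (mT m / 3)
    rw [← Complex.normSq_eq_norm_sq, Complex.normSq_apply]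
    have : ‖X.2.1‖ ≠ 0 := norm_ne_zero_iff.2 hX21
    field_simp
  have hSS : SS (toJ X) = oS (R8 X) := by
    unfold SS oS
    rw [invR_R8]
    show Pool.Agent.HM.dt X.2.1 X.2.2.2 / ‖X.2.1‖ =
      (X.2.1.re * X.2.2.2.re + X.2.1.im * X.2.2.2.im) * (1 / ‖X.2.1‖)
    unfold Pool.Agent.HM.dt
    rw [Complex.mul_re, Complex.conj_re, Complex.conj_im]
    ring
  refine ⟨⟨?_, ?_⟩, ?_, ?_, ?_, ?_, ?_⟩
  · show (24 : ℝ) ≤ ‖X.2.1‖
    rw [hR2] at w3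
    by_contra hc
    push Not at hc
    nlinarith [norm_nonneg X.2.1]
  · show ‖X.2.1‖ ≤ 24.8
    rw [hR2] at w4
    by_contra hc
    push Not at hc
    nlinarith [norm_nonneg X.2.1]
  · rw [hn]
    rw [← Complex.normSq_eq_norm_sq, Complex.normSq_apply]
    exact w5.le
  · rw [hSS]
    exact ⟨w6.le, w7.le⟩
  · rw [hu, hu, hLL]
    have e : ((a : ℝ) / 100 * oL (R8 X) + gg m (toJ X)) / 4.65 - ((a : ℝ) / 100 * L0 + g0) / 4.65
        - kapS * ξ 1 = ((gg m (toJ X) - gref - og (dM m) (R8 X)) +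
          ((jv vs15 (c.C'.getD 0 []) (zz ξ 0) / 2 ^ P - (pu : ℝ) / 10000000 -
            ξ 1 * ((3255 : ℝ) / 1000000)) +
          (oL (R8 X) * (a / 100) + og (dM m) (R8 X) - jv vs15 (c.C'.getD 0 []) (zz ξ 0) / 2 ^ P)))
          / 4.65 := by
      rw [hpu]
      unfold kapS
      ring
    rw [e, abs_div, abs_of_pos (show (0 : ℝ) < 4.65 by norm_num), div_le_iff₀ (by norm_num)]
    push_cast at g0'
    refine (abs_add_le _ _).trans ?_
    unfold epU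
    have := hgg
    norm_num at this g0' ⊢
    linarith
  · rw [hv, hv, hLL]
    have e : ((b : ℝ) / 100 * oL (R8 X) - gg m (toJ X)) / 4.65 - ((b : ℝ) / 100 * L0 - g0) / 4.65
        = (-(gg m (toJ X) - gref - og (dM m) (R8 X)) +
          ((jv vs15 (c.C'.getD 1 []) (zz ξ 0) / 2 ^ P - (ps : ℝ) / 10000000) +
          (oL (R8 X) * (b / 100) - og (dM m) (R8 X) - jv vs15 (c.C'.getD 1 []) (zz ξ 0) / 2 ^ P)))
          / 4.65 := by
      rw [hps]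
      ring
    rw [e, abs_div, abs_of_pos (show (0 : ℝ) < 4.65 by norm_num), div_le_iff₀ (by norm_num)]
    push_cast at g1'
    refine (abs_add_le _ _).trans ?_
    rw [abs_neg]
    unfold epS
    have := hgg
    norm_num at this g1' ⊢
    linarith
  · rw [hEO]
    have e : oE (dM m) (R8 X) - kapE * ξ 3 = (jv vs15 (c.C'.getD 2 []) (zz ξ 0) / 2 ^ P -
        ξ 3 * ((3 : ℝ) / 10000)) + (oE (dM m) (R8 X) - jv vs15 (c.C'.getD 2 []) (zz ξ 0) / 2 ^ P) := by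
      unfold kapE
      ring
    rw [e]
    push_cast at g2'
    unfold epE
    refine g2'.trans ?_
    norm_num

end Pool.Agent.H2TM
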