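import Pool.Agent.Helper2_TM.EvalZ

/-!
# Outcome functions in real Levi-Civita coordinates

`x = (z₁, z₂, w₁, w₂, l₁, l₂, n₁, n₂)`; `d 0 = 2/(m₀+m₁)`, `d 1 = 3/m_T`, `d 2 = m_T/3`.
-/

namespace Pool.Agent.H2TM

open Finset Pool.Agent.HM.H4

noncomputable section

/-- `cr z w` -/
def oL (x : Fin 8 → ℝ) : ℝ := x 0 * x 3 - x 1 * x 2
/-- `cr lam ν` -/
def oM (x : Fin 8 → ℝ) : ℝ := x 4 * x 7 - x 5 * x 6
/-- `|lam|²` -/
def oR2 (x : Fin 8 → ℝ) : ℝ := x 4 * x 4 + x 5 * x 5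
/-- `|lam|` as `R² / R` -/
def oR (x : Fin 8 → ℝ) : ℝ := oR2 x * (1 / Real.sqrt (oR2 x))
/-- `z (z + 2 i L d₀ w)` -/
def op1 (d : Fin 3 → ℝ) (x : Fin 8 → ℝ) : ℝ := x 0 - oL x * x 3 * 2 * d 0
def op2 (d : Fin 3 → ℝ) (x : Fin 8 → ℝ) : ℝ := x 1 + oL x * x 2 * 2 * d 0
def oa1 (d : Fin 3 → ℝ) (x : Fin 8 → ℝ) : ℝ := x 0 * op1 d x - x 1 * op2 d x
def oa2 (d : Fin 3 → ℝ) (x : Fin 8 → ℝ) : ℝ := x 0 * op2 d x + x 1 * op1 d x
/-- `M |lam| d₁ / 3` -/
def oN (d : Fin 3 → ℝ) (x : Fin 8 → ℝ) : ℝ := oM x * oR x * (1 / 3) * d 1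
/-- `lam + i (M |lam| / m_T) ν` -/
def ov1 (d : Fin 3 → ℝ) (x : Fin 8 → ℝ) : ℝ := x 4 - oN d x * x 7
def ov2 (d : Fin 3 → ℝ) (x : Fin 8 → ℝ) : ℝ := x 5 + oN d x * x 6
/-- real and imaginary part of the product with the conjugate -/
def ob1 (d : Fin 3 → ℝ) (x : Fin 8 → ℝ) : ℝ := oa1 d x * ov1 d x + oa2 d x * ov2 d x
def ob2 (d : Fin 3 → ℝ) (x : Fin 8 → ℝ) : ℝ := oa2 d x * ov1 d x - oa1 d x * ov2 d x
/-- real and imaginary part of `Wout` -/
def oWr (d : Fin 3 → ℝ) (x : Fin 8 → ℝ) : ℝ :=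
  ob1 d x * (98230316560 / 1000000000000) + ob2 d x * (995163707592 / 1000000000000)
def oWi (d : Fin 3 → ℝ) (x : Fin 8 → ℝ) : ℝ :=
  ob2 d x * (98230316560 / 1000000000000) - ob1 d x * (995163707592 / 1000000000000)
/-- the angle -/
def og (d : Fin 3 → ℝ) (x : Fin 8 → ℝ) : ℝ := oWi d x * (oWr d x)⁻¹
/-- outer energy -/
def oE (d : Fin 3 → ℝ) (x : Fin 8 → ℝ) : ℝ :=
  (x 6 * x 6 + x 7 * x 7) * (1 / 3) - 1 / Real.sqrt (oR2 x) * 2 * d 2
/-- radial velocity -/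
def oS (x : Fin 8 → ℝ) : ℝ := (x 4 * x 6 + x 5 * x 7) * (1 / Real.sqrt (oR2 x))

/-- outputs: `α L + g`, `β L - g`, energy -/
def outR (α β : ℝ) (d : Fin 3 → ℝ) (x : Fin 8 → ℝ) : Fin 8 → ℝ :=
  ![oL x * α + og d x, oL x * β - og d x, oE d x, 0, 0, 0, 0, 0]

end

/-- state from jets and error radii -/
def st0 (w N : ℕ) (C : List (List ℤ)) (B : List ℕ) : ST :=
  ⟨startC w N 0 (C.getD 0 []) (B.getD 0 0), startC w N 1 (C.getD 1 []) (B.getD 1 0),
    startC w N 2 (C.getD 2 []) (B.getD 2 0), startC w N 3 (C.getD 3 []) (B.getD 3 0),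
    startC w N 4 (C.getD 4 []) (B.getD 4 0), startC w N 5 (C.getD 5 []) (B.getD 5 0),
    startC w N 6 (C.getD 6 []) (B.getD 6 0), startC w N 7 (C.getD 7 []) (B.getD 7 0)⟩

/-- the state as a function of the variables -/
noncomputable def xst (P : ℕ) (C : List (List ℤ)) (B : List ℕ) (z : Fin 12 → ℝ) (i : Fin 8) : ℝ :=
  sv i (C.getD i []) (B.getD i 0) z / 2 ^ P

theorem st0_enc {w P N : ℕ} (C : List (List ℤ)) (B : List ℕ) :
    STEnc w P N (st0 w N C B) (fun _ z => xst P C B z) := by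
  intro i
  have h := startC_enc (w := w) (P := P) (N := N) i (C.getD i []) (B.getD i 0)
  fin_cases i <;> exact h

theorem xst_eq {P : ℕ} (C : List (List ℤ)) (B : List ℕ) (ξ : Fin 4 → ℝ) (η : Fin 8 → ℝ) (i : Fin 8) :
    J P C ξ i + (B.getD i 0 : ℝ) * η i / 2 ^ P = xst P C B (zz ξ η) i := by
  have hp : (2 : ℝ) ^ P ≠ 0 := by positivity
  have h := start_eq (P := P) ⟨0, 0, 0, C, B, [], [], [], [], 0, 0⟩ ξ η i
  unfold xst
  rw [eq_div_iff hp]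
  exact h

/-- intermediate Taylor models of the outcome -/
structure OT where
  L : TM
  R2 : TM
  y : TM
  b1 : TM
  b2 : TM
  E : TM
  S : TM

def outW (w P N : ℕ) (b1 b2 : TM) : TM × TM :=
  (nz w N (add (mul w P N b1 (cq P 98230316560 1000000000000))
      (mul w P N b2 (cq P 995163707592 1000000000000))),
    nz w N (sub (mul w P N b2 (cq P 98230316560 1000000000000))
      (mul w P N b1 (cq P 995163707592 1000000000000))))

def outB (w P N : ℕ) (a1 a2 v1 v2 : TM) : TM × TM :=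
  (nz w N (add (mul w P N a1 v1) (mul w P N a2 v2)), nz w N (sub (mul w P N a2 v1) (mul w P N a1 v2)))

def outA (w P N : ℕ) (s : ST) (L : TM) : TM × TM :=
  let p1 := nz w N (sub s.x0 (pert (smul 2 (mul w P N L s.x3))))
  let p2 := nz w N (add s.x1 (pert (smul 2 (mul w P N L s.x2))))
  (nz w N (sub (mul w P N s.x0 p1) (mul w P N s.x1 p2)),
    nz w N (add (mul w P N s.x0 p2) (mul w P N s.x1 p1)))

def outV (w P N : ℕ) (s : ST) (R2 y : TM) : TM × TM :=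
  let M := nz w N (sub (mul w P N s.x4 s.x7) (mul w P N s.x5 s.x6))
  let n := pert (mul w P N (mul w P N M (mul w P N R2 y)) (cthird P))
  (nz w N (sub s.x4 (mul w P N n s.x7)), nz w N (add s.x5 (mul w P N n s.x6)))

def outT (w P N : ℕ) (s : ST) (gR : ℤ) : OT :=
  let L := nz w N (sub (mul w P N s.x0 s.x3) (mul w P N s.x1 s.x2))
  let R2 := nz w N (add (mul w P N s.x4 s.x4) (mul w P N s.x5 s.x5))
  let y := rs w P N R2 gR
  let a := outA w P N s L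
  let v := outV w P N s R2 y
  let b := outB w P N a.1 a.2 v.1 v.2
  ⟨L, R2, y, (outW w P N b.1 b.2).1, (outW w P N b.1 b.2).2,
    nz w N (sub (mul w P N (add (mul w P N s.x6 s.x6) (mul w P N s.x7 s.x7)) (cthird P))
      (pert (smul 2 y))),
    mul w P N (nz w N (add (mul w P N s.x4 s.x6) (mul w P N s.x5 s.x7))) y⟩

/-- all checks of the outcome; `a b` numerators of `α β` (denominator 100), `gR ≈ 1/|lam|`,
`gW ≈ 1 / Re W` -/
def outG (w P N : ℕ) (o : OT) (gR gW : ℤ) (a b : ℕ) (c : Cert) : Bool :=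
  let g := mul w P N o.b2 (iv w P N o.b1 gW)
  rsOk w P N o.R2 gR && ivOk w P N o.b1 gW &&
  mck w N (nz w N (add (mul w P N o.L (cq P a 100)) g)) (c.C'.getD 0 []) (c.E.getD 0 []) (c.R.getD 0 0) &&
  mck w N (nz w N (sub (mul w P N o.L (cq P b 100)) g)) (c.C'.getD 1 []) (c.E.getD 1 []) (c.R.getD 1 0) &&
  mck w N o.E (c.C'.getD 2 []) (c.E.getD 2 []) (c.R.getD 2 0) &&
  -- positivity of `Re W`, smallness of the angle
  posOk w o.b1 && posOk w (nz w N (sub (mul w P N o.b1 (cq P 6 1000)) o.b2)) &&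
  posOk w (nz w N (add (mul w P N o.b1 (cq P 6 1000)) o.b2))

/-- windows for `|lam|²`, `|z|²` and the radial velocity -/
def outN (w P N : ℕ) (s : ST) (o : OT) : Bool :=
  posOk w (nz w N (sub o.R2 (cq P 576 1))) && posOk w (nz w N (sub (cq P 61504 100) o.R2)) &&
  posOk w (nz w N (sub (cq P 2 1) (add (mul w P N s.x0 s.x0) (mul w P N s.x1 s.x1)))) &&
  posOk w (nz w N (sub o.S (cq P 485 1000))) && posOk w (nz w N (sub (cq P 505 1000) o.S))

def z8 : List ℤ := [0, 0, 0, 0, 0, 0, 0, 0]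

def outOK (w P N : ℕ) (gR gW : ℤ) (a b : ℕ) (c : Cert) : Bool :=
  let s := st0 w N c.C c.B
  let o := outT w P N s gR
  outG w P N o gR gW a b c && outN w P N s o && (c.C'.drop 3 == [[], [], [], [], []]) &&
    (c.E.drop 3 == [z8, z8, z8, z8, z8]) && (c.R.drop 3 == [0, 0, 0, 0, 0])

/-- factor conditions -/
def DOk (d : Fin 3 → ℝ) : Prop := ∀ i, |d i - 1| ≤ 1 / 2 ^ 46

/-- the outcome Taylor models enclose the outcome functions -/
structure OEnc (w P N : ℕ) (o : OT) (d : Fin 3 → ℝ) (X : ℝ → (Fin 12 → ℝ) → (Fin 8 → ℝ)) : Prop where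
  L : Enc w P N o.L (fun t z => oL (X t z))
  R2 : Enc w P N o.R2 (fun t z => oR2 (X t z))
  b1 : Enc w P N o.b1 (fun t z => oWr d (X t z))
  b2 : Enc w P N o.b2 (fun t z => oWi d (X t z))
  E : Enc w P N o.E (fun t z => oE d (X t z))
  S : Enc w P N o.S (fun t z => oS (X t z))

theorem outT_enc {w P N : ℕ} {s : ST} {X : ℝ → (Fin 12 → ℝ) → (Fin 8 → ℝ)} {d : Fin 3 → ℝ} {gR : ℤ}
    (hd : DOk d) (hw : 1 ≤ w) (hP : P ≤ w) (hP1 : 1 ≤ P) (hs : STEnc w P N s X)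
    (hok : rsOk w P N (outT w P N s gR).R2 gR = true) :
    OEnc w P N (outT w P N s gR) d X ∧
      ∀ t z, |t| ≤ 1 → (∀ i, |z i| ≤ 1) → 0 < oR2 (X t z) := by
  have e0 : Enc w P N s.x0 (fun t z => X t z 0) := hs 0
  have e1 : Enc w P N s.x1 (fun t z => X t z 1) := hs 1
  have e2 : Enc w P N s.x2 (fun t z => X t z 2) := hs 2
  have e3 : Enc w P N s.x3 (fun t z => X t z 3) := hs 3
  have e4 : Enc w P N s.x4 (fun t z => X t z 4) := hs 4
  have e5 : Enc w P N s.x5 (fun t z => X t z 5) := hs 5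
  have e6 : Enc w P N s.x6 (fun t z => X t z 6) := hs 6
  have e7 : Enc w P N s.x7 (fun t z => X t z 7) := hs 7
  have third := Enc.third (w := w) (P := P) (N := N)
  have L := Enc.nz hw (Enc.sub (Enc.mul hw hP e0 e3) (Enc.mul hw hP e1 e2))
  have R2 := Enc.nz hw (Enc.add (Enc.mul hw hP e4 e4) (Enc.mul hw hP e5 e5))
  obtain ⟨y, hpos⟩ := Enc.rs hw hP hP1 R2 hok
  have p1 := Enc.nz hw (Enc.sub e0 (Enc.pert (hd 0) (Enc.smul 2 (Enc.mul hw hP L e3))))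
  have p2 := Enc.nz hw (Enc.add e1 (Enc.pert (hd 0) (Enc.smul 2 (Enc.mul hw hP L e2))))
  have a1 := Enc.nz hw (Enc.sub (Enc.mul hw hP e0 p1) (Enc.mul hw hP e1 p2))
  have a2 := Enc.nz hw (Enc.add (Enc.mul hw hP e0 p2) (Enc.mul hw hP e1 p1))
  have M := Enc.nz hw (Enc.sub (Enc.mul hw hP e4 e7) (Enc.mul hw hP e5 e6))
  have n := Enc.pert (hd 1) (Enc.mul hw hP (Enc.mul hw hP M (Enc.mul hw hP R2 y)) third)
  have v1 := Enc.nz hw (Enc.sub e4 (Enc.mul hw hP n e7))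
  have v2 := Enc.nz hw (Enc.add e5 (Enc.mul hw hP n e6))
  have b1 := Enc.nz hw (Enc.add (Enc.mul hw hP a1 v1) (Enc.mul hw hP a2 v2))
  have b2 := Enc.nz hw (Enc.sub (Enc.mul hw hP a2 v1) (Enc.mul hw hP a1 v2))
  have k1 := Enc.cq (w := w) (P := P) (N := N) 98230316560 1000000000000 (by norm_num)
  have k2 := Enc.cq (w := w) (P := P) (N := N) 995163707592 1000000000000 (by norm_num)
  have W1 := Enc.nz hw (Enc.add (Enc.mul hw hP b1 k1) (Enc.mul hw hP b2 k2))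
  have W2 := Enc.nz hw (Enc.sub (Enc.mul hw hP b2 k1) (Enc.mul hw hP b1 k2))
  have E := Enc.nz hw (Enc.sub (Enc.mul hw hP (Enc.add (Enc.mul hw hP e6 e6)
    (Enc.mul hw hP e7 e7)) third) (Enc.pert (hd 2) (Enc.smul 2 y)))
  have S := Enc.mul hw hP (Enc.nz hw (Enc.add (Enc.mul hw hP e4 e6) (Enc.mul hw hP e5 e7))) y
  refine ⟨⟨L, R2, W1.congr ?_, W2.congr ?_, E.congr ?_, S⟩, hpos⟩
  · intro t z _ _
    simp only [oWr, ob1, ob2, oa1, oa2, op1, op2, ov1, ov2, oN, oM, oR, oL]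
    push_cast; rfl
  · intro t z _ _
    simp only [oWi, ob1, ob2, oa1, oa2, op1, op2, ov1, ov2, oN, oM, oR, oL]
    push_cast; rfl
  · intro t z _ _
    simp only [oE]
    push_cast; rfl

/-- what the outcome check gives on the enclosure -/
theorem outOK_sound {w P N : ℕ} {gR gW : ℤ} {a b : ℕ} {c : Cert} {d : Fin 3 → ℝ}
    (hd : DOk d) (hw : 1 ≤ w) (hP : P ≤ w) (hP1 : 1 ≤ P) (hok : outOK w P N gR gW a b c = true) :
    MapP (outR (a / 100) (b / 100) d) P c ∧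
      ∀ ξ : Fin 4 → ℝ, (∀ i, |ξ i| ≤ 1) → ∀ η : Fin 8 → ℝ, (∀ i, |η i| ≤ 1) → ∀ x : Fin 8 → ℝ,
        (∀ i : Fin 8, x i = J P c.C ξ i + (c.B.getD i 0 : ℝ) * η i / 2 ^ P) →
        0 < oWr d x ∧ |oWi d x| ≤ 6 / 1000 * oWr d x ∧ 576 < oR2 x ∧ oR2 x < 615.04 ∧
          x 0 * x 0 + x 1 * x 1 < 2 ∧ 0.485 < oS x ∧ oS x < 0.505 := by
  simp only [outOK, outG, outN, Bool.and_eq_true, beq_iff_eq] at hok
  obtain ⟨⟨⟨⟨⟨⟨⟨⟨⟨⟨⟨hR, hI⟩, hm0⟩, hm1⟩, hm2⟩, hp0⟩, hp1⟩, hp2⟩, ⟨⟨⟨⟨hr1, hr2⟩, hz⟩, hs1⟩, hs2⟩⟩, hC⟩,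
    hE⟩, hRR⟩ := hok
  obtain ⟨oe, hpos⟩ := outT_enc (X := fun _ z => xst P c.C c.B z) hd hw hP hP1 (st0_enc c.C c.B) hR
  have cqe := fun (p : ℤ) (q : ℕ) (hq : 0 < q) => Enc.cq (w := w) (P := P) (N := N) p q hq
  obtain ⟨Ie, -⟩ := Enc.iv hw hP hP1 oe.b1 hI
  have ge := Enc.mul hw hP oe.b2 Ie
  have u0 := Enc.nz hw (Enc.add (Enc.mul hw hP oe.L (cqe a 100 (by norm_num))) ge)
  have u1 := Enc.nz hw (Enc.sub (Enc.mul hw hP oe.L (cqe b 100 (by norm_num))) ge)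
  have hx : ∀ ξ : Fin 4 → ℝ, ∀ η : Fin 8 → ℝ, ∀ x : Fin 8 → ℝ,
      (∀ i : Fin 8, x i = J P c.C ξ i + (c.B.getD i 0 : ℝ) * η i / 2 ^ P) →
      x = xst P c.C c.B (zz ξ η) := by
    intro ξ η x h
    funext i
    rw [h i, xst_eq]
  have hzz : ∀ ξ : Fin 4 → ℝ, (∀ i, |ξ i| ≤ 1) → ∀ η : Fin 8 → ℝ, (∀ i, |η i| ≤ 1) →
      ∀ i, |zz ξ η i| ≤ 1 := by
    intro ξ hξ η hη i
    unfold zz
    split_ifs
    · exact hξ _
    · exact hη _
  constructor
  · intro ξ hξ η hη x h i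
    rw [hx ξ η x h]
    have hz3 : ∀ i : Fin 8, 3 ≤ i.1 → c.C'.getD i.1 [] = [] ∧ c.E.getD i.1 [] = z8 := by
      intro i hi
      have hc3 : c.C'.getD i.1 [] = (c.C'.drop 3).getD (i.1 - 3) [] := by
        rw [List.getD_eq_getElem?_getD, List.getD_eq_getElem?_getD, List.getElem?_drop]
        congr 2; omega
      have he3 : c.E.getD i.1 [] = (c.E.drop 3).getD (i.1 - 3) [] := by
        rw [List.getD_eq_getElem?_getD, List.getD_eq_getElem?_getD, List.getElem?_drop]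
        congr 2; omega
      rw [hc3, he3, hC, hE]
      obtain ⟨i, hi8⟩ := i
      simp only at hi ⊢
      interval_cases i <;> exact ⟨rfl, rfl⟩
    have hzero : ∀ i : Fin 8, 3 ≤ i.1 → outR (a / 100) (b / 100) d (xst P c.C c.B (zz ξ η)) i = 0 →
        |outR (a / 100) (b / 100) d (xst P c.C c.B (zz ξ η)) i - J P c.C' ξ i
          - (∑ k : Fin 8, (ent c.E i k : ℝ) * η k) / 2 ^ P| ≤ (c.R.getD i 0 : ℝ) / 2 ^ P := by
      intro i hi h0
      have h1 : J P c.C' ξ i = 0 := by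
        unfold J
        rw [(hz3 i hi).1]
        simp [jv, vs15, vs, tab]
      have h2 : ∀ k : Fin 8, ent c.E i k = 0 := by
        intro k
        unfold ent
        rw [(hz3 i hi).2]
        fin_cases k <;> rfl
      rw [h0, h1]
      simp only [h2]
      have : (0 : ℝ) ≤ (c.R.getD i 0 : ℝ) / 2 ^ P := by positivity
      simpa using this
    fin_cases i
    · exact (mck_sound hw (u0.congr (F' := fun _ z =>
        oL (xst P c.C c.B z) * ((a : ℝ) / 100) + og d (xst P c.C c.B z)) (fun t z _ _ => by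
        unfold og; push_cast; rfl)) hm0 ξ hξ η hη)
    · exact (mck_sound hw (u1.congr (F' := fun _ z =>
        oL (xst P c.C c.B z) * ((b : ℝ) / 100) - og d (xst P c.C c.B z)) (fun t z _ _ => by
        unfold og; push_cast; rfl)) hm1 ξ hξ η hη)
    · exact mck_sound hw oe.E hm2 ξ hξ η hη
    · exact hzero 3 (by decide) rfl
    · exact hzero 4 (by decide) rfl
    · exact hzero 5 (by decide) rfl
    · exact hzero 6 (by decide) rfl
    · exact hzero 7 (by decide) rfl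
  · intro ξ hξ η hη x h
    have hZ := hzz ξ hξ η hη
    have e := hx ξ η x h
    have f1 := pos_of_posOk oe.b1 hp0 0 (zz ξ η) (by simp) hZ
    have f2 := pos_of_posOk (Enc.nz hw (Enc.sub (Enc.mul hw hP oe.b1 (cqe 6 1000 (by norm_num)))
      oe.b2)) hp1 0 (zz ξ η) (by simp) hZ
    have f3 := pos_of_posOk (Enc.nz hw (Enc.add (Enc.mul hw hP oe.b1 (cqe 6 1000 (by norm_num)))
      oe.b2)) hp2 0 (zz ξ η) (by simp) hZ
    have f4 := pos_of_posOk (Enc.nz hw (Enc.sub oe.R2 (cqe 576 1 (by norm_num)))) hr1 0 (zz ξ η)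
      (by simp) hZ
    have f5 := pos_of_posOk (Enc.nz hw (Enc.sub (cqe 61504 100 (by norm_num)) oe.R2)) hr2 0
      (zz ξ η) (by simp) hZ
    have x0 := (st0_enc (w := w) (P := P) (N := N) c.C c.B) 0
    have x1 := (st0_enc (w := w) (P := P) (N := N) c.C c.B) 1
    have f6 := pos_of_posOk (Enc.nz hw (Enc.sub (cqe 2 1 (by norm_num))
      (Enc.add (Enc.mul hw hP x0 x0) (Enc.mul hw hP x1 x1)))) hz 0 (zz ξ η) (by simp) hZ
    have f7 := pos_of_posOk (Enc.nz hw (Enc.sub oe.S (cqe 485 1000 (by norm_num)))) hs1 0 (zz ξ η)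
      (by simp) hZ
    have f8 := pos_of_posOk (Enc.nz hw (Enc.sub (cqe 505 1000 (by norm_num)) oe.S)) hs2 0 (zz ξ η)
      (by simp) hZ
    simp only [← e] at f1 f2 f3 f4 f5 f6 f7 f8
    push_cast at f2 f3 f4 f5 f6 f7 f8
    refine ⟨f1, ?_, by linarith, by linarith, by linarith, by linarith, by linarith⟩
    rw [abs_le]
    constructor <;> linarith

end Pool.Agent.H2TM
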