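import Mathlib

/-!
Packed digit vectors: `pk w n f = ∑ k < n, f k * 2^(w k)`.
All operations that the kernel has to perform are a few big `Nat` operations.
-/

namespace Pool.Agent.H2TM

open Finset

/-- packed vector of `n` digits of width `w` -/
def pk (w n : ℕ) (f : ℕ → ℕ) : ℕ := ∑ k ∈ range n, f k * 2 ^ (w * k)

theorem pk_zero (w : ℕ) (f : ℕ → ℕ) : pk w 0 f = 0 := by simp [pk]

theorem pk_succ (w n : ℕ) (f : ℕ → ℕ) : pk w (n + 1) f = pk w n f + f n * 2 ^ (w * n) := by
  simp [pk, sum_range_succ]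

theorem pk_lt (w n : ℕ) (f : ℕ → ℕ) (hf : ∀ k, k < n → f k < 2 ^ w) : pk w n f < 2 ^ (w * n) := by
  induction n with
  | zero => simp [pk]
  | succ n ih =>
    rw [pk_succ]
    have h1 := ih (fun k hk => hf k (by omega))
    have h2 : f n + 1 ≤ 2 ^ w := hf n (by omega)
    have h3 : (f n + 1) * 2 ^ (w * n) ≤ 2 ^ w * 2 ^ (w * n) := Nat.mul_le_mul_right _ h2
    have h4 : 2 ^ (w * (n + 1)) = 2 ^ w * 2 ^ (w * n) := by
      rw [← pow_add]; congr 1; ring
    rw [h4]
    nlinarith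

theorem pk_congr (w n : ℕ) {f g : ℕ → ℕ} (h : ∀ k, k < n → f k = g k) : pk w n f = pk w n g := by
  unfold pk
  exact sum_congr rfl (fun k hk => by rw [h k (mem_range.mp hk)])

theorem pk_add (w n : ℕ) (f g : ℕ → ℕ) : pk w n f + pk w n g = pk w n (fun k => f k + g k) := by
  unfold pk
  rw [← sum_add_distrib]
  exact sum_congr rfl (fun k _ => by ring)

theorem pk_sub (w n : ℕ) (f g : ℕ → ℕ) (h : ∀ k, k < n → g k ≤ f k) :
    pk w n f - pk w n g = pk w n (fun k => f k - g k) := by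
  have h1 : pk w n g + pk w n (fun k => f k - g k) = pk w n f := by
    rw [pk_add]
    exact pk_congr w n (fun k hk => by have := h k hk; omega)
  omega

theorem pk_smul (w n c : ℕ) (f : ℕ → ℕ) : pk w n f * c = pk w n (fun k => f k * c) := by
  unfold pk
  rw [sum_mul]
  exact sum_congr rfl (fun k _ => by ring)

theorem land_block (m A A' a a' : ℕ) (h : A < 2 ^ m) (h' : A' < 2 ^ m) :
    Nat.land (A + a * 2 ^ m) (A' + a' * 2 ^ m) = Nat.land A A' + Nat.land a a' * 2 ^ m := by
  apply Nat.eq_of_testBit_eq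
  intro i
  have hl : Nat.land A A' < 2 ^ m := lt_of_le_of_lt Nat.and_le_left h
  have e1 : A + a * 2 ^ m = 2 ^ m * a + A := by ring
  have e2 : A' + a' * 2 ^ m = 2 ^ m * a' + A' := by ring
  have e3 : Nat.land A A' + Nat.land a a' * 2 ^ m = 2 ^ m * Nat.land a a' + Nat.land A A' := by ring
  rw [e1, e2, e3]
  have t : (Nat.land (2 ^ m * a + A) (2 ^ m * a' + A')).testBit i
      = ((2 ^ m * a + A).testBit i && (2 ^ m * a' + A').testBit i) := Nat.testBit_land _ _ _
  rw [t, Nat.testBit_two_pow_mul_add a h, Nat.testBit_two_pow_mul_add a' h',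
    Nat.testBit_two_pow_mul_add _ hl]
  split_ifs
  · exact (Nat.testBit_land _ _ _).symm
  · exact (Nat.testBit_land _ _ _).symm

theorem pk_land (w n : ℕ) (f g : ℕ → ℕ) (hf : ∀ k, k < n → f k < 2 ^ w)
    (hg : ∀ k, k < n → g k < 2 ^ w) :
    Nat.land (pk w n f) (pk w n g) = pk w n (fun k => Nat.land (f k) (g k)) := by
  induction n with
  | zero => simp [pk]
  | succ n ih =>
    rw [pk_succ, pk_succ, pk_succ, land_block _ _ _ _ _ (pk_lt w n f (fun k hk => hf k (by omega)))
      (pk_lt w n g (fun k hk => hg k (by omega))), ih (fun k hk => hf k (by omega))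
      (fun k hk => hg k (by omega))]

theorem pk_mod (w n : ℕ) (f : ℕ → ℕ) (h : ∑ k ∈ range n, f k < 2 ^ w - 1) :
    pk w n f % (2 ^ w - 1) = ∑ k ∈ range n, f k := by
  have hB : (1 : ℕ) ≤ 2 ^ w := Nat.one_le_two_pow
  have key : ∀ m, pk w m f ≡ ∑ k ∈ range m, f k [MOD (2 ^ w - 1)] := by
    intro m
    induction m with
    | zero => simp [pk]; rfl
    | succ m ih =>
      rw [pk_succ, sum_range_succ]
      refine Nat.ModEq.add ih ?_
      have h1 : 2 ^ w ≡ 1 [MOD (2 ^ w - 1)] := by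
        have : 2 ^ w = (2 ^ w - 1) + 1 := by omega
        conv_lhs => rw [this]
        simp [Nat.ModEq]
      have h2 : 2 ^ (w * m) ≡ 1 [MOD (2 ^ w - 1)] := by
        rw [pow_mul]
        simpa using h1.pow m
      simpa using h2.mul_left (f m)
  have := key n
  unfold Nat.ModEq at this
  rw [this, Nat.mod_eq_of_lt h]

/-- Cauchy product with explicit ranges -/
def cv (n m : ℕ) (f g : ℕ → ℕ) (r : ℕ) : ℕ :=
  ∑ k ∈ range n, ∑ l ∈ range m, if k + l = r then f k * g l else 0

theorem cv_sum {R : Type*} [CommSemiring R] (n m M : ℕ) (hM : n + m ≤ M + 1) (f g : ℕ → ℕ) (F : ℕ → R) :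
    ∑ r ∈ range M, (cv n m f g r : R) * F r
      = ∑ k ∈ range n, ∑ l ∈ range m, ((f k : R) * (g l : R)) * F (k + l) := by
  unfold cv
  push_cast
  simp_rw [sum_mul]
  rw [sum_comm]
  refine sum_congr rfl (fun k hk => ?_)
  rw [sum_comm]
  refine sum_congr rfl (fun l hl => ?_)
  have hk' := mem_range.mp hk
  have hl' := mem_range.mp hl
  rw [sum_eq_single_of_mem (k + l) (mem_range.mpr (by omega))]
  · simp
  · intro b _ hb
    rw [if_neg (fun h => hb h.symm)]
    simp

theorem pk_mul (w n m M : ℕ) (hM : n + m ≤ M + 1) (f g : ℕ → ℕ) :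
    pk w n f * pk w m g = pk w M (cv n m f g) := by
  have h := cv_sum (R := ℕ) n m M hM f g (fun r => 2 ^ (w * r))
  unfold pk
  simp only [Nat.cast_id] at h
  rw [h, sum_mul_sum]
  refine sum_congr rfl (fun k _ => sum_congr rfl (fun l _ => ?_))
  rw [Nat.mul_add, pow_add]
  ring

theorem cv_total (n m M : ℕ) (hM : n + m ≤ M + 1) (f g : ℕ → ℕ) :
    ∑ r ∈ range M, cv n m f g r = (∑ k ∈ range n, f k) * (∑ l ∈ range m, g l) := by
  have h := cv_sum (R := ℕ) n m M hM f g (fun _ => 1)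
  simp only [Nat.cast_id, mul_one] at h
  rw [h, sum_mul_sum]

end Pool.Agent.H2TM
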