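import Pool.Agent.Helper2_TM.InitZ

/-! Start states of the two passages. -/

namespace Pool.Agent.H2TM

/-- start of A -/
def sA (w P N : ℕ) (g : Gs) : ST :=
  staAT w P N g
    (lin w P N 21372222478 159750600 (-159750600) (-5418810) (-5418810) 1000000000000)
    (lin w P N 994732204404 8861563 (-8861563) (-20677910) (-20677910) 1000000000000)
    (lin w P N 0 (-56298540) (-56298540) 1858367 (-1858367) 1000000000000)
    (lin w P N 0 (-8326407) (-8326407) 21878570 (-21878570) 1000000000000)

def sAOk (w P N : ℕ) (g : Gs) : Bool :=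
  staAOk w P N g
    (lin w P N 21372222478 159750600 (-159750600) (-5418810) (-5418810) 1000000000000)
    (lin w P N 994732204404 8861563 (-8861563) (-20677910) (-20677910) 1000000000000)
    (lin w P N 0 (-56298540) (-56298540) 1858367 (-1858367) 1000000000000)
    (lin w P N 0 (-8326407) (-8326407) 21878570 (-21878570) 1000000000000)

/-- start of B -/
def sB (w P N : ℕ) (g : Gs) : ST :=
  staBT w P N g
    (lin w P N 0 200060100 200060100 (-3961730) 3961730 1000000000000)
    (lin w P N 0 (-646810300) (-646810300) 27965800 (-27965800) 1000000000000)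
    (lin w P N 1926496541103 (-121956500) 121956500 4442087 4442087 1000000000000)
    (lin w P N 852382690914 (-162557800) 162557800 12553590 12553590 1000000000000)

def sBOk (w P N : ℕ) (g : Gs) : Bool :=
  staBOk w P N g
    (lin w P N 0 200060100 200060100 (-3961730) 3961730 1000000000000)
    (lin w P N 0 (-646810300) (-646810300) 27965800 (-27965800) 1000000000000)
    (lin w P N 1926496541103 (-121956500) 121956500 4442087 4442087 1000000000000)
    (lin w P N 852382690914 (-162557800) 162557800 12553590 12553590 1000000000000)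

/-- jets of a state (for the generator) -/
def jets15 (w : ℕ) (s : ST) : List (List ℤ) :=
  [s.x0, s.x1, s.x2, s.x3, s.x4, s.x5, s.x6, s.x7].map fun a => (coefs w 0 a).take 15
def jets8 (w : ℕ) (s : ST) : List (List ℤ) :=
  [s.x0, s.x1, s.x2, s.x3, s.x4, s.x5, s.x6, s.x7].map fun a => (coefs w 0 a).drop 15
def rems (s : ST) : List ℕ :=
  [s.x0, s.x1, s.x2, s.x3, s.x4, s.x5, s.x6, s.x7].map fun a => a.rem

end Pool.Agent.H2TM

namespace Pool.Agent.H2TM

open Pool.Agent.HM.H4

/-- literals `(C', E, R)` of the switch (for the generator) -/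
def genSw (w P : ℕ) (gw : Gw) (C : List (List ℤ)) (B : List ℕ) :
    List (List ℤ) × List (List ℤ) × List ℕ :=
  let s := swS w P 0 (swT w P 0 (st0 w 0 C B) gw) gw
  (jets15 w s, jets8 w s, rems s)

/-- literals `(C', E, R)` of the outcome (for the generator) -/
def genOut (w P : ℕ) (gR gW : ℤ) (a b : ℕ) (C : List (List ℤ)) (B : List ℕ) :
    List (List ℤ) × List (List ℤ) × List ℕ :=
  let o := outT w P 0 (st0 w 0 C B) gR
  let g := mul w P 0 o.b2 (iv w P 0 o.b1 gW)
  let l := [nz w 0 (add (mul w P 0 o.L (cq P a 100)) g), nz w 0 (sub (mul w P 0 o.L (cq P b 100)) g),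
    o.E]
  (l.map (fun a => (coefs w 0 a).take 15) ++ [[], [], [], [], []],
    l.map (fun a => (coefs w 0 a).drop 15) ++ [z8, z8, z8, z8, z8],
    l.map (fun a => a.rem) ++ [0, 0, 0, 0, 0])

end Pool.Agent.H2TM
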