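import Pool.Agent.Helper2_TM.StepC
import Pool.Agent.Helper2_TM.StmtODE
import Pool.Agent.Helper13_HM.PicInc

/-! Soundness of the step check. -/

namespace Pool.Agent.H2TM

open Finset

/-- no collision of the tight pair in Levi-Civita coordinates -/
def NoColl (x : Fin 8 → ℝ) : Prop := 0 < x 0 * x 0 + x 1 * x 1 ∨ x 0 * x 3 - x 1 * x 2 ≠ 0

/-- the set where the field is defined -/
def lcDom (c : Cst) : Set (Fin 8 → ℝ) := {x | lcOk c x}

theorem cont_lca2 (c : Cst) : Continuous (lca2 c) := by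
  unfold lca2 lcax lcay; fun_prop

theorem cont_lcb2 (c : Cst) : Continuous (lcb2 c) := by
  unfold lcb2 lcbx lcby; fun_prop

theorem lcDom_open (c : Cst) : IsOpen (lcDom c) := by
  have h1 : IsOpen {x : Fin 8 → ℝ | 0 < lca2 c x} := isOpen_lt continuous_const (cont_lca2 c)
  have h2 : IsOpen {x : Fin 8 → ℝ | 0 < lcb2 c x} := isOpen_lt continuous_const (cont_lcb2 c)
  exact h1.inter h2

theorem lcA_smooth (c : Cst) : ContDiffOn ℝ 1 (lcA c) (lcDom c) := by
  unfold lcA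
  apply ContDiffOn.div contDiffOn_const
  · apply ContDiffOn.sqrt
    · unfold lca2 lcax lcay; fun_prop
    · intro x hx; exact hx.1.ne'
  · intro x hx; exact (Real.sqrt_pos.mpr hx.1).ne'

theorem lcB_smooth (c : Cst) : ContDiffOn ℝ 1 (lcB c) (lcDom c) := by
  unfold lcB
  apply ContDiffOn.div contDiffOn_const
  · apply ContDiffOn.sqrt
    · unfold lcb2 lcbx lcby; fun_prop
    · intro x hx; exact hx.2.ne'
  · intro x hx; exact (Real.sqrt_pos.mpr hx.2).ne'

theorem lcF_smooth (c : Cst) : ContDiffOn ℝ 1 (lcF c) (lcDom c) := by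
  have hA := lcA_smooth c
  have hB := lcB_smooth c
  have x_ : ∀ i, ContDiffOn ℝ 1 (fun x : Fin 8 → ℝ => x i) (lcDom c) := fun i => by fun_prop
  have hA3 : ContDiffOn ℝ 1 (lcA3 c) (lcDom c) := (hA.mul hA).mul hA
  have hB3 : ContDiffOn ℝ 1 (lcB3 c) (lcDom c) := (hB.mul hB).mul hB
  have hax : ContDiffOn ℝ 1 (lcax c) (lcDom c) := by unfold lcax; fun_prop
  have hay : ContDiffOn ℝ 1 (lcay c) (lcDom c) := by unfold lcay; fun_prop
  have hbx : ContDiffOn ℝ 1 (lcbx c) (lcDom c) := by unfold lcbx; fun_prop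
  have hby : ContDiffOn ℝ 1 (lcby c) (lcDom c) := by unfold lcby; fun_prop
  have fax : ContDiffOn ℝ 1 (lcfax c) (lcDom c) := hA3.mul hax
  have fay : ContDiffOn ℝ 1 (lcfay c) (lcDom c) := hA3.mul hay
  have fbx : ContDiffOn ℝ 1 (lcfbx c) (lcDom c) := hB3.mul hbx
  have fby : ContDiffOn ℝ 1 (lcfby c) (lcDom c) := hB3.mul hby
  have dx : ContDiffOn ℝ 1 (lcdx c) (lcDom c) := (fbx.sub fax).mul contDiffOn_const
  have dy : ContDiffOn ℝ 1 (lcdy c) (lcDom c) := (fby.sub fay).mul contDiffOn_const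
  have H : ContDiffOn ℝ 1 (lcH c) (lcDom c) := by
    have h1 : ContDiffOn ℝ 1 (fun x : Fin 8 → ℝ => (x 6 * x 6 + x 7 * x 7) * (1 / 3) * c 5) (lcDom c) := by
      fun_prop
    exact (((hA.mul contDiffOn_const).add (hB.mul contDiffOn_const)).sub contDiffOn_const).sub h1
  have r : ContDiffOn ℝ 1 lcr (lcDom c) := by unfold lcr; fun_prop
  have hr : ContDiffOn ℝ 1 (fun x => lcr x * (1 / 2)) (lcDom c) := r.mul contDiffOn_const
  rw [contDiffOn_pi]
  intro i
  fin_cases i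
  · exact x_ 2
  · exact x_ 3
  · exact (H.mul (x_ 0)).add (hr.mul (((x_ 0).mul dx).add ((x_ 1).mul dy)))
  · exact (H.mul (x_ 1)).add (hr.mul (((x_ 0).mul dy).sub ((x_ 1).mul dx)))
  · exact r.mul (x_ 6)
  · exact r.mul (x_ 7)
  · exact ((hr.mul ((fax.mul contDiffOn_const).add (fbx.mul contDiffOn_const))).mul
      contDiffOn_const).neg
  · exact ((hr.mul ((fay.mul contDiffOn_const).add (fby.mul contDiffOn_const))).mul
      contDiffOn_const).neg

theorem vs15_sub : ∀ s ∈ vs15, s ∈ vs := by decide +kernel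

/-- value of a start component (units `2^-P`) -/
noncomputable def sv (i : Fin 8) (C : List ℤ) (B : ℕ) (z : Fin 12 → ℝ) : ℝ :=
  jv vs15 C z + z ⟨4 + i.1, by omega⟩ * B

theorem startC_enc {w P N : ℕ} (i : Fin 8) (C : List ℤ) (B : ℕ) :
    Enc w P N (startC w N i C B) (fun _ z => sv i C B z / 2 ^ P) := by
  have h1 := Enc.jet (w := w) (P := P) (N := N) vs15 C vs15_sub
  have h2 := Enc.var (w := w) (P := P) (N := N) ⟨4 + i.1, by omega⟩ (B : ℤ)
  refine (Enc.add h1 h2).congr (fun t z _ _ => ?_)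
  unfold sv
  push_cast
  ring

/-- exact polynomial value of a well formed Taylor model -/
theorem exact_enc {w P N : ℕ} {a : TM} {f g : ℕ → ℕ} (hd : Dig w N a f g) (hr : a.rem = 0) :
    Enc w P N a (fun t z => (V N t z f - V N t z g) / 2 ^ P) := by
  refine ⟨f, g, hd, fun t z _ _ => ?_⟩
  have hp : (2 : ℝ) ^ P ≠ 0 := by positivity
  rw [div_mul_cancel₀ _ hp, hr]
  simp

theorem ST.get_wf (w N : ℕ) (x : ST) (i : Fin 8) : (wfS w N x).get i = wfx w N (x.get i) := by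
  fin_cases i <;> rfl

theorem ST.get_wd (l : Lit) (x : ST) (i : Fin 8) : (wdS l x).get i = widen (x.get i) (l.r i) := by
  fin_cases i <;> rfl

theorem ST.get_start (w N : ℕ) (l : Lit) (i : Fin 8) :
    (startS w N l).get i = startC w N i (l.c i) (l.b i) := by
  fin_cases i <;> rfl

theorem allOk_get {w P N : ℕ} {l : Lit} {h : TM} {f x s : ST} (hok : allOk w P N l h f x s = true)
    (i : Fin 8) :
    compOk w P N h (f.get i) (x.get i) (s.get i) (l.r i) (l.c' i) (l.e i) (l.R' i) = true := by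
  simp only [allOk, Bool.and_eq_true] at hok
  obtain ⟨⟨⟨⟨⟨⟨⟨h0, h1⟩, h2⟩, h3⟩, h4⟩, h5⟩, h6⟩, h7⟩ := hok
  fin_cases i
  · exact h0
  · exact h1
  · exact h2
  · exact h3
  · exact h4
  · exact h5
  · exact h6
  · exact h7

theorem collOk_sound {w P N : ℕ} {x : ST} {X : ℝ → (Fin 12 → ℝ) → (Fin 8 → ℝ)} (hw : 1 ≤ w)
    (hP : P ≤ w) (hx : STEnc w P N x X) (hok : collOk w P N x = true) (t : ℝ) (z : Fin 12 → ℝ)
    (ht : |t| ≤ 1) (hz : ∀ i, |z i| ≤ 1) : NoColl (X t z) := by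
  have e0 : Enc w P N x.x0 (fun t z => X t z 0) := hx 0
  have e1 : Enc w P N x.x1 (fun t z => X t z 1) := hx 1
  have e2 : Enc w P N x.x2 (fun t z => X t z 2) := hx 2
  have e3 : Enc w P N x.x3 (fun t z => X t z 3) := hx 3
  simp only [collOk, Bool.or_eq_true] at hok
  rcases hok with (h | h) | h
  · left
    exact pos_of_posOk (Enc.nz hw (Enc.add (Enc.mul hw hP e0 e0) (Enc.mul hw hP e1 e1))) h t z ht hz
  · right
    exact (pos_of_posOk (Enc.nz hw (Enc.sub (Enc.mul hw hP e0 e3) (Enc.mul hw hP e1 e2))) h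
      t z ht hz).ne'
  · right
    have := pos_of_posOk (Enc.nz hw (Enc.sub (Enc.mul hw hP e1 e2) (Enc.mul hw hP e0 e3))) h
      t z ht hz
    have h' : X t z 0 * X t z 3 - X t z 1 * X t z 2 < 0 := by linarith
    exact h'.ne

theorem step_core {w P N : ℕ} (l : Lit) (c : Cst) (hc : CstOk c) (hw : 16 ≤ w)
    (hP : P ≤ w) (hP1 : 1 ≤ P) (x : ST) (ya yb : TM)
    (hx : ∀ i, (∃ f g, Dig w N (x.get i) f g) ∧ (x.get i).rem = 0 ∧ (x.get i).nrm < 2 ^ w)
    (hya : (∃ f g, Dig w N ya f g) ∧ ya.rem = 0) (hyb : (∃ f g, Dig w N yb f g) ∧ yb.rem = 0)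
    (hok : candOk w P N l (cst l.h 0) x (startS w N l) ya yb = true)
    (z : Fin 12 → ℝ) (hz : ∀ i, |z i| ≤ 1) (x0 : Fin 8 → ℝ)
    (hx0 : ∀ i, x0 i * 2 ^ P = sv i (l.c i) (l.b i) z) :
    ∃ y : ℝ → Fin 8 → ℝ, y (-1) = x0 ∧
      (∀ t ∈ Set.Icc (-1 : ℝ) 1,
        HasDerivWithinAt y (fun i => (l.h : ℝ) / 2 ^ P * lcF c (y t) i) (Set.Icc (-1) 1) t ∧
          lcOk c (y t) ∧ NoColl (y t) ∧ Code l.q c (y t)) ∧
      ∀ i, |y 1 i * 2 ^ P - jv vs (l.c' i ++ l.e i) z| ≤ l.R' i := by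
  have hw1 : 1 ≤ w := by omega
  have hp : (0 : ℝ) < 2 ^ P := by positivity
  choose f g hfg using fun i => (hx i).1
  have hrem := fun i => (hx i).2.1
  have hnrm := fun i => (hx i).2.2
  obtain ⟨⟨fa, ga, hda⟩, hra⟩ := hya
  obtain ⟨⟨fb, gb, hdb⟩, hrb⟩ := hyb
  simp only [candOk, tubeOk, Bool.and_eq_true] at hok
  obtain ⟨⟨hF, hcoll, hcode⟩, hall⟩ := hok
  -- exact functions
  set xh : ℝ → (Fin 12 → ℝ) → Fin 8 → ℝ := fun t z i => (V N t z (f i) - V N t z (g i)) / 2 ^ P with hxh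
  set xd : ℝ → (Fin 12 → ℝ) → Fin 8 → ℝ :=
    fun t z i => (V N t z (df N (f i)) - V N t z (df N (g i))) / 2 ^ P with hxd
  have enx : ∀ i, Enc w P N (x.get i) (fun t z => xh t z i) := fun i => exact_enc (hfg i) (hrem i)
  have end_ : ∀ i, Enc w P N (dt w N (x.get i)) (fun t z => xd t z i) := fun i =>
    exact_enc (dt_dig hw1 (hfg i) (hnrm i)) rfl
  -- tube
  have tube : ∀ t ∈ Set.Icc (-1 : ℝ) 1, ∀ y : Fin 8 → ℝ,
      (∀ i, |y i - xh t z i| ≤ (l.r i : ℝ) / 2 ^ P) →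
      (lcOk c y ∧ NoColl y ∧ Code l.q c y) ∧ ∀ i, |(l.h : ℝ) / 2 ^ P * lcF c y i - xd t z i|
        ≤ (betaE w P N (cst l.h 0) ((fldTM w P N (wdS l x) ya yb).f.get i) (x.get i) : ℝ) / 2 ^ P := by
    intro t ht y hy
    have ht1 : |t| ≤ 1 := abs_le.mpr ht
    set off : Fin 8 → ℝ := fun i => y i - xh t z i with hoff
    set X : ℝ → (Fin 12 → ℝ) → (Fin 8 → ℝ) := fun t' z' i => xh t' z' i + off i with hX
    have hXy : X t z = y := by
      funext i; simp only [hX, hoff]; ring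
    have enX : STEnc w P N (wdS l x) X := by
      intro i
      rw [ST.get_wd]
      refine Enc.widen _ (enx i) (fun t' z' _ _ => ?_)
      simp only [hX]
      have : xh t' z' i + off i - xh t' z' i = off i := by ring
      rw [this]
      have h1 := hy i
      rw [le_div_iff₀ hp] at h1
      exact h1
    have hfe := fldTM_enc hc hw1 hP hP1 enX (exact_enc hda hra) (exact_enc hdb hrb) hF
    have hok1 := hfe.2 t z ht1 hz
    rw [hXy] at hok1
    have hnc := collOk_sound hw1 hP enX hcoll t z ht1 hz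
    rw [hXy] at hnc
    have hcd := codeOk_sound hc hw1 hP hP1 enX hcode t z ht1 hz
    rw [hXy] at hcd
    refine ⟨⟨hok1, hnc, hcd⟩, fun i => ?_⟩
    have hh : Enc w P N (cst (l.h : ℤ) 0) (fun _ _ => (l.h : ℝ) / 2 ^ P) := by
      refine Enc.cst _ _ _ ?_
      rw [div_mul_cancel₀ _ hp.ne']
      simp
    have hD := Enc.nz hw1 (Enc.sub (Enc.mul hw1 hP hh (hfe.1 i)) (Enc.nz hw1 (end_ i)))
    have hb := hD.bound t z ht1 hz
    beta_reduce at hb
    rw [hXy] at hb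
    rw [le_div_iff₀ hp]
    unfold betaE
    push_cast
    exact hb
  -- Picard inclusion
  have hcomp := fun i => allOk_get hall i
  have hmu : ∀ i, (muE w N (x.get i) ((startS w N l).get i) : ℝ) / 2 ^ P
      + 2 * ((betaE w P N (cst l.h 0) ((fldTM w P N (wdS l x) ya yb).f.get i) (x.get i) : ℝ) / 2 ^ P)
      ≤ (l.r i : ℝ) / 2 ^ P := by
    intro i
    have h1 := hcomp i
    simp only [compOk, Bool.and_eq_true, decide_eq_true_eq] at h1
    have h2 : ((muE w N (x.get i) ((startS w N l).get i) + 2 * betaE w P N (cst l.h 0)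
      ((fldTM w P N (wdS l x) ya yb).f.get i) (x.get i) : ℕ) : ℝ) ≤ (l.r i : ℝ) := by
      exact_mod_cast h1.1
    push_cast at h2
    have : (muE w N (x.get i) ((startS w N l).get i) : ℝ) / 2 ^ P
      + 2 * ((betaE w P N (cst l.h 0) ((fldTM w P N (wdS l x) ya yb).f.get i) (x.get i) : ℝ) / 2 ^ P)
      = ((muE w N (x.get i) ((startS w N l).get i) : ℝ) + 2 * (betaE w P N (cst l.h 0)
      ((fldTM w P N (wdS l x) ya yb).f.get i) (x.get i) : ℝ)) / 2 ^ P := by ring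
    rw [this]
    exact div_le_div_of_nonneg_right h2 hp.le
  have hx0' : ∀ i, |x0 i - xh (-1) z i|
      ≤ (muE w N (x.get i) ((startS w N l).get i) : ℝ) / 2 ^ P := by
    intro i
    have h1 := Enc.evM (enx i) (hnrm i)
    have h2 := startC_enc (w := w) (P := P) (N := N) i (l.c i) (l.b i)
    rw [← ST.get_start] at h2
    have h3 := (Enc.nz hw1 (Enc.sub h1 h2)).bound 0 z (by simp) hz
    rw [le_div_iff₀ hp]
    have e : x0 i = sv i (l.c i) (l.b i) z / 2 ^ P := by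
      rw [eq_div_iff hp.ne']; exact hx0 i
    rw [e, abs_sub_comm]
    unfold muE
    push_cast
    exact h3
  have hder : ∀ t ∈ Set.Icc (-1 : ℝ) 1, HasDerivAt (fun t => xh t z) (xd t z) t := by
    intro t _
    rw [hasDerivAt_pi]
    intro i
    have h1 := V_hasDeriv N z (f i) (fun k hk => ((hfg i).1 k hk).1) t
    have h2 := V_hasDeriv N z (g i) (fun k hk => ((hfg i).1 k hk).2) t
    exact (h1.sub h2).div_const _
  have hcont : ContinuousOn (fun t => xd t z) (Set.Icc (-1) 1) := by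
    rw [continuousOn_pi]
    intro i
    apply ContinuousOn.div_const
    have v1 := df_valid N (f i) (fun k hk => ((hfg i).1 k hk).1)
    have v2 := df_valid N (g i) (fun k hk => ((hfg i).1 k hk).2)
    exact ContinuousOn.sub (fun t _ => (V_hasDeriv N z _ v1 t).continuousAt.continuousWithinAt)
      (fun t _ => (V_hasDeriv N z _ v2 t).continuousAt.continuousWithinAt)
  have hG : ContDiffOn ℝ 1 (fun x i => (l.h : ℝ) / 2 ^ P * lcF c x i) (lcDom c) := by
    rw [contDiffOn_pi]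
    intro i
    exact contDiffOn_const.mul ((contDiffOn_pi.mp (lcF_smooth c)) i)
  obtain ⟨y, hy0, hy⟩ := Pool.Agent.HM.H13.picInc (fun x i => (l.h : ℝ) / 2 ^ P * lcF c x i) (lcDom c) (lcDom_open c) hG
    (fun t => xh t z) (fun t => xd t z) (fun i => (l.r i : ℝ) / 2 ^ P)
    (fun i => (betaE w P N (cst l.h 0) ((fldTM w P N (wdS l x) ya yb).f.get i) (x.get i) : ℝ) / 2 ^ P)
    (fun i => (muE w N (x.get i) ((startS w N l).get i) : ℝ) / 2 ^ P) (fun i => by positivity)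
    hder hcont
    (fun t ht y hy => ⟨(tube t ht y hy).1.1, (tube t ht y hy).2⟩) hmu x0 hx0'
  refine ⟨y, hy0, fun t ht => ⟨(hy t ht).1, (tube t ht (y t) (hy t ht).2).1⟩, fun i => ?_⟩
  have h1 := (hy 1 (by constructor <;> norm_num)).2 i
  have h2 := hcomp i
  simp only [compOk, Bool.and_eq_true, decide_eq_true_eq] at h2
  have h3 : ((endE w N (x.get i) (l.c' i) (l.e i) + l.r i : ℕ) : ℝ) ≤ (l.R' i : ℝ) := by
    exact_mod_cast h2.2
  push_cast at h3
  have h4 := Enc.evP (enx i) (hnrm i)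
  have h5 := Enc.jet (w := w) (P := P) (N := N) vs (l.c' i ++ l.e i) (fun s hs => hs)
  have h6 := (Enc.nz hw1 (Enc.sub h4 h5)).bound 0 z (by simp) hz
  have h7 : |xh 1 z i - jv vs (l.c' i ++ l.e i) z / 2 ^ P| * 2 ^ P
      ≤ (endE w N (x.get i) (l.c' i) (l.e i) : ℝ) := by
    unfold endE
    push_cast
    exact h6
  have h8 : |y 1 i - xh 1 z i| * 2 ^ P ≤ (l.r i : ℝ) := by
    rw [le_div_iff₀ hp] at h1; exact h1
  have e : y 1 i * 2 ^ P - jv vs (l.c' i ++ l.e i) z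
      = (y 1 i - xh 1 z i) * 2 ^ P + (xh 1 z i - jv vs (l.c' i ++ l.e i) z / 2 ^ P) * 2 ^ P := by
    field_simp
    ring
  rw [e]
  refine (abs_add_le _ _).trans ?_
  rw [abs_mul, abs_mul, abs_of_pos hp]
  linarith

/-- SOUNDNESS of one step on `[-1,1]` -/
theorem step_sound {w P N : ℕ} (l : Lit) (c : Cst) (hc : CstOk c) (hw : 16 ≤ w)
    (hP : P ≤ w) (hP1 : 1 ≤ P) (hN : 49 * (2 * N + 1) ≤ 2 ^ 15) (hok : stepOK w P N l = true)
    (z : Fin 12 → ℝ) (hz : ∀ i, |z i| ≤ 1) (x0 : Fin 8 → ℝ)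
    (hx0 : ∀ i, x0 i * 2 ^ P = sv i (l.c i) (l.b i) z) :
    ∃ y : ℝ → Fin 8 → ℝ, y (-1) = x0 ∧
      (∀ t ∈ Set.Icc (-1 : ℝ) 1,
        HasDerivWithinAt y (fun i => (l.h : ℝ) / 2 ^ P * lcF c (y t) i) (Set.Icc (-1) 1) t ∧
          lcOk c (y t) ∧ NoColl (y t) ∧ Code l.q c (y t)) ∧
      ∀ i, |y 1 i * 2 ^ P - jv vs (l.c' i ++ l.e i) z| ≤ l.R' i := by
  simp only [stepOK, Bool.and_eq_true] at hok
  replace hok := hok.2
  refine step_core l c hc hw hP hP1 _ _ _ (fun i => ?_) ?_ ?_ hok z hz x0 hx0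
  · rw [ST.get_wf]
    exact wfx_dig w N hw hN _
  · have := wfx_dig w N hw hN (ofC w N (candC w P N l).ya)
    exact ⟨this.1, this.2.1⟩
  · have := wfx_dig w N hw hN (ofC w N (candC w P N l).yb)
    exact ⟨this.1, this.2.1⟩

/-- the same on `[0, 2h]` -/
theorem step_sound' {w P N : ℕ} (l : Lit) (c : Cst) (hc : CstOk c) (hw : 16 ≤ w)
    (hP : P ≤ w) (hP1 : 1 ≤ P) (hN : 49 * (2 * N + 1) ≤ 2 ^ 15) (hok : stepOK w P N l = true)
    (hh : 0 < l.h) (z : Fin 12 → ℝ) (hz : ∀ i, |z i| ≤ 1) (x0 : Fin 8 → ℝ)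
    (hx0 : ∀ i, x0 i * 2 ^ P = sv i (l.c i) (l.b i) z) :
    ∃ y : ℝ → Fin 8 → ℝ, y 0 = x0 ∧
      (∀ t ∈ Set.Icc (0 : ℝ) (2 * l.h / 2 ^ P),
        HasDerivWithinAt y (lcF c (y t)) (Set.Icc 0 (2 * l.h / 2 ^ P)) t ∧
          lcOk c (y t) ∧ NoColl (y t) ∧ Code l.q c (y t)) ∧
      ∀ i, |y (2 * l.h / 2 ^ P) i * 2 ^ P - jv vs (l.c' i ++ l.e i) z| ≤ l.R' i := by
  obtain ⟨y, hy0, hy, hyE⟩ := step_sound l c hc hw hP hP1 hN hok z hz x0 hx0
  have hp : (0 : ℝ) < 2 ^ P := by positivity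
  set H : ℝ := (l.h : ℝ) / 2 ^ P with hH
  have hH0 : 0 < H := div_pos (by exact_mod_cast hh) hp
  have e2 : 2 * (l.h : ℝ) / 2 ^ P = 2 * H := by rw [hH]; ring
  rw [e2]
  refine ⟨fun s => y (s / H - 1), ?_, ?_, ?_⟩
  · simpa using hy0
  · intro s hs
    have hs' : s / H - 1 ∈ Set.Icc (-1 : ℝ) 1 := by
      constructor
      · have : 0 ≤ s / H := div_nonneg hs.1 hH0.le
        linarith
      · have : s / H ≤ 2 := by rw [div_le_iff₀ hH0]; exact hs.2
        linarith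
    obtain ⟨h1, h2⟩ := hy (s / H - 1) hs'
    refine ⟨?_, h2⟩
    have hlin : HasDerivWithinAt (fun s : ℝ => s / H - 1) (1 / H) (Set.Icc 0 (2 * H)) s := by
      exact ((hasDerivWithinAt_id s _).div_const H).sub_const 1
    have hmaps : Set.MapsTo (fun s : ℝ => s / H - 1) (Set.Icc 0 (2 * H)) (Set.Icc (-1) 1) := by
      intro u hu
      constructor
      · have : 0 ≤ u / H := div_nonneg hu.1 hH0.le
        linarith
      · have : u / H ≤ 2 := by rw [div_le_iff₀ hH0]; exact hu.2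
        linarith
    have h3 := HasDerivWithinAt.scomp (t' := Set.Icc (-1 : ℝ) 1) s h1 hlin hmaps
    have e : lcF c (y (s / H - 1)) = (1 / H) • fun i => H * lcF c (y (s / H - 1)) i := by
      funext i
      simp only [Pi.smul_apply, smul_eq_mul]
      field_simp
    show HasDerivWithinAt _ (lcF c (y (s / H - 1))) _ s
    rw [e]
    exact h3
  · intro i
    have e : 2 * H / H - 1 = 1 := by
      field_simp; norm_num
    show |y (2 * H / H - 1) i * 2 ^ P - _| ≤ _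
    rw [e]
    exact hyE i

end Pool.Agent.H2TM
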