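import Pool.Agent.Helper2_TM.Cand
import Pool.Agent.Helper2_TM.Code

/-! The step check: unverified candidate (Picard iteration) and verified inclusion test. -/

namespace Pool.Agent.H2TM

/-! ### start data and verified test -/

/-- the first fifteen slots -/
def vs15 : List ℕ := vs.take 15

/-- start component: jet in `ξ` and the error variable `e_i` -/
def startC (w N : ℕ) (i : Fin 8) (C : List ℤ) (B : ℕ) : TM :=
  add (jet w N vs15 C) (var w N ⟨4 + i.1, by omega⟩ B)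

/-- literals of a step -/
structure Lit where
  /-- half step, units `2^-P` -/
  h : ℕ
  /-- initial guesses for the reciprocal distances -/
  ga : ℕ
  gb : ℕ
  /-- start jets -/
  C : List (List ℤ)
  /-- radii of the error variables -/
  B : List ℕ
  /-- remainder box of the tube -/
  rho : List ℕ
  /-- end jets -/
  C' : List (List ℤ)
  /-- end matrix -/
  E : List (List ℤ)
  /-- end remainders -/
  R : List ℕ
  /-- code of the sign condition on the whole step -/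
  q : ℕ
  /-- number of iterations for the candidate -/
  it : ℕ

def Lit.c (l : Lit) (i : ℕ) : List ℤ := l.C.getD i []
def Lit.b (l : Lit) (i : ℕ) : ℕ := l.B.getD i 0
def Lit.r (l : Lit) (i : ℕ) : ℕ := l.rho.getD i 0
def Lit.c' (l : Lit) (i : ℕ) : List ℤ := l.C'.getD i []
def Lit.e (l : Lit) (i : ℕ) : List ℤ := l.E.getD i []
def Lit.R' (l : Lit) (i : ℕ) : ℕ := l.R.getD i 0

def startS (w N : ℕ) (l : Lit) : ST :=
  ⟨startC w N 0 (l.c 0) (l.b 0), startC w N 1 (l.c 1) (l.b 1), startC w N 2 (l.c 2) (l.b 2),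
    startC w N 3 (l.c 3) (l.b 3), startC w N 4 (l.c 4) (l.b 4), startC w N 5 (l.c 5) (l.b 5),
    startC w N 6 (l.c 6) (l.b 6), startC w N 7 (l.c 7) (l.b 7)⟩

def wfS (w N : ℕ) (s : ST) : ST :=
  ⟨wfx w N s.x0, wfx w N s.x1, wfx w N s.x2, wfx w N s.x3, wfx w N s.x4, wfx w N s.x5,
    wfx w N s.x6, wfx w N s.x7⟩

def wdS (l : Lit) (s : ST) : ST :=
  ⟨widen s.x0 (l.r 0), widen s.x1 (l.r 1), widen s.x2 (l.r 2), widen s.x3 (l.r 3),
    widen s.x4 (l.r 4), widen s.x5 (l.r 5), widen s.x6 (l.r 6), widen s.x7 (l.r 7)⟩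

/-- `|evM x - start|` -/
def muE (w N : ℕ) (x s : TM) : ℕ :=
  let d := nz w N (sub (evM w N x) s)
  d.nrm + d.rem

/-- `|h f - x'|` -/
def betaE (w P N : ℕ) (h f x : TM) : ℕ :=
  let d := nz w N (sub (mul w P N h f) (nz w N (dt w N x)))
  d.nrm + d.rem

/-- `|evP x - end jet|` -/
def endE (w N : ℕ) (x : TM) (c e : List ℤ) : ℕ :=
  let d := nz w N (sub (evP w N x) (jet w N vs (c ++ e)))
  d.nrm + d.rem

def compOk (w P N : ℕ) (h f x s : TM) (rho : ℕ) (c e : List ℤ) (R : ℕ) : Bool :=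
  decide (muE w N x s + 2 * betaE w P N h f x ≤ rho) && decide (endE w N x c e + rho ≤ R)

def allOk (w P N : ℕ) (l : Lit) (h : TM) (f x s : ST) : Bool :=
  compOk w P N h f.x0 x.x0 s.x0 (l.r 0) (l.c' 0) (l.e 0) (l.R' 0) &&
  compOk w P N h f.x1 x.x1 s.x1 (l.r 1) (l.c' 1) (l.e 1) (l.R' 1) &&
  compOk w P N h f.x2 x.x2 s.x2 (l.r 2) (l.c' 2) (l.e 2) (l.R' 2) &&
  compOk w P N h f.x3 x.x3 s.x3 (l.r 3) (l.c' 3) (l.e 3) (l.R' 3) &&
  compOk w P N h f.x4 x.x4 s.x4 (l.r 4) (l.c' 4) (l.e 4) (l.R' 4) &&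
  compOk w P N h f.x5 x.x5 s.x5 (l.r 5) (l.c' 5) (l.e 5) (l.R' 5) &&
  compOk w P N h f.x6 x.x6 s.x6 (l.r 6) (l.c' 6) (l.e 6) (l.R' 6) &&
  compOk w P N h f.x7 x.x7 s.x7 (l.r 7) (l.c' 7) (l.e 7) (l.R' 7)

/-- no collision of the pair: `r > 0` or `L ≠ 0` on the tube -/
def collOk (w P N : ℕ) (x : ST) : Bool :=
  posOk w (nz w N (add (mul w P N x.x0 x.x0) (mul w P N x.x1 x.x1))) ||
  posOk w (nz w N (sub (mul w P N x.x0 x.x3) (mul w P N x.x1 x.x2))) ||
  posOk w (nz w N (sub (mul w P N x.x1 x.x2) (mul w P N x.x0 x.x3)))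

def tubeOk (w P N : ℕ) (l : Lit) (h : TM) (F : FR) (xw x s : ST) : Bool :=
  F.ok && (collOk w P N xw && codeOk w P N l.q xw) && allOk w P N l h F.f x s

def candOk (w P N : ℕ) (l : Lit) (h : TM) (x s : ST) (ya yb : TM) : Bool :=
  tubeOk w P N l h (fldTM w P N (wdS l x) ya yb) (wdS l x) x s

/-- signed packed start data -/
def toCS (w N : ℕ) (s : ST) (ga gb : ℕ) : CS :=
  ⟨toC w N s.x0, toC w N s.x1, toC w N s.x2, toC w N s.x3, toC w N s.x4, toC w N s.x5,
    toC w N s.x6, toC w N s.x7, ga, gb⟩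

def ofCS (w N : ℕ) (s : CS) : ST :=
  ⟨ofC w N s.x0, ofC w N s.x1, ofC w N s.x2, ofC w N s.x3, ofC w N s.x4, ofC w N s.x5,
    ofC w N s.x6, ofC w N s.x7⟩

/-- the candidate -/
def candC (w P N : ℕ) (l : Lit) : CS :=
  cPicIt w P N l.h (toCS w N (startS w N l) l.ga l.gb) l.it
    (toCS w N (startS w N l) l.ga l.gb)

/-- shape of the end jets and the end matrix -/
def lenOk (C' E : List (List ℤ)) : Bool :=
  (C'.length == 8) && (E.length == 8) && C'.all (fun r => r.length == 15) &&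
    E.all (fun r => r.length == 8)

/-- THE CHECK OF ONE STEP -/
def stepOK (w P N : ℕ) (l : Lit) : Bool :=
  lenOk l.C' l.E &&
  candOk w P N l (cst l.h 0) (wfS w N (ofCS w N (candC w P N l))) (startS w N l)
    (wfx w N (ofC w N (candC w P N l).ya)) (wfx w N (ofC w N (candC w P N l).yb))

/-- diagnostic values (for the generator) -/
def diag (w P N : ℕ) (l : Lit) : List (ℕ × ℕ × ℕ) × Bool × Bool × List TM :=
  let s := startS w N l
  let h := cst l.h 0
  let c := candC w P N l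
  let x := wfS w N (ofCS w N c)
  let F := fldTM w P N (wdS l x) (wfx w N (ofC w N c.ya)) (wfx w N (ofC w N c.yb))
  let g := fun (f x s : TM) (i : ℕ) => (muE w N x s, betaE w P N h f x, endE w N x (l.c' i) (l.e i))
  ([g F.f.x0 x.x0 s.x0 0, g F.f.x1 x.x1 s.x1 1, g F.f.x2 x.x2 s.x2 2, g F.f.x3 x.x3 s.x3 3,
    g F.f.x4 x.x4 s.x4 4, g F.f.x5 x.x5 s.x5 5, g F.f.x6 x.x6 s.x6 6, g F.f.x7 x.x7 s.x7 7],
    F.ok, collOk w P N (wdS l x) && codeOk w P N l.q (wdS l x), [evP w N x.x0, evP w N x.x1, evP w N x.x2, evP w N x.x3,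
      evP w N x.x4, evP w N x.x5, evP w N x.x6, evP w N x.x7])

end Pool.Agent.H2TM

namespace Pool.Agent.H2TM

/-- jet coefficients of degree `0` in `t` (for the generator) -/
def coefs (w N : ℕ) (a : TM) : List ℤ :=
  vs.map fun s => ((a.pos >>> (w * (tw N * s)) % 2 ^ w : ℕ) : ℤ) - ((a.neg >>> (w * (tw N * s)) % 2 ^ w : ℕ) : ℤ)

/-- the kernel computed end jets: `(C', E, end errors without the jets)` (for the generator) -/
def endJets (w P N : ℕ) (l : Lit) : List (List ℤ) :=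
  let x := wfS w N (ofCS w N (candC w P N l))
  [coefs w N (evP w N x.x0), coefs w N (evP w N x.x1), coefs w N (evP w N x.x2), coefs w N (evP w N x.x3),
   coefs w N (evP w N x.x4), coefs w N (evP w N x.x5), coefs w N (evP w N x.x6), coefs w N (evP w N x.x7)]

end Pool.Agent.H2TM
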