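import Pool.Agent.Helper2_TM.Step
import Pool.Agent.Helper4_HM.StmtZ

/-! The step check in the form used by the chaining theorem. -/

namespace Pool.Agent.H2TM

open Finset Pool.Agent.HM.H4

/-- point of the 12 dimensional cube -/
def zz (ξ : Fin 4 → ℝ) (η : Fin 8 → ℝ) : Fin 12 → ℝ :=
  fun i => if h : i.1 < 4 then ξ ⟨i.1, h⟩ else η ⟨i.1 - 4, by omega⟩

/-- value of the jets -/
noncomputable def J (P : ℕ) (C : List (List ℤ)) (ξ : Fin 4 → ℝ) (i : Fin 8) : ℝ :=
  jv vs15 (C.getD i []) (zz ξ 0) / 2 ^ P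

/-- certificate -/
def Lit.cert (l : Lit) : Cert := ⟨l.h, l.C, l.B, l.E, l.R, l.C'⟩

/-- region -/
def Reg (c : Cst) (q : ℕ) (x : Fin 8 → ℝ) : Prop := lcOk c x ∧ NoColl x ∧ Code q c x

theorem jv_congr : ∀ (ss : List ℕ) (cs : List ℤ) (z z' : Fin 12 → ℝ),
    (∀ s ∈ ss, mono s z = mono s z') → jv ss cs z = jv ss cs z'
  | [], _, _, _, _ => by simp [jv]
  | _ :: _, [], _, _, _ => by simp [jv]
  | s :: ss, c :: cs, z, z', h => by
    simp only [jv]
    rw [h s (by simp), jv_congr ss cs z z' (fun s' hs' => h s' (by simp [hs']))]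

theorem vs15_vars : ∀ s ∈ vs15, ∀ i ∈ ex s, i.1 < 4 := by decide +kernel

theorem jv15_zz (cs : List ℤ) (ξ : Fin 4 → ℝ) (η η' : Fin 8 → ℝ) :
    jv vs15 cs (zz ξ η) = jv vs15 cs (zz ξ η') := by
  apply jv_congr
  intro s hs
  unfold mono
  congr 1
  apply List.map_congr_left
  intro i hi
  have := vs15_vars s hs i hi
  simp [zz, this]

theorem jv_append : ∀ (s1 s2 : List ℕ) (c1 c2 : List ℤ) (z : Fin 12 → ℝ), c1.length = s1.length →
    jv (s1 ++ s2) (c1 ++ c2) z = jv s1 c1 z + jv s2 c2 z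
  | [], s2, [], c2, z, _ => by simp [jv]
  | s :: s1, s2, c :: c1, c2, z, h => by
    simp only [List.cons_append, jv]
    rw [jv_append s1 s2 c1 c2 z (by simpa using h)]
    ring

theorem vs_split : vs = vs15 ++ [31, 32, 33, 34, 35, 39, 45, 47] := by decide +kernel

theorem ex31 : ex 31 = [4] := by decide +kernel
theorem ex32 : ex 32 = [5] := by decide +kernel
theorem ex33 : ex 33 = [6] := by decide +kernel
theorem ex34 : ex 34 = [7] := by decide +kernel
theorem ex35 : ex 35 = [8] := by decide +kernel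
theorem ex39 : ex 39 = [9] := by decide +kernel
theorem ex45 : ex 45 = [10] := by decide +kernel
theorem ex47 : ex 47 = [11] := by decide +kernel

theorem jv8 (es : List ℤ) (he : es.length = 8) (ξ : Fin 4 → ℝ) (η : Fin 8 → ℝ) :
    jv [31, 32, 33, 34, 35, 39, 45, 47] es (zz ξ η) = ∑ k : Fin 8, (es.getD k 0 : ℝ) * η k := by
  match es, he with
  | [a0, a1, a2, a3, a4, a5, a6, a7], _ =>
    simp only [jv, mono, ex31, ex32, ex33, ex34, ex35, ex39, ex45, ex47, List.map_cons,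
      List.map_nil, List.prod_cons, List.prod_nil, Fin.sum_univ_eight]
    simp [zz]
    ring

theorem len_all {C : List (List ℤ)} {n : ℕ} (h8 : C.length = 8)
    (h : C.all (fun r => r.length == n) = true) (i : Fin 8) : (C.getD i []).length = n := by
  rw [List.all_eq_true] at h
  have hi : i.1 < C.length := by rw [h8]; exact i.2
  have h1 : C.getD i.1 [] = C[i.1] := by simp [hi]
  have h2 := h (C[i.1]) (List.getElem_mem hi)
  rw [h1]
  simpa using h2

theorem start_eq {P : ℕ} (l : Lit) (ξ : Fin 4 → ℝ) (η : Fin 8 → ℝ) (i : Fin 8) :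
    (J P l.C ξ i + (l.B.getD i 0 : ℝ) * η i / 2 ^ P) * 2 ^ P = sv i (l.c i) (l.b i) (zz ξ η) := by
  have hp : (2 : ℝ) ^ P ≠ 0 := by positivity
  unfold J sv Lit.c Lit.b
  rw [jv15_zz _ ξ 0 η]
  have e : zz ξ η ⟨4 + i.1, by omega⟩ = η i := by
    unfold zz
    simp only [show ¬ (4 + i.1 < 4) by omega, dif_neg, not_false_eq_true]
    congr 1
    apply Fin.ext
    simp
  rw [e]
  field_simp

/-- **the step theorem** -/
theorem stepP {w P N : ℕ} (l : Lit) (c : Cst) (hc : CstOk c) (hw : 16 ≤ w) (hP : P ≤ w)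
    (hP1 : 1 ≤ P) (hN : 49 * (2 * N + 1) ≤ 2 ^ 15) (hok : stepOK w P N l = true) :
    StepP (lcF c) P (J P) l.cert (Reg c l.q) := by
  intro ξ hξ η hη
  have hlen := hok
  simp only [stepOK, lenOk, Bool.and_eq_true, beq_iff_eq] at hlen
  obtain ⟨⟨⟨⟨hl1, hl2⟩, hl3⟩, hl4⟩, -⟩ := hlen
  have hz : ∀ i, |zz ξ η i| ≤ 1 := by
    intro i
    unfold zz
    split_ifs
    · exact hξ _
    · exact hη _
  have hp : (0 : ℝ) < 2 ^ P := by positivity
  obtain ⟨y, hy0, hy, hyE⟩ := step_sound l c hc hw hP hP1 hN hok (zz ξ η) hz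
    (fun i => J P l.C ξ i + (l.B.getD i 0 : ℝ) * η i / 2 ^ P) (fun i => start_eq l ξ η i)
  refine ⟨y, fun i => by rw [hy0]; rfl, fun t ht => ⟨(hy t ht).1, (hy t ht).2⟩, fun i => ?_⟩
  have h1 := hyE i
  have hc' : (l.c' i).length = vs15.length := (len_all hl1 hl3 i).trans (by decide +kernel)
  have he' : (l.e i).length = 8 := len_all hl2 hl4 i
  rw [vs_split, jv_append _ _ _ _ _ hc', jv8 _ he' ξ η, jv15_zz _ ξ η 0] at h1
  rw [le_div_iff₀ hp]
  have e : |y 1 i - J P l.cert.C' ξ i - (∑ k : Fin 8, (ent l.cert.E i k : ℝ) * η k) / 2 ^ P| * 2 ^ P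
      = |y 1 i * 2 ^ P - (jv vs15 (l.c' i) (zz ξ 0) + ∑ k : Fin 8, ((l.e i).getD k 0 : ℝ) * η k)| := by
    rw [← abs_of_pos hp, ← abs_mul, abs_of_pos hp]
    congr 1
    unfold J
    show (y 1 i - jv vs15 (l.c' i) (zz ξ 0) / 2 ^ P
      - (∑ k : Fin 8, ((l.e i).getD k 0 : ℝ) * η k) / 2 ^ P) * 2 ^ P = _
    field_simp
    ring
  rw [e]
  exact h1

end Pool.Agent.H2TM
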