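import Pool.Agent.Helper2_TM.Norm

namespace Pool.Agent.H2TM

open Finset

/-- Jet monomials: slot number and the list of variables (0..3 second order, 4..11 first order). -/
def tab : List (ℕ × List (Fin 12)) :=
  [(0, []), (18, [0]), (19, [1]), (22, [2]), (24, [3]),
   (36, [0, 0]), (37, [0, 1]), (40, [0, 2]), (42, [0, 3]), (38, [1, 1]), (41, [1, 2]), (43, [1, 3]),
   (44, [2, 2]), (46, [2, 3]), (48, [3, 3]),
   (31, [4]), (32, [5]), (33, [6]), (34, [7]), (35, [8]), (39, [9]), (45, [10]), (47, [11])]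

/-- valid jet slots -/
def vs : List ℕ := tab.map Prod.fst

/-- variables of a slot -/
def ex (s : ℕ) : List (Fin 12) := (tab.lookup s).getD []

/-- number of time slots per group -/
def tw (N : ℕ) : ℕ := 2 * N + 1

/-- number of all slots -/
def ns (N : ℕ) : ℕ := 49 * tw N

/-- valid slots: time degree at most `N`, jet slot in the table -/
def valid (N k : ℕ) : Bool := decide (k % tw N ≤ N) && vs.contains (k / tw N)

/-- value of the jet monomial -/
noncomputable def mono (s : ℕ) (z : Fin 12 → ℝ) : ℝ := ((ex s).map z).prod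

/-- value of the monomial of a slot -/
noncomputable def mu (N : ℕ) (t : ℝ) (z : Fin 12 → ℝ) (k : ℕ) : ℝ :=
  t ^ (k % tw N) * mono (k / tw N) z

theorem tab_check : ∀ s ∈ vs, ∀ s' ∈ vs, s + s' ∈ vs → (ex s ++ ex s').Perm (ex (s + s')) := by
  decide +kernel

theorem vs_lt : ∀ s ∈ vs, s < 49 := by decide +kernel

theorem mono_mul (s s' : ℕ) (h : s ∈ vs) (h' : s' ∈ vs) (h'' : s + s' ∈ vs) (z : Fin 12 → ℝ) :
    mono s z * mono s' z = mono (s + s') z := by
  unfold mono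
  rw [← List.prod_append, ← List.map_append]
  exact ((tab_check s h s' h' h'').map z).prod_eq

theorem abs_prod_le_one (z : Fin 12 → ℝ) (hz : ∀ i, |z i| ≤ 1) (l : List (Fin 12)) :
    |(l.map z).prod| ≤ 1 := by
  induction l with
  | nil => simp
  | cons a l ih =>
    simp only [List.map_cons, List.prod_cons, abs_mul]
    exact mul_le_one₀ (hz a) (abs_nonneg _) ih

theorem abs_mono_le (s : ℕ) (z : Fin 12 → ℝ) (hz : ∀ i, |z i| ≤ 1) : |mono s z| ≤ 1 :=
  abs_prod_le_one z hz _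

theorem abs_mu_le (N : ℕ) (t : ℝ) (z : Fin 12 → ℝ) (ht : |t| ≤ 1) (hz : ∀ i, |z i| ≤ 1) (k : ℕ) :
    |mu N t z k| ≤ 1 := by
  unfold mu
  rw [abs_mul, abs_pow]
  exact mul_le_one₀ (pow_le_one₀ (abs_nonneg _) ht) (abs_nonneg _) (abs_mono_le _ z hz)

theorem tw_pos (N : ℕ) : 0 < tw N := by unfold tw; omega

theorem valid_iff (N k : ℕ) : valid N k = true ↔ k % tw N ≤ N ∧ k / tw N ∈ vs := by
  simp [valid]

theorem valid_lt (N k : ℕ) (h : valid N k = true) : k < ns N := by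
  rw [valid_iff] at h
  have h1 := vs_lt _ h.2
  unfold ns
  have := Nat.div_lt_iff_lt_mul (tw_pos N) |>.mp h1
  omega

theorem mu_mul (N : ℕ) (t : ℝ) (z : Fin 12 → ℝ) (k l : ℕ) (hk : valid N k = true)
    (hl : valid N l = true) (hkl : valid N (k + l) = true) :
    mu N t z k * mu N t z l = mu N t z (k + l) := by
  rw [valid_iff] at hk hl hkl
  have hT := tw_pos N
  have e : k % tw N + l % tw N < tw N := by
    have : tw N = 2 * N + 1 := rfl
    omega
  have e1 : (k + l) % tw N = k % tw N + l % tw N := by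
    rw [Nat.add_mod, Nat.mod_eq_of_lt e]
  have e2 : (k + l) / tw N = k / tw N + l / tw N := by
    rw [Nat.add_div hT, if_neg (by omega)]; rfl
  unfold mu
  rw [e1, e2]
  rw [e2] at hkl
  rw [← mono_mul _ _ hk.2 hl.2 hkl.2 z, pow_add]
  ring

/-- Taylor model: packed positive part, packed negative part, bound of the absolute sum, remainder -/
structure TM where
  pos : ℕ
  neg : ℕ
  nrm : ℕ
  rem : ℕ

/-- value of a digit vector -/
noncomputable def V (N : ℕ) (t : ℝ) (z : Fin 12 → ℝ) (f : ℕ → ℕ) : ℝ :=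
  ∑ k ∈ range (ns N), (f k : ℝ) * mu N t z k

/-- digit vectors of a Taylor model -/
def Dig (w N : ℕ) (a : TM) (f g : ℕ → ℕ) : Prop :=
  (∀ k, valid N k = false → f k = 0 ∧ g k = 0) ∧ a.pos = pk w (ns N) f ∧ a.neg = pk w (ns N) g ∧
    ∑ k ∈ range (ns N), (f k + g k) ≤ a.nrm

/-- `a` encloses the function `F` -/
def Enc (w P N : ℕ) (a : TM) (F : ℝ → (Fin 12 → ℝ) → ℝ) : Prop :=
  ∃ f g, Dig w N a f g ∧ ∀ t z, |t| ≤ 1 → (∀ i, |z i| ≤ 1) →
    |F t z * 2 ^ P - (V N t z f - V N t z g)| ≤ a.rem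

theorem V_add (N : ℕ) (t : ℝ) (z : Fin 12 → ℝ) (f g : ℕ → ℕ) :
    V N t z (fun k => f k + g k) = V N t z f + V N t z g := by
  unfold V
  rw [← sum_add_distrib]
  exact sum_congr rfl (fun k _ => by push_cast; ring)

theorem V_mul_const (N : ℕ) (t : ℝ) (z : Fin 12 → ℝ) (f : ℕ → ℕ) (c : ℕ) :
    V N t z (fun k => f k * c) = V N t z f * c := by
  unfold V
  rw [sum_mul]
  exact sum_congr rfl (fun k _ => by push_cast; ring)

theorem abs_V_le (N : ℕ) (t : ℝ) (z : Fin 12 → ℝ) (ht : |t| ≤ 1) (hz : ∀ i, |z i| ≤ 1)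
    (f g : ℕ → ℕ) : |V N t z f - V N t z g| ≤ ((∑ k ∈ range (ns N), (f k + g k) : ℕ) : ℝ) := by
  have h : V N t z f - V N t z g = ∑ k ∈ range (ns N), ((f k : ℝ) - g k) * mu N t z k := by
    unfold V
    rw [← sum_sub_distrib]
    exact sum_congr rfl (fun k _ => by ring)
  rw [h]
  refine (abs_sum_le_sum_abs _ _).trans ?_
  push_cast
  refine sum_le_sum (fun k _ => ?_)
  rw [abs_mul]
  have h1 : |(f k : ℝ) - g k| ≤ (f k : ℝ) + g k := by
    rw [abs_le]
    have a1 : (0 : ℝ) ≤ f k := Nat.cast_nonneg _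
    have a2 : (0 : ℝ) ≤ g k := Nat.cast_nonneg _
    constructor <;> linarith
  calc |(f k : ℝ) - g k| * |mu N t z k| ≤ ((f k : ℝ) + g k) * 1 :=
        mul_le_mul h1 (abs_mu_le N t z ht hz k) (abs_nonneg _) (by positivity)
    _ = _ := by ring

/-- bound of the enclosed function -/
theorem Enc.bound {w P N : ℕ} {a : TM} {F : ℝ → (Fin 12 → ℝ) → ℝ} (h : Enc w P N a F)
    (t : ℝ) (z : Fin 12 → ℝ) (ht : |t| ≤ 1) (hz : ∀ i, |z i| ≤ 1) :
    |F t z| * 2 ^ P ≤ a.nrm + a.rem := by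
  obtain ⟨f, g, ⟨_, _, _, hn⟩, hF⟩ := h
  have h1 := hF t z ht hz
  have h2 := abs_V_le N t z ht hz f g
  have h3 : ((∑ k ∈ range (ns N), (f k + g k) : ℕ) : ℝ) ≤ (a.nrm : ℝ) := by exact_mod_cast hn
  have h4 : |F t z| * 2 ^ P = |F t z * 2 ^ P| := by
    rw [abs_mul, abs_of_pos (show (0 : ℝ) < 2 ^ P by positivity)]
  rw [h4]
  calc |F t z * 2 ^ P| = |(F t z * 2 ^ P - (V N t z f - V N t z g)) + (V N t z f - V N t z g)| := by
        congr 1; ring
    _ ≤ |F t z * 2 ^ P - (V N t z f - V N t z g)| + |V N t z f - V N t z g| := abs_add_le _ _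
    _ ≤ a.nrm + a.rem := by linarith

/-- sum -/
def add (a b : TM) : TM := ⟨a.pos + b.pos, a.neg + b.neg, a.nrm + b.nrm, a.rem + b.rem⟩

theorem Enc.add {w P N : ℕ} {a b : TM} {F G : ℝ → (Fin 12 → ℝ) → ℝ} (ha : Enc w P N a F)
    (hb : Enc w P N b G) : Enc w P N (add a b) (fun t z => F t z + G t z) := by
  obtain ⟨f, g, ⟨v1, p1, q1, n1⟩, h1⟩ := ha
  obtain ⟨f', g', ⟨v2, p2, q2, n2⟩, h2⟩ := hb
  refine ⟨fun k => f k + f' k, fun k => g k + g' k, ⟨?_, ?_, ?_, ?_⟩, ?_⟩
  · intro k hk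
    have a1 := v1 k hk
    have a2 := v2 k hk
    constructor
    · simp [a1.1, a2.1]
    · simp [a1.2, a2.2]
  · simp only [H2TM.add, p1, p2, pk_add]
  · simp only [H2TM.add, q1, q2, pk_add]
  · have : ∑ k ∈ range (ns N), (f k + f' k + (g k + g' k))
        = ∑ k ∈ range (ns N), (f k + g k) + ∑ k ∈ range (ns N), (f' k + g' k) := by
      rw [← sum_add_distrib]
      exact sum_congr rfl (fun k _ => by ring)
    simp only [H2TM.add]
    rw [this]
    omega
  · intro t z ht hz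
    have a1 := h1 t z ht hz
    have a2 := h2 t z ht hz
    rw [V_add, V_add]
    simp only [H2TM.add]
    push_cast
    have e : (F t z + G t z) * 2 ^ P - (V N t z f + V N t z f' - (V N t z g + V N t z g'))
        = (F t z * 2 ^ P - (V N t z f - V N t z g)) + (G t z * 2 ^ P - (V N t z f' - V N t z g')) := by
      ring
    rw [e]
    exact (abs_add_le _ _).trans (by linarith)

/-- negation -/
def neg (a : TM) : TM := ⟨a.neg, a.pos, a.nrm, a.rem⟩

theorem Enc.neg {w P N : ℕ} {a : TM} {F : ℝ → (Fin 12 → ℝ) → ℝ} (ha : Enc w P N a F) :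
    Enc w P N (neg a) (fun t z => - F t z) := by
  obtain ⟨f, g, ⟨v1, p1, q1, n1⟩, h1⟩ := ha
  refine ⟨g, f, ⟨fun k hk => ⟨(v1 k hk).2, (v1 k hk).1⟩, q1, p1, ?_⟩, ?_⟩
  · simp only [H2TM.neg]
    refine le_trans (le_of_eq ?_) n1
    exact sum_congr rfl (fun k _ => by ring)
  · intro t z ht hz
    have a1 := h1 t z ht hz
    simp only [H2TM.neg]
    have e : -F t z * 2 ^ P - (V N t z g - V N t z f) = -(F t z * 2 ^ P - (V N t z f - V N t z g)) := by
      ring
    rw [e, abs_neg]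
    exact a1

/-- exact multiple by a natural number -/
def smul (c : ℕ) (a : TM) : TM := ⟨a.pos * c, a.neg * c, a.nrm * c, a.rem * c⟩

theorem Enc.smul {w P N : ℕ} {a : TM} {F : ℝ → (Fin 12 → ℝ) → ℝ} (c : ℕ) (ha : Enc w P N a F) :
    Enc w P N (smul c a) (fun t z => F t z * c) := by
  obtain ⟨f, g, ⟨v1, p1, q1, n1⟩, h1⟩ := ha
  refine ⟨fun k => f k * c, fun k => g k * c, ⟨?_, ?_, ?_, ?_⟩, ?_⟩
  · intro k hk
    have a1 := v1 k hk
    simp [a1.1, a1.2]
  · simp only [H2TM.smul, p1, pk_smul]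
  · simp only [H2TM.smul, q1, pk_smul]
  · simp only [H2TM.smul]
    calc ∑ k ∈ range (ns N), (f k * c + g k * c) = (∑ k ∈ range (ns N), (f k + g k)) * c := by
          rw [sum_mul]; exact sum_congr rfl (fun k _ => by ring)
      _ ≤ _ := Nat.mul_le_mul_right _ n1
  · intro t z ht hz
    have a1 := h1 t z ht hz
    rw [V_mul_const, V_mul_const]
    simp only [H2TM.smul]
    push_cast
    have e : F t z * c * 2 ^ P - (V N t z f * c - V N t z g * c)
        = (F t z * 2 ^ P - (V N t z f - V N t z g)) * c := by ring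
    rw [e, abs_mul, abs_of_nonneg (show (0 : ℝ) ≤ c by positivity)]
    exact mul_le_mul_of_nonneg_right a1 (by positivity)

end Pool.Agent.H2TM
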